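import Pool.Agent.Lib.MP_bcd198_co.L.Q

/-!
# Stream L (Theorem Q): definitions

`Z = Fin (2z)`, `Y = P₂ ⊕ Z`, `X = P₁ ⊕ (P₂ ⊕ Z)`; `c''` lives on `Z`, `a'` on `Y`, `b` on `X`.
-/

set_option autoImplicit false

namespace MPbcd198.L

open Equiv

section General

variable {Ω : Type}

/-- the points lying in components of `α ∪ β` which are `2r`-cycles (moved by both) -/
noncomputable def clo [Fintype Ω] (r : ℕ) (α β : Perm Ω) : Finset Ω :=
  open Classical in Finset.univ.filter fun x => ∀ g ∈ Subgroup.closure ({α, β} : Set (Perm Ω)),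
    α (g x) ≠ g x ∧ β (g x) ≠ g x ∧ Function.minimalPeriod (⇑(α * β)) (g x) = r

/-- number of perfect matchings `b` with `Rel r a b` which contain the partial matching `β` -/
noncomputable def cnt (r : ℕ) (a β : Perm Ω) : ℕ :=
  Nat.card {b : Perm Ω // IsPM b ∧ Rel r a b ∧ ∀ x, β x ≠ x → b x = β x}

/-- conditional probability that `b` contains `β`, for `b` uniform with `Rel r a b` -/
noncomputable def pr (r : ℕ) (a β : Perm Ω) : ℝ := (cnt r a β : ℝ) / (cnt r a 1 : ℝ)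

/-- there are no `r` consecutive `β`-edges in `a ∪ β` -/
def NoLong (r : ℕ) (a β : Perm Ω) : Prop :=
  ∀ x, ∃ i < r, β (a (((β * a) ^ i : Perm Ω) x)) = a (((β * a) ^ i : Perm Ω) x)

/-- remove the edge of `β` at `y` -/
def rem [DecidableEq Ω] (β : Perm Ω) (y : Ω) : Perm Ω := swap y (β y) * β

end General

section PMlemmas

variable {P₁ P₂ Z : Type}

theorem isPM_sumCongr {c : Perm P₂} {c'' : Perm Z} (hc : IsPM c) (h : IsPM c'') :
    IsPM (Equiv.sumCongr c c'' : Perm (P₂ ⊕ Z)) := by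
  rintro (x | x)
  · exact ⟨fun h' => (hc x).1 (Sum.inl.inj h'), congrArg Sum.inl (hc x).2⟩
  · exact ⟨fun h' => (h x).1 (Sum.inr.inj h'), congrArg Sum.inr (h x).2⟩

theorem isPM_combA {a : Perm P₁} {a' : Perm (P₂ ⊕ Z)} (ha : IsPM a) (h : IsPM a') :
    IsPM (combA a a') := isPM_sumCongr ha h

theorem combB_apply (b : Perm (P₁ ⊕ P₂)) (b'' : Perm Z) (x : P₁ ⊕ (P₂ ⊕ Z)) :
    combB b b'' x = Equiv.sumAssoc P₁ P₂ Z
      (Equiv.sumCongr b b'' ((Equiv.sumAssoc P₁ P₂ Z).symm x)) := rfl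

theorem isPM_combB {b : Perm (P₁ ⊕ P₂)} {b'' : Perm Z} (hb : IsPM b) (h : IsPM b'') :
    IsPM (combB b b'') := by
  intro x
  have h1 := isPM_sumCongr hb h ((Equiv.sumAssoc P₁ P₂ Z).symm x)
  constructor
  · intro h'
    apply h1.1
    rw [combB_apply] at h'
    rw [← Equiv.eq_symm_apply] at h'
    exact h'
  · rw [combB_apply, combB_apply, Equiv.symm_apply_apply, h1.2, Equiv.apply_symm_apply]

end PMlemmas

/-- the data of Theorem Q -/
structure Dat (P₁ P₂ : Type) where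
  a : Perm P₁
  b : Perm (P₁ ⊕ P₂)
  c : Perm P₂
  ha : IsPM a
  hb : IsPM b
  hc : IsPM c

section Ops

variable {P₁ P₂ : Type} [Fintype P₁] [Fintype P₂] [DecidableEq P₁] [DecidableEq P₂]

/-- `G = |P| / 2` -/
def Dat.G (_ : Dat P₁ P₂) : ℕ := Fintype.card (P₁ ⊕ P₂) / 2

/-- `G₂ = |P₂| / 2` -/
def Dat.G₂ (_ : Dat P₁ P₂) : ℕ := Fintype.card P₂ / 2

/-- divisibility conditions -/
def Dat.Ok (D : Dat P₁ P₂) (p q z : ℕ) : Prop := p ∣ D.G + z ∧ q ∣ z ∧ 2 ∣ D.G₂ + z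

def Dat.Weak (D : Dat P₁ P₂) (p : ℕ) : Prop :=
  ∀ U : Finset (P₁ ⊕ P₂), PClosed D.a D.b U → eP p D.c U ≤ 0

def Dat.Strict (D : Dat P₁ P₂) (p : ℕ) : Prop :=
  ∀ U : Finset (P₁ ⊕ P₂), U.Nonempty → PClosed D.a D.b U → eP p D.c U < 0

/-- `(Ra f)(a') = f (a_d ⊔ a')` -/
def Ra (D : Dat P₁ P₂) (Z : Type) : FPM (P₁ ⊕ (P₂ ⊕ Z)) →ₗ[ℂ] FPM (P₂ ⊕ Z) where
  toFun f := fun a' => f ⟨combA D.a a'.1, isPM_combA D.ha a'.2⟩
  map_add' _ _ := rfl
  map_smul' _ _ := rfl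

/-- `(Rc f)(c'') = f (c_P ⊔ c'')` -/
def Rc (D : Dat P₁ P₂) (Z : Type) : FPM (P₂ ⊕ Z) →ₗ[ℂ] FPM Z where
  toFun f := fun c' => f ⟨Equiv.sumCongr D.c c'.1, isPM_sumCongr D.hc c'.2⟩
  map_add' _ _ := rfl
  map_smul' _ _ := rfl

open Classical in
/-- `(Rb g)(x) = g(b'')` if `x = b_P ⊔ b''`, and `0` otherwise (without the factor `M/M`) -/
noncomputable def Rb (D : Dat P₁ P₂) (Z : Type) [Fintype Z] [DecidableEq Z] :
    FPM Z →ₗ[ℂ] FPM (P₁ ⊕ (P₂ ⊕ Z)) where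
  toFun g := fun x => ∑ b' : PMT Z, if x.1 = combB D.b b'.1 then g b' else 0
  map_add' f g := by
    funext x
    simp only [Pi.add_apply, ← Finset.sum_add_distrib]
    refine Finset.sum_congr rfl fun b' _ => ?_
    split_ifs <;> simp
  map_smul' s g := by
    funext x
    simp only [Pi.smul_apply, smul_eq_mul, RingHom.id_apply, Finset.mul_sum]
    refine Finset.sum_congr rfl fun b' _ => ?_
    split_ifs <;> simp

/-- `M_{G+z} / M_z` -/
noncomputable def mu (D : Dat P₁ P₂) (z : ℕ) : ℝ := MNum (D.G + z) / MNum z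

/-- the operator `Θ K_q` on the functions on the perfect matchings of `Z = Fin (2z)` -/
noncomputable def TT (D : Dat P₁ P₂) (p q z : ℕ) : FPM (Fin (2 * z)) →ₗ[ℂ] FPM (Fin (2 * z)) :=
  (mu D z : ℂ) • (Rc D (Fin (2 * z)) ∘ₗ KOp (P₂ ⊕ Fin (2 * z)) 2 ∘ₗ Ra D (Fin (2 * z)) ∘ₗ
    KOp (P₁ ⊕ (P₂ ⊕ Fin (2 * z))) p ∘ₗ Rb D (Fin (2 * z)) ∘ₗ KOp (Fin (2 * z)) q)

end Ops

/-- squared `ℓ²` norm -/
noncomputable def nrm2 {Ω : Type} [Fintype Ω] [DecidableEq Ω] (f : FPM Ω) : ℝ :=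
  open Classical in ∑ a : PMT Ω, ‖f a‖ ^ 2

/-- the finite set of irreducible subspaces -/
noncomputable def irrF (Ω : Type) [Fintype Ω] [DecidableEq Ω] : Finset (Submodule ℂ (FPM Ω)) :=
  (irr_decomp Ω).1.toFinset

theorem mem_irrF {Ω : Type} [Fintype Ω] [DecidableEq Ω] {V : Submodule ℂ (FPM Ω)} :
    V ∈ irrF Ω ↔ V ∈ Irr Ω := by
  simp [irrF]

theorem MNum_pos (m : ℕ) : 0 < MNum m := by
  unfold MNum
  positivity

theorem sNum_pos {r : ℕ} (hr : 1 ≤ r) (m : ℕ) : 0 < sNum r m := by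
  unfold sNum
  have : (0 : ℝ) < r := by exact_mod_cast hr
  positivity

end MPbcd198.L
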