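import Pool.Agent.Lib.MP_bcd198_co.L.RelB

/-!
# JOB L/Clo: the set `clo r α β` of the points in components of `α ∪ β` which are `2r`-cycles

* `clo_left`, `clo_right`, `clo_spec`: from the definition (`g * α`, `g * β` are in the closure; `g = 1`).
* `le_clo`: `S` is closed under `α`, `β` and hence (involutions) under their inverses, so under the subgroup (`Subgroup.closure_induction`).
* `clo_mono`: `S = clo r α β` is closed under `α' = α` and `β' = β` (on `S`); the minimal periods of `α * β` and `α' * β'` agree on `S`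
  (`minimalPeriod_congr_on`); `le_clo`.
* `clo_rem`: on `clo r α (rem β y)` the permutation `rem β y` moves every point, so the points `y`, `β y` are not in it, and `rem β y = β` there; `clo_mono`.
* `clo_rem_card`: `y ∈ clo r α β`. Let `c = α * β`, `O = {c^i y : i < r} ∪ {β c^i y : i < r}`. `O ⊆ clo r α β`, `|O| = 2r`: the points
  `c^i y` are distinct (minimal period `r`), hence so are the `β c^i y`; and `β c^i y = c^j y` is impossible: as `β c = c⁻¹ β` we get
  `β (c^(i+n) y) = c^(j-n) y` for all integers `n`; if `j - i = 2n` then `β` fixes `c^(i+n) y`; if `j - i = 2n + 1` then with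
  `u = c^(i+n) y` we have `β u = c u = α (β u)`, so `α` fixes `β u`: both contradict `clo_spec`. `O` is closed under `α`, `β` and
  every point of `O` is obtained from every other by steps `α`, `β`. `O` is disjoint from `T = clo r α (rem β y)`: `T` is closed under `α` and
  `rem β y`, which equals `β` on `T`; so `T` is closed under `α` and `β`, and if it met `O` it would contain `y`; but `rem β y` fixes
  `y`. So `T` is contained in `clo r α β` minus `O`.
* `le_clo_of_cnt`: take `b` from `exists_of_cnt`; on `S` we have `b = β`, so (`minimalPeriod_congr_on`) the minimal period of `a * β` at `x ∈ S` is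
  that of `a * b`, i.e. `r`; `le_clo`.
* `clo_eq_empty`: if `x ∈ clo r a β` then all `a ((β a)^i x)` are in it, hence moved by `β`.
-/

set_option autoImplicit false

namespace MPbcd198.L

open Equiv

variable {Ω : Type} [Fintype Ω] {r : ℕ} {α β α' β' : Perm Ω}

private theorem Clo_mem {x : Ω} : x ∈ clo r α β ↔
    ∀ g ∈ Subgroup.closure ({α, β} : Set (Perm Ω)),
      α (g x) ≠ g x ∧ β (g x) ≠ g x ∧ Function.minimalPeriod (⇑(α * β)) (g x) = r := by
  classical
  unfold clo
  exact Finset.mem_filter.trans ⟨fun h => h.2, fun h => ⟨Finset.mem_univ _, h⟩⟩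

omit [Fintype Ω] in
private theorem Clo_left_mem : α ∈ Subgroup.closure ({α, β} : Set (Perm Ω)) :=
  Subgroup.subset_closure (Set.mem_insert _ _)

omit [Fintype Ω] in
private theorem Clo_right_mem : β ∈ Subgroup.closure ({α, β} : Set (Perm Ω)) :=
  Subgroup.subset_closure (Set.mem_insert_of_mem _ (Set.mem_singleton _))

private theorem Clo_act {x : Ω} (h : x ∈ clo r α β) {g : Perm Ω}
    (hg : g ∈ Subgroup.closure ({α, β} : Set (Perm Ω))) : g x ∈ clo r α β := by
  rw [Clo_mem] at h ⊢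
  intro g' hg'
  exact h (g' * g) (mul_mem hg' hg)

omit [Fintype Ω] in
private theorem Clo_inv_eq {a : Perm Ω} (ha : IsInv a) : a⁻¹ = a := by
  rw [inv_eq_iff_mul_eq_one]
  ext x
  exact ha x

/-- a set closed under `α` and `β` is closed under the group generated by them -/
private theorem Clo_closed {S : Finset Ω} (hα : IsInv α) (hβ : IsInv β) (h1 : ∀ x ∈ S, α x ∈ S)
    (h2 : ∀ x ∈ S, β x ∈ S) {g : Perm Ω} (hg : g ∈ Subgroup.closure ({α, β} : Set (Perm Ω))) :
    ∀ x ∈ S, g x ∈ S := by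
  have h3 : (∀ x ∈ S, g x ∈ S) ∧ ∀ x ∈ S, g⁻¹ x ∈ S := by
    induction hg using Subgroup.closure_induction with
    | mem g hg =>
      rcases hg with rfl | hg
      · rw [Clo_inv_eq hα]
        exact ⟨h1, h1⟩
      · rw [Set.mem_singleton_iff] at hg
        rw [hg, Clo_inv_eq hβ]
        exact ⟨h2, h2⟩
    | one => exact ⟨fun x hx => hx, fun x hx => hx⟩
    | mul g g' _ _ ih ih' =>
      refine ⟨fun x hx => ih.1 _ (ih'.1 x hx), fun x hx => ?_⟩
      rw [mul_inv_rev]
      exact ih'.2 _ (ih.2 x hx)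
    | inv g _ ih =>
      refine ⟨ih.2, ?_⟩
      rw [inv_inv]
      exact ih.1
  exact h3.1

theorem clo_spec {x : Ω} (h : x ∈ clo r α β) :
    α x ≠ x ∧ β x ≠ x ∧ Function.minimalPeriod (⇑(α * β)) x = r :=
  Clo_mem.1 h 1 (one_mem _)

theorem clo_left {x : Ω} (h : x ∈ clo r α β) : α x ∈ clo r α β :=
  Clo_act h Clo_left_mem

theorem clo_right {x : Ω} (h : x ∈ clo r α β) : β x ∈ clo r α β :=
  Clo_act h Clo_right_mem

theorem le_clo {S : Finset Ω} (hα : IsInv α) (hβ : IsInv β) (h1 : ∀ x ∈ S, α x ∈ S)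
    (h2 : ∀ x ∈ S, β x ∈ S)
    (h3 : ∀ x ∈ S, α x ≠ x ∧ β x ≠ x ∧ Function.minimalPeriod (⇑(α * β)) x = r) :
    S ⊆ clo r α β := by
  intro x hx
  rw [Clo_mem]
  intro g hg
  exact h3 _ (Clo_closed hα hβ h1 h2 hg x hx)

theorem clo_mono (hα : IsInv α') (hβ : IsInv β')
    (h : ∀ x ∈ clo r α β, α' x = α x ∧ β' x = β x) : clo r α β ⊆ clo r α' β' := by
  refine le_clo hα hβ (fun x hx => ?_) (fun x hx => ?_) (fun x hx => ?_)
  · rw [(h x hx).1]
    exact clo_left hx
  · rw [(h x hx).2]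
    exact clo_right hx
  · obtain ⟨h1, h2, h3⟩ := clo_spec hx
    refine ⟨by rw [(h x hx).1]; exact h1, by rw [(h x hx).2]; exact h2, ?_⟩
    rw [← h3]
    refine (minimalPeriod_congr_on (S := (clo r α β : Set Ω)) (fun z hz => ?_) (fun z hz => ?_)
      (Finset.mem_coe.2 hx)).symm
    · rw [Finset.mem_coe] at hz ⊢
      rw [Perm.mul_apply]
      exact clo_left (clo_right hz)
    · rw [Finset.mem_coe] at hz
      rw [Perm.mul_apply, Perm.mul_apply, (h z hz).2, (h _ (clo_right hz)).1]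

theorem clo_rem [DecidableEq Ω] (hα : IsInv α) (hβ : IsInv β) (y : Ω) :
    clo r α (rem β y) ⊆ clo r α β :=
  clo_mono hα hβ fun x hx => ⟨rfl, rem_le hβ y x (clo_spec hx).2.1⟩

/-- conjugation of the powers of `α * β` by `β` -/
private theorem Clo_conj (hα : IsInv α) (hβ : IsInv β) (n : ℤ) (x : Ω) :
    β (((α * β) ^ n : Perm Ω) x) = ((α * β) ^ (-n) : Perm Ω) (β x) := by
  have h1 : β * (α * β) * β⁻¹ = (α * β)⁻¹ := by
    rw [mul_inv_rev, Clo_inv_eq hα, Clo_inv_eq hβ]
    have h2 : β * β = 1 := by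
      ext x
      exact hβ x
    rw [mul_assoc, mul_assoc, h2, mul_one]
  have h2 : β * (α * β) ^ n = (α * β) ^ (-n) * β := by
    have h3 : (β * (α * β) * β⁻¹) ^ n = β * (α * β) ^ n * β⁻¹ := conj_zpow
    rw [h1, inv_zpow] at h3
    rw [zpow_neg, h3, inv_mul_cancel_right]
  exact congrArg (fun g : Perm Ω => g x) h2

/-- the two halves of a component are disjoint -/
private theorem Clo_ne (hα : IsInv α) (hβ : IsInv β) {y : Ω} (hy : y ∈ clo r α β) (i j : ℤ) :
    β (((α * β) ^ i : Perm Ω) y) ≠ ((α * β) ^ j : Perm Ω) y := by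
  intro h
  have hc : α * β ∈ Subgroup.closure ({α, β} : Set (Perm Ω)) := mul_mem Clo_left_mem Clo_right_mem
  have h1 : ∀ n : ℤ, β (((α * β) ^ (i + n) : Perm Ω) y) = ((α * β) ^ (j - n) : Perm Ω) y := by
    intro n
    have h2 : ((α * β) ^ (i + n) : Perm Ω) y = ((α * β) ^ n : Perm Ω) (((α * β) ^ i : Perm Ω) y) := by
      rw [← Perm.mul_apply, ← zpow_add, add_comm]
    rw [h2, Clo_conj hα hβ, h, ← Perm.mul_apply, ← zpow_add]
    congr 2
    ring
  rcases Int.even_or_odd (j - i) with ⟨n, hn⟩ | ⟨n, hn⟩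
  · have h3 := h1 n
    have h4 : j - n = i + n := by linarith
    rw [h4] at h3
    exact (clo_spec (Clo_act hy (zpow_mem hc (i + n)))).2.1 h3
  · have h3 := h1 n
    have h4 : j - n = 1 + (i + n) := by linarith
    rw [h4, zpow_add (α * β) 1 (i + n), zpow_one, Perm.mul_apply, Perm.mul_apply] at h3
    exact (clo_spec (clo_right (Clo_act hy (zpow_mem hc (i + n))))).1 h3.symm

theorem clo_rem_card [DecidableEq Ω] (hr : 1 ≤ r) (hα : IsInv α) (hβ : IsInv β) {y : Ω}
    (hy : y ∈ clo r α β) : (clo r α (rem β y)).card + 2 * r ≤ (clo r α β).card := by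
  have hc : α * β ∈ Subgroup.closure ({α, β} : Set (Perm Ω)) := mul_mem Clo_left_mem Clo_right_mem
  have hper := (clo_spec hy).2.2
  have hinj : Set.InjOn (fun i : ℕ => ((α * β) ^ i : Perm Ω) y) (Finset.range r : Set ℕ) := by
    intro i hi j hj hij
    have h1 := Function.iterate_injOn_Iio_minimalPeriod (f := (⇑(α * β))) (x := y)
    rw [hper] at h1
    apply h1
    · simpa using hi
    · simpa using hj
    · beta_reduce at hij ⊢
      rw [Perm.iterate_eq_pow, Perm.iterate_eq_pow]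
      exact hij
  obtain ⟨S1, hS1⟩ : ∃ S1 : Finset Ω,
    S1 = (Finset.range r).image (fun i : ℕ => ((α * β) ^ i : Perm Ω) y) := ⟨_, rfl⟩
  obtain ⟨S2, hS2⟩ : ∃ S2 : Finset Ω, S2 = S1.image β := ⟨_, rfl⟩
  have hc1 : S1.card = r := by
    rw [hS1, Finset.card_image_of_injOn hinj, Finset.card_range]
  have hc2 : S2.card = r := by
    rw [hS2, Finset.card_image_of_injective _ β.injective, hc1]
  have hd : Disjoint S1 S2 := by
    rw [Finset.disjoint_left]
    intro z hz1 hz2
    rw [hS2, Finset.mem_image] at hz2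
    obtain ⟨w, hw, hwz⟩ := hz2
    rw [hS1, Finset.mem_image] at hz1 hw
    obtain ⟨i, -, hi⟩ := hw
    obtain ⟨j, -, hj⟩ := hz1
    rw [← hi, ← hj] at hwz
    have h1 := Clo_ne hα hβ hy (i : ℤ) (j : ℤ)
    rw [zpow_natCast, zpow_natCast] at h1
    exact h1 hwz
  have hT1 : ∀ x ∈ clo r α (rem β y), β x ∈ clo r α (rem β y) := by
    intro x hx
    rw [rem_le hβ y x (clo_spec hx).2.1]
    exact clo_right hx
  have hyT : y ∉ clo r α (rem β y) := fun h => (clo_spec h).2.1 (rem_self hβ y)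
  have hnot : ∀ g ∈ Subgroup.closure ({α, β} : Set (Perm Ω)), g y ∉ clo r α (rem β y) := by
    intro g hg hgy
    apply hyT
    have h1 := Clo_closed hα hβ (fun x hx => clo_left hx) hT1 (inv_mem hg) _ hgy
    rwa [← Perm.mul_apply, inv_mul_cancel, Perm.one_apply] at h1
  have hg1 : ∀ z ∈ S1 ∪ S2, ∃ g ∈ Subgroup.closure ({α, β} : Set (Perm Ω)), z = g y := by
    intro z hz
    rcases Finset.mem_union.1 hz with hz | hz
    · rw [hS1, Finset.mem_image] at hz
      obtain ⟨i, -, hi⟩ := hz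
      exact ⟨_, pow_mem hc i, hi.symm⟩
    · rw [hS2, Finset.mem_image] at hz
      obtain ⟨w, hw, hwz⟩ := hz
      rw [hS1, Finset.mem_image] at hw
      obtain ⟨i, -, hi⟩ := hw
      exact ⟨_, mul_mem Clo_right_mem (pow_mem hc i), by rw [Perm.mul_apply, ← hwz, ← hi]⟩
  have hdT : Disjoint (clo r α (rem β y)) (S1 ∪ S2) := by
    rw [Finset.disjoint_right]
    intro z hz hzT
    obtain ⟨g, hg, rfl⟩ := hg1 z hz
    exact hnot g hg hzT
  have hsub : clo r α (rem β y) ∪ (S1 ∪ S2) ⊆ clo r α β := by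
    intro z hz
    rcases Finset.mem_union.1 hz with hz | hz
    · exact clo_rem hα hβ y hz
    · obtain ⟨g, hg, rfl⟩ := hg1 z hz
      exact Clo_act hy hg
  have h1 := Finset.card_le_card hsub
  rw [Finset.card_union_of_disjoint hdT, Finset.card_union_of_disjoint hd, hc1, hc2] at h1
  omega

theorem le_clo_of_cnt {a : Perm Ω} (ha : IsPM a) (hβ : IsInv β) {S : Finset Ω}
    (hc : cnt r a β ≠ 0) (h1 : ∀ x ∈ S, a x ∈ S) (h2 : ∀ x ∈ S, β x ∈ S ∧ β x ≠ x) :
    S ⊆ clo r a β := by
  obtain ⟨b, hb1, hb2, hb3⟩ := exists_of_cnt hc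
  refine le_clo (IsPM.isInv ha) hβ h1 (fun x hx => (h2 x hx).1)
    (fun x hx => ⟨(ha x).1, (h2 x hx).2, ?_⟩)
  rw [← hb2 x]
  refine minimalPeriod_congr_on (S := (S : Set Ω)) (fun z hz => ?_) (fun z hz => ?_)
    (Finset.mem_coe.2 hx)
  · rw [Finset.mem_coe] at hz ⊢
    exact h1 _ (h2 z hz).1
  · rw [Finset.mem_coe] at hz
    rw [Perm.mul_apply, Perm.mul_apply, hb3 z (h2 z hz).2]

theorem clo_eq_empty {a : Perm Ω} (h : NoLong r a β) : clo r a β = ∅ := by
  rw [Finset.eq_empty_iff_forall_notMem]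
  intro x hx
  obtain ⟨i, -, hi⟩ := h x
  exact (clo_spec (clo_left (Clo_act hx (pow_mem (mul_mem Clo_right_mem Clo_left_mem) i)))).2.1 hi

end MPbcd198.L
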