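import Pool.Agent.Lib.MP_bcd198_co.L.RelB

/-!
# JOB L/CntA: normal form of a pair of perfect matchings; number of automorphisms

Let `Rel r a b`, `|Ω| = 2rk`, `c = a * b` (all orbits of `c` have exactly `r` points).
* The orbit of `x` under `⟨a, b⟩` is `{c^j x} ∪ {b c^j x}` (as `a c^j x = b c^{j-1}...`: `a = c b`, `b c = c⁻¹ b`, `a c^j x = c b c^j x = c^{1-j} b x`) and has
  exactly `2r` points: `b c^i x = c^j x` would give (with `y = c^l x`, `i + j = 2l` or `2l - 1` modulo `r`...) a fixed point of `b` or of `a`: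
  `b c^i x = c^j x` implies `b (c^(i+n) x) = c^(j-n) x` for all `n`; if `j - i` is even take `n = (j-i)/2`: `b y = y`; if `j - i = 2n + 1`, then
  `b (c^(i+n) x) = c^(i+n+1) x`, i.e. with `y = c^(i+n) x`: `b y = a b y`, so `a` fixes `b y`.
* `exists_model`: choose representatives `x_i` (`i < k`) of the orbits (each orbit has `2r` points, so there are `k` of them: e.g. induction on `k` with
  subtypes, or `Setoid`/quotient of cardinality `k` and a section): `Φ (i, j, false) = c^j x_i`, `Φ (i, j, true) = b c^j x_i` with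
  `j : ZMod r` (use `j.val`; `c^r = 1` on each orbit). Then `b Φ(i,j,false) = Φ(i,j,true)`, `a Φ(i,j,true) = c^{j+1} x_i = Φ(i,j+1,false)`.
  Injective because the orbits are disjoint and have `2r` points; bijective by counting.
* `card_aut`: transport by `Φ` to the model. A permutation `σ` of the model commuting with `a` and `b` is determined by the points
  `σ (i, 0, false)`; they lie in different components, so `i ↦ (component)` is a permutation `π` of `Fin k`, and each of the `2r` points of the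
  component `π i` is possible: bijection with `Perm (Fin k) × (Fin k → ZMod r × Bool)`. (Explicitly
  `σ (i, j, s)` is obtained from `σ (i,0,false) = (π i, j₀, s₀)` by applying the same word in `a`, `b`: if `s₀ = false` it is
  `(π i, j + j₀, s)`, and if `s₀ = true` it is `(π i, j₀ - j, !s)` — check: `b` flips the boolean, `a (i,j,true) = (i,j+1,false)`,
  `a (i,j,false) = (i,j-1,true)`.)
-/

set_option autoImplicit false

namespace MPbcd198.L

open Equiv

/-- the model: `k` cycles with `2r` points -/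
abbrev Mdl (k r : ℕ) : Type := Fin k × ZMod r × Bool

section Psi

variable {Ω : Type}

/-- the parametrisation of the orbit of `x` -/
private def psi (r : ℕ) (a b : Perm Ω) (x : Ω) (p : ZMod r × Bool) : Ω :=
  if p.2 then b (((a * b) ^ p.1.val) x) else ((a * b) ^ p.1.val) x

private theorem psi_false {r : ℕ} {a b : Perm Ω} {x : Ω} (j : ZMod r) :
    psi r a b x (j, false) = ((a * b) ^ j.val) x := by simp [psi]

private theorem psi_true {r : ℕ} {a b : Perm Ω} {x : Ω} (j : ZMod r) :
    psi r a b x (j, true) = b (((a * b) ^ j.val) x) := by simp [psi]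

private theorem pow_mod_apply {r : ℕ} {a b : Perm Ω} (h : Rel r a b) (x : Ω) (n : ℕ) :
    ((a * b) ^ (n % r)) x = ((a * b) ^ n) x := by
  have h1 : (((a * b) ^ r : Perm Ω)) x = x := by
    have := Function.isPeriodicPt_minimalPeriod (⇑(a * b)) x
    rw [h x] at this
    rw [← Equiv.Perm.iterate_eq_pow]
    exact this
  have h2 : ∀ m : ℕ, (((a * b) ^ (r * m) : Perm Ω)) x = x := by
    intro m
    induction m with
    | zero => simp
    | succ m ih =>
      rw [Nat.mul_succ, pow_add, Perm.mul_apply, h1, ih]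
  conv_rhs => rw [← Nat.mod_add_div n r, pow_add, Perm.mul_apply, h2]

private theorem b_psi_false {r : ℕ} {a b : Perm Ω} {x : Ω} (j : ZMod r) :
    b (psi r a b x (j, false)) = psi r a b x (j, true) := by
  rw [psi_false, psi_true]

private theorem a_psi_true {r : ℕ} (hr : 1 ≤ r) {a b : Perm Ω} (h : Rel r a b) {x : Ω}
    (j : ZMod r) : a (psi r a b x (j, true)) = psi r a b x (j + 1, false) := by
  have : NeZero r := ⟨by omega⟩
  rw [psi_false, psi_true, ZMod.val_add, ZMod.val_one_eq_one_mod, Nat.add_mod_mod,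
    pow_mod_apply h, pow_succ', Perm.mul_apply, Perm.mul_apply]

private theorem psi_inj {r : ℕ} (hr : 1 ≤ r) {a b : Perm Ω} (ha : IsPM a) (hb : IsPM b)
    (h : Rel r a b) (x : Ω) : Function.Injective (psi r a b x) := by
  have : NeZero r := ⟨by omega⟩
  have hff : ∀ j j' : ZMod r, ((a * b) ^ j.val) x = ((a * b) ^ j'.val) x → j = j' := by
    intro j j' hj
    have h1 : (⇑(a * b))^[j.val] x = (⇑(a * b))^[j'.val] x := by
      rw [Equiv.Perm.iterate_eq_pow, Equiv.Perm.iterate_eq_pow]
      exact hj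
    have h2 := (Function.iterate_eq_iterate_iff_of_lt_minimalPeriod
      (f := ⇑(a * b)) (x := x) (by rw [h x]; exact ZMod.val_lt j)
      (by rw [h x]; exact ZMod.val_lt j')).1 h1
    exact ZMod.val_injective r h2
  have hbb : b * b = 1 := by
    ext y
    simp [(hb y).2]
  have haa : a * a = 1 := by
    ext y
    simp [(ha y).2]
  have hinvb : b⁻¹ = b := inv_eq_of_mul_eq_one_right hbb
  have hinva : a⁻¹ = a := inv_eq_of_mul_eq_one_right haa
  have hbc : ∀ n : ℤ, b * (a * b) ^ n = (a * b) ^ (-n) * b := by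
    intro n
    have h1 : b * (a * b) * b⁻¹ = (a * b)⁻¹ := by
      rw [mul_inv_rev, hinva, hinvb]
      rw [mul_assoc, mul_assoc, hbb, mul_one]
    have h2 : b * (a * b) ^ n * b⁻¹ = (a * b) ^ (-n) := by
      rw [← conj_zpow, h1, inv_zpow, zpow_neg]
    rw [← h2]
    group
  have hkey : ∀ i j : ℤ, b (((a * b) ^ i : Perm Ω) x) ≠ ((a * b) ^ j : Perm Ω) x := by
    intro i j hij
    have h1 : ∀ m : ℤ, b (((a * b) ^ (i + m) : Perm Ω) x) = ((a * b) ^ (j - m) : Perm Ω) x := by
      intro m
      have e1 : b * (a * b) ^ (i + m) = (a * b) ^ (-m) * (b * (a * b) ^ i) := by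
        rw [add_comm i m, zpow_add, ← mul_assoc, hbc m, mul_assoc]
      have e2 := congrArg (fun g : Perm Ω => g x) e1
      simp only [Perm.mul_apply] at e2
      rw [e2, hij, ← Perm.mul_apply, ← zpow_add]
      congr 2
      ring
    rcases Int.even_or_odd (j - i) with ⟨m, hm⟩ | ⟨m, hm⟩
    · have h2 := h1 m
      have h3 : j - m = i + m := by omega
      rw [h3] at h2
      exact (hb _).1 h2
    · have h2 := h1 m
      have h3 : j - m = 1 + (i + m) := by omega
      have h4 : ((a * b) ^ (1 + (i + m)) : Perm Ω) = a * (b * (a * b) ^ (i + m)) := by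
        rw [zpow_add, zpow_one, mul_assoc]
      rw [h3, h4, Perm.mul_apply, Perm.mul_apply] at h2
      exact (ha _).1 h2.symm
  rintro ⟨j, s⟩ ⟨j', s'⟩ hjj
  cases s <;> cases s'
  · rw [psi_false, psi_false] at hjj
    rw [hff j j' hjj]
  · rw [psi_false, psi_true] at hjj
    exact absurd hjj.symm (by
      have := hkey j'.val j.val
      simpa only [zpow_natCast] using this)
  · rw [psi_false, psi_true] at hjj
    exact absurd hjj (by
      have := hkey j.val j'.val
      simpa only [zpow_natCast] using this)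
  · rw [psi_true, psi_true] at hjj
    rw [hff j j' (b.injective hjj)]

private theorem orbit_psi {r : ℕ} (hr : 1 ≤ r) {a b : Perm Ω} (ha : IsPM a) (hb : IsPM b)
    (h : Rel r a b) (x : Ω) {g : Perm Ω} (hg : g ∈ Subgroup.closure ({a, b} : Set (Perm Ω))) :
    ∀ y, g y ∈ Set.range (psi r a b x) ↔ y ∈ Set.range (psi r a b x) := by
  have : NeZero r := ⟨by omega⟩
  have hA : ∀ y, y ∈ Set.range (psi r a b x) → a y ∈ Set.range (psi r a b x) := by
    rintro y ⟨⟨j, s⟩, rfl⟩
    cases s
    · refine ⟨(j - 1, true), ?_⟩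
      have h1 := a_psi_true hr h (x := x) (j - 1)
      rw [sub_add_cancel] at h1
      rw [← h1, (ha _).2]
    · exact ⟨(j + 1, false), (a_psi_true hr h j).symm⟩
  have hB : ∀ y, y ∈ Set.range (psi r a b x) → b y ∈ Set.range (psi r a b x) := by
    rintro y ⟨⟨j, s⟩, rfl⟩
    cases s
    · exact ⟨(j, true), (b_psi_false j).symm⟩
    · refine ⟨(j, false), ?_⟩
      rw [← b_psi_false j, (hb _).2]
  induction hg using Subgroup.closure_induction with
  | mem g hg =>
    intro y
    rcases hg with rfl | rfl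
    · exact ⟨fun h' => by have := hA _ h'; rwa [(ha _).2] at this, hA y⟩
    · exact ⟨fun h' => by have := hB _ h'; rwa [(hb _).2] at this, hB y⟩
  | one => intro y; simp
  | mul g g' _ _ h1 h2 =>
    intro y
    rw [Perm.mul_apply, h1, h2]
  | inv g _ h1 =>
    intro y
    rw [← h1 (g⁻¹ y), ← Perm.mul_apply, mul_inv_cancel, Perm.one_apply]

private theorem psi_mem {r : ℕ} {a b : Perm Ω} (x : Ω) (p : ZMod r × Bool) :
    ∃ g ∈ Subgroup.closure ({a, b} : Set (Perm Ω)), g x = psi r a b x p := by
  have hA : a ∈ Subgroup.closure ({a, b} : Set (Perm Ω)) :=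
    Subgroup.subset_closure (by simp)
  have hB : b ∈ Subgroup.closure ({a, b} : Set (Perm Ω)) :=
    Subgroup.subset_closure (by simp)
  obtain ⟨j, s⟩ := p
  cases s
  · exact ⟨(a * b) ^ j.val, Subgroup.pow_mem _ (Subgroup.mul_mem _ hA hB) _, (psi_false j).symm⟩
  · exact ⟨b * (a * b) ^ j.val, Subgroup.mul_mem _ hB
      (Subgroup.pow_mem _ (Subgroup.mul_mem _ hA hB) _), (psi_true j).symm⟩

end Psi

section Tau

variable {r : ℕ}

/-- the automorphisms of one cycle -/
private def tau (t : ZMod r × Bool) : Perm (ZMod r × Bool) where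
  toFun p := (if t.2 then t.1 - p.1 else p.1 + t.1, xor p.2 t.2)
  invFun p := (if t.2 then t.1 - p.1 else p.1 - t.1, xor p.2 t.2)
  left_inv p := by
    obtain ⟨j, s⟩ := p
    obtain ⟨j0, s0⟩ := t
    cases s0 <;> simp
  right_inv p := by
    obtain ⟨j, s⟩ := p
    obtain ⟨j0, s0⟩ := t
    cases s0 <;> simp

private theorem tau_zero (t : ZMod r × Bool) : tau t (0, false) = t := by
  obtain ⟨j0, s0⟩ := t
  cases s0 <;> simp [tau]

/-- the second involution of the model -/
private def bM (p : ZMod r × Bool) : ZMod r × Bool := (p.1, !p.2)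

/-- the first involution of the model -/
private def aM (p : ZMod r × Bool) : ZMod r × Bool :=
  (if p.2 then p.1 + 1 else p.1 - 1, !p.2)

private theorem tau_bM (t p : ZMod r × Bool) : tau t (bM p) = bM (tau t p) := by
  obtain ⟨j0, s0⟩ := t
  obtain ⟨j, s⟩ := p
  cases s0 <;> cases s <;> simp [tau, bM]

private theorem tau_aM (t p : ZMod r × Bool) : tau t (aM p) = aM (tau t p) := by
  obtain ⟨j0, s0⟩ := t
  obtain ⟨j, s⟩ := p
  cases s0 <;> cases s <;> simp [tau, aM] <;> ring

private theorem ab_induct [NeZero r] {P : ZMod r × Bool → Prop} (h0 : P (0, false))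
    (ha : ∀ p, P p → P (aM p)) (hb : ∀ p, P p → P (bM p)) : ∀ p, P p := by
  have h1 : ∀ n : ℕ, P ((n : ZMod r), false) := by
    intro n
    induction n with
    | zero => simpa using h0
    | succ n ih =>
      have h2 := ha _ (hb _ ih)
      simpa [aM, bM] using h2
  rintro ⟨j, s⟩
  have h2 := h1 j.val
  rw [ZMod.natCast_zmod_val] at h2
  cases s
  · exact h2
  · simpa [bM] using hb _ h2

end Tau

variable {Ω : Type} [Fintype Ω] [DecidableEq Ω]

theorem exists_model {r k : ℕ} (hr : 1 ≤ r) (hc : Fintype.card Ω = 2 * (r * k)) {a b : Perm Ω}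
    (ha : IsPM a) (hb : IsPM b) (h : Rel r a b) :
    ∃ Φ : Mdl k r ≃ Ω, (∀ i j, b (Φ (i, j, false)) = Φ (i, j, true)) ∧
      ∀ i j, a (Φ (i, j, true)) = Φ (i, j + 1, false) := by
  classical
  have : NeZero r := ⟨by omega⟩
  let G : Subgroup (Perm Ω) := Subgroup.closure ({a, b} : Set (Perm Ω))
  let st : Setoid Ω := MulAction.orbitRel G Ω
  let Q : Type := Quotient st
  have hrel : ∀ x y : Ω, (Quotient.mk st x = Quotient.mk st y) ↔ ∃ g ∈ G, g y = x := by
    intro x y
    rw [Quotient.eq]
    constructor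
    · rintro ⟨g, hg⟩
      exact ⟨g.1, g.2, hg⟩
    · rintro ⟨g, hg, hgy⟩
      exact ⟨⟨g, hg⟩, hgy⟩
  let F : Q × ZMod r × Bool → Ω := fun p => psi r a b p.1.out p.2
  have hmk : ∀ (q : Q) (p : ZMod r × Bool), Quotient.mk st (F (q, p)) = q := by
    intro q p
    have h1 : Quotient.mk st q.out = q := Quotient.out_eq q
    rw [← h1]
    rw [hrel]
    obtain ⟨g, hg, hgx⟩ := psi_mem (r := r) (a := a) (b := b) q.out p
    exact ⟨g, hg, by rw [hgx, h1]⟩
  have hFi : Function.Injective F := by
    rintro ⟨q, p⟩ ⟨q', p'⟩ hF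
    have h1 : q = q' := by
      rw [← hmk q p, hF, hmk q' p']
    subst h1
    have h2 : p = p' := psi_inj hr ha hb h q.out hF
    rw [h2]
  have hFs : Function.Surjective F := by
    intro y
    let q : Q := Quotient.mk st y
    have h1 : Quotient.mk st y = Quotient.mk st q.out := (Quotient.out_eq q).symm
    obtain ⟨g, hg, hgy⟩ := (hrel _ _).1 h1
    have h2 := (orbit_psi hr ha hb h q.out hg q.out).2 ⟨(0, false), by
      rw [psi_false, ZMod.val_zero, pow_zero, Perm.one_apply]⟩
    rw [hgy] at h2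
    obtain ⟨p, hp⟩ := h2
    exact ⟨(q, p), hp⟩
  let E : Q × ZMod r × Bool ≃ Ω := Equiv.ofBijective F ⟨hFi, hFs⟩
  have : Fintype Q := Quotient.fintype _
  have hcard : Fintype.card Q = k := by
    have h1 := Fintype.card_congr E
    rw [Fintype.card_prod, Fintype.card_prod, ZMod.card, Fintype.card_bool, hc] at h1
    have h2 : (2 * r) * Fintype.card Q = (2 * r) * k := by
      calc (2 * r) * Fintype.card Q = Fintype.card Q * (r * 2) := by ring
        _ = 2 * (r * k) := h1
        _ = (2 * r) * k := by ring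
    exact Nat.eq_of_mul_eq_mul_left (by omega) h2
  let e : Q ≃ Fin k := Fintype.equivFinOfCardEq hcard
  refine ⟨(Equiv.prodCongr e.symm (Equiv.refl _)).trans E, ?_, ?_⟩
  · intro i j
    exact b_psi_false j
  · intro i j
    exact a_psi_true hr h j

theorem card_aut {r k : ℕ} (hr : 1 ≤ r) (hc : Fintype.card Ω = 2 * (r * k)) {a b : Perm Ω}
    (ha : IsPM a) (hb : IsPM b) (h : Rel r a b) :
    Nat.card {σ : Perm Ω // σ * a = a * σ ∧ σ * b = b * σ} = (2 * r) ^ k * k.factorial := by
  classical
  have : NeZero r := ⟨by omega⟩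
  obtain ⟨Φ, hΦb, hΦa⟩ := exists_model hr hc ha hb h
  have hB : ∀ i p, b (Φ (i, p)) = Φ (i, bM p) := by
    rintro i ⟨j, s⟩
    cases s
    · exact hΦb i j
    · change _ = Φ (i, j, false)
      rw [← hΦb i j, (hb _).2]
  have hA : ∀ i p, a (Φ (i, p)) = Φ (i, aM p) := by
    rintro i ⟨j, s⟩
    cases s
    · have h1 := hΦa i (j - 1)
      rw [sub_add_cancel] at h1
      rw [← h1, (ha _).2]
      simp [aM]
    · rw [hΦa i j]
      simp [aM]
  let S : Perm (Fin k) × (Fin k → ZMod r × Bool) → Perm Ω := fun w =>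
    (Φ.symm.trans (Equiv.prodShear w.1 fun i => tau (w.2 i))).trans Φ
  have hS : ∀ w i p, S w (Φ (i, p)) = Φ (w.1 i, tau (w.2 i) p) := by
    intro w i p
    simp [S, Equiv.prodShear]
  have hcomm : ∀ w, S w * a = a * S w ∧ S w * b = b * S w := by
    intro w
    constructor
    · ext y
      obtain ⟨⟨i, p⟩, rfl⟩ := Φ.surjective y
      rw [Perm.mul_apply, Perm.mul_apply, hA, hS, hS, hA, tau_aM]
    · ext y
      obtain ⟨⟨i, p⟩, rfl⟩ := Φ.surjective y
      rw [Perm.mul_apply, Perm.mul_apply, hB, hS, hS, hB, tau_bM]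
  let T : Perm (Fin k) × (Fin k → ZMod r × Bool) →
      {σ : Perm Ω // σ * a = a * σ ∧ σ * b = b * σ} := fun w => ⟨S w, hcomm w⟩
  have hTi : Function.Injective T := by
    rintro ⟨π, t⟩ ⟨π', t'⟩ hT
    have h1 : S (π, t) = S (π', t') := congrArg Subtype.val hT
    have h2 : ∀ i, (π i, t i) = (π' i, t' i) := by
      intro i
      have h3 := congrArg (fun g : Perm Ω => g (Φ (i, (0, false)))) h1
      simp only [hS, tau_zero] at h3
      exact Φ.injective h3
    have h4 : π = π' := by
      ext i
      rw [(Prod.mk.inj (h2 i)).1]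
    have h5 : t = t' := by
      funext i
      exact (Prod.mk.inj (h2 i)).2
    rw [h4, h5]
  have hTs : Function.Surjective T := by
    rintro ⟨σ, hσa, hσb⟩
    have hσa' : ∀ y, σ (a y) = a (σ y) := fun y => by
      rw [← Perm.mul_apply, hσa, Perm.mul_apply]
    have hσb' : ∀ y, σ (b y) = b (σ y) := fun y => by
      rw [← Perm.mul_apply, hσb, Perm.mul_apply]
    let π : Fin k → Fin k := fun i => (Φ.symm (σ (Φ (i, (0, false))))).1
    let t : Fin k → ZMod r × Bool := fun i => (Φ.symm (σ (Φ (i, (0, false))))).2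
    have hst : ∀ i p, σ (Φ (i, p)) = Φ (π i, tau (t i) p) := by
      intro i
      refine ab_induct ?_ ?_ ?_
      · rw [tau_zero]
        simp [π, t]
      · intro p hp
        rw [← hA, hσa', hp, hA, tau_aM]
      · intro p hp
        rw [← hB, hσb', hp, hB, tau_bM]
    have hπ : Function.Injective π := by
      intro i i' hii
      have h1 : σ (Φ (i, (tau (t i)).symm (0, false))) =
          σ (Φ (i', (tau (t i')).symm (0, false))) := by
        rw [hst, hst, Equiv.apply_symm_apply, Equiv.apply_symm_apply, hii]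
      exact (Prod.mk.inj (Φ.injective (σ.injective h1))).1
    let π' : Perm (Fin k) := Equiv.ofBijective π (Finite.injective_iff_bijective.1 hπ)
    refine ⟨(π', t), ?_⟩
    apply Subtype.ext
    ext y
    obtain ⟨⟨i, p⟩, rfl⟩ := Φ.surjective y
    change S (π', t) (Φ (i, p)) = σ (Φ (i, p))
    rw [hS, hst]
    rfl
  rw [← Nat.card_congr (Equiv.ofBijective T ⟨hTi, hTs⟩)]
  rw [Nat.card_eq_fintype_card, Fintype.card_prod, Fintype.card_perm, Fintype.card_fin,
    Fintype.card_fun, Fintype.card_fin, Fintype.card_prod, ZMod.card, Fintype.card_bool]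
  rw [mul_comm r 2, mul_comm]

end MPbcd198.L
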