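import Pool.Agent.Lib.MP_bcd198_co.L.CntA

/-!
# JOB L/CntB: number of perfect matchings, number of `b` with `Rel r a b`

Use `exists_model` and `card_aut` of CntA.lean.
* With `r = 1`, `b = a` (`a * a = 1` has minimal period `1` everywhere): all perfect matchings of `Ω` (`|Ω| = 2m`) are conjugate, and the centraliser of
  `a` has `2^m m!` elements.
* `card_PM`: there is a perfect matching (if `|Ω| = 2m`: `Ω ≃ Fin m × Bool`, flip the boolean). The map `σ ↦ σ a σ⁻¹` from `Perm Ω` (`(2m)!`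
  elements) onto the perfect matchings has all fibres of size `2^m m!` (cosets of the centraliser). So `|PM| = (2m)!/(2^m m!)`.
* `card_rel`, `m = r k`: existence of `b` with `Rel r a b`: on the model `Mdl k r` take `b₀ (i,j,s) = (i,j,!s)` and `a₀ (i,j,true) = (i,j+1,false)`,
  `a₀ (i,j,false) = (i,j-1,true)`; `a₀ b₀ (i,j,false) = (i,j+1,false)`, so `Rel r a₀ b₀`; transport to `Ω` by a bijection, and conjugate `a₀` to `a`.
  The map `σ ↦ σ b σ⁻¹` from `{σ : σ a = a σ}` (`2^m m!` elements) to `{b' : IsPM b' ∧ Rel r a b'}` is surjective (compose the two models of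
  `exists_model` for `(a, b)` and `(a, b')`: a bijection commuting with `a` and carrying `b` to `b'`), and all fibres have
  `(2r)^k k!` elements by `card_aut`. So the number is `2^m m!/((2r)^k k!) = sNum r m`.
-/

set_option autoImplicit false

namespace MPbcd198.L

open Equiv

variable {Ω : Type} [Fintype Ω] [DecidableEq Ω]

omit [Fintype Ω] [DecidableEq Ω] in
private theorem CntB_card_hom {G X : Type} [Group G] [Finite G] [Finite X] (f : G → X) {n : ℕ}
    (h0 : ∀ x, ∃ g, f g = x) (heq : ∀ g g', f g = f g' ↔ f (g'⁻¹ * g) = f 1)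
    (hn : Nat.card {g // f g = f 1} = n) : Nat.card G = Nat.card X * n := by
  classical
  have := Fintype.ofFinite X
  have h1 : Nat.card G = ∑ x : X, Nat.card {g // f g = x} := by
    rw [← Nat.card_congr (Equiv.sigmaFiberEquiv f), Nat.card_sigma]
  have h2 : ∀ x : X, Nat.card {g // f g = x} = n := by
    intro x
    obtain ⟨g', rfl⟩ := h0 x
    rw [← hn]
    refine Nat.card_congr
      { toFun := fun g => ⟨g'⁻¹ * g.1, (heq g.1 g').1 g.2⟩
        invFun := fun g => ⟨g' * g.1, ?_⟩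
        left_inv := fun g => ?_
        right_inv := fun g => ?_ }
    · rw [heq, inv_mul_cancel_left]
      exact g.2
    · apply Subtype.ext
      simp
    · apply Subtype.ext
      simp
  rw [h1, Finset.sum_congr rfl fun x _ => h2 x, Finset.sum_const, Finset.card_univ, smul_eq_mul,
    Nat.card_eq_fintype_card]

omit [Fintype Ω] [DecidableEq Ω] in
private theorem CntB_rel_one {a : Perm Ω} (ha : IsPM a) : Rel 1 a a := by
  intro x
  rw [Function.minimalPeriod_eq_one_iff_isFixedPt]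
  exact (ha x).2

omit [Fintype Ω] [DecidableEq Ω] in
private theorem CntB_model_b {k r : ℕ} {b : Perm Ω} (hb : IsPM b) {Φ : Mdl k r ≃ Ω}
    (h1 : ∀ i j, b (Φ (i, j, false)) = Φ (i, j, true)) (i : Fin k) (j : ZMod r) (s : Bool) :
    b (Φ (i, j, s)) = Φ (i, j, !s) := by
  cases s
  · exact h1 i j
  · rw [← h1 i j, (hb _).2]
    rfl

omit [Fintype Ω] [DecidableEq Ω] in
private theorem CntB_model_a {k r : ℕ} {a : Perm Ω} (ha : IsPM a) {Φ : Mdl k r ≃ Ω}
    (h2 : ∀ i j, a (Φ (i, j, true)) = Φ (i, j + 1, false)) (i : Fin k) (j : ZMod r) :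
    a (Φ (i, j, false)) = Φ (i, j - 1, true) := by
  have h := h2 i (j - 1)
  rw [sub_add_cancel] at h
  rw [← h, (ha _).2]

omit [Fintype Ω] [DecidableEq Ω] in
private theorem CntB_conj_model {k r : ℕ} {a b a' b' : Perm Ω} (ha : IsPM a) (hb : IsPM b)
    (ha' : IsPM a') (hb' : IsPM b') {Φ Φ' : Mdl k r ≃ Ω}
    (h1 : ∀ i j, b (Φ (i, j, false)) = Φ (i, j, true))
    (h2 : ∀ i j, a (Φ (i, j, true)) = Φ (i, j + 1, false))
    (h1' : ∀ i j, b' (Φ' (i, j, false)) = Φ' (i, j, true))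
    (h2' : ∀ i j, a' (Φ' (i, j, true)) = Φ' (i, j + 1, false)) :
    ∃ σ : Perm Ω, σ * a * σ⁻¹ = a' ∧ σ * b * σ⁻¹ = b' := by
  refine ⟨Φ.symm.trans Φ', ?_, ?_⟩
  · rw [mul_inv_eq_iff_eq_mul]
    ext x
    obtain ⟨⟨i, j, s⟩, rfl⟩ := Φ.surjective x
    cases s
    · simp only [Perm.mul_apply]
      rw [CntB_model_a ha h2]
      simp only [Equiv.trans_apply, Equiv.symm_apply_apply]
      rw [CntB_model_a ha' h2']
    · simp only [Perm.mul_apply]
      rw [h2]
      simp only [Equiv.trans_apply, Equiv.symm_apply_apply]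
      rw [h2']
  · rw [mul_inv_eq_iff_eq_mul]
    ext x
    obtain ⟨⟨i, j, s⟩, rfl⟩ := Φ.surjective x
    simp only [Perm.mul_apply]
    rw [CntB_model_b hb h1]
    simp only [Equiv.trans_apply, Equiv.symm_apply_apply]
    rw [CntB_model_b hb' h1']

/-- two pairs in relation `Rel r` are conjugate -/
private theorem CntB_conj_rel {k r : ℕ} (hr : 1 ≤ r) (hc : Fintype.card Ω = 2 * (r * k))
    {a b a' b' : Perm Ω} (ha : IsPM a) (hb : IsPM b) (ha' : IsPM a') (hb' : IsPM b')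
    (h : Rel r a b) (h' : Rel r a' b') :
    ∃ σ : Perm Ω, σ * a * σ⁻¹ = a' ∧ σ * b * σ⁻¹ = b' := by
  obtain ⟨Φ, h1, h2⟩ := exists_model hr hc ha hb h
  obtain ⟨Φ', h1', h2'⟩ := exists_model hr hc ha' hb' h'
  exact CntB_conj_model ha hb ha' hb' h1 h2 h1' h2'

private theorem CntB_conj_pm {m : ℕ} (hc : Fintype.card Ω = 2 * m)
    {a a' : Perm Ω} (ha : IsPM a) (ha' : IsPM a') : ∃ σ : Perm Ω, σ * a * σ⁻¹ = a' := by
  obtain ⟨σ, h, -⟩ := CntB_conj_rel (k := m) (r := 1) le_rfl (by rw [hc, one_mul]) ha ha ha' ha'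
    (CntB_rel_one ha) (CntB_rel_one ha')
  exact ⟨σ, h⟩

private theorem CntB_card_cent {m : ℕ} (hc : Fintype.card Ω = 2 * m) {a : Perm Ω} (ha : IsPM a) :
    Nat.card {σ : Perm Ω // σ * a = a * σ} = 2 ^ m * m.factorial := by
  have h := card_aut (k := m) (r := 1) le_rfl (by rw [hc, one_mul]) ha ha (CntB_rel_one ha)
  rw [mul_one] at h
  rw [← h]
  exact Nat.card_congr (Equiv.subtypeEquivRight fun σ => (and_self_iff).symm)

section Model

/-- the matching `b₀` of the model -/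
private def CntB_b0 (k r : ℕ) : Perm (Mdl k r) where
  toFun x := (x.1, x.2.1, !x.2.2)
  invFun x := (x.1, x.2.1, !x.2.2)
  left_inv x := by simp
  right_inv x := by simp

private def CntB_a0f (k r : ℕ) (x : Mdl k r) : Mdl k r :=
  match x with
  | (i, j, true) => (i, j + 1, false)
  | (i, j, false) => (i, j - 1, true)

private theorem CntB_a0f_invol (k r : ℕ) (x : Mdl k r) : CntB_a0f k r (CntB_a0f k r x) = x := by
  obtain ⟨i, j, s⟩ := x
  cases s <;> simp [CntB_a0f]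

/-- the matching `a₀` of the model -/
private def CntB_a0 (k r : ℕ) : Perm (Mdl k r) where
  toFun := CntB_a0f k r
  invFun := CntB_a0f k r
  left_inv := CntB_a0f_invol k r
  right_inv := CntB_a0f_invol k r

private theorem CntB_a0_pm (k r : ℕ) : IsPM (CntB_a0 k r) := by
  rintro ⟨i, j, s⟩
  refine ⟨?_, CntB_a0f_invol k r _⟩
  cases s <;> simp [CntB_a0, CntB_a0f]

private theorem CntB_b0_pm (k r : ℕ) : IsPM (CntB_b0 k r) := by
  rintro ⟨i, j, s⟩
  refine ⟨?_, (CntB_b0 k r).left_inv _⟩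
  cases s <;> simp [CntB_b0]

private theorem CntB_iter_false (k r : ℕ) (i : Fin k) (j : ZMod r) (n : ℕ) :
    (⇑(CntB_a0 k r * CntB_b0 k r))^[n] (i, j, false) = (i, j + n, false) := by
  induction n with
  | zero => simp
  | succ n ih =>
    rw [Function.iterate_succ_apply', ih]
    simp [CntB_a0, CntB_b0, CntB_a0f, add_assoc]

private theorem CntB_iter_true (k r : ℕ) (i : Fin k) (j : ZMod r) (n : ℕ) :
    (⇑(CntB_a0 k r * CntB_b0 k r))^[n] (i, j, true) = (i, j - n, true) := by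
  induction n with
  | zero => simp
  | succ n ih =>
    rw [Function.iterate_succ_apply', ih]
    simp [CntB_a0, CntB_b0, CntB_a0f, sub_sub]

private theorem CntB_rel_model (k r : ℕ) : Rel r (CntB_a0 k r) (CntB_b0 k r) := by
  have key : ∀ (x : Mdl k r) (n : ℕ),
      Function.IsPeriodicPt (⇑(CntB_a0 k r * CntB_b0 k r)) n x ↔ r ∣ n := by
    rintro ⟨i, j, s⟩ n
    unfold Function.IsPeriodicPt Function.IsFixedPt
    cases s
    · rw [CntB_iter_false]
      simp [ZMod.natCast_eq_zero_iff]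
    · rw [CntB_iter_true]
      simp [ZMod.natCast_eq_zero_iff]
  intro x
  apply Nat.dvd_antisymm
  · exact ((key x r).2 dvd_rfl).minimalPeriod_dvd
  · exact (key x _).1 (Function.isPeriodicPt_minimalPeriod _ _)

end Model

omit [DecidableEq Ω] in
private theorem CntB_exists_pair {k r : ℕ} (hr : 1 ≤ r) (hc : Fintype.card Ω = 2 * (r * k)) :
    ∃ a b : Perm Ω, IsPM a ∧ IsPM b ∧ Rel r a b := by
  have : NeZero r := ⟨by omega⟩
  have hcard : Fintype.card (Mdl k r) = Fintype.card Ω := by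
    rw [hc, Fintype.card_prod, Fintype.card_prod, Fintype.card_fin, ZMod.card, Fintype.card_bool]
    ring
  let e : Mdl k r ≃ Ω := Fintype.equivOfCardEq hcard
  have hpm : ∀ {c : Perm (Mdl k r)}, IsPM c → IsPM (e.permCongr c) := by
    intro c hc x
    have h := hc (e.symm x)
    constructor
    · intro h'
      apply h.1
      rw [Equiv.permCongr_apply] at h'
      rw [← Equiv.eq_symm_apply] at h'
      exact h'
    · rw [Equiv.permCongr_apply, Equiv.permCongr_apply, Equiv.symm_apply_apply, h.2,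
        Equiv.apply_symm_apply]
  refine ⟨e.permCongr (CntB_a0 k r), e.permCongr (CntB_b0 k r), hpm (CntB_a0_pm k r),
    hpm (CntB_b0_pm k r), ?_⟩
  intro x
  obtain ⟨y, rfl⟩ := e.surjective x
  refine Eq.trans ?_ (CntB_rel_model k r y)
  have hit : ∀ n : ℕ, (⇑(e.permCongr (CntB_a0 k r) * e.permCongr (CntB_b0 k r)))^[n] (e y) =
      e ((⇑(CntB_a0 k r * CntB_b0 k r))^[n] y) := by
    intro n
    induction n with
    | zero => rfl
    | succ n ih =>
      rw [Function.iterate_succ_apply', ih, Function.iterate_succ_apply']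
      simp [Equiv.permCongr_apply]
  rw [Function.minimalPeriod_eq_minimalPeriod_iff]
  intro n
  unfold Function.IsPeriodicPt Function.IsFixedPt
  rw [hit n]
  exact e.injective.eq_iff

theorem card_PM {m : ℕ} (h : Fintype.card Ω = 2 * m) : (Nat.card (PMT Ω) : ℝ) = MNum m := by
  obtain ⟨a, -, ha, -, -⟩ := CntB_exists_pair (k := m) (r := 1) (Ω := Ω) le_rfl
    (by rw [h, one_mul])
  have hfin : Finite (PMT Ω) := Subtype.finite
  have key := CntB_card_hom (G := Perm Ω) (X := PMT Ω) (fun σ => conjPM σ ⟨a, ha⟩)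
    (n := 2 ^ m * m.factorial) ?_ ?_ ?_
  · rw [Nat.card_eq_fintype_card, Fintype.card_perm, h] at key
    have hpos : (0 : ℝ) < 2 ^ m * (m.factorial : ℝ) := by positivity
    unfold MNum
    rw [eq_div_iff hpos.ne']
    exact_mod_cast key.symm
  · intro x
    obtain ⟨σ, hσ⟩ := CntB_conj_pm h ha x.2
    exact ⟨σ, Subtype.ext hσ⟩
  · intro g g'
    rw [Subtype.ext_iff, Subtype.ext_iff]
    change g * a * g⁻¹ = g' * a * g'⁻¹ ↔ g'⁻¹ * g * a * (g'⁻¹ * g)⁻¹ = 1 * a * 1⁻¹
    constructor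
    · intro h'
      calc g'⁻¹ * g * a * (g'⁻¹ * g)⁻¹ = g'⁻¹ * (g * a * g⁻¹) * g' := by group
        _ = g'⁻¹ * (g' * a * g'⁻¹) * g' := by rw [h']
        _ = 1 * a * 1⁻¹ := by group
    · intro h'
      calc g * a * g⁻¹ = g' * (g'⁻¹ * g * a * (g'⁻¹ * g)⁻¹) * g'⁻¹ := by group
        _ = g' * (1 * a * 1⁻¹) * g'⁻¹ := by rw [h']
        _ = g' * a * g'⁻¹ := by group
  · rw [← CntB_card_cent h ha]
    refine Nat.card_congr (Equiv.subtypeEquivRight fun σ => ?_)
    rw [Subtype.ext_iff]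
    change σ * a * σ⁻¹ = 1 * a * 1⁻¹ ↔ _
    rw [inv_one, mul_one, one_mul, mul_inv_eq_iff_eq_mul]

theorem card_rel {r m : ℕ} (hr : 1 ≤ r) (hrm : r ∣ m) (h : Fintype.card Ω = 2 * m)
    {a : Perm Ω} (ha : IsPM a) :
    (Nat.card {b : Perm Ω // IsPM b ∧ Rel r a b} : ℝ) = sNum r m := by
  obtain ⟨k, rfl⟩ := hrm
  obtain ⟨a₀, b₀, ha₀, hb₀, hab₀⟩ := CntB_exists_pair (k := k) (r := r) (Ω := Ω) hr h
  obtain ⟨τ, hτ⟩ := CntB_conj_pm h ha₀ ha
  obtain ⟨b, hb, hab⟩ : ∃ b : Perm Ω, IsPM b ∧ Rel r a b := by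
    refine ⟨τ * b₀ * τ⁻¹, isPM_conj τ hb₀, ?_⟩
    rw [← hτ]
    exact (rel_conj τ).2 hab₀
  have hfin : Finite {b : Perm Ω // IsPM b ∧ Rel r a b} := Subtype.finite
  let G : Subgroup (Perm Ω) := Subgroup.centralizer {a}
  have hG : ∀ σ : Perm Ω, σ ∈ G ↔ σ * a = a * σ := by
    intro σ
    change σ ∈ Subgroup.centralizer {a} ↔ _
    rw [Subgroup.mem_centralizer_iff]
    simp only [Set.mem_singleton_iff, forall_eq]
    exact eq_comm
  have hG' : ∀ σ : G, σ.1 * a * σ.1⁻¹ = a := by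
    intro σ
    rw [mul_inv_eq_iff_eq_mul]
    exact (hG _).1 σ.2
  have key := CntB_card_hom (G := G) (X := {b : Perm Ω // IsPM b ∧ Rel r a b})
    (fun σ => ⟨σ.1 * b * σ.1⁻¹, isPM_conj σ.1 hb, by
      have h1 := (rel_conj (r := r) (a := a) (b := b) σ.1).2 hab
      rwa [hG' σ] at h1⟩)
    (n := (2 * r) ^ k * k.factorial) ?_ ?_ ?_
  · have hGc : Nat.card G = 2 ^ (r * k) * (r * k).factorial := by
      rw [← CntB_card_cent h ha]
      exact Nat.card_congr (Equiv.subtypeEquivRight hG)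
    rw [hGc] at key
    have hr' : (0 : ℝ) < r := by exact_mod_cast hr
    have hpos : (0 : ℝ) < (2 * (r : ℝ)) ^ k * (k.factorial : ℝ) := by positivity
    unfold sNum
    rw [Nat.mul_div_cancel_left k (by omega : 0 < r), eq_div_iff hpos.ne']
    exact_mod_cast key.symm
  · rintro ⟨b', hb', hab'⟩
    obtain ⟨σ, h1, h2⟩ := CntB_conj_rel hr h ha hb ha hb' hab hab'
    refine ⟨⟨σ, (hG σ).2 ?_⟩, Subtype.ext h2⟩
    rwa [mul_inv_eq_iff_eq_mul] at h1
  · rintro ⟨g, hg⟩ ⟨g', hg'⟩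
    rw [Subtype.ext_iff, Subtype.ext_iff]
    change g * b * g⁻¹ = g' * b * g'⁻¹ ↔ g'⁻¹ * g * b * (g'⁻¹ * g)⁻¹ = 1 * b * 1⁻¹
    constructor
    · intro h'
      calc g'⁻¹ * g * b * (g'⁻¹ * g)⁻¹ = g'⁻¹ * (g * b * g⁻¹) * g' := by group
        _ = g'⁻¹ * (g' * b * g'⁻¹) * g' := by rw [h']
        _ = 1 * b * 1⁻¹ := by group
    · intro h'
      calc g * b * g⁻¹ = g' * (g'⁻¹ * g * b * (g'⁻¹ * g)⁻¹) * g'⁻¹ := by group
        _ = g' * (1 * b * 1⁻¹) * g'⁻¹ := by rw [h']
        _ = g' * b * g'⁻¹ := by group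
  · rw [← card_aut hr h ha hb hab]
    refine Nat.card_congr
      { toFun := fun σ => ⟨σ.1.1, (hG _).1 σ.1.2, ?_⟩
        invFun := fun σ => ⟨⟨σ.1, (hG _).2 σ.2.1⟩, ?_⟩
        left_inv := fun σ => rfl
        right_inv := fun σ => rfl }
    · have h1 := σ.2
      rw [Subtype.ext_iff] at h1
      change σ.1.1 * b * σ.1.1⁻¹ = 1 * b * 1⁻¹ at h1
      rwa [inv_one, mul_one, one_mul, mul_inv_eq_iff_eq_mul] at h1
    · rw [Subtype.ext_iff]
      change σ.1 * b * σ.1⁻¹ = 1 * b * 1⁻¹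
      rw [inv_one, mul_one, one_mul, mul_inv_eq_iff_eq_mul]
      exact σ.2.2

/-- the cardinality of a set with a perfect matching is even -/
theorem even_card {a : Perm Ω} (ha : IsPM a) : Even (Fintype.card Ω) := by
  have h1 : a ^ 2 ^ 1 = 1 := by
    ext x
    simpa [pow_two] using (ha x).2
  have h2 := Equiv.Perm.card_compl_support_modEq (p := 2) (n := 1) h1
  have h3 : a.supportᶜ = ∅ := by
    ext x
    simp [(ha x).1]
  rw [h3, Finset.card_empty] at h2
  rw [Nat.even_iff]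
  exact h2.symm

theorem cnt_one_pos {r m : ℕ} (hr : 1 ≤ r) (hrm : r ∣ m) (h : Fintype.card Ω = 2 * m)
    {a : Perm Ω} (ha : IsPM a) : 0 < cnt r a 1 := by
  have h1 := card_rel hr hrm h ha
  rw [← cnt_one] at h1
  have h2 := sNum_pos hr m
  rw [← h1] at h2
  exact_mod_cast h2

end MPbcd198.L
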