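import Pool.Agent.Lib.MP_bcd198_co.L.Clo

/-!
# JOB L/Comb: the combinatorial inequality [2.7]

`comb_ineq`. Let `Cp = clo p (a_d ⊔ al) (b_P ⊔ B)`, `C2 = clo 2 (c_P ⊔ ga) al`, `W_P = {y ∈ P₂ : al (inl y) ≠ inl y}`. As the points `inr x` moved by `al`
are exactly those with `B x ≠ x` (`2j` of them), `|support al| = 2j + |W_P|`.
* `U` = the points of `P₁ ⊕ P₂` lying in `Cp` (via `sumAssoc`: `inl p₁` for `inl p₁`, `inr p₂` for `inr (inl p₂)`). It is closed under `b_P` (`clo_right`) and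
  `U ∩ P₁` under `a_d` (`clo_left`): `PClosed`. The points `inr (inr x)` of `Cp` are moved by `b_P ⊔ B`, so `B x ≠ x`: `|Cp| ≤ |U| + 2j`. The points
  `inr p₂ ∈ U` are moved by `a_d ⊔ al`: `p₂ ∈ W_P`.
* `U_C` = the points `p₂ ∈ P₂` with `inl p₂ ∈ C2`: closed under `c_P`, contained in `W_P` (moved by `al`); the points `inr x` of `C2` are moved by `al`, so
  `|C2| ≤ |U_C| + 2j`.
* So the left side is `≤ (|U| + 2j)/2p + (|U_C| + 2j)/4 - j - |W_P|/2 = -j (1/2 - 1/p) + |U|/2p + |U_C|/4 - |W_P|/2`.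
  If `U = ∅`: `|U_C| ≤ |W_P|` gives the second claim (`|support al| - 2j = |W_P|`).
  In general let `U₂ = {p₂ : inr p₂ ∈ U}` and `Z_U = {p₂ ∈ U₂ : c p₂ ∈ U₂}`. `|W_P| ≥ |U₂ ∪ U_C| = |U₂| + |U_C \ U₂|`, and
  `|U_C| ≤ |Z_U| + 2 |U_C \ U₂|`: a point `y ∈ U_C` is in `U_C \ U₂`, or in `U₂` with `c y ∈ U₂` (then `y ∈ Z_U`), or in `U₂` with
  `c y ∉ U₂` (then `c y ∈ U_C \ U₂`; `c` is injective). So `|U_C|/4 - |W_P|/2 ≤ |Z_U|/4 - |U₂|/2` and this is `eP` without the first term
  (the two filters in `eP` are the images of `U₂`, `Z_U` under `inr`).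
* `exp_weak`, `exp_strict`: `j/q - j (1/2 - 1/p) = -j kap`, `kap > 0` (`Hyp`: `(p-2)(q-2) > 4`, i.e. `2p + 2q < pq`). weak: `eP U ≤ 0`.
  strict: if `U ≠ ∅` then `eP U < 0`, so the left side `E` is `< 0`. If `U = ∅`: `E ≤ -j kap - (|support al| - 2j)/4 < 0` unless `j = 0` and
  `|support al| = 0`, i.e. `al = 1`. And `4pq E` is an integer, so `E < 0` implies `E ≤ -1/(4pq)`.
-/

set_option autoImplicit false

namespace MPbcd198.L

open Equiv

variable {P₁ P₂ : Type} [Fintype P₁] [Fintype P₂] [DecidableEq P₁] [DecidableEq P₂]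

theorem comb_ineq (D : Dat P₁ P₂) (p : ℕ) (hp : 1 ≤ p) (z j : ℕ) (B ga : Perm (Fin (2 * z)))
    (al : Perm (P₂ ⊕ Fin (2 * z))) (hB : IsInv B) (hga : IsInv ga) (hal : IsInv al)
    (hBj : B.support.card = 2 * j) (h1 : ∀ x, ga x ≠ x ↔ B x ≠ x)
    (h2 : ∀ x, al (Sum.inr x) ≠ Sum.inr x ↔ B x ≠ x) :
    ∃ U : Finset (P₁ ⊕ P₂), PClosed D.a D.b U ∧
      ((clo p (combA D.a al) (combB D.b B)).card : ℝ) / (2 * p) +
        ((clo 2 (Equiv.sumCongr D.c ga) al).card : ℝ) / 4 - (al.support.card : ℝ) / 2 ≤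
          -(j : ℝ) * (1 / 2 - 1 / p) + eP p D.c U ∧
      (U = ∅ → ((clo p (combA D.a al) (combB D.b B)).card : ℝ) / (2 * p) +
        ((clo 2 (Equiv.sumCongr D.c ga) al).card : ℝ) / 4 - (al.support.card : ℝ) / 2 ≤
          -(j : ℝ) * (1 / 2 - 1 / p) - ((al.support.card : ℝ) - 2 * j) / 4) := by
  classical
  set Cp := clo p (combA D.a al) (combB D.b B) with hCp
  set C2 := clo 2 (Equiv.sumCongr D.c ga) al with hC2
  -- decomposition of `Cp`
  set Cp' : Finset ((P₁ ⊕ P₂) ⊕ Fin (2 * z)) := Cp.map (Equiv.sumAssoc P₁ P₂ (Fin (2 * z))).symm.toEmbedding with hCp'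
  have hCp'm : ∀ x, x ∈ Cp' ↔ Equiv.sumAssoc P₁ P₂ (Fin (2 * z)) x ∈ Cp := by
    intro x
    rw [hCp', Finset.mem_map_equiv, Equiv.symm_symm]
  set U : Finset (P₁ ⊕ P₂) := Cp'.toLeft with hU
  have hUm : ∀ x, x ∈ U ↔ Equiv.sumAssoc P₁ P₂ (Fin (2 * z)) (Sum.inl x) ∈ Cp := by
    intro x
    rw [hU, Finset.mem_toLeft, hCp'm]
  have hCpc : U.card + Cp'.toRight.card = Cp.card := by
    rw [hU, Finset.card_toLeft_add_card_toRight, hCp', Finset.card_map]
  have hR1 : Cp'.toRight.card ≤ 2 * j := by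
    rw [← hBj]
    refine Finset.card_le_card fun x hx => ?_
    rw [Finset.mem_toRight, hCp'm] at hx
    have h3 := (clo_spec hx).2.1
    rw [combB_apply] at h3
    rw [Equiv.Perm.mem_support]
    intro h4
    apply h3
    rw [Equiv.symm_apply_apply]
    change Equiv.sumAssoc P₁ P₂ (Fin (2 * z)) (Sum.inr (B x)) = _
    rw [h4]
  have hPC : PClosed D.a D.b U := by
    constructor
    · intro x hx
      rw [hUm] at hx ⊢
      have h3 := clo_right hx
      rw [combB_apply, Equiv.symm_apply_apply] at h3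
      exact h3
    · intro y hy
      rw [hUm] at hy ⊢
      exact clo_left hy
  -- decomposition of `C2` and of the support of `al`
  set UC : Finset P₂ := C2.toLeft with hUC
  have hC2c : UC.card + C2.toRight.card = C2.card := Finset.card_toLeft_add_card_toRight
  set W : Finset P₂ := al.support.toLeft with hW
  have hWc : W.card + al.support.toRight.card = al.support.card :=
    Finset.card_toLeft_add_card_toRight
  have hRs : al.support.toRight = B.support := by
    ext x
    rw [Finset.mem_toRight, Equiv.Perm.mem_support, Equiv.Perm.mem_support]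
    exact h2 x
  rw [hRs, hBj] at hWc
  have hR2 : C2.toRight.card ≤ 2 * j := by
    rw [← hBj]
    refine Finset.card_le_card fun x hx => ?_
    rw [Finset.mem_toRight] at hx
    rw [Equiv.Perm.mem_support, ← h2]
    exact (clo_spec hx).2.1
  have hUCW : UC ⊆ W := by
    intro x hx
    rw [hUC, Finset.mem_toLeft] at hx
    rw [hW, Finset.mem_toLeft, Equiv.Perm.mem_support]
    exact (clo_spec hx).2.1
  set U2 : Finset P₂ := U.toRight with hU2
  have hU2W : U2 ⊆ W := by
    intro x hx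
    rw [hU2, Finset.mem_toRight, hUm] at hx
    rw [hW, Finset.mem_toLeft, Equiv.Perm.mem_support]
    have h3 := (clo_spec hx).1
    intro h4
    apply h3
    change (Sum.inr (al (Sum.inl x)) : P₁ ⊕ (P₂ ⊕ Fin (2 * z))) = Sum.inr (Sum.inl x)
    rw [h4]
  have hUCc : ∀ x ∈ UC, D.c x ∈ UC := by
    intro x hx
    rw [hUC, Finset.mem_toLeft] at hx ⊢
    exact clo_left hx
  set ZU : Finset P₂ := U2.filter fun y => D.c y ∈ U2 with hZU
  have hf1 : (U.filter fun x => x.isRight = true).card = U2.card := by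
    rw [← Finset.card_map (s := U2) (Function.Embedding.inr (α := P₁))]
    congr 1
    ext x
    simp only [Finset.mem_filter, Finset.mem_map, Function.Embedding.inr_apply]
    constructor
    · rintro ⟨hx, hr⟩
      obtain ⟨y, rfl⟩ := Sum.isRight_iff.1 hr
      exact ⟨y, by rwa [hU2, Finset.mem_toRight], rfl⟩
    · rintro ⟨y, hy, rfl⟩
      rw [hU2, Finset.mem_toRight] at hy
      exact ⟨hy, rfl⟩
  have hf2 : (U.filter fun x => ∃ y, x = Sum.inr y ∧ Sum.inr (D.c y) ∈ U).card = ZU.card := by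
    rw [← Finset.card_map (s := ZU) (Function.Embedding.inr (α := P₁))]
    congr 1
    ext x
    simp only [Finset.mem_filter, Finset.mem_map, Function.Embedding.inr_apply]
    constructor
    · rintro ⟨hx, y, rfl, hy⟩
      refine ⟨y, ?_, rfl⟩
      rw [hZU, Finset.mem_filter, hU2, Finset.mem_toRight, Finset.mem_toRight]
      exact ⟨hx, hy⟩
    · rintro ⟨y, hy, rfl⟩
      rw [hZU, Finset.mem_filter, hU2, Finset.mem_toRight, Finset.mem_toRight] at hy
      exact ⟨hy.1, y, rfl, hy.2⟩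
  have hcount : UC.card ≤ ZU.card + 2 * (UC \ U2).card := by
    have hsub : UC ⊆ ZU ∪ ((UC \ U2) ∪ (UC \ U2).image D.c) := by
      intro y hy
      rw [Finset.mem_union, Finset.mem_union, Finset.mem_image]
      by_cases h3 : y ∈ U2
      · by_cases h4 : D.c y ∈ U2
        · left
          rw [hZU, Finset.mem_filter]
          exact ⟨h3, h4⟩
        · right
          right
          exact ⟨D.c y, Finset.mem_sdiff.2 ⟨hUCc y hy, h4⟩, (D.hc y).2⟩
      · right
        left
        exact Finset.mem_sdiff.2 ⟨hy, h3⟩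
    have h5 := Finset.card_le_card hsub
    have h6 := Finset.card_union_le ZU ((UC \ U2) ∪ (UC \ U2).image D.c)
    have h7 := Finset.card_union_le (UC \ U2) ((UC \ U2).image D.c)
    have h8 := Finset.card_image_le (s := UC \ U2) (f := D.c)
    omega
  have hWge : U2.card + (UC \ U2).card ≤ W.card := by
    rw [← Finset.card_union_of_disjoint Finset.disjoint_sdiff]
    refine Finset.card_le_card (Finset.union_subset hU2W ?_)
    exact Finset.sdiff_subset.trans hUCW
  have hWge' : UC.card ≤ W.card := Finset.card_le_card hUCW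
  have hp' : (0 : ℝ) < p := by exact_mod_cast hp
  -- real versions
  have r1 : (Cp.card : ℝ) ≤ U.card + 2 * j := by
    have : Cp.card ≤ U.card + 2 * j := by omega
    exact_mod_cast this
  have r2 : (C2.card : ℝ) ≤ UC.card + 2 * j := by
    have : C2.card ≤ UC.card + 2 * j := by omega
    exact_mod_cast this
  have r3 : (al.support.card : ℝ) = W.card + 2 * j := by
    exact_mod_cast hWc.symm
  have r4 : (UC.card : ℝ) ≤ ZU.card + 2 * (UC \ U2).card := by exact_mod_cast hcount
  have r5 : (U2.card : ℝ) + (UC \ U2).card ≤ W.card := by exact_mod_cast hWge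
  have r6 : (UC.card : ℝ) ≤ W.card := by exact_mod_cast hWge'
  have r7 : (Cp.card : ℝ) / (2 * p) ≤ (U.card : ℝ) / (2 * p) + j / p := by
    have h9 : (U.card : ℝ) / (2 * p) + j / p = (U.card + 2 * j) / (2 * p) := by
      field_simp
    rw [h9]
    gcongr
  have r8 : (j : ℝ) * (1 / 2 - 1 / p) = j / 2 - j / p := by ring
  refine ⟨U, hPC, ?_, ?_⟩
  · have h10 : eP p D.c U = (U.card : ℝ) / (2 * p) - (U2.card : ℝ) / 2 + (ZU.card : ℝ) / 4 := by
      rw [← hf1, ← hf2]
      unfold eP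
      congr!
    rw [h10]
    linarith
  · intro hU0
    have r9 : (U.card : ℝ) = 0 := by
      rw [hU0]
      simp
    rw [r9, zero_div] at r7
    linarith

/-- the exponent at level `j` -/
noncomputable def EE (D : Dat P₁ P₂) (p q : ℕ) {z : ℕ} (j : ℕ) (B ga : Perm (Fin (2 * z)))
    (al : Perm (P₂ ⊕ Fin (2 * z))) : ℝ :=
  (j : ℝ) / q + ((clo p (combA D.a al) (combB D.b B)).card : ℝ) / (2 * p) +
    ((clo 2 (Equiv.sumCongr D.c ga) al).card : ℝ) / 4 - (al.support.card : ℝ) / 2

private theorem Comb_kap {p q : ℕ} (hyp : Hyp p q) : 0 < (1 : ℝ) / 2 - 1 / p - 1 / q := by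
  obtain ⟨hp, hq, hk⟩ := hyp
  obtain ⟨p', rfl⟩ := Nat.exists_eq_add_of_le' (show 2 ≤ p by omega)
  obtain ⟨q', rfl⟩ := Nat.exists_eq_add_of_le' (show 2 ≤ q by omega)
  rw [Nat.add_sub_cancel, Nat.add_sub_cancel] at hk
  have hk' : (4 : ℝ) < p' * q' := by exact_mod_cast hk
  have h1 : (0 : ℝ) < p' + 2 := by positivity
  have h2 : (0 : ℝ) < q' + 2 := by positivity
  push_cast
  have h3 : (1 : ℝ) / 2 - 1 / (p' + 2) - 1 / (q' + 2) =
      (p' * q' - 4) / (2 * (p' + 2) * (q' + 2)) := by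
    field_simp
    ring
  rw [h3]
  exact div_pos (by linarith) (by positivity)

theorem exp_weak {p q : ℕ} (hyp : Hyp p q) (D : Dat P₁ P₂) (hw : D.Weak p) (z j : ℕ)
    (B ga : Perm (Fin (2 * z))) (al : Perm (P₂ ⊕ Fin (2 * z))) (hB : IsInv B) (hga : IsInv ga)
    (hal : IsInv al) (hBj : B.support.card = 2 * j) (h1 : ∀ x, ga x ≠ x ↔ B x ≠ x)
    (h2 : ∀ x, al (Sum.inr x) ≠ Sum.inr x ↔ B x ≠ x) : EE D p q j B ga al ≤ 0 := by
  obtain ⟨U, hU, h3, -⟩ := comb_ineq D p (by have := hyp.hp; omega) z j B ga al hB hga hal hBj h1 h2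
  have h4 := hw U hU
  have h5 := Comb_kap hyp
  have h6 : 0 ≤ (j : ℝ) * (1 / 2 - 1 / p - 1 / q) := by positivity
  have h7 : (j : ℝ) * (1 / 2 - 1 / p - 1 / q) = j * (1 / 2 - 1 / p) - j / q := by ring
  unfold EE
  linarith

theorem exp_strict {p q : ℕ} (hyp : Hyp p q) (D : Dat P₁ P₂) (hs : D.Strict p) (z j : ℕ)
    (B ga : Perm (Fin (2 * z))) (al : Perm (P₂ ⊕ Fin (2 * z))) (hB : IsInv B) (hga : IsInv ga)
    (hal : IsInv al) (hBj : B.support.card = 2 * j) (h1 : ∀ x, ga x ≠ x ↔ B x ≠ x)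
    (h2 : ∀ x, al (Sum.inr x) ≠ Sum.inr x ↔ B x ≠ x) (h0 : ¬ (j = 0 ∧ al = 1)) :
    EE D p q j B ga al ≤ -(1 / (4 * p * q)) := by
  have hp : (0 : ℝ) < p := by
    have := hyp.hp
    exact_mod_cast (show 0 < p by omega)
  have hq : (0 : ℝ) < q := by
    have := hyp.hq
    exact_mod_cast (show 0 < q by omega)
  have hneg : EE D p q j B ga al < 0 := by
    obtain ⟨U, hU, h3, h4⟩ :=
      comb_ineq D p (by have := hyp.hp; omega) z j B ga al hB hga hal hBj h1 h2
    have h5 := Comb_kap hyp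
    have h6 : 0 ≤ (j : ℝ) * (1 / 2 - 1 / p - 1 / q) := by positivity
    have h7 : (j : ℝ) * (1 / 2 - 1 / p - 1 / q) = j * (1 / 2 - 1 / p) - j / q := by ring
    unfold EE
    rcases U.eq_empty_or_nonempty with hU0 | hU0
    · have h8 := h4 hU0
      have h9 : 2 * j ≤ al.support.card := by
        rw [← hBj, ← Finset.card_map (s := B.support) (Function.Embedding.inr (α := P₂))]
        refine Finset.card_le_card fun x hx => ?_
        rw [Finset.mem_map] at hx
        obtain ⟨y, hy, rfl⟩ := hx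
        rw [Equiv.Perm.mem_support] at hy ⊢
        exact (h2 y).2 hy
      have h10 : (2 * j : ℝ) ≤ al.support.card := by exact_mod_cast h9
      rcases Nat.eq_zero_or_pos j with hj | hj
      · have hal1 : al ≠ 1 := fun h => h0 ⟨hj, h⟩
        have h11 : 0 < al.support.card := by
          rw [Finset.card_pos]
          by_contra h12
          rw [Finset.not_nonempty_iff_eq_empty, Equiv.Perm.support_eq_empty_iff] at h12
          exact hal1 h12
        have h13 : (0 : ℝ) < al.support.card := by exact_mod_cast h11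
        subst hj
        simp only [Nat.cast_zero, zero_div, neg_zero, zero_mul, mul_zero] at h8 ⊢
        linarith
      · have h14 : 0 < (j : ℝ) * (1 / 2 - 1 / p - 1 / q) := by
          have : (0 : ℝ) < j := by exact_mod_cast hj
          positivity
        linarith
    · have h15 := hs U hU0 hU
      linarith
  have hint : 4 * (p : ℝ) * q * EE D p q j B ga al =
      ((4 * p * j + 2 * q * (clo p (combA D.a al) (combB D.b B)).card +
        p * q * (clo 2 (Equiv.sumCongr D.c ga) al).card - 2 * p * q * al.support.card : ℤ) : ℝ) := by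
    unfold EE
    push_cast
    field_simp
    ring
  have hneg' : 4 * (p : ℝ) * q * EE D p q j B ga al < 0 := by
    have : 0 < 4 * (p : ℝ) * q := by positivity
    exact mul_neg_of_pos_of_neg this hneg
  rw [hint] at hneg'
  have hneg2 : (4 * p * j + 2 * q * (clo p (combA D.a al) (combB D.b B)).card +
        p * q * (clo 2 (Equiv.sumCongr D.c ga) al).card - 2 * p * q * al.support.card : ℤ) ≤ -1 := by
    have : (4 * p * j + 2 * q * (clo p (combA D.a al) (combB D.b B)).card +
        p * q * (clo 2 (Equiv.sumCongr D.c ga) al).card - 2 * p * q * al.support.card : ℤ) < 0 := by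
      exact_mod_cast hneg'
    omega
  have h16 : 4 * (p : ℝ) * q * EE D p q j B ga al ≤ -1 := by
    rw [hint]
    exact_mod_cast hneg2
  have h17 : 0 < 4 * (p : ℝ) * q := by positivity
  rw [← neg_div, le_div_iff₀ h17]
  linarith

end MPbcd198.L
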