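import Pool.Agent.Lib.MP_bcd198_co.L.Schur

/-!
# JOB L/Eqv: equivariance and norms of the operators

* `KOp_eqv`: conjugation by `σ` is a bijection of `{b : Rel r a b}` onto `{b : Rel r (σ a σ⁻¹) b}` (`rel_conj`).
* `Ra_eqv`: `combA D.a (τ⁻¹ a' τ) = (1 ⊔ τ)⁻¹ (combA D.a a') (1 ⊔ τ)`. `Rc_eqv` similarly.
* `Rb_eqv`: `combB D.b (σ b'' σ⁻¹) = (1 ⊔ (1 ⊔ σ)) (combB D.b b'') (1 ⊔ (1 ⊔ σ))⁻¹`.
* `TT_eqv`: composition.
* norms: `Ra`, `Rc` are restrictions along injections `a' ↦ combA D.a a'`, `c'' ↦ c ⊔ c''` of the index set, so the sum of squares decreases; `Rb D Z g` is `g`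
  transported along the injection `b'' ↦ combB D.b b''` and zero elsewhere.
-/

set_option autoImplicit false

namespace MPbcd198.L

open Equiv

theorem KOp_eqv {Ω : Type} [Fintype Ω] [DecidableEq Ω] (r : ℕ) (σ : Perm Ω) (f : FPM Ω) :
    KOp Ω r (actF σ f) = actF σ (KOp Ω r f) := by
  classical
  funext a
  have hiff : ∀ b : PMT Ω, Rel r a.1 b.1 ↔
      Rel r ((conjPM σ).symm a).1 ((conjPM σ).symm b).1 := by
    intro b
    have h := rel_conj (r := r) (a := a.1) (b := b.1) σ⁻¹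
    rw [inv_inv] at h
    exact h.symm
  have h1 : (Finset.univ.filter fun b : PMT Ω => Rel r a.1 b.1).card =
      (Finset.univ.filter fun b : PMT Ω => Rel r ((conjPM σ).symm a).1 b.1).card := by
    apply Finset.card_equiv (conjPM σ).symm
    intro b
    simp only [Finset.mem_filter, Finset.mem_univ, true_and]
    exact hiff b
  have h2 : ∑ b ∈ Finset.univ.filter fun b : PMT Ω => Rel r a.1 b.1, actF σ f b =
      ∑ b ∈ Finset.univ.filter fun b : PMT Ω => Rel r ((conjPM σ).symm a).1 b.1, f b := by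
    apply Finset.sum_equiv (conjPM σ).symm
    · intro b
      simp only [Finset.mem_filter, Finset.mem_univ, true_and]
      exact hiff b
    · intro b _
      rfl
  have e1 : KOp Ω r (actF σ f) a =
      (((Finset.univ.filter fun b : PMT Ω => Rel r a.1 b.1).card : ℕ) : ℂ)⁻¹ *
        ∑ b ∈ Finset.univ.filter fun b : PMT Ω => Rel r a.1 b.1, actF σ f b := by
    unfold KOp
    simp only [LinearMap.coe_mk, AddHom.coe_mk]
  have e2 : actF σ (KOp Ω r f) a =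
      (((Finset.univ.filter fun b : PMT Ω => Rel r ((conjPM σ).symm a).1 b.1).card : ℕ) : ℂ)⁻¹ *
        ∑ b ∈ Finset.univ.filter fun b : PMT Ω => Rel r ((conjPM σ).symm a).1 b.1, f b := by
    have e3 : actF σ (KOp Ω r f) a = KOp Ω r f ((conjPM σ).symm a) := rfl
    rw [e3]
    unfold KOp
    simp only [LinearMap.coe_mk, AddHom.coe_mk]
  rw [e1, e2, h1, h2]

variable {P₁ P₂ : Type} [Fintype P₁] [Fintype P₂] [DecidableEq P₁] [DecidableEq P₂]
  (D : Dat P₁ P₂) {Z : Type} [Fintype Z] [DecidableEq Z]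

theorem Ra_eqv (τ : Perm (P₂ ⊕ Z)) (f : FPM (P₁ ⊕ (P₂ ⊕ Z))) :
    Ra D Z (actF (Equiv.sumCongr (1 : Perm P₁) τ) f) = actF τ (Ra D Z f) := by
  funext a'
  have h : (conjPM (Equiv.sumCongr (1 : Perm P₁) τ)).symm ⟨combA D.a a'.1, isPM_combA D.ha a'.2⟩ =
      ⟨combA D.a ((conjPM τ).symm a').1, isPM_combA D.ha ((conjPM τ).symm a').2⟩ := by
    apply Subtype.ext
    ext x
    rcases x with x | x <;> rfl
  exact congrArg f h

theorem Rc_eqv (σ : Perm Z) (f : FPM (P₂ ⊕ Z)) :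
    Rc D Z (actF (Equiv.sumCongr (1 : Perm P₂) σ) f) = actF σ (Rc D Z f) := by
  funext a'
  have h : (conjPM (Equiv.sumCongr (1 : Perm P₂) σ)).symm
      ⟨Equiv.sumCongr D.c a'.1, isPM_sumCongr D.hc a'.2⟩ =
      ⟨Equiv.sumCongr D.c ((conjPM σ).symm a').1, isPM_sumCongr D.hc ((conjPM σ).symm a').2⟩ := by
    apply Subtype.ext
    ext x
    rcases x with x | x <;> rfl
  exact congrArg f h

omit [Fintype P₁] [Fintype P₂] [DecidableEq P₁] [DecidableEq P₂] [Fintype Z] [DecidableEq Z] in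
private theorem eqv_combB_conj (σ : Perm Z) (b : Perm (P₁ ⊕ P₂)) (b' : Perm Z) :
    (Equiv.sumCongr (1 : Perm P₁) (Equiv.sumCongr (1 : Perm P₂) σ))⁻¹ * combB b b' *
      (Equiv.sumCongr (1 : Perm P₁) (Equiv.sumCongr (1 : Perm P₂) σ)) =
      combB b (σ⁻¹ * b' * σ) := by
  ext x
  simp only [Perm.mul_apply, combB_apply]
  rcases x with x | x | x
  · have e1 : (Equiv.sumAssoc P₁ P₂ Z).symm ((Equiv.sumCongr (1 : Perm P₁)
        (Equiv.sumCongr (1 : Perm P₂) σ)) (Sum.inl x)) = Sum.inl (Sum.inl x) := rfl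
    have e2 : (Equiv.sumAssoc P₁ P₂ Z).symm (Sum.inl x) = Sum.inl (Sum.inl x) := rfl
    rw [e1, e2, Equiv.sumCongr_apply, Sum.map_inl, Equiv.sumCongr_apply, Sum.map_inl]
    rcases b (Sum.inl x) with u | u <;> rfl
  · have e1 : (Equiv.sumAssoc P₁ P₂ Z).symm ((Equiv.sumCongr (1 : Perm P₁)
        (Equiv.sumCongr (1 : Perm P₂) σ)) (Sum.inr (Sum.inl x))) = Sum.inl (Sum.inr x) := rfl
    have e2 : (Equiv.sumAssoc P₁ P₂ Z).symm (Sum.inr (Sum.inl x)) = Sum.inl (Sum.inr x) := rfl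
    rw [e1, e2, Equiv.sumCongr_apply, Sum.map_inl, Equiv.sumCongr_apply, Sum.map_inl]
    rcases b (Sum.inr x) with u | u <;> rfl
  · rfl

theorem Rb_eqv (σ : Perm Z) (g : FPM Z) :
    Rb D Z (actF σ g) =
      actF (Equiv.sumCongr (1 : Perm P₁) (Equiv.sumCongr (1 : Perm P₂) σ)) (Rb D Z g) := by
  classical
  funext x
  set τ : Perm (P₁ ⊕ (P₂ ⊕ Z)) :=
    Equiv.sumCongr (1 : Perm P₁) (Equiv.sumCongr (1 : Perm P₂) σ) with hτ
  have e1 : Rb D Z (actF σ g) x =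
      ∑ b' : PMT Z, if x.1 = combB D.b b'.1 then actF σ g b' else 0 := by
    unfold Rb
    simp only [LinearMap.coe_mk, AddHom.coe_mk]
  have e2 : actF τ (Rb D Z g) x =
      ∑ b' : PMT Z, if ((conjPM τ).symm x).1 = combB D.b b'.1 then g b' else 0 := by
    have e3 : actF τ (Rb D Z g) x = Rb D Z g ((conjPM τ).symm x) := rfl
    rw [e3]
    unfold Rb
    simp only [LinearMap.coe_mk, AddHom.coe_mk]
  rw [e1, e2]
  apply Fintype.sum_equiv (conjPM σ).symm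
  intro b'
  have h1 : (((conjPM τ).symm x).1 = combB D.b ((conjPM σ).symm b').1) ↔
      x.1 = combB D.b b'.1 := by
    have h2 : ((conjPM τ).symm x).1 = τ⁻¹ * x.1 * τ := rfl
    have h3 : ((conjPM σ).symm b').1 = σ⁻¹ * b'.1 * σ := rfl
    rw [h2, h3, ← eqv_combB_conj σ D.b b'.1]
    constructor
    · intro h
      have h4 := congrArg (fun g : Perm (P₁ ⊕ (P₂ ⊕ Z)) => τ * g * τ⁻¹) h
      simp only [← hτ, mul_assoc, mul_inv_cancel, mul_one, mul_inv_cancel_left] at h4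
      exact h4
    · intro h
      rw [h]
  by_cases h : x.1 = combB D.b b'.1
  · rw [if_pos h, if_pos (h1.2 h)]
    rfl
  · rw [if_neg h, if_neg (fun h' => h (h1.1 h'))]

theorem TT_eqv (p q z : ℕ) (σ : Perm (Fin (2 * z))) (f : FPM (Fin (2 * z))) :
    TT D p q z (actF σ f) = actF σ (TT D p q z f) := by
  unfold TT
  simp only [LinearMap.smul_apply, LinearMap.comp_apply, map_smul]
  rw [KOp_eqv, Rb_eqv, KOp_eqv, Ra_eqv, KOp_eqv, Rc_eqv]

private theorem eqv_sum_inj {α β : Type} [Fintype α] [Fintype β] (ι : α → β)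
    (hι : Function.Injective ι) (h : β → ℝ) (h0 : ∀ b, 0 ≤ h b) :
    ∑ a, h (ι a) ≤ ∑ b, h b := by
  classical
  rw [← Finset.sum_image (s := Finset.univ) (g := ι) (f := h) (fun x _ y _ hxy => hι hxy)]
  exact Finset.sum_le_sum_of_subset_of_nonneg (Finset.subset_univ _) fun b _ _ => h0 b

theorem nrm2_Ra (f : FPM (P₁ ⊕ (P₂ ⊕ Z))) : nrm2 (Ra D Z f) ≤ nrm2 f := by
  classical
  unfold nrm2
  refine eqv_sum_inj (fun a' : PMT (P₂ ⊕ Z) =>
    (⟨combA D.a a'.1, isPM_combA D.ha a'.2⟩ : PMT (P₁ ⊕ (P₂ ⊕ Z)))) ?_ (fun a => ‖f a‖ ^ 2)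
    (fun a => by positivity)
  intro a₁ a₂ h
  have h1 : combA D.a a₁.1 = combA D.a a₂.1 := congrArg Subtype.val h
  apply Subtype.ext
  ext y
  have h2 := congrArg (fun g : Perm (P₁ ⊕ (P₂ ⊕ Z)) => g (Sum.inr y)) h1
  exact Sum.inr.inj h2

theorem nrm2_Rc (f : FPM (P₂ ⊕ Z)) : nrm2 (Rc D Z f) ≤ nrm2 f := by
  classical
  unfold nrm2
  refine eqv_sum_inj (fun a' : PMT Z =>
    (⟨Equiv.sumCongr D.c a'.1, isPM_sumCongr D.hc a'.2⟩ : PMT (P₂ ⊕ Z))) ?_ (fun a => ‖f a‖ ^ 2)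
    (fun a => by positivity)
  intro a₁ a₂ h
  have h1 : (Equiv.sumCongr D.c a₁.1 : Perm (P₂ ⊕ Z)) = Equiv.sumCongr D.c a₂.1 :=
    congrArg Subtype.val h
  apply Subtype.ext
  ext y
  have h2 := congrArg (fun g : Perm (P₂ ⊕ Z) => g (Sum.inr y)) h1
  exact Sum.inr.inj h2

omit [Fintype P₁] [Fintype P₂] [DecidableEq P₁] [DecidableEq P₂] [Fintype Z] [DecidableEq Z] in
private theorem eqv_combB_inj (b : Perm (P₁ ⊕ P₂)) {b₁ b₂ : Perm Z}
    (h : combB b b₁ = combB b b₂) : b₁ = b₂ := by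
  ext y
  have h2 := congrArg (fun g : Perm (P₁ ⊕ (P₂ ⊕ Z)) => g (Sum.inr (Sum.inr y))) h
  simp only [combB_apply] at h2
  exact Sum.inr.inj ((Equiv.sumAssoc P₁ P₂ Z).injective h2)

theorem nrm2_Rb (g : FPM Z) : nrm2 (Rb D Z g) ≤ nrm2 g := by
  classical
  set ι : PMT Z → PMT (P₁ ⊕ (P₂ ⊕ Z)) := fun b' =>
    ⟨combB D.b b'.1, isPM_combB D.hb b'.2⟩ with hι
  have hinj : Function.Injective ι := by
    intro b₁ b₂ h
    exact Subtype.ext (eqv_combB_inj D.b (congrArg Subtype.val h))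
  have e1 : ∀ x, Rb D Z g x = ∑ b' : PMT Z, if x.1 = combB D.b b'.1 then g b' else 0 := by
    intro x
    unfold Rb
    simp only [LinearMap.coe_mk, AddHom.coe_mk]
  have e2 : ∀ b : PMT Z, Rb D Z g (ι b) = g b := by
    intro b
    rw [e1, Finset.sum_eq_single b]
    · rw [if_pos rfl]
    · intro b' _ hne
      rw [if_neg]
      intro h
      exact hne (Subtype.ext (eqv_combB_inj D.b h)).symm
    · intro h
      exact absurd (Finset.mem_univ b) h
  have e3 : ∀ x, x ∉ Finset.univ.image ι → Rb D Z g x = 0 := by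
    intro x hx
    rw [e1]
    apply Finset.sum_eq_zero
    intro b' _
    rw [if_neg]
    intro h
    exact hx (Finset.mem_image.2 ⟨b', Finset.mem_univ _, Subtype.ext h.symm⟩)
  have e4 : nrm2 (Rb D Z g) = ∑ x : PMT (P₁ ⊕ (P₂ ⊕ Z)), ‖Rb D Z g x‖ ^ 2 := by
    unfold nrm2
    congr!
  have e5 : nrm2 g = ∑ x : PMT Z, ‖g x‖ ^ 2 := by
    unfold nrm2
    congr!
  rw [e4, e5, ← Finset.sum_subset (Finset.subset_univ (Finset.univ.image ι)),
    Finset.sum_image (fun x _ y _ hxy => hinj hxy)]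
  · apply le_of_eq
    refine Finset.sum_congr rfl fun b _ => ?_
    rw [e2]
  · intro x _ hx
    rw [e3 x hx]
    simp

end MPbcd198.L
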