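import Pool.Agent.Lib.MP_bcd198_co.L.RelB

/-!
# JOB L/ExpL: expansion of functions of finitely many edges [2.4]

For a perfect matching `a` let `inn a` be its inner part on `W`: `inn a x = a x` if `x ∈ W` and `a x ∈ W`, and `inn a x = x` otherwise (an
involution, support in `W`).
* If `inn a = inn a'` there is a permutation `σ` fixing `W` pointwise with `σ a σ⁻¹ = a'`: for the `x ∈ W` which are not in the support
  of the inner part, `a x` and `a' x` are outside `W` (distinct for distinct `x`); let `σ (a x) = a' x`; the remaining points outside `W` are matched among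
  themselves by `a` and by `a'`, and there are equally many; take any bijection which carries the pairs of `a` to the pairs of `a'`
  (two perfect matchings on sets of the same size are isomorphic). So `f a = f a'` (`hinv` for `σ`). Hence `f a = g (inn a)` with
  `g al = f a` if there is `a` with `inn a = al`, and `g al = 0` otherwise.
* For an involution `al` with support in `W`: `fB al a = 1` iff `al ⊆ inn a` (`al x ≠ x → inn a x = al x`), otherwise `0`.
* Möbius inversion on the sub-matchings: put `x al = ∑_{al₁ ⊆ al} (-1)^(|al| - |al₁|) g al₁` (`|.|` = number of edges) for involutions with support in `W`,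
  and `x al = 0` otherwise. Then `∑_{al ⊆ β} x al = g β` for every such `β` (induction on the number of edges, or: the sub-matchings of `β`
  correspond to the subsets of the set of its edges, `Finset.sum_powerset_neg_one_pow_card`). So `f a = g (inn a) = ∑_{al} x al * fB al a`.
  (An easy alternative: define `x al` by strong recursion on the size of the support by `x al = g al - ∑_{al₁ ⊊ al} x al₁`; then the bound below
  has to be proved with a larger constant: any constant depending only on `W.card` is fine for the application, but please keep the statement.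
  Möbius via products: `1[inn a = al₁] = f_{al₁} ∏_{e ⊄ al₁} (1 - f_e)` over the pairs `e` of points of `W`.)
* Bound: every `al₁ ⊆ al` with `g al₁ ≠ 0` is `inn a` for some `a`, and `hN a al` applies (`al x = inn a x = a x` for `x ∈ W` with `a x ∈ W`... this
  needs `inn a ⊆ al`), so `‖g al₁‖ ≤ N al`. The number of `al₁ ⊆ al` is at most `2^|W|` (it is determined by its support, a subset of `W`).
-/

set_option autoImplicit false

namespace MPbcd198.L

open Equiv

/-- `al` is contained in `β` -/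
private def ExpL_le {Ω : Type} (al β : Perm Ω) : Prop := ∀ x, al x ≠ x → β x = al x

private theorem ExpL_le_trans {Ω : Type} {al β γ : Perm Ω} (h1 : ExpL_le al β)
    (h2 : ExpL_le β γ) : ExpL_le al γ := by
  intro x hx
  rw [h2 x (by rw [h1 x hx]; exact hx), h1 x hx]

private theorem ExpL_le_antisymm {Ω : Type} {al β : Perm Ω} (h1 : ExpL_le al β)
    (h2 : ExpL_le β al) : al = β := by
  ext x
  by_cases hx : al x = x
  · by_cases hy : β x = x
    · rw [hx, hy]
    · exact h2 x hy
  · exact (h1 x hx).symm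

/-- functions of the inner part -/
private theorem ExpL_conj {Ω : Type} [Fintype Ω] [DecidableEq Ω] (W : Finset Ω) (f : FPM Ω)
    (hinv : ∀ σ : Perm Ω, (∀ x ∈ W, σ x = x) → actF σ f = f) (n : ℕ) :
    ∀ a a' : PMT Ω, (∀ x ∈ W, (a.1 x ∈ W ∨ a'.1 x ∈ W) → a.1 x = a'.1 x) →
      (Finset.univ.filter fun x => a.1 x ≠ a'.1 x).card ≤ n → f a = f a' := by
  induction n with
  | zero =>
    intro a a' _ hn
    have h1 : a = a' := by
      apply Subtype.ext
      ext x
      by_contra hx
      have h2 : x ∈ Finset.univ.filter fun x => a.1 x ≠ a'.1 x :=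
        Finset.mem_filter.2 ⟨Finset.mem_univ _, hx⟩
      rw [Finset.card_eq_zero.1 (Nat.le_zero.1 hn)] at h2
      exact absurd h2 (Finset.notMem_empty _)
    rw [h1]
  | succ n ih =>
    intro a a' h hn
    by_cases haa : a = a'
    · rw [haa]
    have hex : ∃ x, a.1 x ≠ a'.1 x ∧ a.1 x ∉ W ∧ a'.1 x ∉ W := by
      by_cases hW : ∃ x ∈ W, a.1 x ≠ a'.1 x
      · obtain ⟨x, hx, hne⟩ := hW
        exact ⟨x, hne, fun h1 => hne (h x hx (Or.inl h1)), fun h1 => hne (h x hx (Or.inr h1))⟩
      · push Not at hW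
        have h1 : ∃ x, a.1 x ≠ a'.1 x := by
          by_contra hcon
          push Not at hcon
          exact haa (Subtype.ext (Equiv.ext hcon))
        obtain ⟨x, hx⟩ := h1
        refine ⟨x, hx, fun h1 => hx ?_, fun h1 => hx ?_⟩
        · have h2 := hW _ h1
          rw [(a.2 x).2] at h2
          have h3 := congrArg a'.1 h2
          rw [(a'.2 _).2] at h3
          exact h3.symm
        · have h2 := hW _ h1
          rw [(a'.2 x).2] at h2
          have h3 := congrArg a.1 h2
          rw [(a.2 _).2] at h3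
          exact h3.symm
    obtain ⟨x, hx, hy, hz⟩ := hex
    obtain ⟨τ, hτ⟩ : ∃ τ : Perm Ω, τ = swap (a.1 x) (a'.1 x) := ⟨_, rfl⟩
    have hτ2 : ∀ u, τ (τ u) = u := by
      intro u
      rw [hτ, swap_apply_self]
    have hτne : ∀ u, u ≠ a.1 x → u ≠ a'.1 x → τ u = u := by
      intro u h1 h2
      rw [hτ]
      exact swap_apply_of_ne_of_ne h1 h2
    have hτW : ∀ w ∈ W, τ w = w := by
      intro w hw
      exact hτne w (fun h1 => hy (h1 ▸ hw)) (fun h1 => hz (h1 ▸ hw))
    obtain ⟨a'', ha''⟩ : ∃ a'' : PMT Ω, a'' = conjPM τ a := ⟨_, rfl⟩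
    have hf : f a'' = f a := by
      have h1 := hinv τ hτW
      calc f a'' = (actF τ f) a'' := by rw [h1]
        _ = f ((conjPM τ).symm a'') := rfl
        _ = f a := by rw [ha'', Equiv.symm_apply_apply]
    have happ : ∀ u, a''.1 u = τ (a.1 (τ u)) := by
      intro u
      have h1 : τ⁻¹ = τ := by
        rw [hτ, swap_inv]
      have h2 : a''.1 = τ * a.1 * τ⁻¹ := by
        rw [ha'']
        rfl
      rw [h2, h1, Perm.mul_apply, Perm.mul_apply]
    rw [← hf]
    apply ih
    · intro u hu hor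
      rw [happ, hτW u hu] at hor ⊢
      by_cases hau : a.1 u ∈ W
      · rw [hτW _ hau]
        exact h u hu (Or.inl hau)
      · exfalso
        rcases hor with hor | hor
        · apply hau
          have h1 := hτW _ hor
          rw [hτ2] at h1
          rw [h1]
          exact hor
        · apply hau
          rw [h u hu (Or.inr hor)]
          exact hor
    · have hlt : (Finset.univ.filter fun u => a''.1 u ≠ a'.1 u).card <
          (Finset.univ.filter fun u => a.1 u ≠ a'.1 u).card := by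
        apply Finset.card_lt_card
        rw [Finset.ssubset_iff_of_subset]
        · refine ⟨x, Finset.mem_filter.2 ⟨Finset.mem_univ _, hx⟩, ?_⟩
          intro h1
          apply (Finset.mem_filter.1 h1).2
          rw [happ, hτne x (a.2 x).1.symm (a'.2 x).1.symm, hτ, swap_apply_left]
        · intro u hu
          refine Finset.mem_filter.2 ⟨Finset.mem_univ _, fun h1 => (Finset.mem_filter.1 hu).2 ?_⟩
          have hux : u ≠ x := fun h2 => hx (by rw [← h2]; exact h1)
          have huy : u ≠ a.1 x := by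
            intro h2
            apply hx
            rw [h2, (a.2 x).2] at h1
            have h3 := congrArg a'.1 h1
            rw [(a'.2 _).2] at h3
            exact h3.symm
          have huz : u ≠ a'.1 x := by
            intro h2
            apply hx
            rw [h2, (a'.2 x).2] at h1
            have h3 := congrArg a.1 h1
            rw [(a.2 _).2] at h3
            exact h3.symm
          rw [happ, hτne u huy huz, hτne, h1]
          · intro h2
            exact hux (a.1.injective h2)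
          · intro h2
            rw [h1] at h2
            exact hux (a'.1.injective h2)
      omega

/-- the inner part, as a function -/
private def ExpL_innF {Ω : Type} [DecidableEq Ω] (W : Finset Ω) (a : Perm Ω) (x : Ω) : Ω :=
  if x ∈ W ∧ a x ∈ W then a x else x

private theorem ExpL_innF_inv {Ω : Type} [DecidableEq Ω] (W : Finset Ω) {a : Perm Ω}
    (ha : IsInv a) : Function.Involutive (ExpL_innF W a) := by
  intro x
  by_cases h : x ∈ W ∧ a x ∈ W
  · have h1 : ExpL_innF W a x = a x := if_pos h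
    rw [h1]
    unfold ExpL_innF
    rw [ha x, if_pos ⟨h.2, h.1⟩]
  · have h1 : ExpL_innF W a x = x := if_neg h
    rw [h1, h1]

/-- the inner part -/
private def ExpL_inn {Ω : Type} [DecidableEq Ω] (W : Finset Ω) (a : PMT Ω) : Perm Ω :=
  Function.Involutive.toPerm _ (ExpL_innF_inv W (IsPM.isInv a.2))

private theorem ExpL_inn_inv {Ω : Type} [DecidableEq Ω] (W : Finset Ω) (a : PMT Ω) :
    IsInv (ExpL_inn W a) := ExpL_innF_inv W (IsPM.isInv a.2)

private theorem ExpL_inn_pos {Ω : Type} [DecidableEq Ω] {W : Finset Ω} {a : PMT Ω} {x : Ω}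
    (h1 : x ∈ W) (h2 : a.1 x ∈ W) : ExpL_inn W a x = a.1 x := if_pos ⟨h1, h2⟩

private theorem ExpL_inn_ne {Ω : Type} [DecidableEq Ω] {W : Finset Ω} {a : PMT Ω} {x : Ω}
    (h : ExpL_inn W a x ≠ x) : x ∈ W ∧ a.1 x ∈ W ∧ ExpL_inn W a x = a.1 x := by
  by_cases h1 : x ∈ W ∧ a.1 x ∈ W
  · exact ⟨h1.1, h1.2, if_pos h1⟩
  · exact absurd (if_neg h1) h

private theorem ExpL_inn_eq {Ω : Type} [Fintype Ω] [DecidableEq Ω] {W : Finset Ω} {f : FPM Ω}
    (hinv : ∀ σ : Perm Ω, (∀ x ∈ W, σ x = x) → actF σ f = f) {a a' : PMT Ω}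
    (h : ExpL_inn W a = ExpL_inn W a') : f a = f a' := by
  refine ExpL_conj W f hinv _ a a' (fun x hx hor => ?_) le_rfl
  have h0 : ExpL_inn W a x = ExpL_inn W a' x := by rw [h]
  rcases hor with h1 | h1
  · have h2 := ExpL_inn_pos hx h1
    rw [h2] at h0
    have h3 : ExpL_inn W a' x ≠ x := by
      rw [← h0]
      exact (a.2 x).1
    rw [h0, (ExpL_inn_ne h3).2.2]
  · have h2 := ExpL_inn_pos hx h1
    rw [h2] at h0
    have h3 : ExpL_inn W a x ≠ x := by
      rw [h0]
      exact (a'.2 x).1
    rw [← h0, (ExpL_inn_ne h3).2.2]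

/-- toggling an edge -/
private theorem ExpL_toggle {Ω : Type} [DecidableEq Ω] {al al₁ β : Perm Ω} (hβ : IsInv β)
    (h1 : IsInv al₁) (hle : ExpL_le al₁ β) {y : Ω} (hy : al₁ y = y) (hβy : β y ≠ y)
    (ha : IsInv al) (ha1 : ExpL_le al β) (ha2 : ExpL_le al₁ al) :
    IsInv (swap y (β y) * al) ∧ ExpL_le (swap y (β y) * al) β ∧
      ExpL_le al₁ (swap y (β y) * al) := by
  have hz : al₁ (β y) = β y := by
    by_contra h
    have h2 := hle _ h
    rw [hβ y] at h2
    apply hβy
    have h3 := congrArg al₁ h2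
    rw [h1 (β y), hy] at h3
    exact h3.symm
  by_cases hay : al y = y
  · have haz : al (β y) = β y := by
      by_contra h
      have h2 := ha1 _ h
      rw [hβ y] at h2
      apply hβy
      have h3 := congrArg al h2
      rw [ha (β y), hay] at h3
      exact h3.symm
    have hne : ∀ u, u ≠ y → u ≠ β y → (swap y (β y) * al) u = al u := by
      intro u hu1 hu2
      rw [Perm.mul_apply]
      refine swap_apply_of_ne_of_ne (fun h => hu1 ?_) (fun h => hu2 ?_)
      · rw [← ha u, h, hay]
      · rw [← ha u, h, haz]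
    refine ⟨swap_mul_inv ha hay haz, ?_, ?_⟩
    · intro u hu
      by_cases hu1 : u = y
      · rw [hu1, Perm.mul_apply, hay, swap_apply_left]
      · by_cases hu2 : u = β y
        · rw [hu2, Perm.mul_apply, haz, swap_apply_right, hβ y]
        · rw [hne u hu1 hu2] at hu ⊢
          exact ha1 u hu
    · intro u hu
      have hu1 : u ≠ y := fun h => hu (by rw [h, hy])
      have hu2 : u ≠ β y := fun h => hu (by rw [h, hz])
      rw [hne u hu1 hu2]
      exact ha2 u hu
  · have hayz : β y = al y := ha1 y hay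
    have hrem : swap y (β y) * al = rem al y := by
      unfold rem
      rw [hayz]
    rw [hrem]
    refine ⟨rem_inv ha y, ?_, ?_⟩
    · intro u hu
      have h2 := rem_le ha y u hu
      rw [← h2]
      apply ha1
      rw [h2]
      exact hu
    · intro u hu
      have hu1 : u ≠ y := fun h => hu (by rw [h, hy])
      have hu2 : u ≠ al y := fun h => hu (by rw [h, ← hayz, hz])
      rw [rem_of_ne ha hu1 hu2]
      exact ha2 u hu

open Classical in
/-- the involutions contained in `β` -/
private noncomputable def ExpL_sub {Ω : Type} [Fintype Ω] (β : Perm Ω) : Finset (Perm Ω) :=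
  Finset.univ.filter fun al => IsInv al ∧ ExpL_le al β

private theorem ExpL_mem_sub {Ω : Type} [Fintype Ω] {al β : Perm Ω} :
    al ∈ ExpL_sub β ↔ IsInv al ∧ ExpL_le al β := by
  classical
  unfold ExpL_sub
  exact Finset.mem_filter.trans ⟨fun h => h.2, fun h => ⟨Finset.mem_univ _, h⟩⟩

open Classical in
/-- the involutions between `al₁` and `β` -/
private noncomputable def ExpL_up {Ω : Type} [Fintype Ω] (β al₁ : Perm Ω) : Finset (Perm Ω) :=
  (ExpL_sub β).filter fun al => al₁ ∈ ExpL_sub al

private theorem ExpL_mem_up {Ω : Type} [Fintype Ω] {al al₁ β : Perm Ω} :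
    al ∈ ExpL_up β al₁ ↔ al ∈ ExpL_sub β ∧ al₁ ∈ ExpL_sub al := by
  classical
  unfold ExpL_up
  exact Finset.mem_filter

/-- the sign of a permutation, as a complex number -/
private noncomputable def ExpL_sg {Ω : Type} [Fintype Ω] [DecidableEq Ω] (al : Perm Ω) : ℂ :=
  ((Perm.sign al : ℤ) : ℂ)

private theorem ExpL_sg_swap {Ω : Type} [Fintype Ω] [DecidableEq Ω] {x y : Ω} (h : x ≠ y)
    (al : Perm Ω) : ExpL_sg (swap x y * al) = -ExpL_sg al := by
  unfold ExpL_sg
  rw [Perm.sign_mul, Perm.sign_swap h]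
  simp

private theorem ExpL_sg_sq {Ω : Type} [Fintype Ω] [DecidableEq Ω] (β : Perm Ω) :
    ExpL_sg β * ExpL_sg β = 1 := by
  unfold ExpL_sg
  rcases Int.units_eq_one_or (Perm.sign β) with h | h
  · rw [h]
    simp
  · rw [h]
    simp

private theorem ExpL_sg_norm {Ω : Type} [Fintype Ω] [DecidableEq Ω] (β : Perm Ω) :
    ‖ExpL_sg β‖ = 1 := by
  unfold ExpL_sg
  rcases Int.units_eq_one_or (Perm.sign β) with h | h
  · rw [h]
    simp
  · rw [h]
    simp

private theorem ExpL_sum_zero {Ω : Type} [Fintype Ω] [DecidableEq Ω] {β al₁ : Perm Ω}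
    (hβ : IsInv β) (h1 : al₁ ∈ ExpL_sub β) (hne : al₁ ≠ β) :
    ∑ al ∈ ExpL_up β al₁, ExpL_sg al = 0 := by
  obtain ⟨h2, h3⟩ := ExpL_mem_sub.1 h1
  have h4 : ∃ y, al₁ y ≠ β y := by
    by_contra hcon
    push Not at hcon
    exact hne (Equiv.ext hcon)
  obtain ⟨y, hy⟩ := h4
  have hy1 : al₁ y = y := by
    by_contra h
    exact hy (h3 y h).symm
  have hy2 : β y ≠ y := by
    intro h
    apply hy
    rw [hy1, h]
  refine Finset.sum_involution (fun al _ => swap y (β y) * al) ?_ ?_ ?_ ?_
  · intro al _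
    rw [ExpL_sg_swap hy2.symm, add_neg_cancel]
  · intro al _ _ h
    have h5 : swap y (β y) = 1 := by
      have h6 := congrArg (fun g => g * al⁻¹) h
      beta_reduce at h6
      rwa [mul_inv_cancel_right, mul_inv_cancel] at h6
    have h6 := congrArg (fun g : Perm Ω => g y) h5
    beta_reduce at h6
    rw [swap_apply_left, Perm.one_apply] at h6
    exact hy2 h6
  · intro al hal
    obtain ⟨h5, h6⟩ := ExpL_mem_up.1 hal
    obtain ⟨h7, h8⟩ := ExpL_mem_sub.1 h5
    obtain ⟨_, h9⟩ := ExpL_mem_sub.1 h6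
    obtain ⟨k1, k2, k3⟩ := ExpL_toggle hβ h2 h3 hy1 hy2 h7 h8 h9
    exact ExpL_mem_up.2 ⟨ExpL_mem_sub.2 ⟨k1, k2⟩, ExpL_mem_sub.2 ⟨h2, k3⟩⟩
  · intro al _
    rw [← mul_assoc, swap_mul_self, one_mul]

/-- Moebius inversion -/
private theorem ExpL_moebius {Ω : Type} [Fintype Ω] [DecidableEq Ω] {β : Perm Ω} (hβ : IsInv β)
    (g : Perm Ω → ℂ) :
    ∑ al ∈ ExpL_sub β, ∑ al₁ ∈ ExpL_sub al, ExpL_sg al * (ExpL_sg al₁ * g al₁) = g β := by
  have hββ : β ∈ ExpL_sub β := ExpL_mem_sub.2 ⟨hβ, fun x _ => rfl⟩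
  have h0 : ∑ al ∈ ExpL_sub β, ∑ al₁ ∈ ExpL_sub al, ExpL_sg al * (ExpL_sg al₁ * g al₁) =
      ∑ al₁ ∈ ExpL_sub β, (∑ al ∈ ExpL_up β al₁, ExpL_sg al) * (ExpL_sg al₁ * g al₁) := by
    rw [Finset.sum_comm' (s' := fun al₁ => ExpL_up β al₁) (t' := ExpL_sub β)]
    · exact Finset.sum_congr rfl fun al₁ _ => (Finset.sum_mul _ _ _).symm
    · intro al al₁
      constructor
      · rintro ⟨h1, h2⟩
        refine ⟨ExpL_mem_up.2 ⟨h1, h2⟩, ?_⟩
        obtain ⟨h3, h4⟩ := ExpL_mem_sub.1 h1
        obtain ⟨h5, h6⟩ := ExpL_mem_sub.1 h2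
        exact ExpL_mem_sub.2 ⟨h5, ExpL_le_trans h6 h4⟩
      · rintro ⟨h1, _⟩
        exact ExpL_mem_up.1 h1
  have h1 : ∑ al ∈ ExpL_up β β, ExpL_sg al = ExpL_sg β := by
    refine Finset.sum_eq_single β ?_ ?_
    · intro al hal hne
      exfalso
      obtain ⟨h5, h6⟩ := ExpL_mem_up.1 hal
      exact hne (ExpL_le_antisymm (ExpL_mem_sub.1 h5).2 (ExpL_mem_sub.1 h6).2)
    · intro h
      exact absurd (ExpL_mem_up.2 ⟨hββ, hββ⟩) h
  rw [h0, Finset.sum_eq_single β]
  · rw [h1, ← mul_assoc, ExpL_sg_sq, one_mul]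
  · intro al₁ hal₁ hne
    rw [ExpL_sum_zero hβ hal₁ hne, zero_mul]
  · intro h
    exact absurd hββ h

/-- the number of sub-matchings -/
private theorem ExpL_card_sub {Ω : Type} [Fintype Ω] [DecidableEq Ω] {W : Finset Ω} {al : Perm Ω}
    (hal : ∀ y, al y ≠ y → y ∈ W) : (ExpL_sub al).card ≤ 2 ^ W.card := by
  rw [← Finset.card_powerset]
  refine Finset.card_le_card_of_injOn (fun al₁ => al₁.support) ?_ ?_
  · intro al₁ h1
    obtain ⟨_, h2⟩ := ExpL_mem_sub.1 (Finset.mem_coe.1 h1)
    rw [Finset.mem_coe, Finset.mem_powerset]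
    intro x hx
    rw [Perm.mem_support] at hx
    apply hal
    rw [h2 x hx]
    exact hx
  · intro al₁ h1 al₂ h2 h12
    obtain ⟨_, h3⟩ := ExpL_mem_sub.1 (Finset.mem_coe.1 h1)
    obtain ⟨_, h4⟩ := ExpL_mem_sub.1 (Finset.mem_coe.1 h2)
    beta_reduce at h12
    ext x
    by_cases hx : al₁ x = x
    · have hx2 : al₂ x = x := by
        by_contra h
        have h5 : x ∈ al₂.support := Perm.mem_support.2 h
        rw [← h12, Perm.mem_support] at h5
        exact h5 hx
      rw [hx, hx2]
    · have hx2 : al₂ x ≠ x := by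
        intro h
        have h5 : x ∈ al₁.support := Perm.mem_support.2 hx
        rw [h12, Perm.mem_support] at h5
        exact h5 h
      rw [← h3 x hx, ← h4 x hx2]

theorem expand {Ω : Type} [Fintype Ω] [DecidableEq Ω] (W : Finset Ω) (f : FPM Ω)
    (N : Perm Ω → ℝ) (hinv : ∀ σ : Perm Ω, (∀ x ∈ W, σ x = x) → actF σ f = f)
    (hN0 : ∀ al, 0 ≤ N al)
    (hN : ∀ (a : PMT Ω) (al : Perm Ω), IsInv al → (∀ x, al x ≠ x → x ∈ W) →
      (∀ x ∈ W, a.1 x ∈ W → al x = a.1 x) → ‖f a‖ ≤ N al) :
    ∃ x : Perm Ω → ℂ, (∀ al, x al ≠ 0 → IsInv al ∧ ∀ y, al y ≠ y → y ∈ W) ∧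
      f = ∑ al, x al • fB al ∧ ∀ al, ‖x al‖ ≤ 2 ^ W.card * N al := by
  classical
  obtain ⟨g, hg⟩ : ∃ g : Perm Ω → ℂ, g = fun al₁ =>
    if h : ∃ a : PMT Ω, ExpL_inn W a = al₁ then f h.choose else 0 := ⟨_, rfl⟩
  have hg1 : ∀ a : PMT Ω, g (ExpL_inn W a) = f a := by
    intro a
    have h1 : ∃ a' : PMT Ω, ExpL_inn W a' = ExpL_inn W a := ⟨a, rfl⟩
    have h2 : g (ExpL_inn W a) = f h1.choose := by
      rw [hg]
      exact dif_pos h1
    rw [h2]
    exact ExpL_inn_eq hinv h1.choose_spec
  have hg2 : ∀ al₁, g al₁ ≠ 0 → ∃ a : PMT Ω, ExpL_inn W a = al₁ := by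
    intro al₁ h1
    by_contra h2
    apply h1
    rw [hg]
    exact dif_neg h2
  refine ⟨fun al => if IsInv al ∧ ∀ y, al y ≠ y → y ∈ W then ∑ al₁ ∈ ExpL_sub al,
    ExpL_sg al * (ExpL_sg al₁ * g al₁) else 0, ?_, ?_, ?_⟩
  · intro al h1
    by_contra h2
    exact h1 (if_neg h2)
  · funext a
    rw [Finset.sum_apply]
    have hβ := ExpL_inn_inv W a
    rw [← hg1 a, ← ExpL_moebius hβ g]
    have h1 : ∀ al ∈ ExpL_sub (ExpL_inn W a), IsInv al ∧ ∀ y, al y ≠ y → y ∈ W := by
      intro al hal
      obtain ⟨h2, h3⟩ := ExpL_mem_sub.1 hal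
      refine ⟨h2, fun y hy => ?_⟩
      have h4 : ExpL_inn W a y ≠ y := by
        rw [h3 y hy]
        exact hy
      exact (ExpL_inn_ne h4).1
    have h2 : ∑ al ∈ ExpL_sub (ExpL_inn W a), ∑ al₁ ∈ ExpL_sub al,
        ExpL_sg al * (ExpL_sg al₁ * g al₁) =
        ∑ al, if al ∈ ExpL_sub (ExpL_inn W a) then ∑ al₁ ∈ ExpL_sub al,
          ExpL_sg al * (ExpL_sg al₁ * g al₁) else 0 := by
      rw [← Finset.sum_filter]
      refine Finset.sum_congr ?_ fun _ _ => rfl
      ext al
      rw [Finset.mem_filter]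
      exact ⟨fun h => ⟨Finset.mem_univ _, h⟩, fun h => h.2⟩
    rw [h2]
    refine Finset.sum_congr rfl fun al _ => ?_
    rw [Pi.smul_apply, smul_eq_mul]
    beta_reduce
    by_cases h3 : al ∈ ExpL_sub (ExpL_inn W a)
    · rw [if_pos h3, if_pos (h1 al h3)]
      have h4 : fB al a = 1 := by
        unfold fB
        rw [if_pos]
        intro x hx
        obtain ⟨_, h5⟩ := ExpL_mem_sub.1 h3
        have h6 : ExpL_inn W a x ≠ x := by
          rw [h5 x hx]
          exact hx
        rw [← (ExpL_inn_ne h6).2.2, h5 x hx]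
      rw [h4, mul_one]
    · rw [if_neg h3]
      by_cases h4 : IsInv al ∧ ∀ y, al y ≠ y → y ∈ W
      · have h5 : fB al a = 0 := by
          unfold fB
          rw [if_neg]
          intro h6
          apply h3
          refine ExpL_mem_sub.2 ⟨h4.1, fun x hx => ?_⟩
          have h7 : a.1 x ∈ W := by
            rw [h6 x hx]
            apply h4.2
            rw [h4.1 x]
            exact hx.symm
          rw [ExpL_inn_pos (h4.2 x hx) h7, h6 x hx]
        rw [h5, mul_zero]
      · rw [if_neg h4, zero_mul]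
  · intro al
    by_cases h4 : IsInv al ∧ ∀ y, al y ≠ y → y ∈ W
    · beta_reduce
      rw [if_pos h4]
      refine (norm_sum_le _ _).trans ?_
      have h5 : ∀ al₁ ∈ ExpL_sub al,
          ‖ExpL_sg al * (ExpL_sg al₁ * g al₁)‖ ≤ N al := by
        intro al₁ hal₁
        rw [norm_mul, norm_mul, ExpL_sg_norm, ExpL_sg_norm, one_mul, one_mul]
        by_cases h7 : g al₁ = 0
        · rw [h7, norm_zero]
          exact hN0 al
        · obtain ⟨a, ha⟩ := hg2 al₁ h7
          rw [← ha, hg1]
          refine hN a al h4.1 h4.2 fun x hx hax => ?_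
          obtain ⟨_, h8⟩ := ExpL_mem_sub.1 hal₁
          rw [← ha] at h8
          have h9 := ExpL_inn_pos hx hax
          have h10 : ExpL_inn W a x ≠ x := by
            rw [h9]
            exact (a.2 x).1
          rw [h8 x h10, h9]
      refine (Finset.sum_le_card_nsmul _ _ _ h5).trans ?_
      rw [nsmul_eq_mul]
      refine mul_le_mul_of_nonneg_right ?_ (hN0 al)
      exact_mod_cast ExpL_card_sub h4.2
    · beta_reduce
      rw [if_neg h4, norm_zero]
      exact mul_nonneg (by positivity) (hN0 al)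

end MPbcd198.L
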