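import Pool.Agent.Lib.MP_bcd198_co.L.PrUp
import Pool.Agent.Lib.MP_bcd198_co.L.ExpL

/-!
# JOB L/ExpK: expansion of conditional probabilities [2.5, general form]

`expQ`: `Q` is a fixed finite set with a matching `d`; the function `f a' = pr r (d ⊔ a') β` on the perfect matchings of `Ω₀`. Apply `expand` with
`W = {y : β (inr y) ≠ inr y}` (`|W| ≤ |support β| ≤ w`) and
`N al = C m^(-|support β|/2 + |clo r (d ⊔ al) β|/2r)`, `C` from `pr_le r w`; final constant `2^w C`.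
* `hinv`: let `σ` fix `W` pointwise and `τ = 1 ⊔ σ` on `Q ⊕ Ω₀`. `τ` fixes the support of `β` pointwise, so `τ β τ⁻¹ = β`, and
  `d ⊔ σ⁻¹ a' σ = τ⁻¹ (d ⊔ a') τ`; `pr_conj`.
* `hN`: `a'`, `al` with `al y = a' y` for `y ∈ W`, `a' y ∈ W`. By `pr_le` (for `d ⊔ a'`) it is enough that
  `clo r (d ⊔ a') β ⊆ clo r (d ⊔ al) β`, which is `clo_mono`: let `x` be in the left side. If `x = inl q` both maps are `d`. If `x = inr y`: `β` moves `x`
  (`clo_spec`), so `y ∈ W`; `(d ⊔ a') x = inr (a' y)` is in `clo` too (`clo_left`), so `a' y ∈ W`; hence `al y = a' y`. (`m ≥ 1`: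
  `m^e` is increasing in `e`.)
`expK`: the same without `Q`: `f = KOp Ω r (fB β)` (`KOp_fB`), `W` = support of `β`.
-/

set_option autoImplicit false

namespace MPbcd198.L

open Equiv

private lemma ExpK_comm {Ω : Type} {β τ : Perm Ω} (hβ : IsInv β)
    (h : ∀ x, β x ≠ x → τ x = x) : β * τ = τ * β := by
  ext x
  rw [Perm.mul_apply, Perm.mul_apply]
  by_cases hx : β x = x
  · rw [hx]
    by_contra hne
    have h1 := h (τ x) hne
    have h2 : τ x = x := τ.injective h1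
    rw [h2] at hne
    exact hne hx
  · have h1 : β (β x) ≠ β x := by
      rw [hβ]
      exact fun h2 => hx h2.symm
    rw [h x hx, h (β x) h1]

private lemma ExpK_pr {Ω : Type} (r : ℕ) (a : Perm Ω) {β τ : Perm Ω} (hβ : IsInv β)
    (h : ∀ x, β x ≠ x → τ x = x) : pr r (τ⁻¹ * a * τ) β = pr r a β := by
  have h1 : τ⁻¹ * β * τ = β := by
    rw [mul_assoc, ExpK_comm hβ h, ← mul_assoc, inv_mul_cancel, one_mul]
  have h2 := pr_conj (r := r) (a := a) (β := β) τ⁻¹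
  rw [inv_inv, h1] at h2
  exact h2

private lemma ExpK_norm (t : ℝ) (ht : 0 ≤ t) : ‖(t : ℂ)‖ = t := by
  rw [Complex.norm_real, Real.norm_of_nonneg ht]

private lemma ExpK_mono {C m e e' : ℝ} (hC : 0 < C) (hm : 1 ≤ m) (h : e ≤ e') :
    C * m ^ e ≤ C * m ^ e' :=
  mul_le_mul_of_nonneg_left (Real.rpow_le_rpow_of_exponent_le hm h) hC.le

private lemma ExpK_exp {r : ℕ} (s : ℝ) {c c' : ℕ} (h : c ≤ c') :
    -s / 2 + (c : ℝ) / (2 * r) ≤ -s / 2 + (c' : ℝ) / (2 * r) := by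
  have h1 : (c : ℝ) ≤ c' := by exact_mod_cast h
  have h2 : (c : ℝ) / (2 * r) ≤ (c' : ℝ) / (2 * r) :=
    div_le_div_of_nonneg_right h1 (by positivity)
  linarith

private lemma ExpK_final {C m e x : ℝ} {k w : ℕ} (hC : 0 < C) (hm : 1 ≤ m) (hk : k ≤ w)
    (h : x ≤ 2 ^ k * (C * m ^ e)) : x ≤ 2 ^ w * C * m ^ e := by
  refine h.trans ?_
  rw [mul_assoc]
  have hm0 : 0 < m := lt_of_lt_of_le one_pos hm
  refine mul_le_mul_of_nonneg_right (pow_le_pow_right₀ (by norm_num) hk) ?_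
  exact (mul_pos hC (Real.rpow_pos_of_pos hm0 e)).le

theorem expQ (r w : ℕ) (hr : 1 ≤ r) : ∃ C : ℝ, 0 < C ∧
    ∀ (Q Ω₀ : Type) [Fintype Q] [DecidableEq Q] [Fintype Ω₀] [DecidableEq Ω₀] (m : ℕ),
      Fintype.card (Q ⊕ Ω₀) = 2 * m → 1 ≤ m → ∀ (d : Perm Q) (β : Perm (Q ⊕ Ω₀)), IsPM d →
        IsInv β → β.support.card ≤ w →
        ∃ x : Perm Ω₀ → ℂ,
          (∀ al, x al ≠ 0 → IsInv al ∧ ∀ y, al y ≠ y → β (Sum.inr y) ≠ Sum.inr y) ∧
          (∀ a' : PMT Ω₀, ((pr r (Equiv.sumCongr d a'.1) β : ℝ) : ℂ) = ∑ al, x al * fB al a') ∧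
          ∀ al, ‖x al‖ ≤ C * (m : ℝ) ^ (-(β.support.card : ℝ) / 2 +
            ((clo r (Equiv.sumCongr d al) β).card : ℝ) / (2 * r)) := by
  obtain ⟨C, hC, hpr⟩ := pr_le r w hr
  refine ⟨2 ^ w * C, by positivity, ?_⟩
  intro Q Ω₀ _ _ _ _ m hcard hm d β hd hβ hw
  have hm' : (1 : ℝ) ≤ m := by exact_mod_cast hm
  obtain ⟨W, hW⟩ : ∃ W : Finset Ω₀, W = Finset.univ.filter fun y => β (Sum.inr y) ≠ Sum.inr y :=
    ⟨_, rfl⟩
  have hmW : ∀ y, y ∈ W ↔ β (Sum.inr y) ≠ Sum.inr y := by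
    intro y
    rw [hW]
    simp
  have hWw : W.card ≤ w := by
    refine le_trans ?_ hw
    rw [← Finset.card_map ⟨(Sum.inr : Ω₀ → Q ⊕ Ω₀), Sum.inr_injective⟩]
    apply Finset.card_le_card
    intro x hx
    obtain ⟨y, hy, rfl⟩ := Finset.mem_map.1 hx
    rw [Perm.mem_support]
    exact (hmW y).1 hy
  obtain ⟨x, hx1, hx2, hx3⟩ := expand W
    (fun a' => ((pr r (Equiv.sumCongr d a'.1) β : ℝ) : ℂ))
    (fun al => C * (m : ℝ) ^ (-(β.support.card : ℝ) / 2 +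
            ((clo r (Equiv.sumCongr d al) β).card : ℝ) / (2 * r))) (by
      intro σ hσ
      funext a'
      show ((pr r (Equiv.sumCongr d (σ⁻¹ * a'.1 * σ)) β : ℝ) : ℂ) =
        ((pr r (Equiv.sumCongr d a'.1) β : ℝ) : ℂ)
      have h1 : (Equiv.sumCongr d (σ⁻¹ * a'.1 * σ) : Perm (Q ⊕ Ω₀)) =
          (Equiv.sumCongr (1 : Perm Q) σ : Perm (Q ⊕ Ω₀))⁻¹ * Equiv.sumCongr d a'.1 *
            (Equiv.sumCongr (1 : Perm Q) σ : Perm (Q ⊕ Ω₀)) := by
        ext x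
        rcases x with x | x
        · rfl
        · rfl
      rw [h1, ExpK_pr r _ hβ]
      rintro (q | y) hy
      · rfl
      · show Sum.inr (σ y) = Sum.inr y
        rw [hσ y ((hmW y).2 hy)]) (by
      intro al
      have hm0 : (0 : ℝ) < m := lt_of_lt_of_le one_pos hm'
      exact (mul_pos hC (Real.rpow_pos_of_pos hm0 _)).le) (by
      intro a al hal _ h2
      show ‖((pr r (Equiv.sumCongr d a.1) β : ℝ) : ℂ)‖ ≤ _
      rw [ExpK_norm _ (pr_nonneg _ _ _)]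
      refine (hpr (Q ⊕ Ω₀) m hcard hm (Equiv.sumCongr d a.1) β (isPM_sumCongr hd a.2) hβ hw).trans ?_
      refine ExpK_mono hC hm' (ExpK_exp _ (Finset.card_le_card ?_))
      have hinv : IsInv (Equiv.sumCongr d al : Perm (Q ⊕ Ω₀)) := by
        rintro (q | y)
        · exact congrArg Sum.inl (hd q).2
        · exact congrArg Sum.inr (hal y)
      refine clo_mono hinv hβ ?_
      intro x hx
      refine ⟨?_, rfl⟩
      rcases x with q | y
      · rfl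
      · have h3 : β (Sum.inr y) ≠ Sum.inr y := (clo_spec hx).2.1
        have h4 : (Equiv.sumCongr d a.1 : Perm (Q ⊕ Ω₀)) (Sum.inr y) ∈
            clo r (Equiv.sumCongr d a.1) β := clo_left hx
        have h5 : β (Sum.inr (a.1 y)) ≠ Sum.inr (a.1 y) := (clo_spec h4).2.1
        show Sum.inr (al y) = Sum.inr (a.1 y)
        rw [h2 y ((hmW y).2 h3) ((hmW _).2 h5)])
  refine ⟨x, ?_, ?_, ?_⟩
  · intro al hal
    obtain ⟨h1, h2⟩ := hx1 al hal
    exact ⟨h1, fun y hy => (hmW y).1 (h2 y hy)⟩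
  · intro a'
    have h1 := congrFun hx2 a'
    rw [Finset.sum_apply] at h1
    exact h1
  · intro al
    exact ExpK_final hC hm' hWw (hx3 al)

theorem expK (r w : ℕ) (hr : 1 ≤ r) : ∃ C : ℝ, 0 < C ∧
    ∀ (Ω : Type) [Fintype Ω] [DecidableEq Ω] (m : ℕ),
      Fintype.card Ω = 2 * m → 1 ≤ m → ∀ β : Perm Ω, IsInv β → β.support.card ≤ w →
        ∃ x : Perm Ω → ℂ,
          (∀ al, x al ≠ 0 → IsInv al ∧ ∀ y, al y ≠ y → β y ≠ y) ∧
          KOp Ω r (fB β) = ∑ al, x al • fB al ∧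
          ∀ al, ‖x al‖ ≤ C * (m : ℝ) ^ (-(β.support.card : ℝ) / 2 +
            ((clo r al β).card : ℝ) / (2 * r)) := by
  obtain ⟨C, hC, hpr⟩ := pr_le r w hr
  refine ⟨2 ^ w * C, by positivity, ?_⟩
  intro Ω _ _ m hcard hm β hβ hw
  have hm' : (1 : ℝ) ≤ m := by exact_mod_cast hm
  have hmW : ∀ y, y ∈ β.support ↔ β y ≠ y := fun y => Perm.mem_support
  obtain ⟨x, hx1, hx2, hx3⟩ := expand β.support (KOp Ω r (fB β))
    (fun al => C * (m : ℝ) ^ (-(β.support.card : ℝ) / 2 +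
            ((clo r al β).card : ℝ) / (2 * r))) (by
      intro σ hσ
      funext a'
      show KOp Ω r (fB β) ((conjPM σ).symm a') = KOp Ω r (fB β) a'
      rw [KOp_fB, KOp_fB]
      show ((pr r (σ⁻¹ * a'.1 * σ) β : ℝ) : ℂ) = ((pr r a'.1 β : ℝ) : ℂ)
      rw [ExpK_pr r _ hβ]
      exact fun y hy => hσ y ((hmW y).2 hy)) (by
      intro al
      have hm0 : (0 : ℝ) < m := lt_of_lt_of_le one_pos hm'
      exact (mul_pos hC (Real.rpow_pos_of_pos hm0 _)).le) (by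
      intro a al hal _ h2
      rw [KOp_fB, ExpK_norm _ (pr_nonneg _ _ _)]
      refine (hpr Ω m hcard hm a.1 β a.2 hβ hw).trans ?_
      refine ExpK_mono hC hm' (ExpK_exp _ (Finset.card_le_card ?_))
      refine clo_mono hal hβ ?_
      intro y hy
      refine ⟨?_, rfl⟩
      have h3 : β y ≠ y := (clo_spec hy).2.1
      have h4 : a.1 y ∈ clo r a.1 β := clo_left hy
      have h5 : β (a.1 y) ≠ a.1 y := (clo_spec h4).2.1
      exact h2 y ((hmW y).2 h3) ((hmW _).2 h5))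
  refine ⟨x, ?_, hx2, ?_⟩
  · intro al hal
    obtain ⟨h1, h2⟩ := hx1 al hal
    exact ⟨h1, fun y hy => (hmW y).1 (h2 y hy)⟩
  · intro al
    exact ExpK_final hC hm' hw (hx3 al)

end MPbcd198.L
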