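import Pool.Agent.Lib.MP_bcd198_co.L.CntB

/-!
# JOB L/Num: numerical facts

* cardinalities: `P₁ ⊕ P₂` and `P₂` carry perfect matchings, so they are even (`even_card`): `|P₁ ⊕ P₂| = 2 G`, `|P₂| = 2 G₂`;
  `|P₁ ⊕ (P₂ ⊕ Fin (2z))| = 2 (G + z)`, `|P₂ ⊕ Fin (2z)| = 2 (G₂ + z)`, `G₂ ≤ G`.
* `MNum (k + 1) = (2k + 1) MNum k`, so `mu D z = ∏_{i < G} (2 (z + i) + 1)`. Hence `mu D z ≤ (2 (G + z))^G ≤ C z^G` for `z ≥ 1`, and
  `mu D z / (2 (G + z))^G = ∏ (1 - (2 (G - i) - 1)/(2 (G + z)))` is in `[(1 - G/(G + z))^G, 1]`, so it differs from `1` by at most `G²/z`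
  (Bernoulli `one_add_mul_le_pow`).
* `shift_rpow`: `1 ≤ (G + z)/z ≤ G + 1`, so `(G + z)^e ≤ z^e (G + 1)^|e|` (and `(G+z)^e ≤ z^e` for `e ≤ 0`).
-/

set_option autoImplicit false

namespace MPbcd198.L

open Equiv

variable {P₁ P₂ : Type} [Fintype P₁] [Fintype P₂] [DecidableEq P₁] [DecidableEq P₂]

theorem card_P (D : Dat P₁ P₂) : Fintype.card (P₁ ⊕ P₂) = 2 * D.G := by
  obtain ⟨k, hk⟩ := even_card D.hb
  unfold Dat.G
  omega

theorem card_P₂ (D : Dat P₁ P₂) : Fintype.card P₂ = 2 * D.G₂ := by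
  obtain ⟨k, hk⟩ := even_card D.hc
  unfold Dat.G₂
  omega

theorem card_X (D : Dat P₁ P₂) (z : ℕ) :
    Fintype.card (P₁ ⊕ (P₂ ⊕ Fin (2 * z))) = 2 * (D.G + z) := by
  have h := card_P D
  rw [Fintype.card_sum] at h
  rw [Fintype.card_sum, Fintype.card_sum, Fintype.card_fin]
  omega

theorem card_Y (D : Dat P₁ P₂) (z : ℕ) : Fintype.card (P₂ ⊕ Fin (2 * z)) = 2 * (D.G₂ + z) := by
  have h := card_P₂ D
  rw [Fintype.card_sum, Fintype.card_fin]
  omega

theorem mu_pos (D : Dat P₁ P₂) (z : ℕ) : 0 < mu D z :=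
  div_pos (MNum_pos _) (MNum_pos _)

private theorem num_MNum_succ (k : ℕ) : MNum (k + 1) = (2 * (k : ℝ) + 1) * MNum k := by
  unfold MNum
  have h1 : 2 * (k + 1) = 2 * k + 1 + 1 := by ring
  rw [h1, Nat.factorial_succ, Nat.factorial_succ, Nat.factorial_succ, pow_succ]
  have h2 : ((k.factorial : ℕ) : ℝ) ≠ 0 := by exact_mod_cast Nat.factorial_ne_zero k
  have h3 : ((k : ℝ) + 1) ≠ 0 := by positivity
  push_cast
  field_simp
  ring

private theorem num_mu (G z : ℕ) : MNum (G + z) / MNum z =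
    ∏ i ∈ Finset.range G, (2 * ((z : ℝ) + i) + 1) := by
  induction G with
  | zero => rw [Nat.zero_add, div_self (MNum_pos z).ne']; simp
  | succ G ih =>
    rw [Finset.prod_range_succ, ← ih, show G + 1 + z = G + z + 1 by ring, num_MNum_succ]
    push_cast
    ring

theorem mu_le (D : Dat P₁ P₂) : ∃ C : ℝ, 0 < C ∧ ∀ z : ℕ, 1 ≤ z → mu D z ≤ C * (z : ℝ) ^ D.G := by
  refine ⟨(2 * (D.G : ℝ) + 3) ^ D.G, by positivity, fun z hz => ?_⟩
  have hz1 : (1 : ℝ) ≤ z := by exact_mod_cast hz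
  unfold mu
  rw [num_mu, ← mul_pow]
  calc ∏ i ∈ Finset.range D.G, (2 * ((z : ℝ) + i) + 1)
      ≤ ∏ _i ∈ Finset.range D.G, ((2 * (D.G : ℝ) + 3) * z) := by
        apply Finset.prod_le_prod
        · intro i _
          positivity
        · intro i hi
          have h1 : (i : ℝ) ≤ D.G := by exact_mod_cast (Finset.mem_range.1 hi).le
          have h2 : (D.G : ℝ) ≤ D.G * z := by
            have : (0 : ℝ) ≤ D.G := by positivity
            nlinarith
          nlinarith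
    _ = ((2 * (D.G : ℝ) + 3) * z) ^ D.G := by
        rw [Finset.prod_const, Finset.card_range]

theorem mu_asymp (D : Dat P₁ P₂) : ∃ C : ℝ, 0 < C ∧ ∀ z : ℕ, 1 ≤ z →
    |mu D z / (2 * ((D.G + z : ℕ) : ℝ)) ^ D.G - 1| ≤ C / z := by
  refine ⟨(D.G : ℝ) ^ 2 + 1, by positivity, fun z hz => ?_⟩
  have hz1 : (1 : ℝ) ≤ z := by exact_mod_cast hz
  have hz0 : (0 : ℝ) < z := by linarith
  have hG0 : (0 : ℝ) ≤ D.G := by positivity
  unfold mu
  rw [num_mu]
  set g : ℝ := ((D.G + z : ℕ) : ℝ) with hg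
  have hgv : g = D.G + z := by rw [hg]; push_cast; ring
  have hg0 : 0 < g := by rw [hgv]; positivity
  have hprod : (∏ i ∈ Finset.range D.G, (2 * ((z : ℝ) + i) + 1)) / (2 * g) ^ D.G =
      ∏ i ∈ Finset.range D.G, ((2 * ((z : ℝ) + i) + 1) / (2 * g)) := by
    rw [Finset.prod_div_distrib, Finset.prod_const, Finset.card_range]
  rw [hprod]
  have hup : ∏ i ∈ Finset.range D.G, ((2 * ((z : ℝ) + i) + 1) / (2 * g)) ≤ 1 := by
    apply Finset.prod_le_one
    · intro i _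
      positivity
    · intro i hi
      rw [div_le_one (by positivity), hgv]
      have h1 : (i : ℝ) + 1 ≤ D.G := by exact_mod_cast Finset.mem_range.1 hi
      linarith
  have hlow : (z / g) ^ D.G ≤ ∏ i ∈ Finset.range D.G, ((2 * ((z : ℝ) + i) + 1) / (2 * g)) := by
    have h0 : ∏ _i ∈ Finset.range D.G, ((z : ℝ) / g) = (z / g) ^ D.G := by
      rw [Finset.prod_const, Finset.card_range]
    rw [← h0]
    apply Finset.prod_le_prod
    · intro i _
      positivity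
    · intro i hi
      rw [div_le_div_iff₀ hg0 (by positivity)]
      have h1 : (0 : ℝ) ≤ i := by positivity
      nlinarith
  have hber : 1 - (D.G : ℝ) ^ 2 / z ≤ (z / g) ^ D.G := by
    have h1 : (z : ℝ) / g = 1 + (-(D.G : ℝ) / g) := by
      rw [hgv]
      field_simp
      ring
    have h2 : (-2 : ℝ) ≤ -(D.G : ℝ) / g := by
      rw [le_div_iff₀ hg0, hgv]
      linarith
    have h3 := one_add_mul_le_pow h2 D.G
    rw [h1]
    refine le_trans ?_ h3
    have h4 : (D.G : ℝ) * (-(D.G : ℝ) / g) = -((D.G : ℝ) ^ 2 / g) := by ring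
    rw [h4]
    have h5 : (D.G : ℝ) ^ 2 / g ≤ (D.G : ℝ) ^ 2 / z := by
      apply div_le_div_of_nonneg_left (by positivity) hz0
      rw [hgv]
      linarith
    linarith
  have hC : ((D.G : ℝ) ^ 2) / z ≤ ((D.G : ℝ) ^ 2 + 1) / z := by
    apply div_le_div_of_nonneg_right _ hz0.le
    linarith
  have hC0 : 0 ≤ ((D.G : ℝ) ^ 2 + 1) / z := by positivity
  rw [abs_le]
  constructor
  · linarith
  · linarith

theorem shift_rpow (G w : ℕ) : ∃ C : ℝ, 0 < C ∧ ∀ z : ℕ, 1 ≤ z → ∀ e : ℝ, |e| ≤ w →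
    ((G + z : ℕ) : ℝ) ^ e ≤ C * (z : ℝ) ^ e := by
  refine ⟨((G : ℝ) + 1) ^ w, by positivity, fun z hz e he => ?_⟩
  have hz1 : (1 : ℝ) ≤ z := by exact_mod_cast hz
  have hz0 : (0 : ℝ) < z := by linarith
  have hG0 : (0 : ℝ) ≤ G := by positivity
  have hC1 : (1 : ℝ) ≤ ((G : ℝ) + 1) ^ w := one_le_pow₀ (by linarith)
  have hze : 0 < (z : ℝ) ^ e := Real.rpow_pos_of_pos hz0 e
  rcases le_total 0 e with h0 | h0
  · calc ((G + z : ℕ) : ℝ) ^ e ≤ (((G : ℝ) + 1) * z) ^ e := by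
          apply Real.rpow_le_rpow (by positivity) _ h0
          push_cast
          nlinarith
      _ = ((G : ℝ) + 1) ^ e * (z : ℝ) ^ e := Real.mul_rpow (by positivity) hz0.le
      _ ≤ ((G : ℝ) + 1) ^ w * (z : ℝ) ^ e := by
          apply mul_le_mul_of_nonneg_right _ hze.le
          rw [← Real.rpow_natCast]
          apply Real.rpow_le_rpow_of_exponent_le (by linarith)
          rwa [abs_of_nonneg h0] at he
  · calc ((G + z : ℕ) : ℝ) ^ e ≤ (z : ℝ) ^ e := by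
          apply Real.rpow_le_rpow_of_nonpos hz0 _ h0
          push_cast
          linarith
      _ ≤ ((G : ℝ) + 1) ^ w * (z : ℝ) ^ e := by nlinarith

end MPbcd198.L
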