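import Pool.Agent.Lib.MP_bcd198_co.L.ExpK
import Pool.Agent.Lib.MP_bcd198_co.L.Num

/-!
# JOB L/ExpT: the three expansions [2.5 (a), (b), (c)]

* `Rb_fB`: `Rb D Z (fB B) x` is `1` iff `x = combB b b''` with `b''` a perfect matching of `Z` containing `B` (`combB b` is injective in `b''`), and
  this means exactly that `x` agrees with `combB b B` on its support `P ∪ support B` (`b` has no fixed points; then `x` maps `P`, hence `Z`, into
  itself).
* `expA`: `expK q w` with `m = z`.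
* `expB`: by `Rb_fB`, `KOp_fB` the left side at `a'` is `mu D z * pr p (combA D.a a') (combB D.b B)`, and `combA D.a a' = sumCongr D.a a'`. Apply `expQ p w'`
  with `Q = P₁`, `d = D.a`, `Ω₀ = P₂ ⊕ Z`, `m = G + z` (`card_X`), `β = combB D.b B`, `|support β| = 2G + |support B|`, `w' = 2G + w`. Multiply by
  `mu D z ≤ C z^G` (`mu_le`): `z^G (G + z)^(-(2G + |B|)/2 + c/2p) ≤ C z^(-|B|/2 + c/2p)` by `shift_rpow` (the exponent is bounded because
  `c ≤ |support β| ≤ w'`: the points of `clo` are moved by `β`). If `β (inr (inr z')) ≠ inr (inr z')` then `B z' ≠ z'`.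
* `expC`: `expQ 2 w` with `Q = P₂`, `d = D.c`, `Ω₀ = Z`, `β = al`, `m = G₂ + z` (`card_Y`), `shift_rpow`.
-/

set_option autoImplicit false

namespace MPbcd198.L

open Equiv

variable {P₁ P₂ : Type} [Fintype P₁] [Fintype P₂] [DecidableEq P₁] [DecidableEq P₂]

private theorem ExpT_exists_sumCongr {α β : Type} (f : Perm (α ⊕ β)) (g : Perm α)
    (h : ∀ x, f (Sum.inl x) = Sum.inl (g x)) : ∃ k : Perm β, f = Equiv.sumCongr g k := by
  have hr : ∀ y : β, ∃ z : β, f (Sum.inr y) = Sum.inr z := by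
    intro y
    rcases hy : f (Sum.inr y) with x | z
    · exfalso
      have h1 := h (g.symm x)
      rw [g.apply_symm_apply, ← hy] at h1
      exact Sum.inl_ne_inr (f.injective h1)
    · exact ⟨z, rfl⟩
  have hr' : ∀ y : β, ∃ z : β, f.symm (Sum.inr y) = Sum.inr z := by
    intro y
    rcases hy : f.symm (Sum.inr y) with x | z
    · exfalso
      have h1 := h x
      rw [← hy, f.apply_symm_apply] at h1
      exact Sum.inr_ne_inl h1
    · exact ⟨z, rfl⟩
  choose k hk using hr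
  choose k' hk' using hr'
  refine ⟨⟨k, k', fun y => ?_, fun y => ?_⟩, ?_⟩
  · apply Sum.inr_injective (α := α)
    rw [← hk', ← hk, f.symm_apply_apply]
  · apply Sum.inr_injective (α := α)
    rw [← hk, ← hk', f.apply_symm_apply]
  · ext x
    rcases x with x | y
    · rw [h]; rfl
    · rw [hk]; rfl

omit [Fintype P₁] [Fintype P₂] [DecidableEq P₁] [DecidableEq P₂] in
private theorem ExpT_combB_assoc {Z : Type} (b : Perm (P₁ ⊕ P₂)) (B : Perm Z)
    (y : (P₁ ⊕ P₂) ⊕ Z) :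
    combB b B (Equiv.sumAssoc P₁ P₂ Z y) = Equiv.sumAssoc P₁ P₂ Z (Equiv.sumCongr b B y) := by
  rw [combB_apply, Equiv.symm_apply_apply]

omit [Fintype P₁] [Fintype P₂] [DecidableEq P₁] [DecidableEq P₂] in
private theorem ExpT_combB_inj {Z : Type} (b : Perm (P₁ ⊕ P₂)) {B B' : Perm Z}
    (h : combB b B = combB b B') : B = B' := by
  ext y
  have h1 := congrArg (fun f : Perm (P₁ ⊕ (P₂ ⊕ Z)) => f (Sum.inr (Sum.inr y))) h
  have h2 : (Sum.inr (Sum.inr (B y)) : P₁ ⊕ (P₂ ⊕ Z)) = Sum.inr (Sum.inr (B' y)) := h1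
  exact Sum.inr_injective (Sum.inr_injective h2)

private theorem ExpT_clo_card {Ω : Type} [Fintype Ω] [DecidableEq Ω] (r : ℕ) (α β : Perm Ω) :
    (clo r α β).card ≤ β.support.card := by
  refine Finset.card_le_card fun x hx => ?_
  rw [Perm.mem_support]
  exact (clo_spec hx).2.1

theorem combB_inv (D : Dat P₁ P₂) {Z : Type} {B : Perm Z} (hB : IsInv B) :
    IsInv (combB D.b B) := by
  intro x
  obtain ⟨y, rfl⟩ := (Equiv.sumAssoc P₁ P₂ Z).surjective x
  rw [ExpT_combB_assoc, ExpT_combB_assoc]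
  congr 1
  rcases y with y | y
  · exact congrArg Sum.inl (D.hb y).2
  · exact congrArg Sum.inr (hB y)

theorem card_combB (D : Dat P₁ P₂) {Z : Type} [Fintype Z] [DecidableEq Z] (B : Perm Z) :
    (combB D.b B).support.card = 2 * D.G + B.support.card := by
  have h1 : (combB D.b B).support =
      ((Finset.univ : Finset (P₁ ⊕ P₂)).disjSum B.support).map
        (Equiv.sumAssoc P₁ P₂ Z).toEmbedding := by
    ext x
    obtain ⟨y, rfl⟩ := (Equiv.sumAssoc P₁ P₂ Z).surjective x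
    rw [Perm.mem_support, ExpT_combB_assoc, (Equiv.sumAssoc P₁ P₂ Z).injective.ne_iff]
    have h2 : (Equiv.sumAssoc P₁ P₂ Z y ∈
        ((Finset.univ : Finset (P₁ ⊕ P₂)).disjSum B.support).map
          (Equiv.sumAssoc P₁ P₂ Z).toEmbedding) ↔
        y ∈ (Finset.univ : Finset (P₁ ⊕ P₂)).disjSum B.support := by
      rw [Finset.mem_map_equiv, Equiv.symm_apply_apply]
    rw [h2]
    rcases y with y | y
    · have h3 : (Sum.inl y : (P₁ ⊕ P₂) ⊕ Z) ∈
          (Finset.univ : Finset (P₁ ⊕ P₂)).disjSum B.support := by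
        rw [Finset.inl_mem_disjSum]
        exact Finset.mem_univ _
      refine ⟨fun _ => h3, fun _ h4 => ?_⟩
      exact (D.hb y).1 (Sum.inl_injective h4)
    · rw [Finset.inr_mem_disjSum, Perm.mem_support]
      exact ⟨fun h4 h5 => h4 (congrArg Sum.inr h5), fun h4 h5 => h4 (Sum.inr_injective h5)⟩
  rw [h1, Finset.card_map, Finset.card_disjSum, Finset.card_univ, card_P]

theorem Rb_fB (D : Dat P₁ P₂) {Z : Type} [Fintype Z] [DecidableEq Z] {B : Perm Z}
    (hB : IsInv B) : Rb D Z (fB B) = fB (combB D.b B) := by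
  classical
  funext x
  have hL : Rb D Z (fB B) x =
      ∑ b' : PMT Z, if x.1 = combB D.b b'.1 then fB B b' else 0 := rfl
  by_cases hx : ∀ y, combB D.b B y ≠ y → x.1 y = combB D.b B y
  · have hR : fB (combB D.b B) x = 1 := by
      unfold fB
      exact if_pos hx
    rw [hR, hL]
    have h1 : ∀ w : P₁ ⊕ P₂, x.1 (Equiv.sumAssoc P₁ P₂ Z (Sum.inl w)) =
        Equiv.sumAssoc P₁ P₂ Z (Sum.inl (D.b w)) := by
      intro w
      have h2 : combB D.b B (Equiv.sumAssoc P₁ P₂ Z (Sum.inl w)) =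
          Equiv.sumAssoc P₁ P₂ Z (Sum.inl (D.b w)) := by
        rw [ExpT_combB_assoc]
        rfl
      rw [hx, h2]
      rw [h2]
      intro h3
      exact (D.hb w).1 (Sum.inl_injective ((Equiv.sumAssoc P₁ P₂ Z).injective h3))
    obtain ⟨k, hk⟩ := ExpT_exists_sumCongr ((Equiv.sumAssoc P₁ P₂ Z).symm.permCongr x.1) D.b
      (fun w => by
        rw [Equiv.permCongr_apply, Equiv.symm_symm, h1, Equiv.symm_apply_apply])
    have hxk : x.1 = combB D.b k := by
      ext y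
      obtain ⟨w, rfl⟩ := (Equiv.sumAssoc P₁ P₂ Z).surjective y
      rw [ExpT_combB_assoc, ← hk, Equiv.permCongr_apply, Equiv.symm_symm,
        Equiv.apply_symm_apply]
    have hkv : ∀ y : Z, x.1 (Sum.inr (Sum.inr y)) = Sum.inr (Sum.inr (k y)) := by
      intro y
      rw [hxk]
      rfl
    have hkPM : IsPM k := by
      intro y
      constructor
      · intro h2
        apply (x.2 (Sum.inr (Sum.inr y))).1
        rw [hkv, h2]
      · have h2 := (x.2 (Sum.inr (Sum.inr y))).2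
        rw [hkv, hkv] at h2
        exact Sum.inr_injective (Sum.inr_injective h2)
    rw [Finset.sum_eq_single (⟨k, hkPM⟩ : PMT Z)]
    · rw [if_pos hxk]
      unfold fB
      refine if_pos fun y hy => ?_
      have h2 : combB D.b B (Sum.inr (Sum.inr y)) = Sum.inr (Sum.inr (B y)) := rfl
      have h3 := hx (Sum.inr (Sum.inr y)) (by
        rw [h2]
        intro h3
        exact hy (Sum.inr_injective (Sum.inr_injective h3)))
      rw [h2, hkv] at h3
      exact Sum.inr_injective (Sum.inr_injective h3)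
    · intro b' _ hb'
      refine if_neg fun h2 => hb' ?_
      apply Subtype.ext
      rw [hxk] at h2
      exact (ExpT_combB_inj D.b h2).symm
    · intro h2
      exact absurd (Finset.mem_univ _) h2
  · have hR : fB (combB D.b B) x = 0 := by
      unfold fB
      exact if_neg hx
    rw [hR, hL]
    refine Finset.sum_eq_zero fun b' _ => ?_
    by_cases h1 : x.1 = combB D.b b'.1
    · rw [if_pos h1]
      unfold fB
      refine if_neg fun h2 => hx fun y hy => ?_
      obtain ⟨w, rfl⟩ := (Equiv.sumAssoc P₁ P₂ Z).surjective y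
      rw [h1, ExpT_combB_assoc, ExpT_combB_assoc]
      rcases w with w | w
      · rfl
      · rw [ExpT_combB_assoc] at hy
        have h3 : B w ≠ w := fun h3 => hy (by
          have h4 : (Equiv.sumCongr D.b B (Sum.inr w) : (P₁ ⊕ P₂) ⊕ Z) = Sum.inr (B w) := rfl
          rw [h4, h3])
        have h4 := h2 w h3
        have h5 : (Equiv.sumCongr D.b b'.1 (Sum.inr w) : (P₁ ⊕ P₂) ⊕ Z) = Sum.inr (b'.1 w) := rfl
        have h6 : (Equiv.sumCongr D.b B (Sum.inr w) : (P₁ ⊕ P₂) ⊕ Z) = Sum.inr (B w) := rfl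
        rw [h5, h6, h4]
    · exact if_neg h1

theorem expA (q w : ℕ) (hq : 1 ≤ q) : ∃ C : ℝ, 0 < C ∧ ∀ z : ℕ, 1 ≤ z →
    ∀ B : Perm (Fin (2 * z)), IsInv B → B.support.card ≤ w →
      ∃ x : Perm (Fin (2 * z)) → ℂ,
        (∀ al, x al ≠ 0 → IsInv al ∧ ∀ y, al y ≠ y → B y ≠ y) ∧
        KOp (Fin (2 * z)) q (fB B) = ∑ al, x al • fB al ∧
        ∀ al, ‖x al‖ ≤ C * (z : ℝ) ^ (-(B.support.card : ℝ) / 2 +
          ((clo q al B).card : ℝ) / (2 * q)) := by
  obtain ⟨C, hC, h⟩ := expK q w hq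
  exact ⟨C, hC, fun z hz B hB hw => h (Fin (2 * z)) z (Fintype.card_fin _) hz B hB hw⟩

theorem expB (D : Dat P₁ P₂) (p w : ℕ) (hp : 1 ≤ p) : ∃ C : ℝ, 0 < C ∧ ∀ z : ℕ, 1 ≤ z →
    ∀ B : Perm (Fin (2 * z)), IsInv B → B.support.card ≤ w →
      ∃ x : Perm (P₂ ⊕ Fin (2 * z)) → ℂ,
        (∀ al, x al ≠ 0 → IsInv al ∧ ∀ y, al (Sum.inr y) ≠ Sum.inr y → B y ≠ y) ∧
        (mu D z : ℂ) • Ra D (Fin (2 * z)) (KOp (P₁ ⊕ (P₂ ⊕ Fin (2 * z))) p
          (Rb D (Fin (2 * z)) (fB B))) = ∑ al, x al • fB al ∧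
        ∀ al, ‖x al‖ ≤ C * (z : ℝ) ^ (-(B.support.card : ℝ) / 2 +
          ((clo p (combA D.a al) (combB D.b B)).card : ℝ) / (2 * p)) := by
  obtain ⟨C₁, hC₁, h₁⟩ := expQ p (2 * D.G + w) hp
  obtain ⟨C₂, hC₂, h₂⟩ := mu_le D
  obtain ⟨C₃, hC₃, h₃⟩ := shift_rpow D.G (2 * D.G + w)
  refine ⟨C₂ * C₁ * C₃, by positivity, fun z hz B hB hw => ?_⟩
  have hcard := card_combB D B
  obtain ⟨x, hx1, hx2, hx3⟩ := h₁ P₁ (P₂ ⊕ Fin (2 * z)) (D.G + z) (card_X D z) (by omega) D.a
    (combB D.b B) D.ha (combB_inv D hB) (by rw [hcard]; omega)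
  refine ⟨fun al => (mu D z : ℂ) * x al, ?_, ?_, ?_⟩
  · intro al hal
    have h4 := hx1 al (right_ne_zero_of_mul hal)
    refine ⟨h4.1, fun y hy h5 => h4.2 (Sum.inr y) hy ?_⟩
    have h6 : combB D.b B (Sum.inr (Sum.inr y)) = Sum.inr (Sum.inr (B y)) := rfl
    rw [h6, h5]
  · rw [Rb_fB D hB]
    funext a'
    have h4 : Ra D (Fin (2 * z)) (KOp (P₁ ⊕ (P₂ ⊕ Fin (2 * z))) p (fB (combB D.b B))) a' =
        ((pr p (Equiv.sumCongr D.a a'.1) (combB D.b B) : ℝ) : ℂ) :=
      KOp_fB p (combB D.b B) ⟨combA D.a a'.1, isPM_combA D.ha a'.2⟩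
    rw [Pi.smul_apply, h4, hx2 a', Finset.sum_apply, smul_eq_mul, Finset.mul_sum]
    refine Finset.sum_congr rfl fun al _ => ?_
    rw [Pi.smul_apply, smul_eq_mul, mul_assoc]
  · intro al
    have hz0 : (0 : ℝ) < z := by exact_mod_cast hz
    have hp0 : (0 : ℝ) < p := by exact_mod_cast hp
    have hmu := mu_pos D z
    have hcl : ((clo p (Equiv.sumCongr D.a al) (combB D.b B)).card : ℝ) ≤
        2 * (D.G : ℝ) + B.support.card := by
      have h4 := ExpT_clo_card p (Equiv.sumCongr D.a al) (combB D.b B)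
      rw [hcard] at h4
      exact_mod_cast h4
    have hBw : (B.support.card : ℝ) ≤ w := by exact_mod_cast hw
    have hcl0 : (0 : ℝ) ≤ ((clo p (Equiv.sumCongr D.a al) (combB D.b B)).card : ℝ) :=
      Nat.cast_nonneg _
    set c : ℝ := ((clo p (Equiv.sumCongr D.a al) (combB D.b B)).card : ℝ) with hc
    have hclp : c / (2 * p) ≤ c / 2 := by
      have hp1 : (1 : ℝ) ≤ p := by exact_mod_cast hp
      apply div_le_div_of_nonneg_left hcl0 (by norm_num)
      linarith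
    have hclp0 : 0 ≤ c / (2 * p) := by positivity
    have hG0 : (0 : ℝ) ≤ D.G := Nat.cast_nonneg _
    have hB0 : (0 : ℝ) ≤ B.support.card := Nat.cast_nonneg _
    have h5 := h₃ z hz (-((combB D.b B).support.card : ℝ) / 2 + c / (2 * p)) (by
      rw [hcard, abs_le]
      push_cast
      constructor <;> linarith)
    have h6 := hx3 al
    rw [norm_mul, Complex.norm_real, Real.norm_of_nonneg hmu.le]
    calc mu D z * ‖x al‖ ≤ (C₂ * (z : ℝ) ^ D.G) * (C₁ * (C₃ * (z : ℝ) ^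
          (-((combB D.b B).support.card : ℝ) / 2 + c / (2 * p)))) := by
          apply mul_le_mul (h₂ z hz) _ (norm_nonneg _) (by positivity)
          exact h6.trans (mul_le_mul_of_nonneg_left h5 hC₁.le)
      _ = C₂ * C₁ * C₃ * ((z : ℝ) ^ ((D.G : ℕ) : ℝ) * (z : ℝ) ^
          (-((combB D.b B).support.card : ℝ) / 2 + c / (2 * p))) := by
          rw [Real.rpow_natCast]
          ring
      _ = C₂ * C₁ * C₃ * (z : ℝ) ^ (-(B.support.card : ℝ) / 2 +
          ((clo p (combA D.a al) (combB D.b B)).card : ℝ) / (2 * p)) := by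
          rw [← Real.rpow_add hz0, hcard]
          congr 2
          have h7 : ((clo p (combA D.a al) (combB D.b B)).card : ℝ) = c := rfl
          rw [h7]
          push_cast
          ring

theorem expC (D : Dat P₁ P₂) (w : ℕ) : ∃ C : ℝ, 0 < C ∧ ∀ z : ℕ, 1 ≤ z →
    ∀ al : Perm (P₂ ⊕ Fin (2 * z)), IsInv al → al.support.card ≤ w →
      ∃ y : Perm (Fin (2 * z)) → ℂ,
        (∀ ga, y ga ≠ 0 → IsInv ga ∧ ∀ x, ga x ≠ x → al (Sum.inr x) ≠ Sum.inr x) ∧
        Rc D (Fin (2 * z)) (KOp (P₂ ⊕ Fin (2 * z)) 2 (fB al)) = ∑ ga, y ga • fB ga ∧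
        ∀ ga, ‖y ga‖ ≤ C * (z : ℝ) ^ (-(al.support.card : ℝ) / 2 +
          ((clo 2 (Equiv.sumCongr D.c ga) al).card : ℝ) / (2 * (2 : ℕ))) := by
  obtain ⟨C₁, hC₁, h₁⟩ := expQ 2 w (by norm_num)
  obtain ⟨C₃, hC₃, h₃⟩ := shift_rpow D.G₂ w
  refine ⟨C₁ * C₃, by positivity, fun z hz al hal hw => ?_⟩
  obtain ⟨x, hx1, hx2, hx3⟩ := h₁ P₂ (Fin (2 * z)) (D.G₂ + z) (card_Y D z) (by omega) D.c
    al D.hc hal hw
  refine ⟨x, hx1, ?_, ?_⟩
  · funext c'
    have h4 : Rc D (Fin (2 * z)) (KOp (P₂ ⊕ Fin (2 * z)) 2 (fB al)) c' =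
        ((pr 2 (Equiv.sumCongr D.c c'.1) al : ℝ) : ℂ) :=
      KOp_fB 2 al ⟨Equiv.sumCongr D.c c'.1, isPM_sumCongr D.hc c'.2⟩
    rw [h4, hx2 c', Finset.sum_apply]
    rfl
  · intro ga
    have hcl : ((clo 2 (Equiv.sumCongr D.c ga) al).card : ℝ) ≤ al.support.card := by
      exact_mod_cast ExpT_clo_card 2 (Equiv.sumCongr D.c ga) al
    have hBw : (al.support.card : ℝ) ≤ w := by exact_mod_cast hw
    have hcl0 : (0 : ℝ) ≤ ((clo 2 (Equiv.sumCongr D.c ga) al).card : ℝ) := Nat.cast_nonneg _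
    have hB0 : (0 : ℝ) ≤ al.support.card := Nat.cast_nonneg _
    have h5 := h₃ z hz (-(al.support.card : ℝ) / 2 +
      ((clo 2 (Equiv.sumCongr D.c ga) al).card : ℝ) / (2 * (2 : ℕ))) (by
      rw [abs_le]
      push_cast
      constructor <;> linarith)
    refine (hx3 ga).trans ?_
    rw [mul_assoc]
    exact mul_le_mul_of_nonneg_left h5 hC₁.le

end MPbcd198.L
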