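import Pool.Agent.Lib.MP_bcd198_co.L.Schur

/-!
# JOB L/Fil: the degree filtration

* `fB_mem`: definition of `Fil`. `fil_mono`: `Submodule.span_mono`.
* `actF_fB`: `actF σ (fB β) = fB (σ β σ⁻¹)`: `σ⁻¹ a σ` contains `β` iff `a` contains `σ β σ⁻¹`.
* `fil_inv`: generators go to generators (`Submodule.span_induction` or `Submodule.map_span_le`).
* `even_support`: an involution is a perfect matching of its support: `|support|` is even (e.g. `Equiv.Perm.card_fixedPoints_modEq` or
  `Finset.card_involution`-type lemma, or induction with `card_rem`).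
* `fil_zero`: the only involution with support of size `≤ 0` is `1`, `fB 1 = 1` (`fB_one`).
* `finrank_fil`: `Fil Ω j` is spanned by the `fB β`, `β` involution with at most `j` edges, and `fB β` is the product of the indicators of its edges; so it is
  contained in the span of the functions `a ↦ ∏_{i < j} e_{t i}(a)`, `t : Fin j → Option (Ω × Ω)`, `e_none = 1`, `e_{(x,y)}(a) = 1[a x = y]`
  (alternatively: the number of such `β` is at most the number of `t : Fin j → Ω × Ω`, by `β = ∏ swap (t i).1 (t i).2`, pairs `(x,x)` allowed). So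
  the dimension is at most `(|Ω|² + 1)^j`.
* `const_irr`: `Fil Ω 0` is one dimensional (if there is a perfect matching) and invariant.
-/

set_option autoImplicit false

namespace MPbcd198.L

open Equiv

variable {Ω : Type} [Fintype Ω] [DecidableEq Ω]

theorem fB_mem {β : Perm Ω} {j : ℕ} (hβ : IsInv β) (h : β.support.card ≤ 2 * j) :
    fB β ∈ Fil Ω j :=
  Submodule.subset_span ⟨β, hβ, h, rfl⟩

theorem fil_mono {i j : ℕ} (h : i ≤ j) : Fil Ω i ≤ Fil Ω j := by
  refine Submodule.span_mono ?_
  rintro f ⟨β, hβ, hc, rfl⟩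
  exact ⟨β, hβ, hc.trans (by omega), rfl⟩

omit [Fintype Ω] [DecidableEq Ω] in
private theorem Fil_ia (σ : Perm Ω) (x : Ω) : σ⁻¹ (σ x) = x := by simp

omit [Fintype Ω] [DecidableEq Ω] in
private theorem Fil_ai (σ : Perm Ω) (x : Ω) : σ (σ⁻¹ x) = x := by simp

theorem actF_fB (σ β : Perm Ω) : actF σ (fB β) = fB (σ * β * σ⁻¹) := by
  classical
  funext a
  have h0 : actF σ (fB β) a = fB β ((conjPM σ).symm a) := rfl
  have h1 : ((conjPM σ).symm a).1 = σ⁻¹ * a.1 * σ := rfl
  rw [h0]
  unfold fB
  rw [h1]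
  have hiff : (∀ x, β x ≠ x → (σ⁻¹ * a.1 * σ) x = β x) ↔
      ∀ x, (σ * β * σ⁻¹) x ≠ x → a.1 x = (σ * β * σ⁻¹) x := by
    constructor
    · intro h x hx
      obtain ⟨y, rfl⟩ := σ.surjective x
      simp only [Perm.mul_apply, Fil_ia] at hx ⊢
      have hy : β y ≠ y := fun h' => hx (by rw [h'])
      have h2 := h y hy
      simp only [Perm.mul_apply] at h2
      rw [← h2, Fil_ai]
    · intro h y hy
      have h2 := h (σ y)
      simp only [Perm.mul_apply, Fil_ia] at h2 ⊢
      rw [h2 fun h' => hy (σ.injective h'), Fil_ia]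
  by_cases h : ∀ x, β x ≠ x → (σ⁻¹ * a.1 * σ) x = β x
  · rw [if_pos h, if_pos (hiff.1 h)]
  · rw [if_neg h, if_neg fun h' => h (hiff.2 h')]

theorem fil_inv (j : ℕ) : Inv (Fil Ω j) := by
  intro σ
  have h : Fil Ω j ≤ (Fil Ω j).comap (actF σ) := by
    refine Submodule.span_le.2 ?_
    rintro f ⟨β, hβ, hc, rfl⟩
    show actF σ (fB β) ∈ Fil Ω j
    rw [actF_fB]
    exact fB_mem (isInv_conj σ hβ) (by rwa [Perm.card_support_conj])
  exact fun f hf => h hf

theorem even_support {β : Perm Ω} (hβ : IsInv β) : Even β.support.card := by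
  have h : β ^ 2 = 1 := by
    ext x
    rw [pow_two]
    exact hβ x
  exact even_iff_two_dvd.2 (Perm.two_dvd_card_support h)

private theorem Fil_zero : Fil Ω 0 = Submodule.span ℂ {(fun _ => 1 : FPM Ω)} := by
  unfold Fil
  congr 1
  ext f
  constructor
  · rintro ⟨β, -, hc, rfl⟩
    have h1 : β.support.card = 0 := by omega
    rw [Perm.card_support_eq_zero] at h1
    rw [h1, fB_one]
    rfl
  · intro hf
    rw [Set.mem_singleton_iff] at hf
    refine ⟨1, isInv_one, by simp, ?_⟩
    rw [hf, fB_one]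

theorem mem_fil_zero {f : FPM Ω} : f ∈ Fil Ω 0 ↔ ∃ c : ℂ, f = fun _ => c := by
  rw [Fil_zero, Submodule.mem_span_singleton]
  constructor
  · rintro ⟨c, rfl⟩
    refine ⟨c, ?_⟩
    funext a
    simp
  · rintro ⟨c, rfl⟩
    refine ⟨c, ?_⟩
    funext a
    simp

/-- the transposition attached to an optional pair -/
private def Fil_sw (o : Option (Ω × Ω)) : Perm Ω :=
  match o with
  | none => 1
  | some p => swap p.1 p.2

private theorem Fil_list : ∀ (j : ℕ) (β : Perm Ω), IsInv β → β.support.card ≤ 2 * j →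
    ∃ t : Fin j → Option (Ω × Ω), β = (List.ofFn fun i => Fil_sw (t i)).prod := by
  intro j
  induction j with
  | zero =>
    intro β _ hc
    refine ⟨fun i => i.elim0, ?_⟩
    have h1 : β.support.card = 0 := by omega
    rw [Perm.card_support_eq_zero] at h1
    rw [h1]
    simp
  | succ j ih =>
    intro β hβ hc
    by_cases h : ∃ y, β y ≠ y
    · obtain ⟨y, hy⟩ := h
      have h2 := card_rem hβ hy
      obtain ⟨t, ht⟩ := ih (rem β y) (rem_inv hβ y) (by omega)
      refine ⟨Fin.cons (some (β y, y)) t, ?_⟩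
      rw [List.ofFn_succ, List.prod_cons]
      simp only [Fin.cons_zero, Fin.cons_succ]
      rw [← ht]
      exact (swap_mul_rem β y).symm
    · push Not at h
      have h1 : β = 1 := Perm.ext h
      obtain ⟨t, ht⟩ := ih 1 isInv_one (by simp)
      refine ⟨Fin.cons none t, ?_⟩
      rw [List.ofFn_succ, List.prod_cons]
      simp only [Fin.cons_zero, Fin.cons_succ]
      rw [← ht, h1]
      rfl

theorem finrank_fil (j : ℕ) :
    (Module.finrank ℂ (Fil Ω j) : ℝ) ≤ ((Fintype.card Ω : ℝ) ^ 2 + 1) ^ j := by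
  classical
  have h1 : Fil Ω j ≤ Submodule.span ℂ
      (Set.range fun t : Fin j → Option (Ω × Ω) => fB (List.ofFn fun i => Fil_sw (t i)).prod) := by
    refine Submodule.span_mono ?_
    rintro f ⟨β, hβ, hc, rfl⟩
    obtain ⟨t, ht⟩ := Fil_list j β hβ hc
    exact ⟨t, by rw [ht]⟩
  have h2 := Submodule.finrank_mono h1
  have h3 := finrank_range_le_card (R := ℂ)
    (fun t : Fin j → Option (Ω × Ω) => fB (List.ofFn fun i => Fil_sw (t i)).prod)
  have h4 := h2.trans h3
  rw [Fintype.card_fun, Fintype.card_option, Fintype.card_prod, Fintype.card_fin] at h4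
  calc (Module.finrank ℂ (Fil Ω j) : ℝ) ≤ (((Fintype.card Ω * Fintype.card Ω + 1) ^ j : ℕ) : ℝ) := by
        exact_mod_cast h4
    _ = _ := by
        push_cast
        ring

theorem const_irr (a : PMT Ω) : Fil Ω 0 ∈ Irr Ω ∧ Module.finrank ℂ (Fil Ω 0) = 1 := by
  have hne : (fun _ => 1 : FPM Ω) ≠ 0 := by
    intro h
    have := congrFun h a
    simp at this
  refine ⟨⟨?_, fil_inv 0, ?_⟩, ?_⟩
  · rw [Fil_zero]
    intro h
    exact hne (Submodule.span_singleton_eq_bot.1 h)
  · intro W hW _
    by_cases h : W = ⊥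
    · exact Or.inl h
    · right
      refine le_antisymm hW ?_
      obtain ⟨f, hf, hf0⟩ := Submodule.exists_mem_ne_zero_of_ne_bot h
      obtain ⟨c, rfl⟩ := mem_fil_zero.1 (hW hf)
      have hc : c ≠ 0 := by
        rintro rfl
        exact hf0 rfl
      intro g hg
      obtain ⟨d, rfl⟩ := mem_fil_zero.1 hg
      have h1 : (fun _ => d : FPM Ω) = (d / c) • (fun _ => c : FPM Ω) := by
        funext x
        rw [Pi.smul_apply, smul_eq_mul, div_mul_cancel₀ _ hc]
      rw [h1]
      exact W.smul_mem _ hf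
  · rw [Fil_zero]
    exact finrank_span_singleton hne

end MPbcd198.L
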