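import Pool.Agent.Lib.MP_bcd198_co.L.KImg
import Pool.Agent.Lib.MP_bcd198_co.L.Num

/-!
# JOB L/High: the high part [2.8]

`t_high`: let `η = κ/24`, `κ = kap p q > 0` (`Hyp`), `d = finrank V ≥ 1`, `0 ≠ f ∈ V`. Let `C` be the maximum of the absolute values of the constants of `irr_bound` for
`r = 2, p, q`; `e_r = -(1/2)(1 - 1/r) + η < 0`.
* `K_q f = ω f` with `‖ω‖ ≤ C (z+1)^C d^{e_q}` (`irr_bound q`, `m = z`; unique since `f ≠ 0`).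
* `R₁ = Rb D ∘ K_q` is equivariant along `σ ↦ 1 ⊔ (1 ⊔ σ)` (`Rb_eqv`, `KOp_eqv`), so `K_image` with `A = C (G+z+1)^C d^{e_p}` (for `V'` with
  `finrank V' ≥ d`: `irr_bound p` with `m = G + z` gives some `ω'` and `ω = ω'` as `V' ≠ 0`; `x ↦ x^{e_p}` is decreasing) gives
  `nrm2 (K_p R₁ f) ≤ A² nrm2 (R₁ f)`.
* `R₂ = Ra D ∘ K_p ∘ R₁` is equivariant along `σ ↦ 1 ⊔ σ` (`Ra_eqv` with `τ = 1 ⊔ σ`), so in the same way `nrm2 (K_2 R₂ f) ≤ A'² nrm2 (R₂ f)`, `A' = C (G₂+z+1)^C d^{e_2}`.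
* norms: `nrm2_Rb`, `nrm2_Ra`, `nrm2_Rc`, `mu_le`. So `‖t‖² nrm2 f = nrm2 (TT f) ≤ mu² A'² A² ‖ω‖² nrm2 f`, and `nrm2 f > 0`.
* exponent: `e_q + e_p + e_2 = -(1/2)(3 - 1/q - 1/p - 1/2) + κ/8 = -1 - κ/2 + κ/8 = -1 - 3κ/8`. The powers of `z + 1`, `G + z + 1` are at most
  `C z^C` for `z ≥ 1`.
`high_sum`: by `t_high`, `d ‖t V‖ ≤ C z^C d^(-3κ/8)`. Choose `K` with `K κ/4 ≥ C + 1` and `J, m₀` from `irr_level K`. For `z ≥ m₀`, `V ⟂ Fil J`: `d ≥ z^K`, so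
`d^(-κ/4) ≤ z^(-C-1)` and `d ‖t V‖ ≤ C z⁻¹ d^(-κ/8)`; sum with `irr_sum (κ/8)`. For `1 ≤ z < m₀`: the sum is at most `C m₀^C` times the constant of
`irr_sum (3κ/8)`, and `1 ≤ m₀/z`.
-/

set_option autoImplicit false

namespace MPbcd198.L

open Equiv

variable {P₁ P₂ : Type} [Fintype P₁] [Fintype P₂] [DecidableEq P₁] [DecidableEq P₂]

theorem kap_pos {p q : ℕ} (hyp : Hyp p q) : 0 < kap p q := by
  have hp := hyp.hp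
  have hq := hyp.hq
  have hk := hyp.hk
  obtain ⟨a, rfl⟩ : ∃ a, p = a + 2 := ⟨p - 2, by omega⟩
  obtain ⟨b, rfl⟩ : ∃ b, q = b + 2 := ⟨q - 2, by omega⟩
  have h1 : 4 < a * b := by simpa using hk
  have h2 : (4 : ℝ) < a * b := by exact_mod_cast h1
  have ha : (0 : ℝ) < ((a + 2 : ℕ) : ℝ) := by positivity
  have hb : (0 : ℝ) < ((b + 2 : ℕ) : ℝ) := by positivity
  unfold kap
  have : (1 : ℝ) / 2 - 1 / ((a + 2 : ℕ) : ℝ) - 1 / ((b + 2 : ℕ) : ℝ) =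
      (a * b - 4) / (2 * ((a + 2 : ℕ) : ℝ) * ((b + 2 : ℕ) : ℝ)) := by
    field_simp
    push_cast
    ring
  rw [this]
  apply div_pos (by linarith) (by positivity)

theorem High_kap_le (p q : ℕ) : kap p q ≤ 1 / 2 := by
  unfold kap
  have h1 : (0 : ℝ) ≤ 1 / (p : ℝ) := by positivity
  have h2 : (0 : ℝ) ≤ 1 / (q : ℝ) := by positivity
  linarith

/-- `irr_bound` with a monotone constant -/
theorem High_bnd (r : ℕ) (hr : 2 ≤ r) (η : ℝ) (hη : 0 < η) : ∃ C₀ : ℝ, ∀ C : ℝ, C₀ ≤ C →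
    ∀ (Ω : Type) [Fintype Ω] [DecidableEq Ω] (m : ℕ), Fintype.card Ω = 2 * m → r ∣ m →
      ∀ V ∈ Irr Ω, ∃ ω : ℂ, (∀ f ∈ V, KOp Ω r f = ω • f) ∧
        ‖ω‖ ≤ C * ((m : ℝ) + 1) ^ C *
          (Module.finrank ℂ V : ℝ) ^ (-(1 / 2) * (1 - 1 / (r : ℝ)) + η) := by
  obtain ⟨C₀, h⟩ := irr_bound r hr η hη
  refine ⟨|C₀|, fun C hC Ω _ _ m hm hrm V hV => ?_⟩
  obtain ⟨ω, h1, h2⟩ := h Ω m hm hrm V hV
  refine ⟨ω, h1, h2.trans ?_⟩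
  have hC0 : 0 ≤ C := (abs_nonneg C₀).trans hC
  have hm1 : (1 : ℝ) ≤ (m : ℝ) + 1 := by
    have : (0 : ℝ) ≤ m := Nat.cast_nonneg m
    linarith
  have h3 : ((m : ℝ) + 1) ^ C₀ ≤ ((m : ℝ) + 1) ^ C :=
    Real.rpow_le_rpow_of_exponent_le hm1 ((le_abs_self C₀).trans hC)
  have h4 : 0 ≤ ((m : ℝ) + 1) ^ C₀ := by positivity
  apply mul_le_mul_of_nonneg_right _ (by positivity)
  calc C₀ * ((m : ℝ) + 1) ^ C₀ ≤ C * ((m : ℝ) + 1) ^ C₀ :=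
        mul_le_mul_of_nonneg_right ((le_abs_self C₀).trans hC) h4
    _ ≤ C * ((m : ℝ) + 1) ^ C := mul_le_mul_of_nonneg_left h3 hC0

theorem High_exists_ne {Ω : Type} [Fintype Ω] [DecidableEq Ω] {V : Submodule ℂ (FPM Ω)} (hV : V ∈ Irr Ω) :
    ∃ f ∈ V, f ≠ 0 := by
  have h := hV.1
  rw [Submodule.ne_bot_iff] at h
  exact h

theorem High_finrank {Ω : Type} [Fintype Ω] [DecidableEq Ω] {V : Submodule ℂ (FPM Ω)} (hV : V ∈ Irr Ω) :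
    (1 : ℝ) ≤ (Module.finrank ℂ V : ℝ) := by
  have h : 0 < Module.finrank ℂ V := by
    have : Nontrivial V := Submodule.nontrivial_iff_ne_bot.mpr hV.1
    exact Module.finrank_pos
  exact_mod_cast h

/-- the norm bound of the operator `K_r` on the image of `V` -/
theorem High_K {Ω Ω' : Type} [Fintype Ω] [DecidableEq Ω] [Fintype Ω'] [DecidableEq Ω'] (r : ℕ)
    (R : FPM Ω →ₗ[ℂ] FPM Ω') (jm : Perm Ω → Perm Ω')
    (hR : ∀ σ f, R (actF σ f) = actF (jm σ) (R f)) {V : Submodule ℂ (FPM Ω)} (hV : V ∈ Irr Ω)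
    {B e : ℝ} (hB : 0 ≤ B) (he : e ≤ 0)
    (hb : ∀ V' ∈ Irr Ω', ∃ ω : ℂ, (∀ f ∈ V', KOp Ω' r f = ω • f) ∧ ‖ω‖ ≤ B * (Module.finrank ℂ V' : ℝ) ^ e) :
    ∀ f ∈ V, nrm2 (KOp Ω' r (R f)) ≤ (B * (Module.finrank ℂ V : ℝ) ^ e) ^ 2 * nrm2 (R f) := by
  refine K_image r R jm hR hV (by positivity) fun V' hV' hd ω hω => ?_
  obtain ⟨ω₀, h1, h2⟩ := hb V' hV'
  obtain ⟨g, hg, hg0⟩ := High_exists_ne hV'
  have h3 : (ω - ω₀) • g = 0 := by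
    rw [sub_smul, ← hω g hg, ← h1 g hg, sub_self]
  have h4 : ω = ω₀ := by
    rcases smul_eq_zero.mp h3 with h | h
    · exact sub_eq_zero.mp h
    · exact absurd h hg0
  rw [h4]
  refine h2.trans (mul_le_mul_of_nonneg_left ?_ hB)
  apply Real.rpow_le_rpow_of_nonpos
  · have := High_finrank hV
    linarith
  · exact_mod_cast hd
  · exact he

/-- powers of shifted integers -/
theorem High_pow (G z : ℕ) (hz : 1 ≤ z) {C : ℝ} (hC : 0 ≤ C) :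
    (((G + z : ℕ) : ℝ) + 1) ^ C ≤ ((G : ℝ) + 2) ^ C * (z : ℝ) ^ C := by
  have hz' : (1 : ℝ) ≤ z := by exact_mod_cast hz
  have hG : (0 : ℝ) ≤ G := Nat.cast_nonneg G
  rw [← Real.mul_rpow (by positivity) (by positivity)]
  apply Real.rpow_le_rpow (by positivity) _ hC
  push_cast
  nlinarith

/-- the eigenvalue of `TT` in terms of the bounds of the three Markov operators -/
theorem High_core (D : Dat P₁ P₂) {p q z : ℕ} {V : Submodule ℂ (FPM (Fin (2 * z)))}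
    (hV : V ∈ Irr (Fin (2 * z))) {t : ℂ} (ht : ∀ f ∈ V, TT D p q z f = t • f) {B₀ B₁ B₂ e₀ e₁ e₂ : ℝ}
    (hB₁0 : 0 ≤ B₁) (hB₂0 : 0 ≤ B₂) (he₁ : e₁ ≤ 0) (he₂ : e₂ ≤ 0)
    (h0 : ∃ ω : ℂ, (∀ f ∈ V, KOp (Fin (2 * z)) q f = ω • f) ∧ ‖ω‖ ≤ B₀ * (Module.finrank ℂ V : ℝ) ^ e₀)
    (h1 : ∀ V' ∈ Irr (P₁ ⊕ (P₂ ⊕ Fin (2 * z))), ∃ ω : ℂ,
      (∀ f ∈ V', KOp (P₁ ⊕ (P₂ ⊕ Fin (2 * z))) p f = ω • f) ∧ ‖ω‖ ≤ B₁ * (Module.finrank ℂ V' : ℝ) ^ e₁)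
    (h2 : ∀ V' ∈ Irr (P₂ ⊕ Fin (2 * z)), ∃ ω : ℂ,
      (∀ f ∈ V', KOp (P₂ ⊕ Fin (2 * z)) 2 f = ω • f) ∧ ‖ω‖ ≤ B₂ * (Module.finrank ℂ V' : ℝ) ^ e₂) :
    ‖t‖ ≤ mu D z * (B₂ * (Module.finrank ℂ V : ℝ) ^ e₂) * (B₁ * (Module.finrank ℂ V : ℝ) ^ e₁) *
      (B₀ * (Module.finrank ℂ V : ℝ) ^ e₀) := by
  obtain ⟨f, hf, hf0⟩ := High_exists_ne hV
  obtain ⟨ω, hω, hωn⟩ := h0
  have hd1 := High_finrank hV
  have hR₁ : ∀ (σ : Perm (Fin (2 * z))) (g : FPM (Fin (2 * z))),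
      (Rb D (Fin (2 * z)) ∘ₗ KOp (Fin (2 * z)) q) (actF σ g) =
      actF (Equiv.sumCongr (1 : Perm P₁) (Equiv.sumCongr (1 : Perm P₂) σ))
        ((Rb D (Fin (2 * z)) ∘ₗ KOp (Fin (2 * z)) q) g) := by
    intro σ g
    rw [LinearMap.comp_apply, LinearMap.comp_apply, KOp_eqv, Rb_eqv]
  have s1 := High_K p _ _ hR₁ hV hB₁0 he₁ h1 f hf
  have hR₂ : ∀ (σ : Perm (Fin (2 * z))) (g : FPM (Fin (2 * z))),
      (Ra D (Fin (2 * z)) ∘ₗ KOp (P₁ ⊕ (P₂ ⊕ Fin (2 * z))) p ∘ₗ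
        (Rb D (Fin (2 * z)) ∘ₗ KOp (Fin (2 * z)) q)) (actF σ g) =
      actF (Equiv.sumCongr (1 : Perm P₂) σ)
        ((Ra D (Fin (2 * z)) ∘ₗ KOp (P₁ ⊕ (P₂ ⊕ Fin (2 * z))) p ∘ₗ
          (Rb D (Fin (2 * z)) ∘ₗ KOp (Fin (2 * z)) q)) g) := by
    intro σ g
    have e : ∀ g' : FPM (Fin (2 * z)), (Ra D (Fin (2 * z)) ∘ₗ KOp (P₁ ⊕ (P₂ ⊕ Fin (2 * z))) p ∘ₗ
        (Rb D (Fin (2 * z)) ∘ₗ KOp (Fin (2 * z)) q)) g' =
        Ra D (Fin (2 * z)) (KOp (P₁ ⊕ (P₂ ⊕ Fin (2 * z))) p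
          ((Rb D (Fin (2 * z)) ∘ₗ KOp (Fin (2 * z)) q) g')) := fun _ => rfl
    rw [e, e, hR₁, KOp_eqv, Ra_eqv]
  have s2 := High_K 2 _ _ hR₂ hV hB₂0 he₂ h2 f hf
  have n1 : nrm2 ((Rb D (Fin (2 * z)) ∘ₗ KOp (Fin (2 * z)) q) f) ≤ ‖ω‖ ^ 2 * nrm2 f := by
    rw [LinearMap.comp_apply, hω f hf, map_smul, nrm2_smul]
    exact mul_le_mul_of_nonneg_left (nrm2_Rb D f) (by positivity)
  generalize hg1 : (Rb D (Fin (2 * z)) ∘ₗ KOp (Fin (2 * z)) q) f = g₁ at s1 n1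
  rw [LinearMap.comp_apply, LinearMap.comp_apply, hg1] at s2
  have n2 : nrm2 (Ra D (Fin (2 * z)) (KOp (P₁ ⊕ (P₂ ⊕ Fin (2 * z))) p g₁)) ≤
      nrm2 (KOp (P₁ ⊕ (P₂ ⊕ Fin (2 * z))) p g₁) := nrm2_Ra D _
  have n3 := nrm2_Rc D (KOp (P₂ ⊕ Fin (2 * z)) 2 (Ra D (Fin (2 * z)) (KOp (P₁ ⊕ (P₂ ⊕ Fin (2 * z))) p g₁)))
  have n4 : t • f = (mu D z : ℂ) • (Rc D (Fin (2 * z)) (KOp (P₂ ⊕ Fin (2 * z)) 2
      (Ra D (Fin (2 * z)) (KOp (P₁ ⊕ (P₂ ⊕ Fin (2 * z))) p g₁)))) := by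
    rw [← ht f hf, ← hg1]
    rfl
  generalize Rc D (Fin (2 * z)) (KOp (P₂ ⊕ Fin (2 * z)) 2
      (Ra D (Fin (2 * z)) (KOp (P₁ ⊕ (P₂ ⊕ Fin (2 * z))) p g₁))) = g₄ at n3 n4
  generalize nrm2 (KOp (P₂ ⊕ Fin (2 * z)) 2
      (Ra D (Fin (2 * z)) (KOp (P₁ ⊕ (P₂ ⊕ Fin (2 * z))) p g₁))) = a₃ at n3 s2
  generalize nrm2 (Ra D (Fin (2 * z)) (KOp (P₁ ⊕ (P₂ ⊕ Fin (2 * z))) p g₁)) = a₂ at n2 s2
  generalize nrm2 (KOp (P₁ ⊕ (P₂ ⊕ Fin (2 * z))) p g₁) = a₁ at n2 s1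
  generalize nrm2 g₁ = a₀ at s1 n1
  have hmu := mu_pos D z
  have hn0 : 0 < nrm2 f := by
    rcases (nrm2_nonneg f).lt_or_eq with h | h
    · exact h
    · exact absurd (nrm2_eq_zero h.symm) hf0
  have hd0 : (0 : ℝ) < (Module.finrank ℂ V : ℝ) := by linarith
  generalize (Module.finrank ℂ V : ℝ) = d at *
  have n5 : ‖t‖ ^ 2 * nrm2 f ≤ (mu D z * (B₂ * d ^ e₂) * (B₁ * d ^ e₁) * ‖ω‖) ^ 2 * nrm2 f := by
    rw [← nrm2_smul, n4, nrm2_smul]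
    have hmm : ‖(mu D z : ℂ)‖ = mu D z := by
      rw [Complex.norm_real, Real.norm_eq_abs, abs_of_pos hmu]
    rw [hmm]
    calc mu D z ^ 2 * nrm2 g₄
        ≤ mu D z ^ 2 * ((B₂ * d ^ e₂) ^ 2 * ((B₁ * d ^ e₁) ^ 2 * (‖ω‖ ^ 2 * nrm2 f))) := by
          apply mul_le_mul_of_nonneg_left _ (by positivity)
          refine n3.trans (s2.trans ?_)
          apply mul_le_mul_of_nonneg_left _ (by positivity)
          refine n2.trans (s1.trans ?_)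
          exact mul_le_mul_of_nonneg_left n1 (by positivity)
      _ = (mu D z * (B₂ * d ^ e₂) * (B₁ * d ^ e₁) * ‖ω‖) ^ 2 * nrm2 f := by ring
  have n6 : ‖t‖ ≤ mu D z * (B₂ * d ^ e₂) * (B₁ * d ^ e₁) * ‖ω‖ := by
    have h1 : ‖t‖ ^ 2 ≤ (mu D z * (B₂ * d ^ e₂) * (B₁ * d ^ e₁) * ‖ω‖) ^ 2 :=
      le_of_mul_le_mul_right n5 hn0
    exact le_of_sq_le_sq h1 (by positivity)
  exact n6.trans (mul_le_mul_of_nonneg_left hωn (by positivity))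

/-- collecting the powers -/
theorem High_num {g u v C d κ e₀ e₁ e₂ Cm m b₀ b₁ b₂ z x W : ℝ} (hz : 1 ≤ z) (hd : 1 ≤ d) (hC : 1 ≤ C) (hCm : 0 < Cm)
    (hu : 0 ≤ u) (hv : 0 ≤ v) (_hm0 : 0 ≤ m) (hb0 : 0 ≤ b₀) (hb1 : 0 ≤ b₁) (hb2 : 0 ≤ b₂)
    (hsum : e₀ + e₁ + e₂ = -1 - 3 * κ / 8)
    (hW : W = Cm * C ^ 3 * (((2 : ℝ)) ^ C * (u + 2) ^ C * (v + 2) ^ C))
    (m1 : m ≤ Cm * z ^ g) (m2 : b₂ ≤ C * ((v + 2) ^ C * z ^ C)) (m3 : b₁ ≤ C * ((u + 2) ^ C * z ^ C))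
    (m4 : b₀ ≤ C * ((2 : ℝ) ^ C * z ^ C)) (hx : x ≤ m * (b₂ * d ^ e₂) * (b₁ * d ^ e₁) * (b₀ * d ^ e₀)) :
    x ≤ (max W (g + 3 * C)) * z ^ (max W (g + 3 * C)) * d ^ (-1 - 3 * κ / 8) := by
  have hd0 : 0 < d := by linarith
  have hz0 : 0 < z := by linarith
  have hC0 : 0 ≤ C := by linarith
  have hWpos : 0 < W := by
    rw [hW]
    positivity
  have hdd : d ^ e₂ * d ^ e₁ * d ^ e₀ = d ^ (-1 - 3 * κ / 8) := by
    rw [← Real.rpow_add hd0, ← Real.rpow_add hd0]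
    congr 1
    rw [← hsum]
    ring
  have hzz : z ^ g * z ^ C * z ^ C * z ^ C = z ^ (g + 3 * C) := by
    rw [← Real.rpow_add hz0, ← Real.rpow_add hz0, ← Real.rpow_add hz0]
    congr 1
    ring
  have n7 : x ≤ W * z ^ (g + 3 * C) * d ^ (-1 - 3 * κ / 8) := by
    calc x ≤ m * (b₂ * d ^ e₂) * (b₁ * d ^ e₁) * (b₀ * d ^ e₀) := hx
      _ ≤ (Cm * z ^ g) * ((C * ((v + 2) ^ C * z ^ C)) * d ^ e₂) * ((C * ((u + 2) ^ C * z ^ C)) * d ^ e₁) *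
          (C * ((2 : ℝ) ^ C * z ^ C) * d ^ e₀) := by
          gcongr
      _ = W * (z ^ g * z ^ C * z ^ C * z ^ C) * (d ^ e₂ * d ^ e₁ * d ^ e₀) := by
          rw [hW]
          ring
      _ = _ := by rw [hzz, hdd]
  refine n7.trans ?_
  apply mul_le_mul_of_nonneg_right _ (by positivity)
  apply mul_le_mul (le_max_left _ _) _ (by positivity) (hWpos.le.trans (le_max_left _ _))
  exact Real.rpow_le_rpow_of_exponent_le hz (le_max_right _ _)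

theorem t_high {p q : ℕ} (hyp : Hyp p q) (D : Dat P₁ P₂) : ∃ C : ℝ, 0 < C ∧
    ∀ z : ℕ, 1 ≤ z → D.Ok p q z → ∀ V ∈ Irr (Fin (2 * z)), ∀ t : ℂ,
      (∀ f ∈ V, TT D p q z f = t • f) →
        ‖t‖ ≤ C * (z : ℝ) ^ C * (Module.finrank ℂ V : ℝ) ^ (-1 - 3 * kap p q / 8) := by
  have hk := kap_pos hyp
  have hk2 := High_kap_le p q
  have hp3 := hyp.hp
  have hq3 := hyp.hq
  have hη : 0 < kap p q / 24 := by positivity
  obtain ⟨C2, hC2⟩ := High_bnd 2 le_rfl _ hη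
  obtain ⟨Cp, hCp⟩ := High_bnd p (by omega) _ hη
  obtain ⟨Cq, hCq⟩ := High_bnd q (by omega) _ hη
  obtain ⟨Cm, hCm0, hCm⟩ := mu_le D
  obtain ⟨C, hC1, l2, lp, lq⟩ : ∃ C : ℝ, 1 ≤ C ∧ C2 ≤ C ∧ Cp ≤ C ∧ Cq ≤ C :=
    ⟨max (max C2 Cp) (max Cq 1), (le_max_right Cq 1).trans (le_max_right _ _),
      (le_max_left C2 Cp).trans (le_max_left _ _), (le_max_right C2 Cp).trans (le_max_left _ _),
      (le_max_left Cq 1).trans (le_max_right _ _)⟩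
  have hC0 : 0 ≤ C := zero_le_one.trans hC1
  have hp' : (1 : ℝ) / p ≤ 1 / 3 := by
    apply one_div_le_one_div_of_le (by norm_num)
    exact_mod_cast hp3
  have h2neg : -(1 / 2) * (1 - 1 / ((2 : ℕ) : ℝ)) + kap p q / 24 ≤ 0 := by
    push_cast
    linarith
  have hpneg : -(1 / 2) * (1 - 1 / (p : ℝ)) + kap p q / 24 ≤ 0 := by
    linarith
  have hsum : (-(1 / 2) * (1 - 1 / (q : ℝ)) + kap p q / 24) + (-(1 / 2) * (1 - 1 / (p : ℝ)) + kap p q / 24) +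
      (-(1 / 2) * (1 - 1 / ((2 : ℕ) : ℝ)) + kap p q / 24) = -1 - 3 * kap p q / 8 := by
    have : kap p q = 1 / 2 - 1 / (p : ℝ) - 1 / (q : ℝ) := rfl
    push_cast
    linarith
  refine ⟨max (Cm * C ^ 3 * (((2 : ℝ)) ^ C * ((D.G : ℝ) + 2) ^ C * ((D.G₂ : ℝ) + 2) ^ C)) ((D.G : ℝ) + 3 * C),
    lt_max_of_lt_left (by positivity), ?_⟩
  intro z hz hOk V hV t ht
  obtain ⟨hOp, hOq, hO2⟩ := hOk
  have hz' : (1 : ℝ) ≤ z := by exact_mod_cast hz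
  have hB₀0 : 0 ≤ C * ((z : ℝ) + 1) ^ C := by positivity
  have hB₁0 : 0 ≤ C * (((D.G + z : ℕ) : ℝ) + 1) ^ C := by positivity
  have hB₂0 : 0 ≤ C * (((D.G₂ + z : ℕ) : ℝ) + 1) ^ C := by positivity
  have core := High_core D hV ht hB₁0 hB₂0 hpneg h2neg
    (hCq C lq (Fin (2 * z)) z (by simp) hOq V hV)
    (fun V' hV' => hCp C lp _ (D.G + z) (card_X D z) hOp V' hV')
    (fun V' hV' => hC2 C l2 _ (D.G₂ + z) (card_Y D z) hO2 V' hV')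
  have m1 : mu D z ≤ Cm * (z : ℝ) ^ (D.G : ℝ) := by
    rw [Real.rpow_natCast]
    exact hCm z hz
  have m2 : C * (((D.G₂ + z : ℕ) : ℝ) + 1) ^ C ≤ C * (((D.G₂ : ℝ) + 2) ^ C * (z : ℝ) ^ C) :=
    mul_le_mul_of_nonneg_left (High_pow D.G₂ z hz hC0) hC0
  have m3 : C * (((D.G + z : ℕ) : ℝ) + 1) ^ C ≤ C * (((D.G : ℝ) + 2) ^ C * (z : ℝ) ^ C) :=
    mul_le_mul_of_nonneg_left (High_pow D.G z hz hC0) hC0
  have m4 : C * ((z : ℝ) + 1) ^ C ≤ C * ((2 : ℝ) ^ C * (z : ℝ) ^ C) := by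
    apply mul_le_mul_of_nonneg_left _ hC0
    have := High_pow 0 z hz hC0
    simpa using this
  exact High_num hz' (High_finrank hV) hC1 hCm0 (Nat.cast_nonneg D.G) (Nat.cast_nonneg D.G₂) (mu_pos D z).le
    hB₀0 hB₁0 hB₂0 hsum rfl m1 m2 m3 m4 core

theorem high_sum {p q : ℕ} (hyp : Hyp p q) (D : Dat P₁ P₂) : ∃ J : ℕ, ∃ C : ℝ, 0 < C ∧
    ∀ z : ℕ, 1 ≤ z → D.Ok p q z → ∀ t : Submodule ℂ (FPM (Fin (2 * z))) → ℂ,
      (∀ V ∈ Irr (Fin (2 * z)), ∀ f ∈ V, TT D p q z f = t V • f) →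
      ∀ I : Finset (Submodule ℂ (FPM (Fin (2 * z)))),
        (∀ V ∈ I, V ∈ Irr (Fin (2 * z)) ∧ ∀ f ∈ V, ∀ g ∈ Fil (Fin (2 * z)) J, ipF f g = 0) →
        ∑ V ∈ I, (Module.finrank ℂ V : ℝ) * ‖t V‖ ≤ C / z := by
  have hk := kap_pos hyp
  obtain ⟨C, hC0, hC⟩ := t_high hyp D
  obtain ⟨K, hK⟩ := exists_nat_ge ((C + 1) / (kap p q / 4))
  have hK' : C + 1 ≤ K * (kap p q / 4) := by
    rwa [div_le_iff₀ (by positivity)] at hK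
  obtain ⟨J, m₀, hJ⟩ := irr_level K
  obtain ⟨S₁, hS₁⟩ := irr_sum (kap p q / 8) (by positivity)
  obtain ⟨S₂, hS₂⟩ := irr_sum (3 * kap p q / 8) (by positivity)
  refine ⟨J, C * |S₁| + C * (m₀ : ℝ) ^ C * |S₂| * m₀ + 1, by positivity, ?_⟩
  intro z hz hOk t ht I hI
  have hz' : (1 : ℝ) ≤ z := by exact_mod_cast hz
  have hz0 : (0 : ℝ) < z := by linarith
  have hterm : ∀ V ∈ I, (Module.finrank ℂ V : ℝ) * ‖t V‖ ≤
      C * (z : ℝ) ^ C * (Module.finrank ℂ V : ℝ) ^ (-(3 * kap p q / 8)) := by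
    intro V hV
    have hV' := (hI V hV).1
    have hd1 := High_finrank hV'
    have hd0 : (0 : ℝ) < (Module.finrank ℂ V : ℝ) := by linarith
    have h1 := hC z hz hOk V hV' (t V) (ht V hV')
    have h2 : (Module.finrank ℂ V : ℝ) * (Module.finrank ℂ V : ℝ) ^ (-1 - 3 * kap p q / 8) =
        (Module.finrank ℂ V : ℝ) ^ (-(3 * kap p q / 8)) := by
      nth_rewrite 1 [← Real.rpow_one (Module.finrank ℂ V : ℝ)]
      rw [← Real.rpow_add hd0]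
      congr 1
      ring
    calc (Module.finrank ℂ V : ℝ) * ‖t V‖ ≤ (Module.finrank ℂ V : ℝ) *
          (C * (z : ℝ) ^ C * (Module.finrank ℂ V : ℝ) ^ (-1 - 3 * kap p q / 8)) :=
          mul_le_mul_of_nonneg_left h1 hd0.le
      _ = C * (z : ℝ) ^ C * ((Module.finrank ℂ V : ℝ) * (Module.finrank ℂ V : ℝ) ^ (-1 - 3 * kap p q / 8)) := by
          ring
      _ = _ := by rw [h2]
  have hI' : ∀ V ∈ I, V ∈ Irr (Fin (2 * z)) := fun V hV => (hI V hV).1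
  rcases le_or_gt m₀ z with hmz | hmz
  · have hterm2 : ∀ V ∈ I, (Module.finrank ℂ V : ℝ) * ‖t V‖ ≤
        C / z * (Module.finrank ℂ V : ℝ) ^ (-(kap p q / 8)) := by
      intro V hV
      have hV' := (hI V hV).1
      have hd1 := High_finrank hV'
      have hd0 : (0 : ℝ) < (Module.finrank ℂ V : ℝ) := by linarith
      have hdK := hJ (Fin (2 * z)) z (by simp) hmz V hV' (hI V hV).2
      have h1 : (Module.finrank ℂ V : ℝ) ^ (-(kap p q / 4)) ≤ (z : ℝ) ^ (-(C + 1)) := by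
        calc (Module.finrank ℂ V : ℝ) ^ (-(kap p q / 4)) ≤ ((z : ℝ) ^ K) ^ (-(kap p q / 4)) :=
              Real.rpow_le_rpow_of_nonpos (by positivity) hdK (by linarith)
          _ = (z : ℝ) ^ ((K : ℝ) * (-(kap p q / 4))) := by
              rw [← Real.rpow_natCast, ← Real.rpow_mul hz0.le]
          _ ≤ (z : ℝ) ^ (-(C + 1)) := Real.rpow_le_rpow_of_exponent_le hz' (by linarith)
      have h2 : (Module.finrank ℂ V : ℝ) ^ (-(3 * kap p q / 8)) =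
          (Module.finrank ℂ V : ℝ) ^ (-(kap p q / 4)) * (Module.finrank ℂ V : ℝ) ^ (-(kap p q / 8)) := by
        rw [← Real.rpow_add hd0]
        congr 1
        ring
      have h3 : (z : ℝ) ^ C * (z : ℝ) ^ (-(C + 1)) = 1 / z := by
        rw [← Real.rpow_add hz0]
        have : C + -(C + 1) = -1 := by ring
        rw [this, Real.rpow_neg_one, one_div]
      calc (Module.finrank ℂ V : ℝ) * ‖t V‖
          ≤ C * (z : ℝ) ^ C * (Module.finrank ℂ V : ℝ) ^ (-(3 * kap p q / 8)) := hterm V hV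
        _ = C * (z : ℝ) ^ C * ((Module.finrank ℂ V : ℝ) ^ (-(kap p q / 4)) *
            (Module.finrank ℂ V : ℝ) ^ (-(kap p q / 8))) := by rw [h2]
        _ ≤ C * (z : ℝ) ^ C * ((z : ℝ) ^ (-(C + 1)) * (Module.finrank ℂ V : ℝ) ^ (-(kap p q / 8))) := by
            gcongr
        _ = C * ((z : ℝ) ^ C * (z : ℝ) ^ (-(C + 1))) * (Module.finrank ℂ V : ℝ) ^ (-(kap p q / 8)) := by ring
        _ = _ := by rw [h3]; ring
    calc ∑ V ∈ I, (Module.finrank ℂ V : ℝ) * ‖t V‖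
        ≤ ∑ V ∈ I, C / z * (Module.finrank ℂ V : ℝ) ^ (-(kap p q / 8)) := Finset.sum_le_sum hterm2
      _ = C / z * ∑ V ∈ I, (Module.finrank ℂ V : ℝ) ^ (-(kap p q / 8)) := by rw [Finset.mul_sum]
      _ ≤ C / z * |S₁| := mul_le_mul_of_nonneg_left ((hS₁ _ I hI').trans (le_abs_self _)) (by positivity)
      _ = (C * |S₁|) / z := by ring
      _ ≤ _ := by
        apply div_le_div_of_nonneg_right _ hz0.le
        have : 0 ≤ C * (m₀ : ℝ) ^ C * |S₂| * m₀ := by positivity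
        linarith
  · have hmz' : (z : ℝ) ≤ m₀ := by exact_mod_cast hmz.le
    have hm0 : (0 : ℝ) < m₀ := by linarith
    calc ∑ V ∈ I, (Module.finrank ℂ V : ℝ) * ‖t V‖
        ≤ ∑ V ∈ I, C * (z : ℝ) ^ C * (Module.finrank ℂ V : ℝ) ^ (-(3 * kap p q / 8)) := Finset.sum_le_sum hterm
      _ = C * (z : ℝ) ^ C * ∑ V ∈ I, (Module.finrank ℂ V : ℝ) ^ (-(3 * kap p q / 8)) := by rw [Finset.mul_sum]
      _ ≤ C * (z : ℝ) ^ C * |S₂| :=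
          mul_le_mul_of_nonneg_left ((hS₂ _ I hI').trans (le_abs_self _)) (by positivity)
      _ ≤ C * (m₀ : ℝ) ^ C * |S₂| := by gcongr
      _ = C * (m₀ : ℝ) ^ C * |S₂| * z / z := by field_simp
      _ ≤ C * (m₀ : ℝ) ^ C * |S₂| * m₀ / z := by gcongr
      _ ≤ _ := by
        apply div_le_div_of_nonneg_right _ hz0.le
        have : 0 ≤ C * |S₁| := by positivity
        linarith

end MPbcd198.L
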