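import Pool.Agent.Lib.MP_bcd198_co.L.Eqv

/-!
# JOB L/KImg: `K_r` on the image of an irreducible subspace [2.8]

`R : FPM Ω → FPM Ω'` is linear and equivariant along `jm : Perm Ω → Perm Ω'`, `V ∈ Irr Ω`, `f ∈ V`, `g = R f`. Let `P` be the projections of
`exists_proj Ω'`. For `V' ∈ Irr Ω'` with `P V' g ≠ 0`: the map `S = P V' ∘ R` restricted to `V` is equivariant along `jm` (`P V'` commutes with
`actF`), so `{f ∈ V : S f = 0}` is an invariant subspace of `V`, different from `V`; it is `0` by irreducibility. So `S` is injective on `V` and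
`finrank V ≤ finrank V'`. `KOp Ω' r` is equivariant (`KOp_eqv`), hence a scalar `ω V'` on `V'` (`equivar_scalar`), with `‖ω V'‖ ≤ A` by `hA`.
So `K g = ∑_{V'} ω V' • P V' g` and, by `nrm2_sum_proj` (twice), `nrm2 (K g) = ∑ ‖ω V'‖² nrm2 (P V' g) ≤ A² ∑ nrm2 (P V' g) = A² nrm2 g`.
-/

set_option autoImplicit false

namespace MPbcd198.L

open Equiv

theorem K_image {Ω Ω' : Type} [Fintype Ω] [DecidableEq Ω] [Fintype Ω'] [DecidableEq Ω'] (r : ℕ)
    (R : FPM Ω →ₗ[ℂ] FPM Ω') (jm : Perm Ω → Perm Ω')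
    (hR : ∀ σ f, R (actF σ f) = actF (jm σ) (R f)) {V : Submodule ℂ (FPM Ω)} (hV : V ∈ Irr Ω)
    {A : ℝ} (hA0 : 0 ≤ A)
    (hA : ∀ V' ∈ Irr Ω', Module.finrank ℂ V ≤ Module.finrank ℂ V' →
      ∀ ω : ℂ, (∀ g ∈ V', KOp Ω' r g = ω • g) → ‖ω‖ ≤ A) :
    ∀ f ∈ V, nrm2 (KOp Ω' r (R f)) ≤ A ^ 2 * nrm2 (R f) := by
  classical
  intro f hf
  obtain ⟨P, hP1, hP2, hP3, hP4, hP5⟩ := exists_proj Ω'
  set g : FPM Ω' := R f with hg
  have hsc : ∀ V' : Submodule ℂ (FPM Ω'), ∃ t : ℂ, V' ∈ Irr Ω' → ∀ h ∈ V', KOp Ω' r h = t • h := by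
    intro V'
    by_cases hV' : V' ∈ Irr Ω'
    · obtain ⟨t, ht⟩ := equivar_scalar (T := KOp Ω' r) (fun σ f => KOp_eqv r σ f) hV'
      exact ⟨t, fun _ => ht⟩
    · exact ⟨0, fun h => absurd h hV'⟩
  choose ω hω using hsc
  have hsum : KOp Ω' r g = ∑ V' ∈ irrF Ω', ω V' • P V' g := by
    conv_lhs => rw [← hP4 g]
    rw [map_sum]
    refine Finset.sum_congr rfl fun V' hV' => ?_
    have hV'' := mem_irrF.mp hV'
    exact hω V' hV'' _ (hP1 V' hV'' g)
  have hgs : nrm2 g = ∑ V' ∈ irrF Ω', nrm2 (P V' g) := by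
    have h := nrm2_sum_proj (P := P) hP1 g (fun _ => 1)
    simp only [one_smul, hP4, norm_one, one_pow, one_mul] at h
    exact h
  rw [hsum, nrm2_sum_proj hP1, hgs, Finset.mul_sum]
  refine Finset.sum_le_sum fun V' hV' => ?_
  have hV'' := mem_irrF.mp hV'
  by_cases h0 : P V' g = 0
  · have hz : nrm2 (P V' g) = 0 := by
      rw [h0]
      simp [nrm2]
    rw [hz, mul_zero, mul_zero]
  · have hn : ‖ω V'‖ ≤ A := by
      refine hA V' hV'' ?_ (ω V') (hω V' hV'')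
      have hW : V ⊓ LinearMap.ker (P V' ∘ₗ R) = ⊥ ∨ V ⊓ LinearMap.ker (P V' ∘ₗ R) = V := by
        refine hV.2.2 _ inf_le_left ?_
        intro σ x hx
        obtain ⟨hx1, hx2⟩ := Submodule.mem_inf.mp hx
        refine Submodule.mem_inf.mpr ⟨hV.2.1 σ x hx1, ?_⟩
        rw [LinearMap.mem_ker, LinearMap.comp_apply] at hx2 ⊢
        rw [hR, hP5 V' hV'', hx2, map_zero]
      rcases hW with hW | hW
      · have hmap : ∀ x ∈ V, (P V' ∘ₗ R) x ∈ V' := fun x _ => hP1 V' hV'' _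
        refine LinearMap.finrank_le_finrank_of_injective
          (f := (P V' ∘ₗ R).restrict hmap) ?_
        intro x y hxy
        have h1 : (P V' ∘ₗ R) x.1 = (P V' ∘ₗ R) y.1 := congrArg Subtype.val hxy
        have h2 : x.1 - y.1 ∈ V ⊓ LinearMap.ker (P V' ∘ₗ R) := by
          refine Submodule.mem_inf.mpr ⟨V.sub_mem x.2 y.2, ?_⟩
          rw [LinearMap.mem_ker, map_sub, h1, sub_self]
        rw [hW, Submodule.mem_bot] at h2
        exact Subtype.ext (sub_eq_zero.mp h2)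
      · exfalso
        apply h0
        have h3 : f ∈ V ⊓ LinearMap.ker (P V' ∘ₗ R) := by
          rw [hW]
          exact hf
        have h4 := (Submodule.mem_inf.mp h3).2
        rw [LinearMap.mem_ker, LinearMap.comp_apply] at h4
        exact h4
    have hn2 : ‖ω V'‖ ^ 2 ≤ A ^ 2 := pow_le_pow_left₀ (norm_nonneg _) hn 2
    exact mul_le_mul_of_nonneg_right hn2 (nrm2_nonneg _)

end MPbcd198.L
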