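import Pool.Agent.Lib.MP_bcd198_co.L.ExpT
import Pool.Agent.Lib.MP_bcd198_co.L.Comb
import Pool.Agent.Lib.MP_bcd198_co.L.Fil

/-!
# JOB L/Lev: the operator `TT` at level `j` [2.6]

`card_supp_le`: the permutations with support in `S` are the permutations of `S` (`Equiv.Perm.subtypeEquivSubtypePerm`, `Fintype.card_perm`).

`lev`: let `|support B| = 2j`, `S = support B`. Write `C` for constants. By `expA q (2j)`: `K_q fB B = ∑ k B₁ • fB B₁` (`B₁` involution, support in `S`). For each such `B₁`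
(`|support B₁| ≤ 2j`), by `expB p (2j)`: `mu • Ra K_p Rb fB B₁ = ∑ x_{B₁} al • fB al`, where `al` is an involution moving only points of `P₂` and points
`inr y` with `y ∈ support B₁`; so `|support al| ≤ |P₂| + 2j`. For each such `al`, by `expC (|P₂| + 2j)`: `Rc K_2 fB al = ∑ y_al ga • fB ga`, `ga` an
involution with support in `{y : al (inr y) ≠ inr y}`. (Use `choose` for `x_{B₁}` and `y_al`.) So `TT fB B = ∑_ga S ga • fB ga` with
`S ga = ∑_{B₁} ∑_al k B₁ x_{B₁} al y_al ga`, and `S ga ≠ 0` only if `ga` is an involution with support in `S`. Put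
`s ga = S ga` if `|support ga| = 2j` and `s ga = 0` otherwise; the terms with `|support ga| < 2j` have `|support ga| ≤ 2 (j - 1)` (`even_support`), so they are in
`Fil (j - 1)` (`fB_mem`).
Bound: if `|support ga| = 2j` and the term `(B₁, al)` does not vanish then
`support ga ⊆ {y : al (inr y) ≠ inr y} ⊆ support B₁ ⊆ S`, so all four sets are equal (same cardinality), and
`‖k B₁‖ ≤ C z^(-j + |clo q B₁ B|/2q) ≤ C z^(-j + j/q)` (the points of `clo` are moved by `B`: at most `2j`),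
`‖x‖ ≤ C z^(-j + |Cp|/2p)`, `‖y‖ ≤ C z^(-|support al|/2 + |C2|/4)`; the product is `≤ C z^(-2j + EE D p q j B₁ ga al) ≤ C z^(-2j - δ)` by `hE` (for
`B₁, ga, al`). The number of triples `(B₁, al, ga)` is at most `(2j)! (|P₂| + 2j)! (2j)!` (`card_supp_le`).
-/

set_option autoImplicit false

namespace MPbcd198.L

open Equiv

theorem card_supp_le {Ω : Type} [Fintype Ω] [DecidableEq Ω] (S : Finset Ω) :
    (Finset.univ.filter fun σ : Perm Ω => σ.support ⊆ S).card ≤ S.card.factorial := by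
  classical
  have h1 : (Finset.univ.filter fun σ : Perm Ω => σ.support ⊆ S).card =
      Fintype.card {σ : Perm Ω // ∀ a, ¬ a ∈ S → σ a = a} := by
    rw [Fintype.card_subtype]
    congr 1
    ext σ
    simp only [Finset.mem_filter, Finset.mem_univ, true_and]
    constructor
    · intro h a ha
      by_contra hne
      exact ha (h (Perm.mem_support.2 hne))
    · intro h a ha
      by_contra hne
      exact Perm.mem_support.1 ha (h a hne)
  rw [h1, ← Fintype.card_congr (Perm.subtypeEquivSubtypePerm (fun x => x ∈ S)),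
    Fintype.card_perm, Fintype.card_coe]

variable {P₁ P₂ : Type} [Fintype P₁] [Fintype P₂] [DecidableEq P₁] [DecidableEq P₂]

private theorem Lev_clo {Ω : Type} [Fintype Ω] [DecidableEq Ω] (r : ℕ) (α β : Perm Ω) :
    (clo r α β).card ≤ β.support.card := by
  apply Finset.card_le_card
  intro x hx
  rw [Perm.mem_support]
  exact (clo_spec hx).2.1

private theorem Lev_count {A B C : Type} [Fintype A] [Fintype B] [Fintype C] (FA : Finset A)
    (FB : Finset B) (FC : Finset C) (t : A → B → C → ℝ) (M : ℝ) (nA nB nC : ℕ) (hM : 0 ≤ M)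
    (h : ∀ a b c, t a b c ≤ M)
    (h0 : ∀ a b c, t a b c ≠ 0 → a ∈ FA ∧ b ∈ FB ∧ c ∈ FC) (hA : FA.card ≤ nA)
    (hB : FB.card ≤ nB) (hC : FC.card ≤ nC) :
    ∑ a, ∑ b, ∑ c, t a b c ≤ M * ((nA : ℝ) * nB * nC) := by
  have h1 : ∑ a, ∑ b, ∑ c, t a b c = ∑ a ∈ FA, ∑ b ∈ FB, ∑ c ∈ FC, t a b c := by
    rw [← Finset.sum_subset (Finset.subset_univ FA)]
    · refine Finset.sum_congr rfl fun a _ => ?_
      rw [← Finset.sum_subset (Finset.subset_univ FB)]
      · refine Finset.sum_congr rfl fun b _ => ?_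
        rw [← Finset.sum_subset (Finset.subset_univ FC)]
        intro c _ hc
        by_contra h2
        exact hc (h0 a b c h2).2.2
      · intro b _ hb
        refine Finset.sum_eq_zero fun c _ => ?_
        by_contra h2
        exact hb (h0 a b c h2).2.1
    · intro a _ ha
      refine Finset.sum_eq_zero fun b _ => Finset.sum_eq_zero fun c _ => ?_
      by_contra h2
      exact ha (h0 a b c h2).1
  have h2 : ∑ a ∈ FA, ∑ b ∈ FB, ∑ c ∈ FC, t a b c ≤ ∑ _a ∈ FA, ∑ _b ∈ FB, ∑ _c ∈ FC, M :=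
    Finset.sum_le_sum fun a _ => Finset.sum_le_sum fun b _ => Finset.sum_le_sum fun c _ => h a b c
  rw [h1]
  refine h2.trans ?_
  simp only [Finset.sum_const, nsmul_eq_mul]
  have hA' : (FA.card : ℝ) ≤ nA := by exact_mod_cast hA
  have hB' : (FB.card : ℝ) ≤ nB := by exact_mod_cast hB
  have hC' : (FC.card : ℝ) ≤ nC := by exact_mod_cast hC
  have h3 : (FA.card : ℝ) * (FB.card : ℝ) * (FC.card : ℝ) ≤ (nA : ℝ) * nB * nC := by
    gcongr
  calc (FA.card : ℝ) * ((FB.card : ℝ) * ((FC.card : ℝ) * M))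
      = M * ((FA.card : ℝ) * (FB.card : ℝ) * (FC.card : ℝ)) := by ring
    _ ≤ M * ((nA : ℝ) * nB * nC) := mul_le_mul_of_nonneg_left h3 hM

private theorem Lev_supp {Z : Type} [Fintype Z] [DecidableEq Z] {S : Finset Z}
    {al : Perm (P₂ ⊕ Z)} (h : ∀ y, al (Sum.inr y) ≠ Sum.inr y → y ∈ S) :
    al.support ⊆ (Finset.univ : Finset P₂).disjSum S := by
  intro x hx
  rw [Perm.mem_support] at hx
  rcases x with x | x
  · rw [Finset.inl_mem_disjSum]
    exact Finset.mem_univ x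
  · rw [Finset.inr_mem_disjSum]
    exact h x hx

private theorem Lev_expand (D : Dat P₁ P₂) {p q z : ℕ} (B : Perm (Fin (2 * z)))
    (k : Perm (Fin (2 * z)) → ℂ) (x : Perm (Fin (2 * z)) → Perm (P₂ ⊕ Fin (2 * z)) → ℂ)
    (y : Perm (P₂ ⊕ Fin (2 * z)) → Perm (Fin (2 * z)) → ℂ)
    (hk : KOp (Fin (2 * z)) q (fB B) = ∑ B₁, k B₁ • fB B₁)
    (hx : ∀ B₁, k B₁ ≠ 0 → (mu D z : ℂ) • Ra D (Fin (2 * z)) (KOp (P₁ ⊕ (P₂ ⊕ Fin (2 * z))) p
      (Rb D (Fin (2 * z)) (fB B₁))) = ∑ al, x B₁ al • fB al)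
    (hy : ∀ B₁ al, k B₁ ≠ 0 → x B₁ al ≠ 0 →
      Rc D (Fin (2 * z)) (KOp (P₂ ⊕ Fin (2 * z)) 2 (fB al)) = ∑ ga, y al ga • fB ga) :
    TT D p q z (fB B) = ∑ ga, (∑ B₁, ∑ al, k B₁ * x B₁ al * y al ga) • fB ga := by
  have h1 : TT D p q z (fB B) = ∑ B₁, k B₁ • Rc D (Fin (2 * z)) (KOp (P₂ ⊕ Fin (2 * z)) 2
      ((mu D z : ℂ) • Ra D (Fin (2 * z)) (KOp (P₁ ⊕ (P₂ ⊕ Fin (2 * z))) p
        (Rb D (Fin (2 * z)) (fB B₁))))) := by
    unfold TT
    simp only [LinearMap.smul_apply, LinearMap.comp_apply]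
    rw [hk]
    simp only [map_sum, map_smul, Finset.smul_sum]
    refine Finset.sum_congr rfl fun B₁ _ => ?_
    rw [smul_comm]
  have h2 : ∀ B₁, k B₁ • Rc D (Fin (2 * z)) (KOp (P₂ ⊕ Fin (2 * z)) 2
      ((mu D z : ℂ) • Ra D (Fin (2 * z)) (KOp (P₁ ⊕ (P₂ ⊕ Fin (2 * z))) p
        (Rb D (Fin (2 * z)) (fB B₁))))) =
      ∑ al, ∑ ga, (k B₁ * x B₁ al * y al ga) • fB ga := by
    intro B₁
    by_cases h0 : k B₁ = 0
    · rw [h0]
      simp only [zero_smul, zero_mul, Finset.sum_const_zero]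
    · rw [hx B₁ h0]
      simp only [map_sum, map_smul, Finset.smul_sum]
      refine Finset.sum_congr rfl fun al _ => ?_
      by_cases h3 : x B₁ al = 0
      · rw [h3]
        simp only [zero_smul, mul_zero, zero_mul, smul_zero, Finset.sum_const_zero]
      · rw [hy B₁ al h0 h3]
        simp only [Finset.smul_sum, smul_smul, mul_assoc]
  rw [h1]
  simp only [h2, Finset.sum_smul]
  symm
  rw [Finset.sum_comm]
  refine Finset.sum_congr rfl fun B₁ _ => ?_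
  rw [Finset.sum_comm]

omit [Fintype P₂] [DecidableEq P₂] in
/-- everything about a nonvanishing term -/
private theorem Lev_term {z : ℕ} {B B₁ ga : Perm (Fin (2 * z))} {al : Perm (P₂ ⊕ Fin (2 * z))}
    {j : ℕ} (hB : B.support.card = 2 * j) (hga : ga.support.card = 2 * j)
    (h1 : ∀ y, B₁ y ≠ y → B y ≠ y) (h2 : ∀ y, al (Sum.inr y) ≠ Sum.inr y → B₁ y ≠ y)
    (h3 : ∀ x, ga x ≠ x → al (Sum.inr x) ≠ Sum.inr x) :
    B₁.support.card = 2 * j ∧ (∀ x, ga x ≠ x ↔ B₁ x ≠ x) ∧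
      (∀ x, al (Sum.inr x) ≠ Sum.inr x ↔ B₁ x ≠ x) := by
  have h4 : ga.support ⊆ B.support := by
    intro x hx
    rw [Perm.mem_support] at hx ⊢
    exact h1 x (h2 x (h3 x hx))
  have h5 : ga.support = B.support := Finset.eq_of_subset_of_card_le h4 (by rw [hB, hga])
  have h6 : ∀ x, B x ≠ x → ga x ≠ x := by
    intro x hx
    rw [← Perm.mem_support] at hx ⊢
    rw [h5]
    exact hx
  have h7 : B₁.support = B.support := by
    ext x
    rw [Perm.mem_support, Perm.mem_support]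
    exact ⟨h1 x, fun h => h2 x (h3 x (h6 x h))⟩
  refine ⟨by rw [h7]; exact hB, fun x => ⟨fun h => h2 x (h3 x h), fun h => h6 x (h1 x h)⟩,
    fun x => ⟨h2 x, fun h => h3 x (h6 x (h1 x h))⟩⟩

private theorem Lev_bound {z : ℕ} (hz : 1 ≤ z) {CA CB CC a b c e : ℝ} {u v w : ℂ}
    (hCA : 0 < CA) (hCB : 0 < CB) (hCC : 0 < CC) (hu : ‖u‖ ≤ CA * (z : ℝ) ^ a)
    (hv : ‖v‖ ≤ CB * (z : ℝ) ^ b) (hw : ‖w‖ ≤ CC * (z : ℝ) ^ c) (he : a + b + c ≤ e) :
    ‖u * v * w‖ ≤ CA * CB * CC * (z : ℝ) ^ e := by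
  have hz1 : (1 : ℝ) ≤ z := by exact_mod_cast hz
  have hz0 : (0 : ℝ) < z := lt_of_lt_of_le one_pos hz1
  rw [norm_mul, norm_mul]
  have h1 : ‖u‖ * ‖v‖ * ‖w‖ ≤
      (CA * (z : ℝ) ^ a) * (CB * (z : ℝ) ^ b) * (CC * (z : ℝ) ^ c) := by
    gcongr
  refine h1.trans ?_
  calc (CA * (z : ℝ) ^ a) * (CB * (z : ℝ) ^ b) * (CC * (z : ℝ) ^ c)
      = CA * CB * CC * ((z : ℝ) ^ a * (z : ℝ) ^ b * (z : ℝ) ^ c) := by ring
    _ = CA * CB * CC * (z : ℝ) ^ (a + b + c) := by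
        rw [Real.rpow_add hz0, Real.rpow_add hz0]
    _ ≤ CA * CB * CC * (z : ℝ) ^ e := by
        gcongr

theorem lev {p q : ℕ} (hp : 1 ≤ p) (hq : 1 ≤ q) (D : Dat P₁ P₂) (δ : ℝ) (j : ℕ) (hj : 1 ≤ j)
    (hE : ∀ (z : ℕ) (B ga : Perm (Fin (2 * z))) (al : Perm (P₂ ⊕ Fin (2 * z))), IsInv B →
      IsInv ga → IsInv al → B.support.card = 2 * j → (∀ x, ga x ≠ x ↔ B x ≠ x) →
      (∀ x, al (Sum.inr x) ≠ Sum.inr x ↔ B x ≠ x) → EE D p q j B ga al ≤ -δ) :
    ∃ C : ℝ, 0 < C ∧ ∀ z : ℕ, 1 ≤ z → ∀ B : Perm (Fin (2 * z)), IsInv B →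
      B.support.card = 2 * j → ∃ s : Perm (Fin (2 * z)) → ℂ,
        (∀ ga, s ga ≠ 0 → IsInv ga ∧ ga.support.card ≤ 2 * j) ∧
        TT D p q z (fB B) - ∑ ga, s ga • fB ga ∈ Fil (Fin (2 * z)) (j - 1) ∧
        ∑ ga, ‖s ga‖ ≤ C * (z : ℝ) ^ (-(2 * j : ℝ) - δ) := by
  classical
  obtain ⟨CA, hCA, hA⟩ := expA q (2 * j) hq
  obtain ⟨CB, hCB, hB⟩ := expB D p (2 * j) hp
  obtain ⟨CC, hCC, hC⟩ := expC D (Fintype.card P₂ + 2 * j)
  refine ⟨CA * CB * CC * (((2 * j).factorial : ℝ) * ((2 * j).factorial : ℝ) *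
    ((Fintype.card P₂ + 2 * j).factorial : ℝ)), by positivity, ?_⟩
  intro z hz B hBi hBc
  obtain ⟨k, hk1, hk2, hk3⟩ := hA z hz B hBi hBc.le
  have hx0 : ∀ B₁ : Perm (Fin (2 * z)), ∃ x : Perm (P₂ ⊕ Fin (2 * z)) → ℂ,
      IsInv B₁ → B₁.support.card ≤ 2 * j →
        (∀ al, x al ≠ 0 → IsInv al ∧ ∀ y, al (Sum.inr y) ≠ Sum.inr y → B₁ y ≠ y) ∧
        (mu D z : ℂ) • Ra D (Fin (2 * z)) (KOp (P₁ ⊕ (P₂ ⊕ Fin (2 * z))) p
          (Rb D (Fin (2 * z)) (fB B₁))) = ∑ al, x al • fB al ∧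
        ∀ al, ‖x al‖ ≤ CB * (z : ℝ) ^ (-(B₁.support.card : ℝ) / 2 +
          ((clo p (combA D.a al) (combB D.b B₁)).card : ℝ) / (2 * p)) := by
    intro B₁
    by_cases h1 : IsInv B₁ ∧ B₁.support.card ≤ 2 * j
    · obtain ⟨x, hx⟩ := hB z hz B₁ h1.1 h1.2
      exact ⟨x, fun _ _ => hx⟩
    · exact ⟨0, fun h2 h3 => absurd ⟨h2, h3⟩ h1⟩
  choose x hx using hx0
  have hy0 : ∀ al : Perm (P₂ ⊕ Fin (2 * z)), ∃ y : Perm (Fin (2 * z)) → ℂ,
      IsInv al → al.support.card ≤ Fintype.card P₂ + 2 * j →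
        (∀ ga, y ga ≠ 0 → IsInv ga ∧ ∀ x, ga x ≠ x → al (Sum.inr x) ≠ Sum.inr x) ∧
        Rc D (Fin (2 * z)) (KOp (P₂ ⊕ Fin (2 * z)) 2 (fB al)) = ∑ ga, y ga • fB ga ∧
        ∀ ga, ‖y ga‖ ≤ CC * (z : ℝ) ^ (-(al.support.card : ℝ) / 2 +
          ((clo 2 (Equiv.sumCongr D.c ga) al).card : ℝ) / (2 * (2 : ℕ))) := by
    intro al
    by_cases h1 : IsInv al ∧ al.support.card ≤ Fintype.card P₂ + 2 * j
    · obtain ⟨y, hy⟩ := hC z hz al h1.1 h1.2
      exact ⟨y, fun _ _ => hy⟩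
    · exact ⟨0, fun h2 h3 => absurd ⟨h2, h3⟩ h1⟩
  choose y hy using hy0
  -- properties of the supports
  have hB1 : ∀ B₁, k B₁ ≠ 0 → IsInv B₁ ∧ B₁.support ⊆ B.support ∧ B₁.support.card ≤ 2 * j := by
    intro B₁ h1
    have h2 : B₁.support ⊆ B.support := by
      intro v hv
      rw [Perm.mem_support] at hv ⊢
      exact (hk1 B₁ h1).2 v hv
    exact ⟨(hk1 B₁ h1).1, h2, hBc ▸ Finset.card_le_card h2⟩
  have hal1 : ∀ B₁ al, k B₁ ≠ 0 → x B₁ al ≠ 0 → IsInv al ∧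
      al.support ⊆ (Finset.univ : Finset P₂).disjSum B.support ∧
      al.support.card ≤ Fintype.card P₂ + 2 * j := by
    intro B₁ al h1 h2
    have h3 := (hx B₁ (hB1 B₁ h1).1 (hB1 B₁ h1).2.2).1 al h2
    have h4 : al.support ⊆ (Finset.univ : Finset P₂).disjSum B.support := by
      refine Lev_supp fun v hv => ?_
      rw [Perm.mem_support]
      exact (hk1 B₁ h1).2 v (h3.2 v hv)
    refine ⟨h3.1, h4, ?_⟩
    refine (Finset.card_le_card h4).trans ?_
    rw [Finset.card_disjSum, Finset.card_univ, hBc]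
  have hga1 : ∀ B₁ al ga, k B₁ ≠ 0 → x B₁ al ≠ 0 → y al ga ≠ 0 → IsInv ga ∧
      ga.support ⊆ B.support ∧ ga.support.card ≤ 2 * j := by
    intro B₁ al ga h1 h2 h3
    have h4 := (hx B₁ (hB1 B₁ h1).1 (hB1 B₁ h1).2.2).1 al h2
    have h5 := (hy al (hal1 B₁ al h1 h2).1 (hal1 B₁ al h1 h2).2.2).1 ga h3
    have h6 : ga.support ⊆ B.support := by
      intro v hv
      rw [Perm.mem_support] at hv ⊢
      exact (hk1 B₁ h1).2 v (h4.2 v (h5.2 v hv))
    exact ⟨h5.1, h6, hBc ▸ Finset.card_le_card h6⟩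
  have hexp : TT D p q z (fB B) = ∑ ga, (∑ B₁, ∑ al, k B₁ * x B₁ al * y al ga) • fB ga := by
    refine Lev_expand D B k x y hk2 (fun B₁ h1 => ?_) (fun B₁ al h1 h2 => ?_)
    · exact (hx B₁ (hB1 B₁ h1).1 (hB1 B₁ h1).2.2).2.1
    · exact (hy al (hal1 B₁ al h1 h2).1 (hal1 B₁ al h1 h2).2.2).2.1
  have hw0 : ∀ B₁ al ga, k B₁ * x B₁ al * y al ga ≠ 0 → k B₁ ≠ 0 ∧ x B₁ al ≠ 0 ∧ y al ga ≠ 0 := by
    intro B₁ al ga h1
    refine ⟨fun h => h1 ?_, fun h => h1 ?_, fun h => h1 ?_⟩ <;> rw [h] <;> simp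
  have hS0 : ∀ ga, (∑ B₁, ∑ al, k B₁ * x B₁ al * y al ga) ≠ 0 →
      IsInv ga ∧ ga.support.card ≤ 2 * j := by
    intro ga h1
    obtain ⟨B₁, _, h2⟩ := Finset.exists_ne_zero_of_sum_ne_zero h1
    obtain ⟨al, _, h3⟩ := Finset.exists_ne_zero_of_sum_ne_zero h2
    obtain ⟨h4, h5, h6⟩ := hw0 B₁ al ga h3
    have h7 := hga1 B₁ al ga h4 h5 h6
    exact ⟨h7.1, h7.2.2⟩
  refine ⟨fun ga => if ga.support.card = 2 * j then
    ∑ B₁, ∑ al, k B₁ * x B₁ al * y al ga else 0, ?_, ?_, ?_⟩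
  · intro ga h1
    dsimp only at h1
    split_ifs at h1 with h2
    · exact hS0 ga h1
    · exact absurd rfl h1
  · rw [hexp, ← Finset.sum_sub_distrib]
    refine Submodule.sum_mem _ fun ga _ => ?_
    dsimp only
    split_ifs with h2
    · rw [sub_self]
      exact Submodule.zero_mem _
    · rw [zero_smul, sub_zero]
      by_cases h3 : (∑ B₁, ∑ al, k B₁ * x B₁ al * y al ga) = 0
      · rw [h3, zero_smul]
        exact Submodule.zero_mem _
      · obtain ⟨h4, h5⟩ := hS0 ga h3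
        refine Submodule.smul_mem _ _ (fB_mem h4 ?_)
        obtain ⟨e, he⟩ := even_support h4
        omega
  · have hM : 0 ≤ CA * CB * CC * (z : ℝ) ^ (-(2 * j : ℝ) - δ) := by positivity
    have hcount := Lev_count
      (Finset.univ.filter fun σ : Perm (Fin (2 * z)) => σ.support ⊆ B.support)
      (Finset.univ.filter fun σ : Perm (Fin (2 * z)) => σ.support ⊆ B.support)
      (Finset.univ.filter fun σ : Perm (P₂ ⊕ Fin (2 * z)) =>
        σ.support ⊆ (Finset.univ : Finset P₂).disjSum B.support)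
      (fun ga B₁ al => if ga.support.card = 2 * j then ‖k B₁ * x B₁ al * y al ga‖ else 0)
      (CA * CB * CC * (z : ℝ) ^ (-(2 * j : ℝ) - δ)) (2 * j).factorial (2 * j).factorial
      (Fintype.card P₂ + 2 * j).factorial hM ?_ ?_
      (hBc ▸ card_supp_le B.support) (hBc ▸ card_supp_le B.support) ?_
    · refine le_trans (Finset.sum_le_sum fun ga _ => ?_) (hcount.trans (le_of_eq (by ring)))
      dsimp only
      split_ifs with h1
      · refine (norm_sum_le _ _).trans (Finset.sum_le_sum fun B₁ _ => ?_)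
        exact norm_sum_le _ _
      · rw [norm_zero]
        simp
    · intro ga B₁ al
      split_ifs with h1
      · by_cases h2 : k B₁ * x B₁ al * y al ga = 0
        · rw [h2, norm_zero]
          exact hM
        · obtain ⟨h3, h4, h5⟩ := hw0 B₁ al ga h2
          obtain ⟨g1, g2, g3⟩ := hB1 B₁ h3
          obtain ⟨g4, g5, g6⟩ := hal1 B₁ al h3 h4
          obtain ⟨g7, g8, g9⟩ := hga1 B₁ al ga h3 h4 h5
          have hX := hx B₁ g1 g3
          have hY := hy al g4 g6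
          obtain ⟨e1, e2, e3⟩ := Lev_term hBc h1 (hk1 B₁ h3).2 (hX.1 al h4).2 (hY.1 ga h5).2
          have hE1 := hE z B₁ ga al g1 g7 g4 e1 e2 e3
          refine Lev_bound hz hCA hCB hCC (hk3 B₁) (hX.2.2 al) (hY.2.2 ga) ?_
          unfold EE at hE1
          have hq0 : (0 : ℝ) < q := by exact_mod_cast hq
          have h6 : ((clo q B₁ B).card : ℝ) / (2 * q) ≤ (j : ℝ) / q := by
            have h7 : ((clo q B₁ B).card : ℝ) ≤ 2 * j := by
              have h8 := Lev_clo q B₁ B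
              rw [hBc] at h8
              exact_mod_cast h8
            rw [div_le_div_iff₀ (by positivity) hq0]
            nlinarith
          rw [hBc, e1]
          push_cast
          have h9 : (2 : ℝ) * 2 = 4 := by norm_num
          rw [h9]
          linarith
      · exact hM
    · intro ga B₁ al h1
      split_ifs at h1 with h2
      · have h3 : k B₁ * x B₁ al * y al ga ≠ 0 := fun h => h1 (by rw [h, norm_zero])
        obtain ⟨h4, h5, h6⟩ := hw0 B₁ al ga h3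
        exact ⟨Finset.mem_filter.2 ⟨Finset.mem_univ _, (hga1 B₁ al ga h4 h5 h6).2.1⟩,
          Finset.mem_filter.2 ⟨Finset.mem_univ _, (hB1 B₁ h4).2.1⟩,
          Finset.mem_filter.2 ⟨Finset.mem_univ _, (hal1 B₁ al h4 h5).2.1⟩⟩
      · exact absurd rfl h1
    · have h1 := card_supp_le ((Finset.univ : Finset P₂).disjSum B.support)
      rw [Finset.card_disjSum, Finset.card_univ, hBc] at h1
      exact h1

end MPbcd198.L
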