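import Pool.Agent.Lib.MP_bcd198_co.L.RelB

/-!
# JOB L/NLong: the strict hull condition excludes long runs [2.7, main term]

`a'` has no edge inside `P₂`. Let `a = combA D.a a'`, `β = combB D.b 1` (it moves exactly the points of `P = P₁ ∪ P₂`). Suppose `NoLong p a β` fails: there is
`x` such that all `u_i = a ((β a)^i x)`, `i < p`, are moved by `β`, i.e. lie in `P`. Then `u_{i+1} = a (β u_i)`; as `u_{i+1} ∈ P` and `a'` maps `P₂` to `Z`, the point
`β u_i` is in `P₁` and `u_{i+1} = a_d (b_P u_i) ∈ P₁` for `i + 1 < p`. So, on `P`: with the involution `ã = a_d ⊔ id` (identity on `P₂`) and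
`c = ã b_P`: `u_i = c^i u₀` for `i < p`, `b_P (c^i u₀) ∈ P₁` for `i ≤ p - 2`, `c^i u₀ ∈ P₁` for `1 ≤ i ≤ p - 1`.
Let `O` be the orbit of `u₀` under `⟨ã, b_P⟩` (`= {c^i u₀} ∪ {b_P c^i u₀}`): nonempty, closed under `b_P` and (on `P₁`) under `a_d`, so `PClosed` and
`eP p D.c O < 0`.
* If `O ∩ P₂ = ∅` then `eP O = |O|/2p > 0`. Contradiction.
* Otherwise let `w ∈ O ∩ P₂`: `ã w = w`, so `b_P w = c⁻¹ w` and `O = {c^i w}` is one cycle of `c`; let `n` be its length, `n = |O|` even (`b_P` is a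
  perfect matching of `O`). `ã (c^i w) = c^{-i} w`, so `ã` fixes `c^i w` iff `n ∣ 2i`: `|O ∩ P₂| = 2` (at most `2` is enough). If `n ≥ 2p` then
  `eP O ≥ n/2p - 2/2 ≥ 0`: contradiction. So it remains to show `n ≥ 2p`.
  Write `w = c^t u₀` and `b_P u₀ = c^s u₀` (`0 ≤ s < n`). `b_P (c^i u₀) = c^{s-i} u₀` is never `c^i u₀`, so `2i ≢ s` mod `n` for all `i`, and as `n` is even, `s` is odd.
  `ã (c^i u₀) = ã b_P (b_P c^i u₀) = c (c^{s-i} u₀) = c^{s+1-i} u₀`. Take `i₀ = (s+1)/2`, `1 ≤ i₀ ≤ n/2`: `ã` fixes `c^{i₀} u₀`, so this point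
  is in `P₂` (`a_d` has no fixed points). But `c^i u₀ ∈ P₁` for `1 ≤ i ≤ p - 1`. So `i₀ ≥ p`, `s ≥ 2p - 1`, `n > s`, `n ≥ 2p`.
(Any other argument is fine: the component of `u₀` in the graph on `P` with the edges `b_P`, `a_d` is a cycle in `P₁` or a path with exactly two points
in `P₂`, its end points; in the second case it has at least `p` different `b_P`-edges.)
-/

set_option autoImplicit false

namespace MPbcd198.L

open Equiv

section Cyc

variable {P : Type}

private theorem cyc_inv {A b : Perm P} (hA : ∀ x, A (A x) = x) (hb : IsPM b) :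
    (A * b)⁻¹ = b * A := by
  rw [inv_eq_iff_mul_eq_one]
  ext x
  simp [hA, (hb (A x)).2]

private theorem cyc_b {A b : Perm P} (hA : ∀ x, A (A x) = x) (hb : IsPM b) (i : ℤ) :
    b * (A * b) ^ i = (A * b) ^ (-i) * b := by
  have hbb : b * b = 1 := by
    ext y
    simp [(hb y).2]
  have hinvb : b⁻¹ = b := inv_eq_of_mul_eq_one_right hbb
  have h1 : b * (A * b) * b⁻¹ = (A * b)⁻¹ := by
    rw [cyc_inv hA hb, hinvb, mul_assoc, mul_assoc, hbb, mul_one]
  have h2 : b * (A * b) ^ i * b⁻¹ = (A * b) ^ (-i) := by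
    rw [← conj_zpow, h1, inv_zpow, zpow_neg]
  rw [← h2]
  group

private theorem cyc_A {A b : Perm P} (hA : ∀ x, A (A x) = x) (hb : IsPM b) (i : ℤ) :
    A * (A * b) ^ i = (A * b) ^ (-i) * A := by
  have hAA : A * A = 1 := by
    ext y
    simp [hA y]
  have hinvA : A⁻¹ = A := inv_eq_of_mul_eq_one_right hAA
  have h1 : A * (A * b) * A⁻¹ = (A * b)⁻¹ := by
    rw [cyc_inv hA hb, hinvA, ← mul_assoc A A b, hAA, one_mul]
  have h2 : A * (A * b) ^ i * A⁻¹ = (A * b) ^ (-i) := by
    rw [← conj_zpow, h1, inv_zpow, zpow_neg]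
  rw [← h2]
  group

/-- the orbit -/
private def orb (A b : Perm P) (v : P) : Set P :=
  {x | ∃ i : ℤ, x = ((A * b) ^ i : Perm P) v ∨ x = b (((A * b) ^ i : Perm P) v)}

private theorem orb_b {A b : Perm P} (hb : IsPM b) {v x : P} (hx : x ∈ orb A b v) :
    b x ∈ orb A b v := by
  obtain ⟨i, rfl | rfl⟩ := hx
  · exact ⟨i, Or.inr rfl⟩
  · exact ⟨i, Or.inl (hb _).2⟩

private theorem orb_A {A b : Perm P} (hA : ∀ x, A (A x) = x) (hb : IsPM b) {v x : P}
    (hx : x ∈ orb A b v) : A x ∈ orb A b v := by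
  obtain ⟨i, rfl | rfl⟩ := hx
  · refine ⟨i - 1, Or.inr ?_⟩
    have h1 : ((A * b) ^ (i - 1) : Perm P) = b * A * (A * b) ^ i := by
      rw [← cyc_inv hA hb, ← zpow_neg_one, ← zpow_add]
      congr 1
      ring
    rw [h1, Perm.mul_apply, Perm.mul_apply, (hb _).2]
  · refine ⟨i + 1, Or.inl ?_⟩
    rw [add_comm, zpow_add, zpow_one, Perm.mul_apply, Perm.mul_apply]

private theorem orb_self {A b : Perm P} (v : P) : v ∈ orb A b v := ⟨0, Or.inl (by simp)⟩

/-- the path case: the orbit of a point which contains a fixed point of `A` -/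
private theorem path_case [Fintype P] [DecidableEq P] {A b : Perm P} (hA : ∀ x, A (A x) = x)
    (hb : IsPM b) {v w : P} (hw : w ∈ orb A b v) (hAw : A w = w) (p : ℕ)
    (hv : ∀ i : ℕ, 1 ≤ i → i < p → A (((A * b) ^ i : Perm P) v) ≠ ((A * b) ^ i : Perm P) v)
    (O : Finset P) (hO : ∀ x, x ∈ O ↔ x ∈ orb A b v) :
    2 * p ≤ O.card ∧ (O.filter fun x => A x = x).card ≤ 2 := by
  classical
  set c : Perm P := A * b with hc
  -- `w = c ^ t v`
  obtain ⟨t, ht⟩ : ∃ t : ℤ, w = (c ^ t : Perm P) v := by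
    obtain ⟨i, h | h⟩ := hw
    · exact ⟨i, h⟩
    · refine ⟨1 + i, ?_⟩
      rw [← hc] at h
      rw [zpow_add, zpow_one, Perm.mul_apply, hc, Perm.mul_apply, ← hc, ← h, hAw]
  have hvw : v = (c ^ (-t) : Perm P) w := by
    rw [ht, ← Perm.mul_apply, ← zpow_add, neg_add_cancel, zpow_zero, Perm.one_apply]
  have hbw : ∀ i : ℤ, b ((c ^ i : Perm P) w) = (c ^ (-i - 1) : Perm P) w := by
    intro i
    have h1 := cyc_b hA hb i
    rw [← hc] at h1
    have h2 := congrArg (fun g : Perm P => g w) h1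
    simp only [Perm.mul_apply] at h2
    rw [h2]
    have h3 : b w = (c⁻¹ : Perm P) w := by
      rw [hc, cyc_inv hA hb, Perm.mul_apply, hAw]
    rw [h3, sub_eq_add_neg, zpow_add, zpow_neg_one, Perm.mul_apply]
  have hAi : ∀ i : ℤ, A ((c ^ i : Perm P) w) = (c ^ (-i) : Perm P) w := by
    intro i
    have h1 := cyc_A hA hb i
    rw [← hc] at h1
    have h2 := congrArg (fun g : Perm P => g w) h1
    simp only [Perm.mul_apply] at h2
    rw [h2, hAw]
  set n : ℕ := Function.minimalPeriod (⇑c) w with hn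
  have hdvd : ∀ i : ℤ, (c ^ i : Perm P) w = w ↔ (n : ℤ) ∣ i := by
    intro i
    exact MulAction.zpow_smul_eq_iff_minimalPeriod_dvd (a := c) (b := w) (n := i)
  have heq : ∀ i j : ℤ, (c ^ i : Perm P) w = (c ^ j : Perm P) w ↔ (n : ℤ) ∣ i - j := by
    intro i j
    rw [← hdvd, sub_eq_neg_add, zpow_add, Perm.mul_apply]
    constructor
    · intro h
      rw [h, ← Perm.mul_apply, ← zpow_add, neg_add_cancel, zpow_zero, Perm.one_apply]
    · intro h
      have h2 : (c ^ j : Perm P) ((c ^ (-j) : Perm P) ((c ^ i : Perm P) w)) =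
          (c ^ j : Perm P) w := congrArg (fun x => (c ^ j : Perm P) x) h
      rw [← Perm.mul_apply, ← zpow_add, add_neg_cancel, zpow_zero, Perm.one_apply] at h2
      exact h2
  have hn0 : n ≠ 0 := by
    intro h0
    have h1 : ∀ i : ℤ, (c ^ i : Perm P) w = w ↔ i = 0 := by
      intro i
      rw [hdvd, h0]
      simp
    have h2 := h1 (orderOf c)
    rw [zpow_natCast, pow_orderOf_eq_one, Perm.one_apply] at h2
    have h3 := h2.1 rfl
    have h4 := orderOf_pos c
    omega
  have heven : ∃ h : ℕ, n = 2 * h := by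
    rcases Nat.even_or_odd n with ⟨h, hh⟩ | ⟨h, hh⟩
    · exact ⟨h, by omega⟩
    · exfalso
      have h1 := hbw (h : ℤ)
      have h2 : (c ^ (h : ℤ) : Perm P) w = (c ^ (-(h : ℤ) - 1) : Perm P) w := by
        rw [heq]
        refine ⟨1, ?_⟩
        rw [hh]
        push_cast
        ring
      rw [← h2] at h1
      exact (hb _).1 h1
  obtain ⟨h, hh⟩ := heven
  have hh0 : 1 ≤ h := by omega
  -- `n ≥ 2p`
  have hhp : p ≤ h := by
    by_contra hlt
    push Not at hlt
    -- the integers `-t + 1, …, -t + h` contain a multiple of `h`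
    set i : ℤ := t % (h : ℤ) with hi
    have hi0 : 0 ≤ i := Int.emod_nonneg _ (by omega)
    have hih : i < h := Int.emod_lt_of_pos _ (by omega)
    have hdv : (h : ℤ) ∣ t - i := Int.dvd_self_sub_emod
    -- choose a representative between 1 and h
    obtain ⟨j, hj1, hj2, hj3⟩ : ∃ j : ℕ, 1 ≤ j ∧ j ≤ h ∧ (h : ℤ) ∣ (j : ℤ) - t := by
      rcases eq_or_ne i 0 with h0 | h0
      · refine ⟨h, hh0, le_refl _, ?_⟩
        rw [h0, sub_zero] at hdv
        exact dvd_sub (dvd_refl _) hdv
      · refine ⟨i.toNat, by omega, by omega, ?_⟩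
        rw [Int.toNat_of_nonneg hi0]
        have : i - t = -(t - i) := by ring
        rw [this]
        exact (dvd_neg).2 hdv
    apply hv j hj1 (by omega)
    have h1 : (c ^ j : Perm P) v = (c ^ ((j : ℤ) - t) : Perm P) w := by
      rw [hvw, ← zpow_natCast, ← Perm.mul_apply, ← zpow_add, ← sub_eq_add_neg]
    rw [h1, hAi, heq]
    obtain ⟨k, hk⟩ := hj3
    refine ⟨-k, ?_⟩
    rw [hk, hh]
    push_cast
    ring
  constructor
  · have h1 : (Finset.range n).image (fun i : ℕ => (c ^ (i : ℤ) : Perm P) w) ⊆ O := by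
      intro x hx
      rw [Finset.mem_image] at hx
      obtain ⟨i, -, rfl⟩ := hx
      rw [hO]
      refine ⟨(i : ℤ) + t, Or.inl ?_⟩
      rw [← hc, zpow_add, Perm.mul_apply, ← ht]
    have h2 : ((Finset.range n).image (fun i : ℕ => (c ^ (i : ℤ) : Perm P) w)).card = n := by
      rw [Finset.card_image_of_injOn, Finset.card_range]
      intro i hi j hj hij
      have hi' : i < n := Finset.mem_range.1 hi
      have hj' : j < n := Finset.mem_range.1 hj
      have h3 := (heq i j).1 hij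
      have h4 : (i : ℤ) - j = 0 := Int.eq_zero_of_abs_lt_dvd h3 (by
        rw [abs_lt]
        constructor <;> omega)
      omega
    have h3 := Finset.card_le_card h1
    rw [h2] at h3
    omega
  · have h1 : (O.filter fun x => A x = x) ⊆ {w, (c ^ (h : ℤ) : Perm P) w} := by
      intro x hx
      rw [Finset.mem_filter, hO] at hx
      obtain ⟨hx1, hx2⟩ := hx
      obtain ⟨i, hi⟩ : ∃ i : ℤ, x = (c ^ i : Perm P) w := by
        obtain ⟨i, hi | hi⟩ := hx1
        · rw [← hc] at hi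
          refine ⟨i + -t, ?_⟩
          rw [zpow_add, Perm.mul_apply, ← hvw, hi]
        · rw [← hc] at hi
          refine ⟨-(i + -t) - 1, ?_⟩
          rw [← hbw, zpow_add, Perm.mul_apply, ← hvw, hi]
      rw [hi, hAi, heq] at hx2
      obtain ⟨k, hk⟩ := hx2
      have hk' : i = -((h : ℤ) * k) := by
        have : (n : ℤ) = 2 * h := by exact_mod_cast hh
        rw [this] at hk
        linarith
      rw [Finset.mem_insert, Finset.mem_singleton, hi]
      rcases Int.even_or_odd k with ⟨m, hm⟩ | ⟨m, hm⟩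
      · left
        rw [hdvd]
        refine ⟨-m, ?_⟩
        rw [hk', hm, hh]
        push_cast
        ring
      · right
        rw [heq]
        refine ⟨-m - 1, ?_⟩
        rw [hk', hm, hh]
        push_cast
        ring
    exact le_trans (Finset.card_le_card h1) Finset.card_le_two

end Cyc

variable {P₁ P₂ : Type} [Fintype P₁] [Fintype P₂] [DecidableEq P₁] [DecidableEq P₂]

/-- embedding of `P` -/
private def emb {P₁ P₂ Z : Type} : P₁ ⊕ P₂ → P₁ ⊕ (P₂ ⊕ Z)
  | Sum.inl y => Sum.inl y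
  | Sum.inr y => Sum.inr (Sum.inl y)

private theorem combB_emb {P₁ P₂ Z : Type} (b : Perm (P₁ ⊕ P₂)) (v : P₁ ⊕ P₂) :
    combB b (1 : Perm Z) (emb v) = emb (b v) := by
  rw [combB_apply]
  have h1 : (Equiv.sumAssoc P₁ P₂ Z).symm (emb v) = Sum.inl v := by
    rcases v with y | y <;> rfl
  rw [h1]
  have h2 : (Equiv.sumCongr b (1 : Perm Z)) (Sum.inl v) = Sum.inl (b v) := rfl
  rw [h2]
  rcases b v with y | y <;> rfl

private theorem combB_moved {P₁ P₂ Z : Type} (b : Perm (P₁ ⊕ P₂)) (x : P₁ ⊕ (P₂ ⊕ Z))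
    (h : combB b (1 : Perm Z) x ≠ x) : ∃ v, x = emb v := by
  rcases x with y | y | y
  · exact ⟨Sum.inl y, rfl⟩
  · exact ⟨Sum.inr y, rfl⟩
  · exact absurd rfl h

omit [Fintype P₁] [Fintype P₂] [DecidableEq P₁] [DecidableEq P₂] in
private theorem eP_ge (p : ℕ) (c : Perm P₂) (U : Finset (P₁ ⊕ P₂)) :
    (U.card : ℝ) / (2 * p) - ((U.filter fun x => x.isRight = true).card : ℝ) / 2 ≤ eP p c U := by
  classical
  unfold eP
  have : (0 : ℝ) ≤ ((U.filter fun x => ∃ y, x = Sum.inr y ∧ Sum.inr (c y) ∈ U).card : ℝ) / 4 := by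
    positivity
  convert le_add_of_nonneg_right this using 2

theorem noLong_of_strict (D : Dat P₁ P₂) (p : ℕ) (hp : 1 ≤ p) (hs : D.Strict p) (z : ℕ)
    (a' : Perm (P₂ ⊕ Fin (2 * z))) (ha' : IsPM a') (h : ∀ y, ∃ x, a' (Sum.inl y) = Sum.inr x) :
    NoLong p (combA D.a a') (combB D.b (1 : Perm (Fin (2 * z)))) := by
  classical
  by_contra hcon
  unfold NoLong at hcon
  push Not at hcon
  obtain ⟨x, hx⟩ := hcon
  set β : Perm (P₁ ⊕ (P₂ ⊕ Fin (2 * z))) := combB D.b (1 : Perm (Fin (2 * z))) with hβ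
  set a : Perm (P₁ ⊕ (P₂ ⊕ Fin (2 * z))) := combA D.a a' with ha
  let A : Perm (P₁ ⊕ P₂) := Equiv.sumCongr D.a (Equiv.refl P₂)
  have hA : ∀ v, A (A v) = v := by
    rintro (y | y)
    · exact congrArg Sum.inl (D.ha y).2
    · rfl
  have hAf : ∀ v, A v = v ↔ v.isRight = true := by
    rintro (y | y)
    · constructor
      · intro h1
        exact absurd (Sum.inl.inj h1) (D.ha y).1
      · intro h1
        exact absurd h1 (by simp)
    · exact ⟨fun _ => rfl, fun _ => rfl⟩
  obtain ⟨v, hv⟩ := combB_moved D.b _ (hx 0 (by omega))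
  have hrun : ∀ i : ℕ, i < p → a (((β * a) ^ i : Perm _) x) = emb (((A * D.b) ^ i : Perm _) v) ∧
      (1 ≤ i → (((A * D.b) ^ i : Perm _) v).isRight = false) := by
    intro i
    induction i with
    | zero =>
      intro _
      refine ⟨?_, fun h1 => absurd h1 (by omega)⟩
      rw [hv]
      simp
    | succ i ih =>
      intro hi
      obtain ⟨h1, -⟩ := ih (by omega)
      have h2 : a (((β * a) ^ (i + 1) : Perm _) x) =
          a (emb (D.b (((A * D.b) ^ i : Perm _) v))) := by
        rw [pow_succ', Perm.mul_apply, Perm.mul_apply, h1, hβ, combB_emb]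
      have h3 := combB_moved D.b _ (hx (i + 1) hi)
      rw [h2] at h3 ⊢
      have h4 : ((A * D.b) ^ (i + 1) : Perm _) v = A (D.b (((A * D.b) ^ i : Perm _) v)) := by
        rw [pow_succ', Perm.mul_apply, Perm.mul_apply]
      rw [h4]
      rcases hy : D.b (((A * D.b) ^ i : Perm _) v) with y | y
      · exact ⟨rfl, fun _ => rfl⟩
      · exfalso
        rw [hy] at h3
        obtain ⟨u, hu⟩ := h3
        obtain ⟨x', hx'⟩ := h y
        have h5 : a (emb (Sum.inr y)) = Sum.inr (a' (Sum.inl y)) := rfl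
        rw [h5, hx'] at hu
        rcases u with u | u
        · exact absurd hu (by simp [emb])
        · exact absurd hu (by simp [emb])
  let O : Finset (P₁ ⊕ P₂) := Finset.univ.filter fun u => u ∈ orb A D.b v
  have hO : ∀ u, u ∈ O ↔ u ∈ orb A D.b v := by
    intro u
    simp [O]
  have hvO : v ∈ O := (hO v).2 (orb_self v)
  have hcl : PClosed D.a D.b O := by
    constructor
    · intro u hu
      rw [hO] at hu ⊢
      exact orb_b D.hb hu
    · intro y hy
      rw [hO] at hy ⊢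
      exact orb_A hA D.hb hy
  have hneg := hs O ⟨v, hvO⟩ hcl
  have hge := eP_ge p D.c O
  have hpR : (0 : ℝ) < p := by exact_mod_cast hp
  have hfil : (O.filter fun x => x.isRight = true) = O.filter fun x => A x = x := by
    apply Finset.filter_congr
    intro u _
    rw [hAf]
  rw [hfil] at hge
  by_cases hex : ∃ w ∈ O, A w = w
  · obtain ⟨w, hwO, hAw⟩ := hex
    have hpc := path_case hA D.hb ((hO w).1 hwO) hAw p (by
      intro i h1 h2 h3
      have h4 := (hrun i h2).2 h1
      rw [(hAf _).1 h3] at h4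
      exact absurd h4 (by simp)) O hO
    have h1 : (2 * p : ℝ) ≤ O.card := by exact_mod_cast hpc.1
    have h2 : ((O.filter fun x => A x = x).card : ℝ) ≤ 2 := by exact_mod_cast hpc.2
    have h3 : (1 : ℝ) ≤ (O.card : ℝ) / (2 * p) := by
      rw [le_div_iff₀ (by positivity)]
      linarith
    linarith
  · push Not at hex
    have h1 : (O.filter fun x => A x = x) = ∅ := by
      apply Finset.filter_eq_empty_iff.2
      intro u hu
      exact hex u hu
    rw [h1] at hge
    have h2 : (0 : ℝ) < (O.card : ℝ) / (2 * p) := by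
      have : 0 < O.card := Finset.card_pos.2 ⟨v, hvO⟩
      have h3 : (0 : ℝ) < O.card := by exact_mod_cast this
      positivity
    simp only [Finset.card_empty, Nat.cast_zero, zero_div, sub_zero] at hge
    linarith

end MPbcd198.L
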