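import Pool.Agent.Lib.MP_bcd198_co.L.PrUp
import Pool.Agent.Lib.MP_bcd198_co.L.CntB

/-!
# JOB L/PrLim: asymptotics of the conditional probabilities [2.3 (iii)]

Let `s = |support β| / 2`. Induction on `s` (the constant depends on `s ≤ w`, `r`, `w`).
* `s = 0`: `β = 1` and `pr = 1` by `cnt_one_pos`.
* Step. There is `y` with `β y ≠ y` and `β (a y) = a y`: otherwise the support `W ≠ ∅` of `β` is closed under `a`; take `y₀ ∈ W`, `x = a y₀`; then all
  `a ((β a)^i x)` are in `W`, contradicting `NoLong`. Put `β' = rem β y`, `x = β y`.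
* `NoLong r a β'`: if for some `u` all `a ((β' a)^i u)`, `i < r`, were moved by `β'`, then `(β' a)^(i+1) u = (β a)^(i+1) u` (induction, `rem_le`) and all
  `a ((β a)^i u)`, `i < r`, are moved by `β`: contradiction.
* `cnt_split`: `cnt β' = n cnt β + ∑_{y' ∈ N} cnt γ_{y'}`, `γ = swap x y' * β'`, `|support γ| = 2s` (`card_swap_mul`, `card_rem`), `|N| ≤ w`,
  `2m - 2w ≤ n ≤ 2m`.
* `pr γ ≤ C m^(-s)`: by `pr_le` this holds if `clo r a γ = ∅`. Suppose `clo r a γ ≠ ∅`. `clo r a β' = ∅` (`clo_eq_empty`), so `x` or `y'` is in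
  `clo r a γ` (otherwise `γ = β'` on it and `clo_mono` puts it into `clo r a β'`), hence both (`γ x = y'`). The points
  `(γ a)^i x`, `0 ≤ i < r`, are distinct (`(γ a)` has minimal period `r` on `clo`: `γ a = (a γ)⁻¹` there) and `(γ a)^r x = x`, i.e.
  `γ (a ((γ a)^(r-1) x)) = x`, so `a ((γ a)^(r-1) x) = y'`. For `i < r - 1` the point `u_i = a ((γ a)^i x)` satisfies `γ u_i = (γ a)^(i+1) x ≠ x`, so
  `u_i ≠ y'`; also `u_i ≠ x` (otherwise `γ u_i = y'`, `y' = (γ a)^(i+1) x`; but the orbit of `x` under `γ a` does not contain `γ x = y'`,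
  see the argument in `clo_rem_card`: `γ c^i y ≠ c^j y`); so `β' u_i = γ u_i ≠ u_i` and `(β a)`, `(γ a)`, `(β' a)` agree along the way.
  Put `x₀ = a y`. Then `a x₀ = y` is moved by `β`, `(β a) x₀ = β y = x`, and `a ((β a)^(i+1) x₀) = a ((β a)^i x) = u_i` is moved by
  `β` for `i < r - 1`. So all `a ((β a)^i x₀)`, `i < r`, are moved by `β`: contradiction to `NoLong r a β`.
* So with `P = pr β (2m)^s`, `P' = pr β' (2m)^(s-1)` (`|P' - 1| ≤ C'/m`): `(n/2m) P = P' - (2m)^(s-1) ∑ pr γ = P' + O(1/m)`, and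
  `1 - w/m ≤ n/2m ≤ 1`. For `m ≥ 2w` this gives the claim; for `m < 2w` use the trivial bound `|P - 1| ≤ (2m)^s + 1`.
-/

set_option autoImplicit false

namespace MPbcd198.L

open Equiv

private theorem prLim_exists_y {Ω : Type} {r : ℕ} {a β : Perm Ω} (ha : IsPM a)
    (h : NoLong r a β) (hβ : ∃ y, β y ≠ y) : ∃ y, β y ≠ y ∧ β (a y) = a y := by
  by_contra hcon
  push Not at hcon
  obtain ⟨y₀, hy₀⟩ := hβ
  have key : ∀ i : ℕ, β (a (((β * a) ^ i : Perm Ω) (a y₀))) ≠
      a (((β * a) ^ i : Perm Ω) (a y₀)) := by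
    intro i
    induction i with
    | zero =>
      rw [pow_zero, Perm.one_apply, (ha y₀).2]
      exact hy₀
    | succ i ih =>
      rw [pow_succ', Perm.mul_apply, Perm.mul_apply]
      apply hcon
      intro h2
      exact ih (β.injective h2)
  obtain ⟨i, _, h2⟩ := h (a y₀)
  exact key i h2

private theorem prLim_noLong_rem {Ω : Type} [DecidableEq Ω] {r : ℕ} {a β : Perm Ω}
    (hβ : IsInv β) (h : NoLong r a β) (y : Ω) : NoLong r a (rem β y) := by
  intro u
  by_contra hcon
  push Not at hcon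
  have key : ∀ i : ℕ, i ≤ r → (((rem β y) * a) ^ i : Perm Ω) u = ((β * a) ^ i : Perm Ω) u := by
    intro i
    induction i with
    | zero => intro _; simp
    | succ i ih =>
      intro hi
      have h1 := rem_le hβ y _ (hcon i (by omega))
      rw [pow_succ', Perm.mul_apply, Perm.mul_apply, pow_succ', Perm.mul_apply, Perm.mul_apply,
        ← h1, ih (by omega)]
  obtain ⟨i, hi, h2⟩ := h u
  have h3 := hcon i hi
  have h4 := rem_le hβ y _ h3
  rw [← h4, key i hi.le] at h3
  exact h3 h2

private theorem prLim_clo_empty {Ω : Type} [Fintype Ω] [DecidableEq Ω] {r : ℕ}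
    {a β : Perm Ω} (ha : IsPM a) (hβ : IsInv β) (h : NoLong r a β) {y y' : Ω}
    (hy : β y ≠ y) (h1 : y' ≠ β y) (h2 : rem β y y' = y') :
    clo r a (swap (β y) y' * rem β y) = ∅ := by
  by_contra hne
  obtain ⟨z, hz⟩ := Finset.nonempty_iff_ne_empty.mpr hne
  set γ : Perm Ω := swap (β y) y' * rem β y with hγ
  have hx0 : rem β y (β y) = β y := rem_img hβ y
  have hγx : γ (β y) = y' := by
    rw [hγ, Perm.mul_apply, hx0, swap_apply_left]
  have hγy : γ y' = β y := by
    rw [hγ, Perm.mul_apply, h2, swap_apply_right]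
  have hγo : ∀ u, u ≠ β y → u ≠ y' → γ u = rem β y u := by
    intro u hu1 hu2
    rw [hγ, Perm.mul_apply]
    apply swap_apply_of_ne_of_ne
    · intro h3
      exact hu1 ((rem β y).injective (h3.trans hx0.symm))
    · intro h3
      exact hu2 ((rem β y).injective (h3.trans h2.symm))
  have hγinv : IsInv γ := swap_mul_inv (rem_inv hβ y) hx0 h2
  have hempty : clo r a (rem β y) = ∅ := clo_eq_empty (prLim_noLong_rem hβ h y)
  -- `x = β y` is in `clo r a γ`
  have hx : β y ∈ clo r a γ := by
    by_contra hxn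
    have hyn : y' ∉ clo r a γ := by
      intro h3
      have h4 := clo_right h3
      rw [hγy] at h4
      exact hxn h4
    have h5 : clo r a γ ⊆ clo r a (rem β y) := by
      apply clo_mono (IsPM.isInv ha) (rem_inv hβ y)
      intro u hu
      refine ⟨rfl, ?_⟩
      rw [hγo u]
      · rintro rfl
        exact hxn hu
      · rintro rfl
        exact hyn hu
    have h6 := h5 hz
    rw [hempty] at h6
    simp at h6
  set x : Ω := β y with hxdef
  have hmem : ∀ i : ℕ, ((γ * a) ^ i : Perm Ω) x ∈ clo r a γ := by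
    intro i
    induction i with
    | zero => simpa using hx
    | succ i ih =>
      rw [pow_succ', Perm.mul_apply, Perm.mul_apply]
      exact clo_right (clo_left ih)
  -- `(γ a)^i x ≠ x` for `0 < i < r`
  have hinvprod : (γ * a) * (a * γ) = 1 := by
    ext u
    simp only [Perm.mul_apply, Perm.one_apply]
    rw [(ha _).2, hγinv]
  have hper : ∀ i : ℕ, 0 < i → i < r → ((γ * a) ^ i : Perm Ω) x ≠ x := by
    intro i hi hir h3
    have h4 : ((a * γ) ^ i : Perm Ω) x = x := by
      have h5 : (γ * a) ^ i * (a * γ) ^ i = 1 := by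
        have h6 : a * γ = (γ * a)⁻¹ := (inv_eq_of_mul_eq_one_right hinvprod).symm
        rw [h6, inv_pow, mul_inv_cancel]
      have h6 : (a * γ) ^ i * (γ * a) ^ i = 1 := by
        rw [mul_eq_one_iff_eq_inv] at h5 ⊢
        rw [h5, inv_inv]
      have h7 := congrArg (fun g : Perm Ω => g x) h6
      simp only [Perm.mul_apply, Perm.one_apply] at h7
      rw [h3] at h7
      exact h7
    have h5 := (clo_spec hx).2.2
    have h6 : Function.IsPeriodicPt (⇑(a * γ)) i x := by
      rw [Function.IsPeriodicPt, Function.IsFixedPt, Perm.iterate_eq_pow]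
      exact h4
    have h7 := h6.minimalPeriod_le hi
    omega
  -- `a (γ a)^i x ≠ x`
  have hrefl : ∀ i : ℕ, a (((γ * a) ^ i : Perm Ω) x) ≠ x := by
    have hconj : ∀ k : ℕ, ∀ u : Ω, ((γ * a) ^ k : Perm Ω) (a (((γ * a) ^ k : Perm Ω) u)) = a u := by
      intro k
      induction k with
      | zero => intro u; simp
      | succ k ih =>
        intro u
        have e1 : ((γ * a) ^ (k + 1) : Perm Ω) u = γ (a (((γ * a) ^ k : Perm Ω) u)) := by
          rw [pow_succ', Perm.mul_apply, Perm.mul_apply]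
        have e2 : ∀ v, ((γ * a) ^ (k + 1) : Perm Ω) v = ((γ * a) ^ k : Perm Ω) (γ (a v)) := by
          intro v
          rw [pow_succ, Perm.mul_apply, Perm.mul_apply]
        rw [e1, e2, (ha _).2, hγinv, ih]
    intro i h3
    rcases Nat.even_or_odd' i with ⟨k, rfl | rfl⟩
    · have h4 : ((γ * a) ^ (2 * k) : Perm Ω) x =
          ((γ * a) ^ k : Perm Ω) (((γ * a) ^ k : Perm Ω) x) := by
        rw [two_mul, pow_add, Perm.mul_apply]
      have h5 := hconj k (((γ * a) ^ k : Perm Ω) x)
      rw [← h4, ← h3] at h5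
      rw [h3] at h5
      -- `h5` relates; derive `a u = u`
      have h6 := hconj k x
      have h7 : a (((γ * a) ^ (2 * k) : Perm Ω) x) = x := h3
      have h8 : ((γ * a) ^ k : Perm Ω) x = a (((γ * a) ^ k : Perm Ω) x) := by
        have h9 := hconj k (((γ * a) ^ k : Perm Ω) x)
        rw [← h4, h7] at h9
        exact h9
      exact (ha _).1 h8.symm
    · have h4 : ((γ * a) ^ (2 * k + 1) : Perm Ω) x =
          ((γ * a) ^ k : Perm Ω) (γ (a (((γ * a) ^ k : Perm Ω) x))) := by
        rw [show 2 * k + 1 = k + 1 + k by ring, pow_add, Perm.mul_apply, pow_succ,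
          Perm.mul_apply, Perm.mul_apply]
      have h9 := hconj k (γ (a (((γ * a) ^ k : Perm Ω) x)))
      rw [← h4, h3] at h9
      have h10 : a (((γ * a) ^ k : Perm Ω) x) = γ (a (((γ * a) ^ k : Perm Ω) x)) := by
        apply a.injective
        rw [← h9, (ha _).2]
      have h11 : a (((γ * a) ^ k : Perm Ω) x) ∈ clo r a γ := clo_left (hmem k)
      exact (clo_spec h11).2.1 h10.symm
  have hmain : ∀ i : ℕ, i < r → ((β * a) ^ i : Perm Ω) x = ((γ * a) ^ i : Perm Ω) x ∧
      (i + 1 < r → β (a (((γ * a) ^ i : Perm Ω) x)) = γ (a (((γ * a) ^ i : Perm Ω) x))) := by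
    intro i
    induction i with
    | zero =>
      intro _
      refine ⟨by simp, fun hlt => ?_⟩
      have hne1 := hrefl 0
      have hne2 : a (((γ * a) ^ 0 : Perm Ω) x) ≠ y' := by
        intro h3
        have h4 := hper 1 one_pos (by omega)
        apply h4
        rw [pow_one, Perm.mul_apply]
        rw [pow_zero, Perm.one_apply] at h3
        rw [h3, hγy]
      have h3 := hγo _ hne1 hne2
      have h4 : γ (a (((γ * a) ^ 0 : Perm Ω) x)) ≠ a (((γ * a) ^ 0 : Perm Ω) x) :=
        (clo_spec (clo_left (hmem 0))).2.1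
      rw [h3] at h4 ⊢
      exact rem_le hβ y _ h4
    | succ i ih =>
      intro hi
      obtain ⟨ih1, ih2⟩ := ih (by omega)
      have ih3 := ih2 hi
      refine ⟨?_, fun hlt => ?_⟩
      · rw [pow_succ', Perm.mul_apply, Perm.mul_apply, pow_succ', Perm.mul_apply, Perm.mul_apply,
          ih1, ih3]
      · have hne1 := hrefl (i + 1)
        have hne2 : a (((γ * a) ^ (i + 1) : Perm Ω) x) ≠ y' := by
          intro h3
          have h4 := hper (i + 2) (by omega) (by omega)
          apply h4
          rw [pow_succ', Perm.mul_apply, Perm.mul_apply, h3, hγy]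
        have h3 := hγo _ hne1 hne2
        have h4 : γ (a (((γ * a) ^ (i + 1) : Perm Ω) x)) ≠ a (((γ * a) ^ (i + 1) : Perm Ω) x) :=
          (clo_spec (clo_left (hmem (i + 1)))).2.1
        rw [h3] at h4 ⊢
        exact rem_le hβ y _ h4
  obtain ⟨i, hi, h3⟩ := h (a y)
  cases i with
  | zero =>
    rw [pow_zero, Perm.one_apply, (ha y).2] at h3
    exact hy h3
  | succ i =>
    have e1 : ((β * a) ^ (i + 1) : Perm Ω) (a y) = ((β * a) ^ i : Perm Ω) x := by
      rw [pow_succ, Perm.mul_apply, Perm.mul_apply, (ha y).2]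
    obtain ⟨h4, h5⟩ := hmain i (by omega)
    rw [e1, h4, h5 hi] at h3
    exact (clo_spec (clo_left (hmem i))).2.1 h3

private theorem prLim_aux (r w : ℕ) (hr : 1 ≤ r) (C₁ : ℝ) (hC₁ : 0 < C₁)
    (hup : ∀ (Ω : Type) [Fintype Ω] [DecidableEq Ω] (m : ℕ), Fintype.card Ω = 2 * m → 1 ≤ m →
      ∀ a β : Perm Ω, IsPM a → IsInv β → β.support.card ≤ w →
        pr r a β ≤ C₁ * (m : ℝ) ^ (-(β.support.card : ℝ) / 2 +
          ((clo r a β).card : ℝ) / (2 * r))) (t : ℕ) : ∃ C : ℝ, 0 < C ∧
    ∀ (Ω : Type) [Fintype Ω] [DecidableEq Ω] (m : ℕ), Fintype.card Ω = 2 * m → 1 ≤ m → r ∣ m →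
      ∀ a β : Perm Ω, IsPM a → IsInv β → β.support.card ≤ w → β.support.card = t →
        NoLong r a β →
        |pr r a β * (2 * (m : ℝ)) ^ (β.support.card / 2) - 1| ≤ C / m := by
  induction t using Nat.strong_induction_on with
  | _ t ih =>
  rcases Nat.lt_or_ge t 2 with ht | ht
  · refine ⟨1, one_pos, ?_⟩
    intro Ω _ _ m hm hm1 hrm a β ha hβ hw hst hlong
    have hst0 : β.support.card = 0 := by
      have := Equiv.Perm.card_support_ne_one β
      omega
    have hβ1 : β = 1 := by
      rwa [Finset.card_eq_zero, Perm.support_eq_empty_iff] at hst0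
    rw [hst0]
    have hc : (0 : ℝ) < cnt r a 1 := by exact_mod_cast cnt_one_pos hr hrm hm ha
    rw [hβ1, pr, div_self hc.ne']
    simp
  · obtain ⟨C', hC', hih⟩ := ih (t - 2) (by omega)
    set E' : ℝ := w * C₁ * 2 ^ w with hE'
    have hE'0 : 0 ≤ E' := by positivity
    set C : ℝ := 2 * (C' + E' + w) + ((4 * (w : ℝ)) ^ w + 1) * (2 * w) + 1 with hC
    refine ⟨C, by positivity, ?_⟩
    intro Ω _ _ m hm hm1 hrm a β ha hβ hw hst hlong
    have hm0 : (0 : ℝ) < m := by exact_mod_cast hm1
    have hm1' : (1 : ℝ) ≤ m := by exact_mod_cast hm1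
    have hc1 : (0 : ℝ) < cnt r a 1 := by exact_mod_cast cnt_one_pos hr hrm hm ha
    obtain ⟨y, hy, hay⟩ := prLim_exists_y ha hlong (by
      by_contra hcon
      push Not at hcon
      have : β = 1 := by ext u; simp [hcon u]
      rw [this] at hst
      simp at hst
      omega)
    have hcr := card_rem hβ hy
    obtain ⟨N, n, hN, hn1, hn2, hN2, hsplit⟩ := cnt_split (r := r) ha hβ hy hay
    have hrem := hih Ω m hm hm1 hrm a (rem β y) ha (rem_inv hβ y) (by omega) (by omega)
      (prLim_noLong_rem hβ hlong y)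
    have hsc : (rem β y).support.card / 2 = t / 2 - 1 := by omega
    rw [hsc] at hrem
    rw [hst]
    have ht2 : 1 ≤ t / 2 := by omega
    -- the quantities
    set s : ℕ := t / 2 with hs
    -- the equation divided by `cnt r a 1`
    have heq : pr r a (rem β y) = n * pr r a β +
        ∑ y' ∈ N, pr r a (swap (β y) y' * rem β y) := by
      unfold pr
      rw [hsplit]
      push_cast
      rw [add_div, Finset.sum_div, mul_div_assoc]
    set E : ℝ := (∑ y' ∈ N, pr r a (swap (β y) y' * rem β y)) * (2 * (m : ℝ)) ^ (s - 1) with hE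
    have hE0 : 0 ≤ E := by
      apply mul_nonneg (Finset.sum_nonneg fun _ _ => pr_nonneg _ _ _)
      positivity
    have hEle : E ≤ E' / m := by
      have hterm : ∀ y' ∈ N, pr r a (swap (β y) y' * rem β y) ≤
          C₁ * (m : ℝ) ^ (-(t : ℝ) / 2) := by
        intro y' hy'
        obtain ⟨g1, g2⟩ := hN2 y' hy'
        have hcard : (swap (β y) y' * rem β y).support.card = t := by
          rw [card_swap_mul (rem_img hβ y) g2 (Ne.symm g1)]
          omega
        have h1 := hup Ω m hm hm1 a (swap (β y) y' * rem β y) ha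
          (swap_mul_inv (rem_inv hβ y) (rem_img hβ y) g2) (by omega)
        rw [prLim_clo_empty ha hβ hlong hy g1 g2, hcard] at h1
        simpa using h1
      have h2 : ∑ y' ∈ N, pr r a (swap (β y) y' * rem β y) ≤
          w * (C₁ * (m : ℝ) ^ (-(t : ℝ) / 2)) := by
        refine (Finset.sum_le_card_nsmul N _ _ hterm).trans ?_
        rw [nsmul_eq_mul]
        apply mul_le_mul_of_nonneg_right _ (by positivity)
        have : N.card ≤ w := hN.trans hw
        exact_mod_cast this
      have h3 : (2 * (m : ℝ)) ^ (s - 1) * (m : ℝ) ^ (-(t : ℝ) / 2) ≤ 2 ^ w / m := by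
        rw [mul_pow, mul_assoc]
        have h4 : (m : ℝ) ^ (s - 1) * (m : ℝ) ^ (-(t : ℝ) / 2) ≤ 1 / m := by
          rw [← Real.rpow_natCast, ← Real.rpow_add hm0, one_div, ← Real.rpow_neg_one]
          apply Real.rpow_le_rpow_of_exponent_le hm1'
          have h5 : ((s - 1 : ℕ) : ℝ) = (s : ℝ) - 1 := by
            rw [Nat.cast_sub ht2, Nat.cast_one]
          have h6 : (s : ℝ) ≤ (t : ℝ) / 2 := by
            rw [hs]
            exact Nat.cast_div_le
          rw [h5]
          linarith
        calc (2 : ℝ) ^ (s - 1) * ((m : ℝ) ^ (s - 1) * (m : ℝ) ^ (-(t : ℝ) / 2))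
            ≤ 2 ^ w * (1 / m) := by
              apply mul_le_mul _ h4 (by positivity) (by positivity)
              apply pow_le_pow_right₀ (by norm_num)
              omega
          _ = 2 ^ w / m := by ring
      calc E ≤ w * (C₁ * (m : ℝ) ^ (-(t : ℝ) / 2)) * (2 * (m : ℝ)) ^ (s - 1) := by
            rw [hE]
            apply mul_le_mul_of_nonneg_right h2 (by positivity)
        _ = w * C₁ * ((2 * (m : ℝ)) ^ (s - 1) * (m : ℝ) ^ (-(t : ℝ) / 2)) := by ring
        _ ≤ w * C₁ * (2 ^ w / m) := by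
            apply mul_le_mul_of_nonneg_left h3 (by positivity)
        _ = E' / m := by rw [hE']; ring
    set P : ℝ := pr r a β * (2 * (m : ℝ)) ^ s with hP
    set P' : ℝ := pr r a (rem β y) * (2 * (m : ℝ)) ^ (s - 1) with hP'
    set ν : ℝ := n / (2 * m) with hν
    have hmain : ν * P = P' - E := by
      have h2m : (2 * (m : ℝ)) ^ s = (2 * (m : ℝ)) ^ (s - 1) * (2 * m) := by
        rw [← pow_succ]
        congr 1
        omega
      rw [hP', heq, hE, hP, hν, h2m]
      field_simp
      ring
    have hν1 : ν ≤ 1 := by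
      rw [hν, div_le_one (by positivity)]
      rw [hm] at hn1
      exact_mod_cast hn1
    have hν2 : 1 - w / m ≤ ν := by
      rw [hν, le_div_iff₀ (by positivity)]
      have h1 : ((2 * m : ℕ) : ℝ) ≤ ((n + 2 * β.support.card : ℕ) : ℝ) := by
        rw [hm] at hn2
        exact_mod_cast hn2
      push_cast at h1
      have h2 : (β.support.card : ℝ) ≤ w := by exact_mod_cast hw
      have h3 : (1 - w / m) * (2 * (m : ℝ)) = 2 * m - 2 * w := by
        field_simp
      rw [h3]
      linarith
    have hP0 : 0 ≤ P := mul_nonneg (pr_nonneg _ _ _) (by positivity)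
    rw [abs_le] at hrem
    rcases le_or_gt (2 * w) m with hbig | hsmall
    · have hb : (2 * (w : ℝ)) ≤ m := by exact_mod_cast hbig
      have hν3 : 1 / 2 ≤ ν := by
        have : (w : ℝ) / m ≤ 1 / 2 := by
          rw [div_le_iff₀ hm0]
          linarith
        linarith
      have h1 : |P' - E - ν| ≤ (C' + E' + w) / m := by
        rw [add_div, add_div, abs_le]
        constructor
        · linarith [hrem.1]
        · have : E ≥ 0 := hE0
          have h5 : (0 : ℝ) ≤ E' / m := by positivity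
          linarith [hrem.2]
      have h2 : |ν * (P - 1)| ≤ (C' + E' + w) / m := by
        have : ν * (P - 1) = P' - E - ν := by
          rw [← hmain]; ring
        rw [this]
        exact h1
      rw [abs_mul, abs_of_pos (by linarith : 0 < ν)] at h2
      have h3 : 1 / 2 * |P - 1| ≤ (C' + E' + w) / m := by
        refine le_trans ?_ h2
        apply mul_le_mul_of_nonneg_right hν3 (abs_nonneg _)
      have h4 : |P - 1| ≤ (2 * (C' + E' + w)) / m := by
        rw [mul_div_assoc]
        linarith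
      refine h4.trans ?_
      apply div_le_div_of_nonneg_right _ hm0.le
      rw [hC]
      have : (0 : ℝ) ≤ ((4 * (w : ℝ)) ^ w + 1) * (2 * w) := by positivity
      linarith
    · have hb : (m : ℝ) ≤ 2 * w := by exact_mod_cast hsmall.le
      have hw1 : (1 : ℝ) ≤ w := by
        have : 1 ≤ w := by omega
        exact_mod_cast this
      have h1 : P ≤ (4 * (w : ℝ)) ^ w := by
        calc P ≤ 1 * (2 * (m : ℝ)) ^ s := by
              rw [hP]
              apply mul_le_mul_of_nonneg_right (pr_le_one _ _ _) (by positivity)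
          _ = (2 * (m : ℝ)) ^ s := one_mul _
          _ ≤ (4 * (w : ℝ)) ^ s := by
              apply pow_le_pow_left₀ (by positivity)
              linarith
          _ ≤ (4 * (w : ℝ)) ^ w := by
              apply pow_le_pow_right₀
              · linarith
              · omega
      have h2 : |P - 1| ≤ (4 * (w : ℝ)) ^ w + 1 := by
        rw [abs_le]
        constructor <;> linarith [show (0 : ℝ) ≤ (4 * (w : ℝ)) ^ w by positivity]
      refine h2.trans ?_
      rw [le_div_iff₀ hm0]
      calc ((4 * (w : ℝ)) ^ w + 1) * m ≤ ((4 * (w : ℝ)) ^ w + 1) * (2 * w) := by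
            apply mul_le_mul_of_nonneg_left hb (by positivity)
        _ ≤ C := by
            rw [hC]
            have : (0 : ℝ) ≤ 2 * (C' + E' + w) := by positivity
            linarith

theorem pr_lim (r w : ℕ) (hr : 1 ≤ r) : ∃ C : ℝ, 0 < C ∧
    ∀ (Ω : Type) [Fintype Ω] [DecidableEq Ω] (m : ℕ), Fintype.card Ω = 2 * m → 1 ≤ m → r ∣ m →
      ∀ a β : Perm Ω, IsPM a → IsInv β → β.support.card ≤ w → NoLong r a β →
        |pr r a β * (2 * (m : ℝ)) ^ (β.support.card / 2) - 1| ≤ C / m := by
  obtain ⟨C₁, hC₁, hup⟩ := pr_le r w hr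
  choose C hC h using prLim_aux r w hr C₁ hC₁ hup
  refine ⟨∑ t ∈ Finset.range (w + 1), C t, Finset.sum_pos (fun t _ => hC t) (by simp), ?_⟩
  intro Ω _ _ m hm hm1 hrm a β ha hβ hw hlong
  have hm0 : (0 : ℝ) < m := by exact_mod_cast hm1
  refine (h β.support.card Ω m hm hm1 hrm a β ha hβ hw rfl hlong).trans ?_
  apply div_le_div_of_nonneg_right _ hm0.le
  apply Finset.single_le_sum (f := C) (fun t _ => (hC t).le)
  rw [Finset.mem_range]
  omega

end MPbcd198.L
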