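import Pool.Agent.Lib.MP_bcd198_co.L.ExpT
import Pool.Agent.Lib.MP_bcd198_co.L.Comb
import Pool.Agent.Lib.MP_bcd198_co.L.NLong
import Pool.Agent.Lib.MP_bcd198_co.L.PrLim

/-!
# JOB L/Th0: level zero [2.6, 2.7 main term]

`1` denotes the constant function. `K_q 1 = 1` (`cnt_one_pos`, `q ∣ z`). `1 = fB 1` (`fB_one`). By `expB p 0` for `B = 1`: `mu • Ra K_p Rb 1 = ∑ x al • fB al`, `al`
involution moving only points of `P₂`; by `expC |P₂|` for these `al`: `Rc K_2 fB al = ∑ y_al ga • fB ga` with `ga = 1` only. So `TT 1 = θ • 1`,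
`θ = ∑_al x al * y_al 1`, and `‖x al y_al 1‖ ≤ C z^(EE D p q 0 1 1 al)` (`combB D.b 1` etc.). There are at most `|P₂|!` such `al` (they are
determined by their restriction to `P₂`, a permutation of `P₂`).
* weak: `EE ≤ 0` (`exp_weak`), so `‖θ‖ ≤ C`.
* strict: for `al ≠ 1`: `EE ≤ -1/(4pq)` (`exp_strict`). For `al = 1`: `Rc K_2 1 = 1` (`cnt_one_pos` with `2 ∣ G₂ + z`), so `y_1 1 = 1` (or replace this term
  directly). `x 1`: let `z ≥ |P₂|`; there is a perfect matching `a'` of `P₂ ⊕ Z` without edges inside `P₂` (match `P₂` injectively into `Z`, and the remaining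
  `2z - |P₂|` points of `Z`, an even number, among themselves). Evaluate at `a'`: every `fB al a'` with `al ≠ 1` is `0` (`al` has an edge inside
  `P₂`), so `x 1 = mu * pr p (combA D.a a') (combB D.b 1)` (`Rb_fB`, `KOp_fB`). By `noLong_of_strict` and `pr_lim p (2G)` with `m = G + z`
  (`|support (combB D.b 1)| = 2G`): `pr * (2(G+z))^G = 1 + O(1/z)`; by `mu_asymp` `mu / (2(G+z))^G = 1 + O(1/z)`. So `x 1 = 1 + O(1/z)` and
  `|θ - 1| ≤ C/z + C z^(-1/(4pq)) ≤ C z^(-1/(4pq))`. For `1 ≤ z < |P₂|` use the weak bound.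
-/

set_option autoImplicit false

namespace MPbcd198.L

open Equiv

variable {P₁ P₂ : Type} [Fintype P₁] [Fintype P₂] [DecidableEq P₁] [DecidableEq P₂]

private theorem Th0_KOp_one {Ω : Type} [Fintype Ω] [DecidableEq Ω] {r m : ℕ} (hr : 1 ≤ r)
    (hrm : r ∣ m) (h : Fintype.card Ω = 2 * m) : KOp Ω r (fB (1 : Perm Ω)) = fB 1 := by
  funext a
  rw [KOp_fB, fB_one, pr, div_self, Complex.ofReal_one]
  exact_mod_cast (cnt_one_pos hr hrm h a.2).ne'

private theorem Th0_nonempty {Ω : Type} [Fintype Ω] [DecidableEq Ω] {m : ℕ}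
    (h : Fintype.card Ω = 2 * m) : Nonempty (PMT Ω) := by
  by_contra hne
  rw [not_nonempty_iff] at hne
  have h1 := card_PM h
  rw [Nat.card_of_isEmpty] at h1
  have h2 := MNum_pos m
  rw [← h1] at h2
  simp at h2

/-- the involutions moving only points of `P₂` -/
private def Th0_al (z : ℕ) (σ : Perm P₂) : Perm (P₂ ⊕ Fin (2 * z)) :=
  Equiv.sumCongr σ (1 : Perm (Fin (2 * z)))

private theorem Th0_al_inj (z : ℕ) : Function.Injective (Th0_al (P₂ := P₂) z) := by
  intro σ τ h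
  ext y
  have h1 := congrArg (fun f : Perm (P₂ ⊕ Fin (2 * z)) => f (Sum.inl y)) h
  exact Sum.inl_injective h1

private theorem Th0_al_surj {z : ℕ} {al : Perm (P₂ ⊕ Fin (2 * z))}
    (h : ∀ y, al (Sum.inr y) = Sum.inr y) : ∃ σ : Perm P₂, Th0_al z σ = al := by
  have h1 : Set.MapsTo al (Set.range (Sum.inl : P₂ → P₂ ⊕ Fin (2 * z)))
      (Set.range (Sum.inl : P₂ → P₂ ⊕ Fin (2 * z))) := by
    rintro _ ⟨y, rfl⟩
    rcases hy : al (Sum.inl y) with u | u
    · exact ⟨u, rfl⟩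
    · exfalso
      rw [← h u] at hy
      exact Sum.inl_ne_inr (al.injective hy)
  obtain ⟨⟨σ, τ⟩, hσ⟩ := Equiv.Perm.mem_sumCongrHom_range_of_perm_mapsTo_inl h1
  refine ⟨σ, ?_⟩
  rw [← hσ]
  ext u
  rcases u with u | u
  · rfl
  · have h2 := h u
    rw [← hσ] at h2
    exact h2.symm

private theorem Th0_al_one (z : ℕ) : Th0_al z (1 : Perm P₂) = 1 := by
  ext u
  rcases u with u | u <;> rfl

private theorem Th0_al_support (z : ℕ) (σ : Perm P₂) :
    (Th0_al z σ).support.card ≤ Fintype.card P₂ := by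
  have h1 : (Th0_al z σ).support ⊆ Finset.univ.map
      ⟨(Sum.inl : P₂ → P₂ ⊕ Fin (2 * z)), Sum.inl_injective⟩ := by
    intro u hu
    rw [Equiv.Perm.mem_support] at hu
    rcases u with u | u
    · simp
    · exact absurd rfl hu
  refine (Finset.card_le_card h1).trans ?_
  rw [Finset.card_map, Finset.card_univ]

private theorem Th0_al_inr (z : ℕ) (σ : Perm P₂) (x : Fin (2 * z)) :
    Th0_al z σ (Sum.inr x) = Sum.inr x := rfl

private theorem Th0_al_inl (z : ℕ) (σ : Perm P₂) (y : P₂) :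
    Th0_al z σ (Sum.inl y) = Sum.inl (σ y) := rfl

/-- a perfect matching without edges inside `P₂` -/
private theorem Th0_matching (D : Dat P₁ P₂) {z : ℕ} (hz : Fintype.card P₂ ≤ z) :
    ∃ a' : Perm (P₂ ⊕ Fin (2 * z)), IsPM a' ∧ ∀ y, ∃ x, a' (Sum.inl y) = Sum.inr x := by
  have hG := card_P₂ D
  have hc : Fintype.card (P₂ ⊕ Fin (2 * (z - D.G₂))) = Fintype.card (Fin (2 * z)) := by
    rw [Fintype.card_sum, Fintype.card_fin, Fintype.card_fin, hG]
    omega
  let e : P₂ ⊕ Fin (2 * (z - D.G₂)) ≃ Fin (2 * z) := Fintype.equivOfCardEq hc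
  obtain ⟨ρ⟩ := Th0_nonempty (Ω := Fin (2 * (z - D.G₂))) (m := z - D.G₂) (Fintype.card_fin _)
  let f : P₂ ⊕ (P₂ ⊕ Fin (2 * (z - D.G₂))) → P₂ ⊕ (P₂ ⊕ Fin (2 * (z - D.G₂))) := fun u =>
    match u with
    | Sum.inl y => Sum.inr (Sum.inl y)
    | Sum.inr (Sum.inl y) => Sum.inl y
    | Sum.inr (Sum.inr r) => Sum.inr (Sum.inr (ρ.1 r))
  have hf : Function.Involutive f := by
    rintro (y | y | r)
    · rfl
    · rfl
    · show Sum.inr (Sum.inr (ρ.1 (ρ.1 r))) = _
      rw [(ρ.2 r).2]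
  have hf' : ∀ u, f u ≠ u := by
    rintro (y | y | r)
    · exact Sum.inr_ne_inl
    · exact Sum.inl_ne_inr
    · intro h
      exact (ρ.2 r).1 (Sum.inr_injective (Sum.inr_injective h))
  let g : P₂ ⊕ (P₂ ⊕ Fin (2 * (z - D.G₂))) ≃ P₂ ⊕ Fin (2 * z) :=
    Equiv.sumCongr (Equiv.refl P₂) e
  refine ⟨g.permCongr hf.toPerm, ?_, ?_⟩
  · intro u
    rw [Equiv.permCongr_apply, Equiv.permCongr_apply, Equiv.symm_apply_apply]
    constructor
    · intro h
      apply hf' (g.symm u)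
      rw [Equiv.eq_symm_apply]
      exact h
    · show g (f (f (g.symm u))) = u
      rw [hf, Equiv.apply_symm_apply]
  · intro y
    exact ⟨e (Sum.inl y), rfl⟩

/-- the estimate for the product of two quantities close to `1` -/
private theorem Th0_prod {u v C₁ C₂ z : ℝ} (hz : 1 ≤ z) (hC₁ : 0 < C₁) (hC₂ : 0 < C₂)
    (hu : |u - 1| ≤ C₁ / z) (hv : |v - 1| ≤ C₂ / z) : |u * v - 1| ≤ (C₁ * (1 + C₂) + C₂) / z := by
  have hz0 : 0 < z := by linarith
  have h1 : u * v - 1 = (u - 1) * v + (v - 1) := by ring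
  have h2 : |v| ≤ 1 + C₂ := by
    have h3 : |v| ≤ |v - 1| + 1 := by
      have := abs_add_le (v - 1) 1
      simpa using this
    have h4 : C₂ / z ≤ C₂ := div_le_self hC₂.le hz
    linarith
  rw [h1]
  calc |(u - 1) * v + (v - 1)| ≤ |(u - 1) * v| + |v - 1| := abs_add_le _ _
    _ ≤ C₁ / z * (1 + C₂) + C₂ / z := by
        rw [abs_mul]
        gcongr
    _ = (C₁ * (1 + C₂) + C₂) / z := by ring

private theorem Th0_fB_zero (D : Dat P₁ P₂) {z : ℕ} {a' : Perm (P₂ ⊕ Fin (2 * z))}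
    (ha' : IsPM a') (h : ∀ y, ∃ x, a' (Sum.inl y) = Sum.inr x) {σ : Perm P₂} (hσ : σ ≠ 1) :
    fB (Th0_al z σ) ⟨a', ha'⟩ = 0 := by
  obtain ⟨y, hy⟩ : ∃ y, σ y ≠ y := by
    by_contra hcon
    push Not at hcon
    exact hσ (Equiv.ext hcon)
  unfold fB
  rw [if_neg]
  intro hcon
  have h1 := hcon (Sum.inl y) (by
    rw [Th0_al_inl]
    exact fun h2 => hy (Sum.inl_injective h2))
  obtain ⟨x, hx⟩ := h y
  rw [Th0_al_inl] at h1
  have h2 : a' (Sum.inl y) = Sum.inl (σ y) := h1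
  rw [hx] at h2
  exact Sum.inr_ne_inl h2

private theorem Th0_core {p q : ℕ} (hyp : Hyp p q) (D : Dat P₁ P₂) :
    ∃ C : ℝ, 0 < C ∧ ∀ z : ℕ, 1 ≤ z → D.Ok p q z → ∃ t : Perm P₂ → ℂ,
      TT D p q z (fun _ => 1) = (∑ σ, t σ) • (fun _ => 1 : FPM (Fin (2 * z))) ∧
      (∀ σ, t σ ≠ 0 → IsInv (Th0_al z σ)) ∧
      (∀ σ, ‖t σ‖ ≤ C * (z : ℝ) ^ (EE D p q 0 1 1 (Th0_al z σ))) ∧
      (D.Strict p → Fintype.card P₂ ≤ z → ‖t 1 - 1‖ ≤ C / z) := by
  have hp : 1 ≤ p := by have := hyp.hp; omega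
  have hq : 1 ≤ q := by have := hyp.hq; omega
  obtain ⟨CB, hCB, hB⟩ := expB D p 0 hp
  obtain ⟨CC, hCC, hC⟩ := expC D (Fintype.card P₂)
  obtain ⟨CL, hCL, hL⟩ := pr_lim p (2 * D.G) hp
  obtain ⟨CM, hCM, hM⟩ := mu_asymp D
  refine ⟨CB * CC + (CM * (1 + CL) + CL), by positivity, ?_⟩
  intro z hz hok
  obtain ⟨hok1, hok2, hok3⟩ := hok
  have hzR : (1 : ℝ) ≤ (z : ℝ) := by exact_mod_cast hz
  have hz0 : (0 : ℝ) < (z : ℝ) := by linarith
  obtain ⟨x, x1, x2, x3⟩ := hB z hz 1 isInv_one (by simp)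
  have hy : ∀ σ : Perm P₂, ∃ y : ℂ, IsInv (Th0_al z σ) →
      Rc D (Fin (2 * z)) (KOp (P₂ ⊕ Fin (2 * z)) 2 (fB (Th0_al z σ))) = y • fB 1 ∧
      ‖y‖ ≤ CC * (z : ℝ) ^ (-((Th0_al z σ).support.card : ℝ) / 2 +
          ((clo 2 (Equiv.sumCongr D.c (1 : Perm (Fin (2 * z)))) (Th0_al z σ)).card : ℝ) /
            (2 * (2 : ℕ))) := by
    intro σ
    by_cases hi : IsInv (Th0_al z σ)
    · obtain ⟨y, y1, y2, y3⟩ := hC z hz (Th0_al z σ) hi (Th0_al_support z σ)
      refine ⟨y 1, fun _ => ⟨?_, y3 1⟩⟩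
      rw [y2]
      apply Finset.sum_eq_single (1 : Perm (Fin (2 * z)))
      · intro ga _ hga
        by_cases hga0 : y ga = 0
        · rw [hga0, zero_smul]
        · exfalso
          apply hga
          ext u
          by_contra hu
          exact (y1 ga hga0).2 u (fun h => hu (by rw [h]; rfl)) (Th0_al_inr z σ u)
      · intro h
        exact absurd (Finset.mem_univ _) h
    · exact ⟨0, fun h => absurd h hi⟩
  choose y hy using hy
  have hxal : ∀ al, x al ≠ 0 → ∃ σ : Perm P₂, Th0_al z σ = al := by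
    intro al hal
    apply Th0_al_surj
    intro u
    by_contra hu
    exact (x1 al hal).2 u hu rfl
  have hx0 : ∀ al ∉ Set.range (Th0_al (P₂ := P₂) z), x al • fB al = (0 : FPM (P₂ ⊕ Fin (2 * z))) := by
    intro al hal
    by_cases h : x al = 0
    · rw [h, zero_smul]
    · exact absurd (hxal al h) hal
  have hsum : ∑ al, x al • fB al = ∑ σ : Perm P₂, x (Th0_al z σ) • fB (Th0_al z σ) :=
    (Fintype.sum_of_injective (Th0_al z) (Th0_al_inj z) _ _ hx0 fun _ => rfl).symm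
  rw [hsum] at x2
  refine ⟨fun σ => x (Th0_al z σ) * y σ, ?_, ?_, ?_, ?_⟩
  · have e1 : KOp (Fin (2 * z)) q (fun _ => 1) = fB 1 := by
      rw [← fB_one, Th0_KOp_one hq hok2 (Fintype.card_fin _)]
    have e2 : TT D p q z (fun _ => 1) = Rc D (Fin (2 * z)) (KOp (P₂ ⊕ Fin (2 * z)) 2
        ((mu D z : ℂ) • Ra D (Fin (2 * z)) (KOp (P₁ ⊕ (P₂ ⊕ Fin (2 * z))) p
          (Rb D (Fin (2 * z)) (fB 1))))) := by
      rw [map_smul, map_smul, ← e1]
      rfl
    rw [e2, x2, map_sum, map_sum, Finset.sum_smul, ← fB_one]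
    refine Finset.sum_congr rfl fun σ _ => ?_
    rw [map_smul, map_smul]
    by_cases h : x (Th0_al z σ) = 0
    · rw [h, zero_smul, zero_mul, zero_smul]
    · rw [(hy σ (x1 _ h).1).1, smul_smul]
  · intro σ hσ
    exact (x1 _ (left_ne_zero_of_mul hσ)).1
  · intro σ
    by_cases h : x (Th0_al z σ) = 0
    · simp only [h, zero_mul, norm_zero]
      positivity
    · have h1 := x3 (Th0_al z σ)
      have h2 := (hy σ (x1 _ h).1).2
      have hE : EE D p q 0 1 1 (Th0_al z σ) =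
          (-((1 : Perm (Fin (2 * z))).support.card : ℝ) / 2 +
            ((clo p (combA D.a (Th0_al z σ)) (combB D.b 1)).card : ℝ) / (2 * p)) +
          (-((Th0_al z σ).support.card : ℝ) / 2 +
            ((clo 2 (Equiv.sumCongr D.c (1 : Perm (Fin (2 * z)))) (Th0_al z σ)).card : ℝ) /
              (2 * (2 : ℕ))) := by
        rw [EE, Equiv.Perm.support_one, Finset.card_empty]
        push_cast
        ring
      rw [norm_mul, hE, Real.rpow_add hz0]
      have hA : 0 < (z : ℝ) ^ (-((1 : Perm (Fin (2 * z))).support.card : ℝ) / 2 +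
            ((clo p (combA D.a (Th0_al z σ)) (combB D.b 1)).card : ℝ) / (2 * p)) :=
        Real.rpow_pos_of_pos hz0 _
      have hB' : 0 < (z : ℝ) ^ (-((Th0_al z σ).support.card : ℝ) / 2 +
            ((clo 2 (Equiv.sumCongr D.c (1 : Perm (Fin (2 * z)))) (Th0_al z σ)).card : ℝ) /
              (2 * (2 : ℕ))) := Real.rpow_pos_of_pos hz0 _
      generalize (z : ℝ) ^ (-((1 : Perm (Fin (2 * z))).support.card : ℝ) / 2 +
            ((clo p (combA D.a (Th0_al z σ)) (combB D.b 1)).card : ℝ) / (2 * p)) = A at h1 hA ⊢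
      generalize (z : ℝ) ^ (-((Th0_al z σ).support.card : ℝ) / 2 +
            ((clo 2 (Equiv.sumCongr D.c (1 : Perm (Fin (2 * z)))) (Th0_al z σ)).card : ℝ) /
              (2 * (2 : ℕ))) = B at h2 hB' ⊢
      calc ‖x (Th0_al z σ)‖ * ‖y σ‖ ≤ (CB * A) * (CC * B) :=
            mul_le_mul h1 h2 (norm_nonneg _) (by positivity)
        _ = (CB * CC) * (A * B) := by ring
        _ ≤ _ := by
            apply mul_le_mul_of_nonneg_right _ (by positivity)
            have : 0 < CM * (1 + CL) + CL := by positivity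
            linarith
  · intro hs hcard
    obtain ⟨a', ha', hno⟩ := Th0_matching D hcard
    -- `y 1 = 1`
    have hinv1 : IsInv (Th0_al z (1 : Perm P₂)) := by rw [Th0_al_one]; exact isInv_one
    have hy1 : y 1 = 1 := by
      have h1 := (hy 1 hinv1).1
      rw [Th0_al_one, Th0_KOp_one one_le_two hok3 (card_Y D z)] at h1
      obtain ⟨ρ⟩ := Th0_nonempty (Ω := Fin (2 * z)) (m := z) (Fintype.card_fin _)
      have h2 := congrFun h1 ρ
      simp only [fB_one, Pi.smul_apply, smul_eq_mul, mul_one] at h2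
      exact h2.symm
    -- `x 1 = mu * pr`
    have hx1 : x 1 = ((mu D z * pr p (combA D.a a') (combB D.b 1) : ℝ) : ℂ) := by
      have h1 := congrFun x2 ⟨a', ha'⟩
      rw [Finset.sum_apply, Finset.sum_eq_single (1 : Perm P₂)] at h1
      · rw [Th0_al_one] at h1
        simp only [fB_one, Pi.smul_apply, smul_eq_mul, mul_one] at h1
        rw [← h1, ← fB_one, Rb_fB D isInv_one]
        have h2 : Ra D (Fin (2 * z)) (KOp (P₁ ⊕ (P₂ ⊕ Fin (2 * z))) p (fB (combB D.b 1)))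
            ⟨a', ha'⟩ = KOp (P₁ ⊕ (P₂ ⊕ Fin (2 * z))) p (fB (combB D.b 1))
              ⟨combA D.a a', isPM_combA D.ha ha'⟩ := rfl
        rw [h2, KOp_fB]
        push_cast
        rfl
      · intro σ _ hσ
        rw [Pi.smul_apply, Th0_fB_zero D ha' hno hσ, smul_zero]
      · intro h
        exact absurd (Finset.mem_univ _) h
    have hlong := noLong_of_strict D p hp hs z a' ha' hno
    have hGz : 1 ≤ D.G + z := by omega
    have hsup : (combB D.b (1 : Perm (Fin (2 * z)))).support.card = 2 * D.G := by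
      rw [card_combB, Equiv.Perm.support_one, Finset.card_empty, add_zero]
    have h1 := hL (P₁ ⊕ (P₂ ⊕ Fin (2 * z))) (D.G + z) (card_X D z) hGz hok1 (combA D.a a')
      (combB D.b 1) (isPM_combA D.ha ha') (combB_inv D isInv_one) hsup.le hlong
    rw [hsup, Nat.mul_div_cancel_left _ two_pos] at h1
    have h2 := hM z hz
    have hGzR : (0 : ℝ) < ((D.G + z : ℕ) : ℝ) := by exact_mod_cast hGz
    have h1' : |pr p (combA D.a a') (combB D.b 1) * (2 * ((D.G + z : ℕ) : ℝ)) ^ D.G - 1| ≤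
        CL / z := by
      refine h1.trans ?_
      apply div_le_div_of_nonneg_left hCL.le hz0
      push_cast
      have : (0 : ℝ) ≤ (D.G : ℝ) := Nat.cast_nonneg _
      linarith
    have h3 := Th0_prod hzR hCM hCL h2 h1'
    have h4 : mu D z / (2 * ((D.G + z : ℕ) : ℝ)) ^ D.G *
        (pr p (combA D.a a') (combB D.b 1) * (2 * ((D.G + z : ℕ) : ℝ)) ^ D.G) =
          mu D z * pr p (combA D.a a') (combB D.b 1) := by
      have : (2 * ((D.G + z : ℕ) : ℝ)) ^ D.G ≠ 0 := by positivity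
      field_simp
    rw [h4] at h3
    have h5 : x (Th0_al z 1) * y 1 - 1 =
        ((mu D z * pr p (combA D.a a') (combB D.b 1) - 1 : ℝ) : ℂ) := by
      rw [Th0_al_one, hy1, hx1]
      push_cast
      ring
    show ‖x (Th0_al z 1) * y 1 - 1‖ ≤ _
    rw [h5, Complex.norm_real, Real.norm_eq_abs]
    refine h3.trans ?_
    apply div_le_div_of_nonneg_right _ hz0.le
    have : 0 < CB * CC := by positivity
    linarith

private theorem Th0_inr_iff {z : ℕ} (σ : Perm P₂) (x : Fin (2 * z)) :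
    Th0_al z σ (Sum.inr x) ≠ Sum.inr x ↔ (1 : Perm (Fin (2 * z))) x ≠ x := by
  rw [Th0_al_inr]
  simp

theorem th0_weak {p q : ℕ} (hyp : Hyp p q) (D : Dat P₁ P₂) (hw : D.Weak p) :
    ∃ C : ℝ, 0 < C ∧ ∀ z : ℕ, 1 ≤ z → D.Ok p q z → ∃ θ : ℂ,
      TT D p q z (fun _ => 1) = θ • (fun _ => 1 : FPM (Fin (2 * z))) ∧ ‖θ‖ ≤ C := by
  obtain ⟨C, hC, h⟩ := Th0_core hyp D
  have hF : (0 : ℝ) < (Fintype.card (Perm P₂) : ℝ) := by
    exact_mod_cast Fintype.card_pos
  refine ⟨(Fintype.card (Perm P₂) : ℝ) * C, by positivity, fun z hz hok => ?_⟩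
  obtain ⟨t, t1, t2, t3, -⟩ := h z hz hok
  refine ⟨∑ σ, t σ, t1, ?_⟩
  have hzR : (1 : ℝ) ≤ (z : ℝ) := by exact_mod_cast hz
  calc ‖∑ σ, t σ‖ ≤ ∑ σ, ‖t σ‖ := norm_sum_le _ _
    _ ≤ ∑ _σ : Perm P₂, C := by
        apply Finset.sum_le_sum
        intro σ _
        by_cases h0 : t σ = 0
        · rw [h0, norm_zero]; exact hC.le
        · refine (t3 σ).trans ?_
          have hE := exp_weak hyp D hw z 0 1 1 (Th0_al z σ) isInv_one isInv_one (t2 σ h0)
            (by simp) (fun x => Iff.rfl) (Th0_inr_iff σ)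
          have := Real.rpow_le_one_of_one_le_of_nonpos hzR hE
          nlinarith
    _ = (Fintype.card (Perm P₂) : ℝ) * C := by
        rw [Finset.sum_const, Finset.card_univ, nsmul_eq_mul]

theorem th0_strict {p q : ℕ} (hyp : Hyp p q) (D : Dat P₁ P₂) (hs : D.Strict p) :
    ∃ C : ℝ, 0 < C ∧ ∀ z : ℕ, 1 ≤ z → D.Ok p q z → ∃ θ : ℂ,
      TT D p q z (fun _ => 1) = θ • (fun _ => 1 : FPM (Fin (2 * z))) ∧
        ‖θ - 1‖ ≤ C * (z : ℝ) ^ (-(1 / (4 * p * q)) : ℝ) := by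
  obtain ⟨C, hC, h⟩ := Th0_core hyp D
  have hp : (1 : ℝ) ≤ p := by exact_mod_cast (show 1 ≤ p by have := hyp.hp; omega)
  have hq : (1 : ℝ) ≤ q := by exact_mod_cast (show 1 ≤ q by have := hyp.hq; omega)
  have hF : (0 : ℝ) < (Fintype.card (Perm P₂) : ℝ) := by
    exact_mod_cast Fintype.card_pos
  have hw : D.Weak p := by
    intro U hU
    rcases U.eq_empty_or_nonempty with rfl | hne
    · simp [eP]
    · exact (hs U hne hU).le
  have hd1 : 1 / (4 * p * q : ℝ) ≤ 1 := by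
    rw [div_le_one (by positivity)]
    nlinarith
  have hd0 : 0 ≤ 1 / (4 * p * q : ℝ) := by positivity
  refine ⟨(Fintype.card (Perm P₂) : ℝ) * C + C + (1 + C) * (Fintype.card P₂ : ℝ), by positivity,
    fun z hz hok => ?_⟩
  obtain ⟨t, t1, t2, t3, t4⟩ := h z hz hok
  refine ⟨∑ σ, t σ, t1, ?_⟩
  have hzR : (1 : ℝ) ≤ (z : ℝ) := by exact_mod_cast hz
  have hz0 : (0 : ℝ) < (z : ℝ) := by linarith
  obtain ⟨X, hX⟩ : ∃ X : ℝ, X = (z : ℝ) ^ (-(1 / (4 * p * q)) : ℝ) := ⟨_, rfl⟩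
  have hX0 : 0 < X := by rw [hX]; positivity
  have hX1 : 1 / (z : ℝ) ≤ X := by
    rw [hX, one_div, ← Real.rpow_neg_one]
    apply Real.rpow_le_rpow_of_exponent_le hzR
    linarith
  have hrest : ∀ σ : Perm P₂, σ ≠ 1 → ‖t σ‖ ≤ C * X := by
    intro σ hσ
    by_cases h0 : t σ = 0
    · rw [h0, norm_zero]; positivity
    · refine (t3 σ).trans ?_
      have hE := exp_strict hyp D hs z 0 1 1 (Th0_al z σ) isInv_one isInv_one (t2 σ h0)
        (by simp) (fun x => Iff.rfl) (Th0_inr_iff σ) (by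
          rintro ⟨-, h1⟩
          exact hσ (Th0_al_inj z (h1.trans (Th0_al_one z).symm)))
      rw [hX]
      apply mul_le_mul_of_nonneg_left _ hC.le
      exact Real.rpow_le_rpow_of_exponent_le hzR hE
  have h1 : ‖t 1 - 1‖ ≤ (C + (1 + C) * (Fintype.card P₂ : ℝ)) * X := by
    rcases le_or_gt (Fintype.card P₂) z with hc | hc
    · refine (t4 hs hc).trans ?_
      have e1 : C / (z : ℝ) ≤ C * X := by
        rw [div_eq_mul_one_div]
        exact mul_le_mul_of_nonneg_left hX1 hC.le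
      have e2 : 0 ≤ (1 + C) * (Fintype.card P₂ : ℝ) * X := by positivity
      nlinarith
    · have e0 : ‖t 1‖ ≤ C := by
        by_cases h0 : t 1 = 0
        · rw [h0, norm_zero]; exact hC.le
        · refine (t3 1).trans ?_
          have hE := exp_weak hyp D hw z 0 1 1 (Th0_al z 1) isInv_one isInv_one (t2 1 h0)
            (by simp) (fun x => Iff.rfl) (Th0_inr_iff 1)
          have := Real.rpow_le_one_of_one_le_of_nonpos hzR hE
          nlinarith
      have e1 : ‖t 1 - 1‖ ≤ C + 1 := by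
        refine (norm_sub_le _ _).trans ?_
        rw [norm_one]
        linarith
      have e2 : (1 : ℝ) ≤ (Fintype.card P₂ : ℝ) * X := by
        have e3 : (z : ℝ) ≤ (Fintype.card P₂ : ℝ) := by exact_mod_cast hc.le
        have e4 : 1 = (z : ℝ) * (1 / z) := by field_simp
        calc (1 : ℝ) = (z : ℝ) * (1 / z) := e4
          _ ≤ (Fintype.card P₂ : ℝ) * X := by
              apply mul_le_mul e3 hX1 (by positivity) (by positivity)
      have e5 : 0 ≤ C * X := by positivity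
      nlinarith
  have h2 : (∑ σ, t σ) - 1 = (t 1 - 1) + ∑ σ ∈ Finset.univ.erase (1 : Perm P₂), t σ := by
    rw [← Finset.add_sum_erase _ _ (Finset.mem_univ (1 : Perm P₂))]
    ring
  have h3 : ‖∑ σ ∈ Finset.univ.erase (1 : Perm P₂), t σ‖ ≤
      (Fintype.card (Perm P₂) : ℝ) * C * X := by
    calc ‖∑ σ ∈ Finset.univ.erase (1 : Perm P₂), t σ‖
        ≤ ∑ σ ∈ Finset.univ.erase (1 : Perm P₂), ‖t σ‖ := norm_sum_le _ _
      _ ≤ ∑ _σ ∈ Finset.univ.erase (1 : Perm P₂), C * X :=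
          Finset.sum_le_sum fun σ hσ => hrest σ (Finset.ne_of_mem_erase hσ)
      _ ≤ ∑ _σ ∈ (Finset.univ : Finset (Perm P₂)), C * X :=
          Finset.sum_le_sum_of_subset_of_nonneg (Finset.erase_subset _ _)
            fun _ _ _ => by positivity
      _ = (Fintype.card (Perm P₂) : ℝ) * C * X := by
          rw [Finset.sum_const, Finset.card_univ, nsmul_eq_mul]
          ring
  rw [h2, ← hX]
  refine (norm_add_le _ _).trans ?_
  nlinarith

end MPbcd198.L
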