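import Pool.Agent.Lib.MP_bcd198_co.L.Fil

/-!
# JOB L/TrIrr: trace and dimensions

* `trace_irr`: with the projections `P V` of `exists_proj`: `T = ∑_V T ∘ P V = ∑_V t V • P V`, and `P V` is a projection onto `V`, so its trace is `finrank V`
  (`LinearMap.IsProj.trace` or `LinearMap.trace_...`). (Or `LinearMap.trace_eq_sum_trace_restrict` for the internal direct sum.)
* `sum_finrank_le`: pairwise orthogonal nonzero subspaces contained in `W` are independent (`iSupIndep`), so the sum of the dimensions is at most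
  `finrank W`.
* `eig_le`: `v ∈ V`, `v ≠ 0`. Put `x_B = ipF v (fB B)` for involutions `B` with `|support B| ≤ 2j`. If `|support B| < 2j` then `|support B| ≤ 2(j-1)`
  (`even_support`) and `x_B = 0` (`V ⟂ Fil (j-1)`). Not all `x_B` are zero (`v ∈ Fil j` is a combination of the `fB B`, and `ipF v v ≠ 0`). Take
  `B` with `‖x_B‖` maximal; `|support B| = 2j`. With the `s` of `hB`: `t x_B = ipF v (T (fB B)) = ∑ s ga x_ga` (`ip_equivar`, `V ⟂ Fil (j-1)`), so
  `‖t‖ ‖x_B‖ ≤ ∑ ‖s ga‖ ‖x_ga‖ ≤ R ‖x_B‖`.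
-/

set_option autoImplicit false

namespace MPbcd198.L

open Equiv

variable {Ω : Type} [Fintype Ω] [DecidableEq Ω]

private theorem TrIrr_ip_sub (f g h : FPM Ω) : ipF f (g - h) = ipF f g - ipF f h := by
  have h1 : g - h = g + (-1 : ℂ) • h := by simp [sub_eq_add_neg]
  rw [h1, ipF_add, ipF_smul]
  ring

private theorem TrIrr_ip_zero (f : FPM Ω) : ipF f 0 = 0 := by
  have h1 := ipF_smul f (0 : FPM Ω) 0
  simpa using h1

private theorem TrIrr_ip_sum {ι : Type} (s : Finset ι) (f : FPM Ω) (g : ι → FPM Ω) :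
    ipF f (∑ i ∈ s, g i) = ∑ i ∈ s, ipF f (g i) := by
  classical
  induction s using Finset.induction_on with
  | empty => simp [TrIrr_ip_zero]
  | insert i s hi ih => rw [Finset.sum_insert hi, Finset.sum_insert hi, ipF_add, ih]

private theorem TrIrr_self {f : FPM Ω} (h : ipF f f = 0) : f = 0 := by
  rw [ipF_self] at h
  exact nrm2_eq_zero (by exact_mod_cast h)

theorem trace_irr {T : FPM Ω →ₗ[ℂ] FPM Ω} (t : Submodule ℂ (FPM Ω) → ℂ)
    (ht : ∀ V ∈ Irr Ω, ∀ f ∈ V, T f = t V • f) :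
    LinearMap.trace ℂ (FPM Ω) T = ∑ V ∈ irrF Ω, (Module.finrank ℂ V : ℂ) * t V := by
  obtain ⟨P, hP1, hP2, hP3, hP4, hP5⟩ := exists_proj Ω
  have hT : T = ∑ V ∈ irrF Ω, t V • P V := by
    apply LinearMap.ext
    intro f
    rw [LinearMap.sum_apply]
    conv_lhs => rw [← hP4 f, map_sum]
    refine Finset.sum_congr rfl fun V hV => ?_
    rw [LinearMap.smul_apply]
    exact ht V (mem_irrF.1 hV) _ (hP1 V (mem_irrF.1 hV) f)
  conv_lhs => rw [hT]
  rw [map_sum]
  refine Finset.sum_congr rfl fun V hV => ?_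
  have hpr : LinearMap.IsProj V (P V) := ⟨hP1 V (mem_irrF.1 hV), hP2 V (mem_irrF.1 hV)⟩
  rw [map_smul, hpr.trace, smul_eq_mul, mul_comm]

theorem sum_finrank_le (I : Finset (Submodule ℂ (FPM Ω))) (hI : ∀ V ∈ I, V ∈ Irr Ω)
    (W : Submodule ℂ (FPM Ω)) (hW : ∀ V ∈ I, V ≤ W) :
    ∑ V ∈ I, (Module.finrank ℂ V : ℝ) ≤ (Module.finrank ℂ W : ℝ) := by
  obtain ⟨P, hP1, hP2, hP3, hP4, hP5⟩ := exists_proj Ω
  let φ₀ : ((V : I) → V.1) →ₗ[ℂ] FPM Ω := ∑ V : I, (V.1.subtype).comp (LinearMap.proj V)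
  have hφ₀ : ∀ f, φ₀ f = ∑ V : I, (f V : FPM Ω) := by
    intro f
    simp only [φ₀, LinearMap.sum_apply, LinearMap.comp_apply, LinearMap.proj_apply,
      Submodule.subtype_apply]
  have hmem : ∀ f, φ₀ f ∈ W := by
    intro f
    rw [hφ₀]
    exact Submodule.sum_mem _ fun V _ => hW V.1 V.2 (f V).2
  let φ : ((V : I) → V.1) →ₗ[ℂ] W := φ₀.codRestrict W hmem
  have hPφ : ∀ f (V : I), P V.1 (φ₀ f) = (f V : FPM Ω) := by
    intro f V
    rw [hφ₀, map_sum, Finset.sum_eq_single V]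
    · exact hP2 V.1 (hI V.1 V.2) _ (f V).2
    · intro V' _ hne
      exact hP3 V.1 (hI V.1 V.2) V'.1 (hI V'.1 V'.2) (fun h => hne (Subtype.ext h.symm)) _ (f V').2
    · intro h
      exact absurd (Finset.mem_univ V) h
  have hinj : Function.Injective φ := by
    intro f g hfg
    funext V
    apply Subtype.ext
    rw [← hPφ f V, ← hPφ g V]
    have h1 : φ₀ f = φ₀ g := congrArg Subtype.val hfg
    rw [h1]
  have h1 := LinearMap.finrank_le_finrank_of_injective hinj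
  rw [Module.finrank_pi_fintype] at h1
  have h2 : ∑ V ∈ I, (Module.finrank ℂ V : ℝ) = ((∑ V : I, Module.finrank ℂ V.1 : ℕ) : ℝ) := by
    push_cast
    exact (Finset.sum_coe_sort I fun V => (Module.finrank ℂ V : ℝ)).symm
  rw [h2]
  exact_mod_cast h1

theorem eig_le {T : FPM Ω →ₗ[ℂ] FPM Ω} (hT : ∀ σ f, T (actF σ f) = actF σ (T f))
    {V : Submodule ℂ (FPM Ω)} (hV : V ∈ Irr Ω) {t : ℂ} (ht : ∀ f ∈ V, T f = t • f)
    {j : ℕ} (hj : 1 ≤ j) (hVj : V ≤ Fil Ω j)
    (hVo : ∀ f ∈ V, ∀ g ∈ Fil Ω (j - 1), ipF f g = 0) {R : ℝ} (hR : 0 ≤ R)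
    (hB : ∀ B : Perm Ω, IsInv B → B.support.card = 2 * j → ∃ s : Perm Ω → ℂ,
      (∀ ga, s ga ≠ 0 → IsInv ga ∧ ga.support.card ≤ 2 * j) ∧
      T (fB B) - ∑ ga, s ga • fB ga ∈ Fil Ω (j - 1) ∧ ∑ ga, ‖s ga‖ ≤ R) : ‖t‖ ≤ R := by
  classical
  obtain ⟨v, hvV, hv0⟩ := Submodule.exists_mem_ne_zero_of_ne_bot hV.1
  set S : Finset (Perm Ω) := Finset.univ.filter fun B => IsInv B ∧ B.support.card ≤ 2 * j with hS
  have hSne : S.Nonempty := ⟨1, by
    rw [hS, Finset.mem_filter]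
    refine ⟨Finset.mem_univ _, fun x => rfl, by simp⟩⟩
  obtain ⟨B, hBS, hmax⟩ := Finset.exists_max_image S (fun B => ‖ipF v (fB B)‖) hSne
  have hpos : 0 < ‖ipF v (fB B)‖ := by
    by_contra hcon
    have h0 : ∀ ga ∈ S, ipF v (fB ga) = 0 := by
      intro ga hga
      have h1 := hmax ga hga
      have h2 : ‖ipF v (fB ga)‖ ≤ 0 := h1.trans (not_lt.1 hcon)
      exact norm_le_zero_iff.1 h2
    apply hv0
    apply TrIrr_self
    have h3 : ∀ g ∈ Fil Ω j, ipF v g = 0 := by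
      intro g hg
      unfold Fil at hg
      induction hg using Submodule.span_induction with
      | mem g hg =>
        obtain ⟨β, h1, h2, rfl⟩ := hg
        exact h0 β (by rw [hS, Finset.mem_filter]; exact ⟨Finset.mem_univ _, h1, h2⟩)
      | zero => exact TrIrr_ip_zero v
      | add g g' _ _ h1 h2 => rw [ipF_add, h1, h2, add_zero]
      | smul c g _ h1 => rw [ipF_smul, h1, mul_zero]
    exact h3 v (hVj hvV)
  have hBS' := (Finset.mem_filter.1 hBS).2
  have hcard : B.support.card = 2 * j := by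
    by_contra hne
    have hev := even_support hBS'.1
    obtain ⟨k, hk⟩ := hev
    have h1 : B.support.card ≤ 2 * (j - 1) := by
      have := hBS'.2
      omega
    have h2 := hVo v hvV (fB B) (fB_mem hBS'.1 h1)
    rw [h2, norm_zero] at hpos
    exact lt_irrefl _ hpos
  obtain ⟨s, hs1, hs2, hs3⟩ := hB B hBS'.1 hcard
  have h1 := ip_equivar hT hV ht v hvV (fB B)
  have h2 : ipF v (T (fB B)) = ∑ ga, s ga * ipF v (fB ga) := by
    have h3 := hVo v hvV _ hs2
    rw [TrIrr_ip_sub, TrIrr_ip_sum, sub_eq_zero] at h3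
    rw [h3]
    exact Finset.sum_congr rfl fun ga _ => ipF_smul _ _ _
  have h4 : ‖t‖ * ‖ipF v (fB B)‖ ≤ R * ‖ipF v (fB B)‖ := by
    rw [← norm_mul, ← h1, h2]
    calc ‖∑ ga, s ga * ipF v (fB ga)‖ ≤ ∑ ga, ‖s ga * ipF v (fB ga)‖ := norm_sum_le _ _
      _ ≤ ∑ ga, ‖s ga‖ * ‖ipF v (fB B)‖ := by
          refine Finset.sum_le_sum fun ga _ => ?_
          rw [norm_mul]
          by_cases h5 : s ga = 0
          · rw [h5, norm_zero, zero_mul, zero_mul]
          · refine mul_le_mul_of_nonneg_left ?_ (norm_nonneg _)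
            refine hmax ga ?_
            rw [hS, Finset.mem_filter]
            exact ⟨Finset.mem_univ _, hs1 ga h5⟩
      _ = (∑ ga, ‖s ga‖) * ‖ipF v (fB B)‖ := by rw [Finset.sum_mul]
      _ ≤ R * ‖ipF v (fB B)‖ := mul_le_mul_of_nonneg_right hs3 hpos.le
  exact le_of_mul_le_mul_right h4 hpos

end MPbcd198.L
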