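import Pool.Agent.Lib.MP_bcd198_co.L.TrId
import Pool.Agent.Lib.MP_bcd198_co.L.TrIrr
import Pool.Agent.Lib.MP_bcd198_co.L.Lev
import Pool.Agent.Lib.MP_bcd198_co.L.Th0
import Pool.Agent.Lib.MP_bcd198_co.L.High

/-!
# Stream L: Theorem Q
-/

set_option autoImplicit false

namespace MPbcd198.L

open Equiv

variable {P₁ P₂ : Type} [Fintype P₁] [Fintype P₂] [DecidableEq P₁] [DecidableEq P₂]

/-- the low levels and the high part together -/
theorem core {p q : ℕ} (hyp : Hyp p q) (D : Dat P₁ P₂) (δ : ℝ) (hδ1 : δ ≤ 1)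
    (hE : ∀ j : ℕ, 1 ≤ j → ∀ (z : ℕ) (B ga : Perm (Fin (2 * z)))
      (al : Perm (P₂ ⊕ Fin (2 * z))), IsInv B →
      IsInv ga → IsInv al → B.support.card = 2 * j → (∀ x, ga x ≠ x ↔ B x ≠ x) →
      (∀ x, al (Sum.inr x) ≠ Sum.inr x ↔ B x ≠ x) → EE D p q j B ga al ≤ -δ) :
    ∃ C : ℝ, 0 < C ∧ ∀ z : ℕ, 1 ≤ z → D.Ok p q z → ∀ θ : ℂ,
      TT D p q z (fun _ => 1) = θ • (fun _ => 1 : FPM (Fin (2 * z))) →
        ‖((Qratio p q D.a D.b D.c z : ℝ) : ℂ) - θ‖ ≤ C * (z : ℝ) ^ (-δ) := by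
  classical
  have hp : 1 ≤ p := by have := hyp.hp; omega
  have hq : 1 ≤ q := by have := hyp.hq; omega
  obtain ⟨J, Ch, hCh, hhigh⟩ := high_sum hyp D
  have hlev : ∀ j : ℕ, ∃ C : ℝ, 0 < C ∧ (1 ≤ j → ∀ z : ℕ, 1 ≤ z → ∀ B : Perm (Fin (2 * z)),
      IsInv B → B.support.card = 2 * j → ∃ s : Perm (Fin (2 * z)) → ℂ,
        (∀ ga, s ga ≠ 0 → IsInv ga ∧ ga.support.card ≤ 2 * j) ∧
        TT D p q z (fB B) - ∑ ga, s ga • fB ga ∈ Fil (Fin (2 * z)) (j - 1) ∧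
        ∑ ga, ‖s ga‖ ≤ C * (z : ℝ) ^ (-(2 * j : ℝ) - δ)) := by
    intro j
    rcases Nat.eq_zero_or_pos j with h | h
    · exact ⟨1, one_pos, fun h' => absurd h' (by omega)⟩
    · obtain ⟨C, h1, h2⟩ := lev hp hq D δ j h (hE j h)
      exact ⟨C, h1, fun _ => h2⟩
  choose Cl hCl0 hCl using hlev
  refine ⟨Ch + ∑ j ∈ Finset.Icc 1 J, 5 ^ j * Cl j, ?_, ?_⟩
  · have : 0 ≤ ∑ j ∈ Finset.Icc 1 J, 5 ^ j * Cl j :=
      Finset.sum_nonneg fun j _ => mul_nonneg (by positivity) (hCl0 j).le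
    linarith
  intro z hz hOk θ hθ
  have hz1 : (1 : ℝ) ≤ z := by exact_mod_cast hz
  have hz0 : (0 : ℝ) < z := by linarith
  have hT := TT_eqv D p q z
  have hex : ∀ V : Submodule ℂ (FPM (Fin (2 * z))), ∃ t : ℂ, V ∈ Irr (Fin (2 * z)) →
      ∀ f ∈ V, TT D p q z f = t • f := by
    intro V
    by_cases hV : V ∈ Irr (Fin (2 * z))
    · obtain ⟨t, ht⟩ := equivar_scalar hT hV
      exact ⟨t, fun _ => ht⟩
    · exact ⟨0, fun h => absurd h hV⟩
  choose t ht using hex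
  have htr := trace_irr (T := TT D p q z) t ht
  rw [trace_TT D hp hq hOk] at htr
  -- the constants
  have hPM : Nonempty (PMT (Fin (2 * z))) := by
    have h1 := card_PM (Ω := Fin (2 * z)) (m := z) (by simp)
    have h2 := MNum_pos z
    rw [← h1] at h2
    have h3 : 0 < Nat.card (PMT (Fin (2 * z))) := by exact_mod_cast h2
    exact (Nat.card_pos_iff.1 h3).1
  obtain ⟨a₀⟩ := hPM
  obtain ⟨hV0, hd0⟩ := const_irr a₀
  obtain ⟨_, _, _, hdich⟩ := irr_decomp (Fin (2 * z))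
  have ht0 : t (Fil (Fin (2 * z)) 0) = θ := by
    have h1 := ht _ hV0 (fun _ => 1) (mem_fil_zero.2 ⟨1, rfl⟩)
    rw [hθ] at h1
    have h2 := congrFun h1 a₀
    simpa using h2.symm
  have hmem : Fil (Fin (2 * z)) 0 ∈ irrF (Fin (2 * z)) := mem_irrF.2 hV0
  rw [← Finset.add_sum_erase _ _ hmem, hd0, ht0] at htr
  rw [htr, Nat.cast_one, one_mul, add_sub_cancel_left]
  -- split
  obtain ⟨S, hS⟩ : ∃ S : Finset (Submodule ℂ (FPM (Fin (2 * z)))),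
    S = (irrF (Fin (2 * z))).erase (Fil (Fin (2 * z)) 0) := ⟨_, rfl⟩
  rw [← hS]
  have hSI : ∀ V ∈ S, V ∈ Irr (Fin (2 * z)) := by
    intro V hV
    rw [hS, Finset.mem_erase] at hV
    exact mem_irrF.1 hV.2
  have hSne : ∀ V ∈ S, ¬ V ≤ Fil (Fin (2 * z)) 0 := by
    intro V hV hle
    have h1 := hSI V hV
    rcases hV0.2.2 V hle h1.2.1 with h2 | h2
    · exact h1.1 h2
    · rw [hS, Finset.mem_erase] at hV
      exact hV.1 h2
  have hnorm : ‖∑ V ∈ S, (Module.finrank ℂ V : ℂ) * t V‖ ≤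
      ∑ V ∈ S, (Module.finrank ℂ V : ℝ) * ‖t V‖ := by
    refine (norm_sum_le _ _).trans (le_of_eq ?_)
    refine Finset.sum_congr rfl fun V _ => ?_
    rw [norm_mul, Complex.norm_natCast]
  refine hnorm.trans ?_
  rw [← Finset.sum_filter_add_sum_filter_not S (fun V => V ≤ Fil (Fin (2 * z)) J)]
  -- high part
  have hhi := hhigh z hz hOk t ht (S.filter fun V => ¬ V ≤ Fil (Fin (2 * z)) J) (by
    intro V hV
    rw [Finset.mem_filter] at hV
    refine ⟨hSI V hV.1, ?_⟩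
    rcases hdich V (hSI V hV.1) (Fil (Fin (2 * z)) J) (fil_inv J) with h | h
    · exact absurd h hV.2
    · exact h)
  have hhi2 : Ch / z ≤ Ch * (z : ℝ) ^ (-δ) := by
    rw [div_eq_mul_inv]
    refine mul_le_mul_of_nonneg_left ?_ hCh.le
    rw [← Real.rpow_neg_one]
    exact Real.rpow_le_rpow_of_exponent_le hz1 (by linarith)
  -- the level of an irreducible subspace
  have hlow : ∑ V ∈ S.filter (fun V => V ≤ Fil (Fin (2 * z)) J),
      (Module.finrank ℂ V : ℝ) * ‖t V‖ ≤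
      (∑ j ∈ Finset.Icc 1 J, 5 ^ j * Cl j) * (z : ℝ) ^ (-δ) := by
    have hexl : ∀ V : Submodule ℂ (FPM (Fin (2 * z))), ∃ j : ℕ,
        V ∈ S.filter (fun V => V ≤ Fil (Fin (2 * z)) J) →
        1 ≤ j ∧ j ≤ J ∧ V ≤ Fil (Fin (2 * z)) j ∧ ¬ V ≤ Fil (Fin (2 * z)) (j - 1) := by
      intro V
      by_cases hV : V ∈ S.filter (fun V => V ≤ Fil (Fin (2 * z)) J)
      · rw [Finset.mem_filter] at hV
        have hex : ∃ j, V ≤ Fil (Fin (2 * z)) j := ⟨J, hV.2⟩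
        refine ⟨Nat.find hex, fun _ => ⟨?_, Nat.find_min' hex hV.2, Nat.find_spec hex, ?_⟩⟩
        · rw [Nat.one_le_iff_ne_zero]
          intro h0
          have := Nat.find_spec hex
          rw [h0] at this
          exact hSne V hV.1 this
        · have h1 : 1 ≤ Nat.find hex := by
            rw [Nat.one_le_iff_ne_zero]
            intro h0
            have := Nat.find_spec hex
            rw [h0] at this
            exact hSne V hV.1 this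
          exact Nat.find_min hex (by omega)
      · exact ⟨0, fun h => absurd h hV⟩
    choose lv hlv using hexl
    rw [← Finset.sum_fiberwise_of_maps_to (t := Finset.Icc 1 J) (g := lv)
      (fun V hV => Finset.mem_Icc.2 ⟨(hlv V hV).1, (hlv V hV).2.1⟩), Finset.sum_mul]
    refine Finset.sum_le_sum fun j hj => ?_
    rw [Finset.mem_Icc] at hj
    obtain ⟨I, hI⟩ : ∃ I : Finset (Submodule ℂ (FPM (Fin (2 * z)))),
      I = (S.filter (fun V => V ≤ Fil (Fin (2 * z)) J)).filter (fun V => lv V = j) := ⟨_, rfl⟩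
    rw [← hI]
    have hI1 : ∀ V ∈ I, V ∈ Irr (Fin (2 * z)) ∧ V ≤ Fil (Fin (2 * z)) j ∧
        ¬ V ≤ Fil (Fin (2 * z)) (j - 1) := by
      intro V hV
      rw [hI, Finset.mem_filter] at hV
      have h1 := hlv V hV.1
      rw [hV.2] at h1
      exact ⟨hSI V (Finset.mem_filter.1 hV.1).1, h1.2.2.1, h1.2.2.2⟩
    obtain ⟨R, hR⟩ : ∃ R : ℝ, R = Cl j * (z : ℝ) ^ (-(2 * j : ℝ) - δ) := ⟨_, rfl⟩
    have hR0 : 0 ≤ R := by
      rw [hR]
      exact mul_nonneg (hCl0 j).le (Real.rpow_nonneg hz0.le _)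
    have htR : ∀ V ∈ I, ‖t V‖ ≤ R := by
      intro V hV
      obtain ⟨h1, h2, h3⟩ := hI1 V hV
      refine eig_le hT h1 (ht V h1) hj.1 h2 ?_ hR0 ?_
      · rcases hdich V h1 (Fil (Fin (2 * z)) (j - 1)) (fil_inv _) with h | h
        · exact absurd h h3
        · exact h
      · intro B hB hBj
        obtain ⟨s, h4, h5, h6⟩ := hCl j hj.1 z hz B hB hBj
        exact ⟨s, h4, h5, by rw [hR]; exact h6⟩
    calc ∑ V ∈ I, (Module.finrank ℂ V : ℝ) * ‖t V‖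
        ≤ ∑ V ∈ I, (Module.finrank ℂ V : ℝ) * R :=
          Finset.sum_le_sum fun V hV => mul_le_mul_of_nonneg_left (htR V hV) (by positivity)
      _ = (∑ V ∈ I, (Module.finrank ℂ V : ℝ)) * R := by rw [Finset.sum_mul]
      _ ≤ (Module.finrank ℂ (Fil (Fin (2 * z)) j) : ℝ) * R :=
          mul_le_mul_of_nonneg_right (sum_finrank_le I (fun V hV => (hI1 V hV).1) _
            (fun V hV => (hI1 V hV).2.1)) hR0
      _ ≤ ((5 * (z : ℝ) ^ 2) ^ j) * R := by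
          refine mul_le_mul_of_nonneg_right ((finrank_fil j).trans ?_) hR0
          refine pow_le_pow_left₀ (by positivity) ?_ j
          rw [Fintype.card_fin]
          push_cast
          nlinarith
      _ = 5 ^ j * Cl j * (z : ℝ) ^ (-δ) := by
          rw [hR, mul_pow, ← pow_mul, ← Real.rpow_natCast (z : ℝ) (2 * j)]
          have e1 : (z : ℝ) ^ ((2 * j : ℕ) : ℝ) * (z : ℝ) ^ (-(2 * j : ℝ) - δ) =
              (z : ℝ) ^ (-δ) := by
            rw [← Real.rpow_add hz0]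
            congr 1
            push_cast
            ring
          calc 5 ^ j * (z : ℝ) ^ ((2 * j : ℕ) : ℝ) * (Cl j * (z : ℝ) ^ (-(2 * j : ℝ) - δ))
              = 5 ^ j * Cl j * ((z : ℝ) ^ ((2 * j : ℕ) : ℝ) * (z : ℝ) ^ (-(2 * j : ℝ) - δ)) := by
                ring
            _ = 5 ^ j * Cl j * (z : ℝ) ^ (-δ) := by rw [e1]
  calc _ ≤ (∑ j ∈ Finset.Icc 1 J, 5 ^ j * Cl j) * (z : ℝ) ^ (-δ) + Ch * (z : ℝ) ^ (-δ) :=
        add_le_add hlow (hhi.trans hhi2)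
    _ = (Ch + ∑ j ∈ Finset.Icc 1 J, 5 ^ j * Cl j) * (z : ℝ) ^ (-δ) := by ring

/-- Theorem Q, weak hull condition -/
theorem thmQ_weak {p q : ℕ} (hyp : Hyp p q) {P₁ P₂ : Type} [Fintype P₁] [Fintype P₂]
    [DecidableEq P₁] [DecidableEq P₂] (a : Perm P₁) (b : Perm (P₁ ⊕ P₂)) (c : Perm P₂)
    (ha : IsPM a) (hb : IsPM b) (hc : IsPM c)
    (hull : ∀ U : Finset (P₁ ⊕ P₂), PClosed a b U → eP p c U ≤ 0) :
    ∃ C : ℝ, ∀ z : ℕ, p ∣ Fintype.card (P₁ ⊕ P₂) / 2 + z → q ∣ z →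
      2 ∣ Fintype.card P₂ / 2 + z → Qratio p q a b c z ≤ C := by
  obtain ⟨D, hD⟩ : ∃ D : Dat P₁ P₂, D = ⟨a, b, c, ha, hb, hc⟩ := ⟨_, rfl⟩
  have hw : D.Weak p := by rw [hD]; exact hull
  obtain ⟨C1, hC1, h1⟩ := th0_weak (q := q) hyp D hw
  obtain ⟨C2, hC2, h2⟩ := core hyp D 0 zero_le_one (fun j _ z B ga al e1 e2 e3 e4 e5 e6 => by
    rw [neg_zero]
    exact exp_weak hyp D hw z j B ga al e1 e2 e3 e4 e5 e6)
  refine ⟨max (C1 + C2) (Qratio p q a b c 0), fun z k1 k2 k3 => ?_⟩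
  rcases Nat.eq_zero_or_pos z with hz | hz
  · rw [hz]
    exact le_max_right _ _
  · refine le_trans ?_ (le_max_left _ _)
    have hOk : D.Ok p q z := ⟨k1, k2, k3⟩
    obtain ⟨θ, hθ, hθ2⟩ := h1 z hz hOk
    have h3 := h2 z hz hOk θ hθ
    rw [neg_zero, Real.rpow_zero, mul_one] at h3
    have h4 : Qratio p q a b c z = Qratio p q D.a D.b D.c z := by rw [hD]
    rw [h4]
    have h5 : ‖((Qratio p q D.a D.b D.c z : ℝ) : ℂ)‖ ≤ C2 + C1 := by
      calc ‖((Qratio p q D.a D.b D.c z : ℝ) : ℂ)‖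
          = ‖(((Qratio p q D.a D.b D.c z : ℝ) : ℂ) - θ) + θ‖ := by rw [sub_add_cancel]
        _ ≤ _ := (norm_add_le _ _).trans (add_le_add h3 hθ2)
    rw [Complex.norm_real, Real.norm_eq_abs] at h5
    linarith [le_abs_self (Qratio p q D.a D.b D.c z)]

/-- Theorem Q, strict hull condition -/
theorem thmQ_strict {p q : ℕ} (hyp : Hyp p q) {P₁ P₂ : Type} [Fintype P₁] [Fintype P₂]
    [DecidableEq P₁] [DecidableEq P₂] (a : Perm P₁) (b : Perm (P₁ ⊕ P₂)) (c : Perm P₂)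
    (ha : IsPM a) (hb : IsPM b) (hc : IsPM c)
    (hull : ∀ U : Finset (P₁ ⊕ P₂), U.Nonempty → PClosed a b U → eP p c U < 0) :
    ∀ ε : ℝ, 0 < ε → ∃ z₀ : ℕ, ∀ z : ℕ, z₀ ≤ z → p ∣ Fintype.card (P₁ ⊕ P₂) / 2 + z → q ∣ z →
      2 ∣ Fintype.card P₂ / 2 + z → |Qratio p q a b c z - 1| ≤ ε := by
  obtain ⟨D, hD⟩ : ∃ D : Dat P₁ P₂, D = ⟨a, b, c, ha, hb, hc⟩ := ⟨_, rfl⟩
  have hs : D.Strict p := by rw [hD]; exact hull
  have hp : (3 : ℝ) ≤ p := by exact_mod_cast hyp.hp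
  have hq : (3 : ℝ) ≤ q := by exact_mod_cast hyp.hq
  obtain ⟨δ, hδ⟩ : ∃ δ : ℝ, δ = 1 / (4 * p * q) := ⟨_, rfl⟩
  have hpq : (1 : ℝ) ≤ 4 * p * q := by nlinarith
  have hδ0 : 0 < δ := by rw [hδ]; positivity
  have hδ1 : δ ≤ 1 := by
    rw [hδ, div_le_one (by linarith)]
    exact hpq
  obtain ⟨C1, hC1, h1⟩ := th0_strict (q := q) hyp D hs
  obtain ⟨C2, hC2, h2⟩ := core hyp D δ hδ1 (fun j hj z B ga al e1 e2 e3 e4 e5 e6 => by
    rw [hδ]
    exact exp_strict hyp D hs z j B ga al e1 e2 e3 e4 e5 e6 (fun h => by omega))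
  intro ε hε
  have hlim : Filter.Tendsto (fun z : ℕ => (C1 + C2) * (z : ℝ) ^ (-δ)) Filter.atTop
      (nhds ((C1 + C2) * 0)) :=
    ((tendsto_rpow_neg_atTop hδ0).comp tendsto_natCast_atTop_atTop).const_mul _
  rw [mul_zero] at hlim
  obtain ⟨z₁, hz₁⟩ := Filter.eventually_atTop.1 (hlim.eventually (gt_mem_nhds hε))
  refine ⟨max z₁ 1, fun z hz k1 k2 k3 => ?_⟩
  have hz1 : 1 ≤ z := le_trans (le_max_right _ _) hz
  have hOk : D.Ok p q z := ⟨k1, k2, k3⟩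
  obtain ⟨θ, hθ, hθ2⟩ := h1 z hz1 hOk
  have h3 := h2 z hz1 hOk θ hθ
  rw [← hδ] at hθ2
  have h4 : Qratio p q a b c z = Qratio p q D.a D.b D.c z := by rw [hD]
  rw [h4]
  have h5 : ‖((Qratio p q D.a D.b D.c z - 1 : ℝ) : ℂ)‖ ≤ (C1 + C2) * (z : ℝ) ^ (-δ) := by
    have e : ((Qratio p q D.a D.b D.c z - 1 : ℝ) : ℂ) =
        (((Qratio p q D.a D.b D.c z : ℝ) : ℂ) - θ) + (θ - 1) := by
      push_cast
      ring
    rw [e]
    refine (norm_add_le _ _).trans ?_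
    linarith
  rw [Complex.norm_real, Real.norm_eq_abs] at h5
  exact h5.trans (hz₁ z (le_trans (le_max_left _ _) hz)).le

end MPbcd198.L
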