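import Pool.Agent.Lib.MP_bcd198_co.L.RelB

/-!
# JOB L/Sw: switching

`x` is a point not covered by the partial matching `β`; `swap x y * β` is `β` with the additional edge `{x, y}`.
* `cnt_sum`: classify the `b ⊇ β` by `y = b x`. We have `y ≠ x`, and `β y = y` (otherwise `b y = β y`, but `b y = x`, so `β y = x`, `y = β x = x`). And
  `b ⊇ swap x y * β` iff `b ⊇ β` and `b x = y` (`b y = x` follows as `b` is an involution).
* `cnt_fresh`: `y`, `a y`, `y'`, `a y'` are not in the support of `β` and different from `x`. If `y' = y` trivial. If `y' = a y` take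
  `σ = swap y (a y)`; otherwise `σ = swap y y' * swap (a y) (a y')` (four different points). `σ` commutes with `a`, fixes `x` and the
  support of `β` pointwise, and `σ y = y'`: so `σ a σ⁻¹ = a`, `σ (swap x y * β) σ⁻¹ = swap x y' * β`; use `cnt_conj`.
* `cnt_split`: `y` with `β y ≠ y`, `β (a y) = a y`; `x = β y`, `β' = rem β y`, `β = swap x y * β'` (`swap_mul_rem`). Let `S = support β' ∪ {x}`,
  `|S| = |support β| - 1`. Split the sum `cnt_sum` for `β'`, `x` into the `y'` with `y' ∉ S`, `a y' ∉ S` (fresh; `y` is fresh: `β' y = y`, `β' (a y) = a y`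
  because `a y` is not in the support of `β`, `y ≠ x`, `a y ≠ x = β y` as `β (β y) ≠ β y`) and the others (`N`: `y' ∉ S`, `a y' ∈ S`, at most
  `|S|` of them). By `cnt_fresh` all fresh terms are equal to `cnt r a β`. The number `n` of fresh `y'` is at least
  `|Ω| - 2 |S|`.
* `cnt_step` follows from `cnt_split`.
-/

set_option autoImplicit false

namespace MPbcd198.L

open Equiv

variable {Ω : Type} [Fintype Ω] [DecidableEq Ω] {r : ℕ} {a β : Perm Ω}

private theorem Sw_card (r : ℕ) (a β : Perm Ω) :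
    cnt r a β = (open Classical in
      (Finset.univ.filter fun b : Perm Ω => IsPM b ∧ Rel r a b ∧ ∀ x, β x ≠ x → b x = β x).card) := by
  classical
  unfold cnt
  rw [Nat.card_eq_fintype_card, Fintype.card_subtype]

private theorem Sw_swap {x y : Ω} (hx : β x = x) (hy : β y = y) (hxy : y ≠ x)
    {b : Perm Ω} (hb : IsPM b) :
    (∀ z, (swap x y * β) z ≠ z → b z = (swap x y * β) z) ↔ ((∀ z, β z ≠ z → b z = β z) ∧ b x = y) := by
  have ex : (swap x y * β) x = y := by rw [Perm.mul_apply, hx, swap_apply_left]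
  have ey : (swap x y * β) y = x := by rw [Perm.mul_apply, hy, swap_apply_right]
  have ez : ∀ z, z ≠ x → z ≠ y → (swap x y * β) z = β z := by
    intro z hzx hzy
    rw [Perm.mul_apply]
    apply swap_apply_of_ne_of_ne
    · intro h
      exact hzx (β.injective (h.trans hx.symm))
    · intro h
      exact hzy (β.injective (h.trans hy.symm))
  constructor
  · intro h
    refine ⟨fun z hz => ?_, ?_⟩
    · have hzx : z ≠ x := fun h' => hz (h' ▸ hx)
      have hzy : z ≠ y := fun h' => hz (h' ▸ hy)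
      have := h z (by rw [ez z hzx hzy]; exact hz)
      rw [this, ez z hzx hzy]
    · have := h x (by rw [ex]; exact hxy)
      rw [this, ex]
  · rintro ⟨h1, h2⟩ z hz
    by_cases hzx : z = x
    · subst hzx; rw [ex, h2]
    by_cases hzy : z = y
    · subst hzy; rw [ey, ← h2, (hb x).2]
    rw [ez z hzx hzy] at hz ⊢
    exact h1 z hz

theorem cnt_sum (hβ : IsInv β) {x : Ω} (hx : β x = x) :
    cnt r a β = ∑ y ∈ Finset.univ.filter (fun y => y ≠ x ∧ β y = y), cnt r a (swap x y * β) := by
  classical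
  rw [Sw_card]
  have hmaps : ∀ b ∈ (Finset.univ.filter fun b : Perm Ω => IsPM b ∧ Rel r a b ∧ ∀ x, β x ≠ x → b x = β x),
      b x ∈ Finset.univ.filter (fun y => y ≠ x ∧ β y = y) := by
    intro b hb
    obtain ⟨-, hb1, hb2, hb3⟩ := Finset.mem_filter.1 hb
    refine Finset.mem_filter.2 ⟨Finset.mem_univ _, (hb1 x).1, ?_⟩
    by_contra hcon
    have h1 := hb3 _ hcon
    rw [(hb1 x).2] at h1
    have h2 : b x = x := β.injective (h1.symm.trans hx.symm)
    exact (hb1 x).1 h2
  rw [Finset.card_eq_sum_card_fiberwise (f := fun b : Perm Ω => b x) (t := Finset.univ.filter (fun y => y ≠ x ∧ β y = y)) hmaps]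
  refine Finset.sum_congr rfl fun y hy => ?_
  obtain ⟨-, hyx, hyy⟩ := Finset.mem_filter.1 hy
  rw [Sw_card, Finset.filter_filter]
  congr 1
  ext b
  simp only [Finset.mem_filter, Finset.mem_univ, true_and]
  constructor
  · rintro ⟨⟨h1, h2, h3⟩, h4⟩
    exact ⟨h1, h2, (Sw_swap hx hyy hyx h1).2 ⟨h3, h4⟩⟩
  · rintro ⟨h1, h2, h3⟩
    have h4 := (Sw_swap hx hyy hyx h1).1 h3
    exact ⟨⟨h1, h2, h4.1⟩, h4.2⟩

private theorem Sw_conj {σ : Perm Ω} {x y y' : Ω} (h1 : σ * a = a * σ) (h2 : σ * β = β * σ) (h3 : σ x = x) (h4 : σ y = y') :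
    cnt r a (swap x y * β) = cnt r a (swap x y' * β) := by
  rw [← cnt_conj σ]
  have e1 : σ * a * σ⁻¹ = a := by rw [h1, mul_assoc, mul_inv_cancel, mul_one]
  have e2 : σ * (swap x y * β) * σ⁻¹ = swap x y' * β := by
    rw [← mul_assoc, Equiv.mul_swap_eq_swap_mul, h3, h4, mul_assoc, mul_assoc, ← mul_assoc σ, h2, mul_assoc, mul_inv_cancel, mul_one]
  rw [e1, e2]

theorem cnt_fresh (ha : IsPM a) (hβ : IsInv β) {x y y' : Ω} (hx : β x = x)
    (h1 : β y = y) (h2 : β (a y) = a y) (h3 : y ≠ x) (h4 : a y ≠ x)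
    (h1' : β y' = y') (h2' : β (a y') = a y') (h3' : y' ≠ x) (h4' : a y' ≠ x) :
    cnt r a (swap x y * β) = cnt r a (swap x y' * β) := by
  have hsw : ∀ {u v : Ω}, β u = u → β v = v → swap u v * β = β * swap u v := by
    intro u v hu hv
    rw [Equiv.mul_swap_eq_swap_mul, hu, hv]
  by_cases hyy : y' = y
  · rw [hyy]
  by_cases hay : y' = a y
  · refine Sw_conj (σ := swap y (a y)) ?_ (hsw h1 h2) (swap_apply_of_ne_of_ne h3.symm h4.symm) ?_
    · rw [Equiv.mul_swap_eq_swap_mul, (ha y).2, swap_comm]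
    · rw [swap_apply_left, hay]
  · have hn1 : y ≠ a y := fun h => (ha y).1 h.symm
    have hn2 : y' ≠ a y' := fun h => (ha y').1 h.symm
    have hn3 : y ≠ a y' := by
      intro h
      apply hay
      rw [h, (ha y').2]
    have hn4 : a y ≠ a y' := fun h => hyy (a.injective h).symm
    have hcomm : swap (a y) (a y') * swap y y' = swap y y' * swap (a y) (a y') := by
      rw [Equiv.mul_swap_eq_swap_mul, swap_apply_of_ne_of_ne hn1 hn3, swap_apply_of_ne_of_ne hay hn2]
    refine Sw_conj (σ := swap y y' * swap (a y) (a y')) ?_ ?_ ?_ ?_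
    · have e1 : a * swap y y' = swap (a y) (a y') * a := Equiv.mul_swap_eq_swap_mul _ _ _
      have e2 : a * swap (a y) (a y') = swap y y' * a := by
        rw [Equiv.mul_swap_eq_swap_mul, (ha y).2, (ha y').2]
      calc swap y y' * swap (a y) (a y') * a = swap (a y) (a y') * (swap y y' * a) := by rw [← hcomm, mul_assoc]
        _ = swap (a y) (a y') * (a * swap (a y) (a y')) := by rw [e2]
        _ = a * (swap y y' * swap (a y) (a y')) := by rw [← mul_assoc, ← e1, mul_assoc]
    · rw [mul_assoc, hsw h2 h2', ← mul_assoc, hsw h1 h1', mul_assoc]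
    · rw [Perm.mul_apply, swap_apply_of_ne_of_ne h4.symm h4'.symm, swap_apply_of_ne_of_ne h3.symm h3'.symm]
    · rw [Perm.mul_apply, swap_apply_of_ne_of_ne hn1 hn3, swap_apply_left]

theorem cnt_split (ha : IsPM a) (hβ : IsInv β) {y : Ω} (hy : β y ≠ y) (hay : β (a y) = a y) :
    ∃ (N : Finset Ω) (n : ℕ), N.card ≤ β.support.card ∧ n ≤ Fintype.card Ω ∧
      Fintype.card Ω ≤ n + 2 * β.support.card ∧
      (∀ y' ∈ N, y' ≠ β y ∧ rem β y y' = y') ∧
      cnt r a (rem β y) = n * cnt r a β + ∑ y' ∈ N, cnt r a (swap (β y) y' * rem β y) := by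
  classical
  have hβ' := rem_inv hβ y
  have hx' := rem_img hβ y
  have hy' := rem_self hβ y
  have hayx : a y ≠ β y := by
    intro h
    rw [h, hβ y] at hay
    exact hy hay.symm
  have hay' : rem β y (a y) = a y := by rw [rem_of_ne hβ (ha y).1 hayx, hay]
  have hcard := card_rem hβ hy
  set β' := rem β y with hβ'def
  set x := β y with hxdef
  let A : Finset Ω := Finset.univ.filter fun y' => (y' ≠ x ∧ β' y' = y') ∧ (β' (a y') = a y' ∧ a y' ≠ x)
  let N : Finset Ω := Finset.univ.filter fun y' => (y' ≠ x ∧ β' y' = y') ∧ ¬ (β' (a y') = a y' ∧ a y' ≠ x)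
  let S : Finset Ω := insert x β'.support
  have hS : S.card ≤ β'.support.card + 1 := Finset.card_insert_le _ _
  have hN : N.card ≤ S.card := by
    refine Finset.card_le_card_of_injOn a ?_ a.injective.injOn
    intro z hz
    obtain ⟨-, -, hz2⟩ := Finset.mem_filter.1 (Finset.mem_coe.1 hz)
    apply Finset.mem_coe.2
    by_cases h : a z = x
    · rw [h]; exact Finset.mem_insert_self _ _
    · apply Finset.mem_insert_of_mem
      rw [Perm.mem_support]
      intro h'
      exact hz2 ⟨h', h⟩
  refine ⟨N, A.card, by omega, Finset.card_le_univ _, ?_, ?_, ?_⟩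
  · have hcov : (Finset.univ : Finset Ω) ⊆ A ∪ (S ∪ S.image a) := by
      intro z _
      by_cases h1 : z = x
      · refine Finset.mem_union_right _ (Finset.mem_union_left _ ?_)
        rw [h1]; exact Finset.mem_insert_self _ _
      by_cases h2 : β' z = z
      · by_cases h3 : a z = x
        · refine Finset.mem_union_right _ (Finset.mem_union_right _ ?_)
          rw [Finset.mem_image]
          exact ⟨x, Finset.mem_insert_self _ _, by rw [← h3, (ha z).2]⟩
        by_cases h4 : β' (a z) = a z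
        · exact Finset.mem_union_left _ (Finset.mem_filter.2 ⟨Finset.mem_univ _, ⟨h1, h2⟩, h4, h3⟩)
        · refine Finset.mem_union_right _ (Finset.mem_union_right _ ?_)
          rw [Finset.mem_image]
          exact ⟨a z, Finset.mem_insert_of_mem (Perm.mem_support.2 h4), (ha z).2⟩
      · refine Finset.mem_union_right _ (Finset.mem_union_left _ ?_)
        exact Finset.mem_insert_of_mem (Perm.mem_support.2 h2)
    have h1 := Finset.card_le_card hcov
    rw [Finset.card_univ] at h1
    have h2 : (A ∪ (S ∪ S.image a)).card ≤ A.card + (S.card + S.card) :=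
      (Finset.card_union_le _ _).trans (Nat.add_le_add_left ((Finset.card_union_le _ _).trans
        (Nat.add_le_add_left Finset.card_image_le _)) _)
    omega
  · intro z hz
    obtain ⟨-, hz1, -⟩ := Finset.mem_filter.1 hz
    exact hz1
  · rw [cnt_sum hβ' hx', ← Finset.sum_filter_add_sum_filter_not _ (fun y' => β' (a y') = a y' ∧ a y' ≠ x),
      Finset.filter_filter, Finset.filter_filter]
    congr 1
    have hconst : ∀ z ∈ A, cnt r a (swap x z * β') = cnt r a β := by
      intro z hz
      obtain ⟨-, ⟨hz1, hz2⟩, hz3, hz4⟩ := Finset.mem_filter.1 hz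
      rw [← cnt_fresh ha hβ' hx' hy' hay' (fun h => hy h.symm) hayx hz2 hz3 hz1 hz4]
      rw [hβ'def, hxdef, swap_mul_rem]
    rw [Finset.sum_congr rfl hconst, Finset.sum_const, smul_eq_mul]

theorem cnt_step (ha : IsPM a) (hβ : IsInv β) {y : Ω} (hy : β y ≠ y) (hay : β (a y) = a y) :
    ((Fintype.card Ω : ℝ) - 2 * (β.support.card : ℝ)) * (cnt r a β : ℝ) ≤
      (cnt r a (rem β y) : ℝ) := by
  obtain ⟨N, n, h1, h2, h3, h4, h5⟩ := cnt_split (r := r) ha hβ hy hay
  have h6 : ((Fintype.card Ω : ℕ) : ℝ) ≤ (n : ℝ) + 2 * (β.support.card : ℝ) := by exact_mod_cast h3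
  have h7 : (n : ℝ) * (cnt r a β : ℝ) ≤ (cnt r a (rem β y) : ℝ) := by
    have : n * cnt r a β ≤ cnt r a (rem β y) := by rw [h5]; exact Nat.le_add_right _ _
    exact_mod_cast this
  calc ((Fintype.card Ω : ℝ) - 2 * (β.support.card : ℝ)) * (cnt r a β : ℝ) ≤ (n : ℝ) * (cnt r a β : ℝ) := by
        apply mul_le_mul_of_nonneg_right _ (Nat.cast_nonneg _)
        linarith
    _ ≤ _ := h7

end MPbcd198.L
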