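import Pool.Agent.Lib.MP_bcd198_co.L.Clo
import Pool.Agent.Lib.MP_bcd198_co.L.Sw

/-!
# JOB L/PrUp: upper bound of the conditional probabilities [2.3 (i), (ii)]

Let `s = |support β| ≤ w` (even). FIRST let `m ≥ 2w` and prove `pr ≤ m^(-s/2 + |clo|/(2r))` (constant `1`) by induction on `s`:
* `s = 0`: `pr ≤ 1 ≤ m^(|clo|/2r)`.
* If some `y` has `β y ≠ y`, `β (a y) = a y`: `cnt_step` gives `(2m - 2s) cnt β ≤ cnt (rem β y)` and `2m - 2s ≥ m`, so
  `pr β ≤ m⁻¹ pr (rem β y) ≤ m⁻¹ m^(-(s-2)/2 + |clo (rem β y)|/2r) ≤ m^(-s/2 + |clo β|/2r)` (`card_rem`, `clo_rem`).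
* Otherwise the support `W` of `β` is closed under `a`. If `cnt r a β = 0` we are done. If not, `W ⊆ clo r a β` by `le_clo_of_cnt`.
  Take `y ∈ W`. By `cnt_le`, `rem_le`: `pr β ≤ pr (rem β y) ≤ m^(-(s-2)/2 + |clo (rem β y)|/2r)`, and by `clo_rem_card`
  `|clo (rem β y)| ≤ |clo β| - 2r`, so the exponent is at most `-s/2 + 1 + |clo β|/2r - 1`.
For `1 ≤ m < 2w`: `pr ≤ 1`, and `m^(-s/2 + ...) ≥ m^(-w/2) ≥ (2w)^(-w/2)`: take `C = (2w + 1)^w`.
-/

set_option autoImplicit false

namespace MPbcd198.L

open Equiv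

private theorem PrUp_pr_mono {Ω : Type} [Finite Ω] {r : ℕ} {a β β' : Perm Ω}
    (h : ∀ x, β' x ≠ x → β x = β' x) : pr r a β ≤ pr r a β' := by
  unfold pr
  exact div_le_div_of_nonneg_right (by exact_mod_cast cnt_le h) (Nat.cast_nonneg _)

private theorem PrUp_main (r w : ℕ) (hr : 1 ≤ r) {Ω : Type} [Fintype Ω] [DecidableEq Ω] (m : ℕ)
    (hm : Fintype.card Ω = 2 * m) (hm1 : 1 ≤ m) (hm2 : 2 * w ≤ m) {a : Perm Ω} (ha : IsPM a)
    (n : ℕ) : ∀ β : Perm Ω, IsInv β → β.support.card = n → n ≤ w →
      pr r a β ≤ (m : ℝ) ^ (-(n : ℝ) / 2 + ((clo r a β).card : ℝ) / (2 * r)) := by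
  have hm1' : (1 : ℝ) ≤ m := by exact_mod_cast hm1
  have hm0 : (0 : ℝ) < m := by linarith
  have hr' : (0 : ℝ) < r := by exact_mod_cast hr
  induction n using Nat.strong_induction_on with
  | _ n ih =>
    intro β hβ hn hnw
    by_cases h0 : n = 0
    · refine (pr_le_one r a β).trans (Real.one_le_rpow hm1' ?_)
      rw [h0]
      have : (0 : ℝ) ≤ ((clo r a β).card : ℝ) / (2 * r) := by positivity
      simpa using this
    · by_cases hy : ∃ y, β y ≠ y ∧ β (a y) = a y
      · obtain ⟨y, hy1, hy2⟩ := hy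
        have h1 := cnt_step (r := r) ha hβ hy1 hy2
        have h2 := card_rem hβ hy1
        rw [hm, hn] at h1
        rw [hn] at h2
        have h3 : (m : ℝ) * (cnt r a β : ℝ) ≤ (cnt r a (rem β y) : ℝ) := by
          refine le_trans (mul_le_mul_of_nonneg_right ?_ (Nat.cast_nonneg _)) h1
          have h4 : (2 * w : ℝ) ≤ m := by exact_mod_cast hm2
          have h5 : (n : ℝ) ≤ w := by exact_mod_cast hnw
          push_cast
          linarith
        have h4 : (m : ℝ) * pr r a β ≤ pr r a (rem β y) := by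
          unfold pr
          rw [← mul_div_assoc]
          exact div_le_div_of_nonneg_right h3 (Nat.cast_nonneg _)
        have h5 := ih (n - 2) (by omega) (rem β y) (rem_inv hβ y) (by omega) (by omega)
        have h6 : ((n - 2 : ℕ) : ℝ) = n - 2 := by
          rw [Nat.cast_sub (by omega)]
          norm_num
        rw [h6] at h5
        have h7 : pr r a β ≤ (m : ℝ)⁻¹ * pr r a (rem β y) := by
          rw [inv_mul_eq_div, le_div_iff₀ hm0, mul_comm]
          exact h4
        have h8 : ((clo r a (rem β y)).card : ℝ) / (2 * r) ≤ ((clo r a β).card : ℝ) / (2 * r) := by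
          refine div_le_div_of_nonneg_right ?_ (by positivity)
          exact_mod_cast Finset.card_le_card (clo_rem (IsPM.isInv ha) hβ y)
        refine h7.trans ((mul_le_mul_of_nonneg_left h5 (by positivity)).trans ?_)
        rw [← Real.rpow_neg_one, ← Real.rpow_add hm0]
        refine Real.rpow_le_rpow_of_exponent_le hm1' ?_
        linarith
      · push Not at hy
        by_cases hc : cnt r a β = 0
        · have h1 : pr r a β = 0 := by
            unfold pr
            rw [hc]
            simp
          rw [h1]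
          positivity
        · have h1 : β.support ⊆ clo r a β := by
            refine le_clo_of_cnt ha hβ hc (fun x hx => ?_) (fun x hx => ?_)
            · rw [Perm.mem_support] at hx ⊢
              exact hy x hx
            · rw [Perm.mem_support] at hx ⊢
              refine ⟨?_, hx⟩
              rw [hβ x]
              exact hx.symm
          have h2 : β.support.Nonempty := by
            rw [← Finset.card_pos, hn]
            omega
          obtain ⟨y, hy1⟩ := h2
          have hy2 := h1 hy1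
          rw [Perm.mem_support] at hy1
          have h3 := card_rem hβ hy1
          rw [hn] at h3
          have h4 := ih (n - 2) (by omega) (rem β y) (rem_inv hβ y) (by omega) (by omega)
          have h6 : ((n - 2 : ℕ) : ℝ) = n - 2 := by
            rw [Nat.cast_sub (by omega)]
            norm_num
          rw [h6] at h4
          have h5 := clo_rem_card hr (IsPM.isInv ha) hβ hy2
          have h7 : ((clo r a (rem β y)).card : ℝ) / (2 * r) + 1 ≤
              ((clo r a β).card : ℝ) / (2 * r) := by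
            have h8 : ((clo r a (rem β y)).card : ℝ) + 2 * r ≤ ((clo r a β).card : ℝ) := by
              exact_mod_cast h5
            rw [div_add_one (by positivity)]
            exact div_le_div_of_nonneg_right h8 (by positivity)
          refine (PrUp_pr_mono (rem_le hβ y)).trans (h4.trans ?_)
          refine Real.rpow_le_rpow_of_exponent_le hm1' ?_
          linarith

theorem pr_le (r w : ℕ) (hr : 1 ≤ r) : ∃ C : ℝ, 0 < C ∧
    ∀ (Ω : Type) [Fintype Ω] [DecidableEq Ω] (m : ℕ), Fintype.card Ω = 2 * m → 1 ≤ m →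
      ∀ a β : Perm Ω, IsPM a → IsInv β → β.support.card ≤ w →
        pr r a β ≤ C * (m : ℝ) ^ (-(β.support.card : ℝ) / 2 +
          ((clo r a β).card : ℝ) / (2 * r)) := by
  refine ⟨(2 * (w : ℝ) + 1) ^ w, by positivity, ?_⟩
  intro Ω _ _ m hm hm1 a β ha hβ hs
  have hm1' : (1 : ℝ) ≤ m := by exact_mod_cast hm1
  have hm0 : (0 : ℝ) < m := by linarith
  have hw0 : (0 : ℝ) ≤ w := Nat.cast_nonneg _
  by_cases hmw : 2 * w ≤ m
  · refine (PrUp_main r w hr m hm hm1 hmw ha _ β hβ rfl hs).trans ?_
    refine le_mul_of_one_le_left (by positivity) ?_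
    exact one_le_pow₀ (by linarith)
  · refine (pr_le_one r a β).trans ?_
    have h1 : (m : ℝ) ^ (-(w : ℝ)) ≤ (m : ℝ) ^ (-(β.support.card : ℝ) / 2 +
        ((clo r a β).card : ℝ) / (2 * r)) := by
      refine Real.rpow_le_rpow_of_exponent_le hm1' ?_
      have h2 : (β.support.card : ℝ) ≤ w := by exact_mod_cast hs
      have h3 : (0 : ℝ) ≤ ((clo r a β).card : ℝ) / (2 * r) := by positivity
      linarith
    have h2 : (m : ℝ) ≤ 2 * w + 1 := by
      have h3 : m ≤ 2 * w + 1 := by omega
      exact_mod_cast h3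
    refine le_trans ?_ (mul_le_mul_of_nonneg_left h1 (by positivity))
    rw [Real.rpow_neg hm0.le, Real.rpow_natCast, ← div_eq_mul_inv, one_le_div (by positivity)]
    exact pow_le_pow_left₀ hm0.le h2 w

end MPbcd198.L
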