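import Pool.Agent.Lib.MP_bcd198_co.IfH

/-!
# MP_bcd198_co: the ratio of Theorem Q (definition only)
-/

set_option autoImplicit false

namespace MPbcd198

open Equiv

/-- `Ncomp(Z) / (s_p(G+z) s_q(z) s_2(G₂+z) M_z / M_{G+z})` for `Z = Fin (2z)`, `|P₁ ⊕ P₂| = 2G`,
`|P₂| = 2 G₂` -/
noncomputable def Qratio (p q : ℕ) {P₁ P₂ : Type} [Fintype P₁] [Fintype P₂] (a : Perm P₁)
    (b : Perm (P₁ ⊕ P₂)) (c : Perm P₂) (z : ℕ) : ℝ :=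
  (Ncomp p q a b c (Fin (2 * z)) : ℝ) * MNum (Fintype.card (P₁ ⊕ P₂) / 2 + z) /
    (sNum p (Fintype.card (P₁ ⊕ P₂) / 2 + z) * sNum q z *
      sNum 2 (Fintype.card P₂ / 2 + z) * MNum z)

end MPbcd198
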