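import Pool.Agent.Lib.MP_bcd198_co.L.Base

/-!
# JOB L/RelB: elementary facts on `Rel`, `cnt`, `pr`, `rem`, and `K_r f_β`

All proofs are one or a few lines.
* `minimalPeriod_congr_on`: the iterates agree on `S` (`Function.IsPeriodicPt`, `Function.minimalPeriod_eq_minimalPeriod_iff`).
* `rel_symm`: `b * a = (a * b)⁻¹` for involutions, and `f`, `f⁻¹` have the same periodic points.
* `rel_conj`: the iterates of a conjugate are the conjugates of the iterates.
* `cnt_conj`: bijection `b ↦ σ b σ⁻¹` (`Nat.card_congr`).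
* `cnt_le`: inclusion (`Nat.card_le_card_of_injective`, finite type).
* `KOp_fB`: unfold `KOp`, `fB`, `pr`, `cnt`: the sum of the indicator over the filter is the number of `b` in the subtype
  (`Fintype.card_subtype`, `Nat.card_eq_fintype_card`; `PMT Ω` is itself a subtype of `Perm Ω`).
* `rem β y = swap y (β y) * β`: if `β y = y` it is `β`. Otherwise it fixes `y` and `β y` and agrees with `β` elsewhere; its support is the support of
  `β` without `y`, `β y`.
-/

set_option autoImplicit false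

namespace MPbcd198.L

open Equiv

section

variable {Ω : Type}

private theorem RelB_ia (σ : Perm Ω) (x : Ω) : σ⁻¹ (σ x) = x := by simp

private theorem RelB_ai (σ : Perm Ω) (x : Ω) : σ (σ⁻¹ x) = x := by simp

theorem minimalPeriod_congr_on {f g : Ω → Ω} {S : Set Ω} (hS : ∀ x ∈ S, f x ∈ S)
    (h : ∀ x ∈ S, f x = g x) {x : Ω} (hx : x ∈ S) :
    Function.minimalPeriod f x = Function.minimalPeriod g x := by
  have h1 : ∀ n, f^[n] x ∈ S ∧ f^[n] x = g^[n] x := by
    intro n
    induction n with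
    | zero => exact ⟨hx, rfl⟩
    | succ n ih =>
      rw [Function.iterate_succ_apply', Function.iterate_succ_apply', ← ih.2]
      exact ⟨hS _ ih.1, h _ ih.1⟩
  apply Function.minimalPeriod_eq_minimalPeriod_iff.2
  intro n
  unfold Function.IsPeriodicPt Function.IsFixedPt
  rw [(h1 n).2]

theorem isPM_conj (σ : Perm Ω) {a : Perm Ω} (ha : IsPM a) : IsPM (σ * a * σ⁻¹) :=
  (conjPM σ ⟨a, ha⟩).2

theorem isInv_conj (σ : Perm Ω) {a : Perm Ω} (ha : IsInv a) : IsInv (σ * a * σ⁻¹) := by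
  intro x
  rw [Perm.mul_apply, Perm.mul_apply, Perm.mul_apply, Perm.mul_apply, RelB_ia, ha,
    RelB_ai]

theorem isInv_one : IsInv (1 : Perm Ω) := fun _ => rfl

theorem IsPM.isInv {a : Perm Ω} (ha : IsPM a) : IsInv a := fun x => (ha x).2

private theorem RelB_inv_eq {a : Perm Ω} (ha : IsInv a) : a⁻¹ = a := by
  rw [inv_eq_iff_mul_eq_one]
  ext x
  exact ha x

private theorem RelB_period_inv (c : Perm Ω) (x : Ω) :
    Function.minimalPeriod (⇑(c⁻¹)) x = Function.minimalPeriod (⇑c) x := by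
  apply Function.minimalPeriod_eq_minimalPeriod_iff.2
  intro n
  unfold Function.IsPeriodicPt Function.IsFixedPt
  rw [Perm.iterate_eq_pow, Perm.iterate_eq_pow, inv_pow, Perm.inv_eq_iff_eq]
  exact eq_comm

theorem rel_symm {r : ℕ} {a b : Perm Ω} (ha : IsPM a) (hb : IsPM b) (h : Rel r a b) :
    Rel r b a := by
  intro x
  have h1 : b * a = (a * b)⁻¹ := by
    rw [mul_inv_rev, RelB_inv_eq (IsPM.isInv ha), RelB_inv_eq (IsPM.isInv hb)]
  rw [h1, RelB_period_inv]
  exact h x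

private theorem RelB_period_conj (σ c : Perm Ω) (x : Ω) :
    Function.minimalPeriod (⇑(σ * c * σ⁻¹)) x = Function.minimalPeriod (⇑c) (σ⁻¹ x) := by
  apply Function.minimalPeriod_eq_minimalPeriod_iff.2
  intro n
  unfold Function.IsPeriodicPt Function.IsFixedPt
  rw [Perm.iterate_eq_pow, Perm.iterate_eq_pow, conj_pow, Perm.mul_apply, Perm.mul_apply]
  constructor
  · intro h
    rw [Perm.eq_inv_iff_eq]
    exact h
  · intro h
    rw [h, RelB_ai]

theorem rel_conj {r : ℕ} {a b : Perm Ω} (σ : Perm Ω) :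
    Rel r (σ * a * σ⁻¹) (σ * b * σ⁻¹) ↔ Rel r a b := by
  have h1 : (σ * a * σ⁻¹) * (σ * b * σ⁻¹) = σ * (a * b) * σ⁻¹ := by group
  unfold Rel
  rw [h1]
  constructor
  · intro h x
    have h2 := h (σ x)
    rw [RelB_period_conj, RelB_ia] at h2
    exact h2
  · intro h x
    rw [RelB_period_conj]
    exact h _

private theorem RelB_conj_ext {β b : Perm Ω} (σ : Perm Ω) (h : ∀ x, β x ≠ x → b x = β x) :
    ∀ x, (σ * β * σ⁻¹) x ≠ x → (σ * b * σ⁻¹) x = (σ * β * σ⁻¹) x := by
  intro x hx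
  rw [Perm.mul_apply, Perm.mul_apply] at hx ⊢
  rw [Perm.mul_apply, Perm.mul_apply, h]
  intro h1
  rw [h1, RelB_ai] at hx
  exact hx rfl

theorem cnt_conj {r : ℕ} {a β : Perm Ω} (σ : Perm Ω) :
    cnt r (σ * a * σ⁻¹) (σ * β * σ⁻¹) = cnt r a β := by
  unfold cnt
  refine Nat.card_congr (Equiv.subtypeEquiv (MulAut.conj σ).toEquiv (fun b => ?_)).symm
  have hb : (MulAut.conj σ).toEquiv b = σ * b * σ⁻¹ := rfl
  rw [hb]
  constructor
  · rintro ⟨h1, h2, h3⟩
    exact ⟨isPM_conj σ h1, (rel_conj σ).2 h2, RelB_conj_ext σ h3⟩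
  · rintro ⟨h1, h2, h3⟩
    have h4 := isPM_conj σ⁻¹ h1
    have h5 := RelB_conj_ext σ⁻¹ h3
    have h6 : ∀ c : Perm Ω, σ⁻¹ * (σ * c * σ⁻¹) * σ⁻¹⁻¹ = c := fun c => by group
    rw [h6] at h4 h5
    rw [h6] at h5
    exact ⟨h4, (rel_conj σ).1 h2, h5⟩

theorem pr_conj {r : ℕ} {a β : Perm Ω} (σ : Perm Ω) :
    pr r (σ * a * σ⁻¹) (σ * β * σ⁻¹) = pr r a β := by
  have h1 : cnt r (σ * a * σ⁻¹) 1 = cnt r a 1 := by
    rw [← cnt_conj (r := r) (a := a) (β := 1) σ, mul_one, mul_inv_cancel]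
  unfold pr
  rw [cnt_conj, h1]

/-- if `β` contains `β'` then `cnt β ≤ cnt β'` -/
theorem cnt_le [Finite Ω] {r : ℕ} {a β β' : Perm Ω} (h : ∀ x, β' x ≠ x → β x = β' x) :
    cnt r a β ≤ cnt r a β' := by
  unfold cnt
  refine Nat.card_le_card_of_injective
    (fun b : {b : Perm Ω // IsPM b ∧ Rel r a b ∧ ∀ x, β x ≠ x → b x = β x} =>
      (⟨b.1, b.2.1, b.2.2.1, fun x hx => ?_⟩ :
        {b : Perm Ω // IsPM b ∧ Rel r a b ∧ ∀ x, β' x ≠ x → b x = β' x})) ?_
  · have h1 := h x hx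
    rw [← h1]
    apply b.2.2.2
    rw [h1]
    exact hx
  · intro b b' hbb
    exact Subtype.ext (Subtype.mk.inj hbb)

theorem cnt_one (r : ℕ) (a : Perm Ω) :
    cnt r a 1 = Nat.card {b : Perm Ω // IsPM b ∧ Rel r a b} := by
  unfold cnt
  refine Nat.card_congr (Equiv.subtypeEquivRight fun b => ?_)
  exact ⟨fun h => ⟨h.1, h.2.1⟩, fun h => ⟨h.1, h.2, fun x hx => absurd rfl hx⟩⟩

theorem pr_nonneg (r : ℕ) (a β : Perm Ω) : 0 ≤ pr r a β := by
  unfold pr
  positivity

theorem pr_le_one [Finite Ω] (r : ℕ) (a β : Perm Ω) : pr r a β ≤ 1 := by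
  unfold pr
  refine div_le_one_of_le₀ ?_ (Nat.cast_nonneg _)
  exact_mod_cast cnt_le (fun x hx => absurd rfl hx)

/-- the partial matching `β` contains `b` on its support: if `cnt ≠ 0` there is such a `b` -/
theorem exists_of_cnt {r : ℕ} {a β : Perm Ω} (h : cnt r a β ≠ 0) :
    ∃ b : Perm Ω, IsPM b ∧ Rel r a b ∧ ∀ x, β x ≠ x → b x = β x := by
  obtain ⟨⟨b, hb⟩⟩ := (Nat.card_ne_zero.1 h).1
  exact ⟨b, hb⟩

private theorem RelB_card (Q : Perm Ω → Prop) (instF : Fintype (PMT Ω))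
    (inst : DecidablePred fun b : PMT Ω => Q b.1) :
    Nat.card {b : Perm Ω // IsPM b ∧ Q b} =
      (Finset.univ.filter fun b : PMT Ω => Q b.1).card := by
  rw [Nat.card_congr (Equiv.subtypeSubtypeEquivSubtypeInter IsPM Q).symm]
  rw [Nat.subtype_card]
  intro b
  rw [Finset.mem_filter]
  exact ⟨fun h => h.2, fun h => ⟨Finset.mem_univ _, h⟩⟩

private theorem RelB_sum {α : Type*} (s : Finset α) (P : α → Prop)
    (inst inst' : DecidablePred P) :
    ∑ b ∈ s, (@ite ℂ (P b) (inst b) 1 0) = ((@Finset.filter _ P inst' s).card : ℂ) := by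
  rw [Finset.card_filter]
  push_cast
  refine Finset.sum_congr rfl fun b _ => ?_
  by_cases h : P b
  · rw [if_pos h, if_pos h]
  · rw [if_neg h, if_neg h]

theorem KOp_fB [Fintype Ω] [DecidableEq Ω] (r : ℕ) (β : Perm Ω) (a : PMT Ω) :
    KOp Ω r (fB β) a = ((pr r a.1 β : ℝ) : ℂ) := by
  classical
  have h1 : cnt r a.1 1 = (Finset.univ.filter fun b : PMT Ω => Rel r a.1 b.1).card := by
    rw [cnt_one]
    exact RelB_card (fun b => Rel r a.1 b) _ _
  have h2 : cnt r a.1 β = (Finset.univ.filter fun b : PMT Ω =>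
      Rel r a.1 b.1 ∧ ∀ x, β x ≠ x → b.1 x = β x).card := by
    unfold cnt
    exact RelB_card (fun b => Rel r a.1 b ∧ ∀ x, β x ≠ x → b x = β x) _ _
  have h3 : ∑ b ∈ Finset.univ.filter (fun b : PMT Ω => Rel r a.1 b.1), fB β b =
      (cnt r a.1 β : ℂ) := by
    rw [h2, ← Finset.filter_filter]
    exact RelB_sum _ (fun b : PMT Ω => ∀ x, β x ≠ x → b.1 x = β x) _ _
  have h4 : KOp Ω r (fB β) a = (((Finset.univ.filter fun b : PMT Ω => Rel r a.1 b.1).card : ℕ) : ℂ)⁻¹ *
      ∑ b ∈ Finset.univ.filter (fun b : PMT Ω => Rel r a.1 b.1), fB β b := rfl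
  rw [h4, h3, ← h1]
  unfold pr
  push_cast
  rw [div_eq_inv_mul]

theorem fB_one : (fB (1 : Perm Ω)) = fun _ => 1 := by
  funext a
  unfold fB
  rw [if_pos]
  intro x hx
  exact absurd rfl hx

end

section Rem

variable {Ω : Type} [DecidableEq Ω]

theorem rem_self {β : Perm Ω} (hβ : IsInv β) (y : Ω) : rem β y y = y := by
  unfold rem
  rw [Perm.mul_apply, swap_apply_right]

theorem rem_img {β : Perm Ω} (hβ : IsInv β) (y : Ω) : rem β y (β y) = β y := by
  unfold rem
  rw [Perm.mul_apply, hβ y, swap_apply_left]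

theorem rem_of_ne {β : Perm Ω} (hβ : IsInv β) {y x : Ω} (h1 : x ≠ y) (h2 : x ≠ β y) :
    rem β y x = β x := by
  unfold rem
  rw [Perm.mul_apply, swap_apply_of_ne_of_ne]
  · intro h
    apply h2
    rw [← h, hβ x]
  · intro h
    exact h1 (β.injective h)

theorem rem_inv {β : Perm Ω} (hβ : IsInv β) (y : Ω) : IsInv (rem β y) := by
  intro x
  by_cases h1 : x = y
  · rw [h1, rem_self hβ, rem_self hβ]
  · by_cases h2 : x = β y
    · rw [h2, rem_img hβ, rem_img hβ]
    · rw [rem_of_ne hβ h1 h2, rem_of_ne hβ, hβ x]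
      · intro h
        apply h2
        rw [← h, hβ x]
      · intro h
        exact h1 (β.injective h)

theorem rem_le {β : Perm Ω} (hβ : IsInv β) (y : Ω) : ∀ x, rem β y x ≠ x → β x = rem β y x := by
  intro x hx
  by_cases h1 : x = y
  · rw [h1, rem_self hβ] at hx
    exact absurd rfl hx
  · by_cases h2 : x = β y
    · rw [h2, rem_img hβ] at hx
      exact absurd rfl hx
    · rw [rem_of_ne hβ h1 h2]

theorem swap_mul_rem (β : Perm Ω) (y : Ω) : swap (β y) y * rem β y = β := by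
  unfold rem
  rw [← mul_assoc, swap_comm (β y) y, swap_mul_self, one_mul]

private theorem RelB_card_swap [Fintype Ω] {β : Perm Ω} {x y : Ω} (hx : β x = x) (hy : β y = y)
    (hxy : x ≠ y) : (swap x y * β).support.card = β.support.card + 2 := by
  have h1 : Perm.Disjoint (swap x y) β := by
    intro z
    by_cases h1 : z = x
    · rw [h1]
      exact Or.inr hx
    · by_cases h2 : z = y
      · rw [h2]
        exact Or.inr hy
      · exact Or.inl (swap_apply_of_ne_of_ne h1 h2)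
  rw [h1.card_support_mul, Perm.card_support_swap hxy, add_comm]

theorem card_rem [Fintype Ω] {β : Perm Ω} (hβ : IsInv β) {y : Ω} (hy : β y ≠ y) :
    (rem β y).support.card + 2 = β.support.card := by
  have h1 := RelB_card_swap (rem_img hβ y) (rem_self hβ y) hy
  rw [swap_mul_rem] at h1
  exact h1.symm

/-- adding the edge `{x, y}` to `β` -/
theorem swap_mul_inv {β : Perm Ω} (hβ : IsInv β) {x y : Ω} (hx : β x = x) (hy : β y = y) :
    IsInv (swap x y * β) := by
  intro z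
  by_cases h1 : z = x
  · rw [h1, Perm.mul_apply, Perm.mul_apply, hx, swap_apply_left, hy, swap_apply_right]
  · by_cases h2 : z = y
    · rw [h2, Perm.mul_apply, Perm.mul_apply, hy, swap_apply_right, hx, swap_apply_left]
    · have h3 : β z ≠ x := fun h => h1 (by rw [← hβ z, h, hx])
      have h4 : β z ≠ y := fun h => h2 (by rw [← hβ z, h, hy])
      rw [Perm.mul_apply, Perm.mul_apply, swap_apply_of_ne_of_ne h3 h4, hβ z,
        swap_apply_of_ne_of_ne h1 h2]

theorem card_swap_mul [Fintype Ω] {β : Perm Ω} {x y : Ω} (hx : β x = x) (hy : β y = y)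
    (hxy : x ≠ y) : (swap x y * β).support.card = β.support.card + 2 :=
  RelB_card_swap hx hy hxy

end Rem

end MPbcd198.L
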