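import Pool.Agent.Lib.MP_bcd198_co.L.RelB
import Pool.Agent.Lib.MP_bcd198_co.H.Proj

/-!
# JOB L/Schur: projections to the irreducible subspaces, Schur's lemma

`ipF` is a positive definite hermitian form (conjugate linear in the first argument), `ipF (actF σ f) (actF σ g) = ipF f g`, `actF` is an action.
`irr_decomp` gives: `Irr Ω` is finite, its members are pairwise orthogonal, their sum is `⊤`, and for invariant `W`: `V ≤ W` or `V ⟂ W`.
* `exists_proj`: every `f` is a sum `∑_{V ∈ irrF} f_V`, `f_V ∈ V` (`Submodule.mem_iSup_finset_iff_exists_sum` or similar), and the decomposition is unique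
  (orthogonality, `ipF v v = 0 → v = 0`); so `f ↦ f_V` is linear: `P V` (define `P V = 0` for `V ∉ Irr`; one can also use
  `DirectSum.IsInternal` / `iSupIndep`). It commutes with `actF σ` because `actF σ` preserves every `V`.
* `equivar_pres`: `T` equivariant, `V ≠ V'` irreducible: `S = P V' ∘ T` maps `V` to `V'`. `W = {f + S f : f ∈ V}` is an invariant subspace. By the last part of
  `irr_decomp`: if `V ≤ W`, then every `f ∈ V` is `g + S g`, `g ∈ V`, so `S g = f - g ∈ V ∩ V' = 0`, `f = g`, `S f = 0`. If `V ⟂ W` then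
  `0 = ipF f (f + S f) = ipF f f` for `f ∈ V`: `V = 0`, impossible. So `S = 0` on `V` for all `V' ≠ V`, hence `T f ∈ V`.
* `equivar_scalar`: `T` maps `V` into `V`, `V ≠ 0` is finite dimensional over `ℂ`: there is an eigenvalue `t` (`Module.End.exists_eigenvalue`); the eigenspace in `V`
  is a nonzero invariant subspace of `V`, so it is `V`.
* `ip_equivar`: `f ∈ V`, `g = ∑ g_{V'}`: `ipF f (T g) = ∑ ipF f (T g_{V'}) = ipF f (T g_V) = t ipF f g_V = t ipF f g`.
-/

set_option autoImplicit false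

namespace MPbcd198.L

open Equiv

section

variable {Ω : Type}

theorem actF_mul (σ τ : Perm Ω) (f : FPM Ω) : actF (σ * τ) f = actF σ (actF τ f) :=
  H.actF_mul σ τ f

theorem actF_one (f : FPM Ω) : actF 1 f = f :=
  H.actF_one f

variable [Fintype Ω] [DecidableEq Ω]

theorem ipF_add (f g h : FPM Ω) : ipF f (g + h) = ipF f g + ipF f h :=
  H.ipF_add_right f g h

theorem ipF_smul (f g : FPM Ω) (c : ℂ) : ipF f (c • g) = c * ipF f g :=
  H.ipF_smul_right c f g

theorem ipF_conj (f g : FPM Ω) : ipF g f = (starRingEnd ℂ) (ipF f g) :=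
  (H.ipF_conj f g).symm

theorem ipF_self (f : FPM Ω) : ipF f f = ((nrm2 f : ℝ) : ℂ) :=
  H.ipF_self f

theorem nrm2_nonneg (f : FPM Ω) : 0 ≤ nrm2 f := by
  unfold nrm2
  exact Finset.sum_nonneg fun a _ => by positivity

theorem nrm2_eq_zero {f : FPM Ω} (h : nrm2 f = 0) : f = 0 := by
  rw [← H.ipF_self_eq_zero, ipF_self, h, Complex.ofReal_zero]

theorem nrm2_smul (c : ℂ) (f : FPM Ω) : nrm2 (c • f) = ‖c‖ ^ 2 * nrm2 f := by
  unfold nrm2
  rw [Finset.mul_sum]
  refine Finset.sum_congr rfl fun a _ => ?_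
  rw [Pi.smul_apply, norm_smul, mul_pow]

theorem nrm2_actF (σ : Perm Ω) (f : FPM Ω) : nrm2 (actF σ f) = nrm2 f := by
  have h := H.ipF_actF σ f f
  rw [ipF_self, ipF_self] at h
  exact_mod_cast h

/-- orthogonality of different irreducible subspaces -/
private theorem Schur_orth {V W : Submodule ℂ (FPM Ω)} (hV : V ∈ Irr Ω) (hW : W ∈ Irr Ω) (hne : V ≠ W)
    {f g : FPM Ω} (hf : f ∈ V) (hg : g ∈ W) : ipF f g = 0 :=
  (irr_decomp Ω).2.1 V hV W hW hne f hf g hg

/-- a vector orthogonal to all irreducible subspaces is zero -/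
private theorem Schur_zero {d : FPM Ω} (h : ∀ V ∈ Irr Ω, ∀ g ∈ V, ipF g d = 0) : d = 0 := by
  let K : Submodule ℂ (FPM Ω) :=
    { carrier := {x | ipF x d = 0}
      add_mem' := fun {a b} ha hb => by
        change ipF (a + b) d = 0
        rw [H.ipF_add_left, show ipF a d = 0 from ha, show ipF b d = 0 from hb, add_zero]
      zero_mem' := H.ipF_zero_left d
      smul_mem' := fun c x hx => by
        change ipF (c • x) d = 0
        rw [H.ipF_smul_left, show ipF x d = 0 from hx, mul_zero] }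
  have h1 : (⨆ V ∈ Irr Ω, V) ≤ K := iSup₂_le fun V hV g hg => h V hV g hg
  rw [(irr_decomp Ω).2.2.1] at h1
  have h2 : d ∈ K := h1 Submodule.mem_top
  exact H.ipF_self_eq_zero.mp h2

/-- the components of a vector -/
private theorem Schur_sum (f : FPM Ω) : ∑ V ∈ irrF Ω, H.pr V f = f := by
  have h1 : f - ∑ V ∈ irrF Ω, H.pr V f = 0 := by
    refine Schur_zero fun W hW g hg => ?_
    rw [H.ipF_sub_right, H.ipF_sum_right, Finset.sum_eq_single W]
    · rw [← H.pr_symm, H.pr_of_mem hg, sub_self]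
    · intro V hV hne
      exact Schur_orth hW (mem_irrF.mp hV) hne.symm hg (H.pr_mem V f)
    · intro h
      exact absurd (mem_irrF.mpr hW) h
  exact (sub_eq_zero.mp h1).symm

private theorem Schur_pr_zero {V W : Submodule ℂ (FPM Ω)} (hV : V ∈ Irr Ω) (hW : W ∈ Irr Ω) (hne : V ≠ W)
    {f : FPM Ω} (hf : f ∈ W) : H.pr V f = 0 := by
  rw [H.pr_eq_zero_iff]
  intro g hg
  exact Schur_orth hV hW hne hg hf

theorem exists_proj (Ω : Type) [Fintype Ω] [DecidableEq Ω] :
    ∃ P : Submodule ℂ (FPM Ω) → (FPM Ω →ₗ[ℂ] FPM Ω),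
      (∀ V ∈ Irr Ω, ∀ f, P V f ∈ V) ∧ (∀ V ∈ Irr Ω, ∀ f ∈ V, P V f = f) ∧
      (∀ V ∈ Irr Ω, ∀ W ∈ Irr Ω, V ≠ W → ∀ f ∈ W, P V f = 0) ∧
      (∀ f, ∑ V ∈ irrF Ω, P V f = f) ∧
      (∀ V ∈ Irr Ω, ∀ σ f, P V (actF σ f) = actF σ (P V f)) :=
  ⟨fun V => H.pr V, fun V _ f => H.pr_mem V f, fun _ _ _ hf => H.pr_of_mem hf,
    fun _ hV _ hW hne _ hf => Schur_pr_zero hV hW hne hf, Schur_sum,
    fun _ hV σ f => H.pr_act hV.2.1 σ f⟩

theorem equivar_pres {T : FPM Ω →ₗ[ℂ] FPM Ω} (hT : ∀ σ f, T (actF σ f) = actF σ (T f))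
    {V : Submodule ℂ (FPM Ω)} (hV : V ∈ Irr Ω) : ∀ f ∈ V, T f ∈ V := by
  have key : ∀ V' ∈ Irr Ω, V' ≠ V → ∀ f ∈ V, H.pr V' (T f) = 0 := by
    intro V' hV' hne
    set S : FPM Ω →ₗ[ℂ] FPM Ω := H.pr V' ∘ₗ T with hS
    have hSmem : ∀ f, S f ∈ V' := fun f => H.pr_mem V' _
    have hSeq : ∀ σ f, S (actF σ f) = actF σ (S f) := by
      intro σ f
      rw [hS, LinearMap.comp_apply, LinearMap.comp_apply, hT, H.pr_act hV'.2.1]
    have hW : Inv (V.map (LinearMap.id + S)) := by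
      rintro σ _ ⟨g, hg, rfl⟩
      refine ⟨actF σ g, hV.2.1 σ g hg, ?_⟩
      simp only [LinearMap.add_apply, LinearMap.id_apply, map_add, hSeq]
    rcases (irr_decomp Ω).2.2.2 V hV _ hW with h | h
    · intro f hf
      obtain ⟨g, hg, hgf⟩ := h hf
      simp only [LinearMap.add_apply, LinearMap.id_apply] at hgf
      have h1 : S g ∈ V := by
        have h2 : S g = f - g := by rw [← hgf]; abel
        rw [h2]
        exact V.sub_mem hf hg
      have h3 : S g = 0 := H.ipF_self_eq_zero.mp (Schur_orth hV hV' hne.symm h1 (hSmem g))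
      have h4 : g = f := by rw [← hgf, h3, add_zero]
      rw [← h4]
      exact h3
    · intro f hf
      have h1 := h f hf (f + S f) ⟨f, hf, by simp⟩
      rw [ipF_add, Schur_orth hV hV' hne.symm hf (hSmem f), add_zero] at h1
      have h2 : f = 0 := H.ipF_self_eq_zero.mp h1
      change S f = 0
      rw [h2, map_zero]
  intro f hf
  have h1 := Schur_sum (T f)
  rw [Finset.sum_eq_single V (fun V' hV' hne => key V' (mem_irrF.mp hV') hne f hf)
    (fun h => absurd (mem_irrF.mpr hV) h)] at h1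
  rw [← h1]
  exact H.pr_mem V _

theorem equivar_scalar {T : FPM Ω →ₗ[ℂ] FPM Ω} (hT : ∀ σ f, T (actF σ f) = actF σ (T f))
    {V : Submodule ℂ (FPM Ω)} (hV : V ∈ Irr Ω) : ∃ t : ℂ, ∀ f ∈ V, T f = t • f := by
  classical
  have hmaps := equivar_pres hT hV
  obtain ⟨hne, hinv, hmin⟩ := hV
  have : Nontrivial V := Submodule.nontrivial_iff_ne_bot.mpr hne
  obtain ⟨ω, hω⟩ := Module.End.exists_eigenvalue (T.restrict hmaps)
  obtain ⟨v, hv⟩ := hω.exists_hasEigenvector
  have hv1 : T (v : FPM Ω) = ω • (v : FPM Ω) := by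
    have h2 := congrArg (fun z : V => (z : FPM Ω)) hv.apply_eq_smul
    simpa only [LinearMap.coe_restrict_apply, Submodule.coe_smul] using h2
  have hv0 : (v : FPM Ω) ≠ 0 := by
    intro h0
    exact hv.2 (Subtype.ext h0)
  refine ⟨ω, ?_⟩
  let W : Submodule ℂ (FPM Ω) := V ⊓ LinearMap.ker (T - ω • LinearMap.id)
  have hW : ∀ f, f ∈ W ↔ f ∈ V ∧ T f = ω • f := by
    intro f
    simp only [W, Submodule.mem_inf, LinearMap.mem_ker, LinearMap.sub_apply, LinearMap.smul_apply,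
      LinearMap.id_apply, sub_eq_zero]
  have hWinv : Inv W := by
    intro σ f hf
    rw [hW] at hf ⊢
    exact ⟨hinv σ f hf.1, by rw [hT, hf.2, map_smul]⟩
  rcases hmin W inf_le_left hWinv with h | h
  · exfalso
    have hvW : (v : FPM Ω) ∈ W := (hW _).mpr ⟨v.2, hv1⟩
    rw [h, Submodule.mem_bot] at hvW
    exact hv0 hvW
  · intro f hf
    rw [← h] at hf
    exact ((hW f).mp hf).2

theorem ip_equivar {T : FPM Ω →ₗ[ℂ] FPM Ω} (hT : ∀ σ f, T (actF σ f) = actF σ (T f))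
    {V : Submodule ℂ (FPM Ω)} (hV : V ∈ Irr Ω) {t : ℂ} (ht : ∀ f ∈ V, T f = t • f) :
    ∀ f ∈ V, ∀ g, ipF f (T g) = t * ipF f g := by
  intro f hf g
  have h1 : T g = ∑ V' ∈ irrF Ω, T (H.pr V' g) := by
    rw [← map_sum, Schur_sum]
  rw [h1, H.ipF_sum_right, Finset.sum_eq_single V]
  · rw [ht _ (H.pr_mem V g), ipF_smul, ← H.pr_symm, H.pr_of_mem hf]
  · intro V' hV' hne
    exact Schur_orth hV (mem_irrF.mp hV') hne.symm hf
      (equivar_pres hT (mem_irrF.mp hV') _ (H.pr_mem V' g))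
  · intro h
    exact absurd (mem_irrF.mpr hV) h

/-- Pythagoras for a finite family of pairwise orthogonal subspaces: nonzero vectors -/
theorem nrm2_sum_proj {P : Submodule ℂ (FPM Ω) → (FPM Ω →ₗ[ℂ] FPM Ω)}
    (hP : ∀ V ∈ Irr Ω, ∀ f, P V f ∈ V) (g : FPM Ω) (ω : Submodule ℂ (FPM Ω) → ℂ) :
    nrm2 (∑ V ∈ irrF Ω, ω V • P V g) = ∑ V ∈ irrF Ω, ‖ω V‖ ^ 2 * nrm2 (P V g) := by
  have h1 : ∀ V ∈ irrF Ω, ipF (∑ W ∈ irrF Ω, ω W • P W g) (ω V • P V g) =
      ((‖ω V‖ ^ 2 * nrm2 (P V g) : ℝ) : ℂ) := by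
    intro V hV
    rw [ipF_conj, H.ipF_sum_right, Finset.sum_eq_single V]
    · rw [← ipF_conj, ipF_self, nrm2_smul]
    · intro W hW hne
      rw [ipF_smul, H.ipF_smul_left, Schur_orth (mem_irrF.mp hV) (mem_irrF.mp hW) hne.symm
        (hP V (mem_irrF.mp hV) g) (hP W (mem_irrF.mp hW) g), mul_zero, mul_zero]
    · intro h
      exact absurd hV h
  have h2 := ipF_self (∑ V ∈ irrF Ω, ω V • P V g)
  rw [H.ipF_sum_right, Finset.sum_congr rfl h1] at h2
  exact_mod_cast h2.symm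

end

end MPbcd198.L
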