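import Pool.Agent.Lib.MP_bcd198_co.L.Num

/-!
# JOB L/TrId: the trace identity `Q = Tr(Θ K_q)` [2.1]

`LinearMap.trace ℂ (FPM Z) T = ∑_{c''} (T δ_{c''}) (c'')` (`LinearMap.trace_eq_matrix_trace` with the basis `Pi.basisFun ℂ (PMT Z)`, or
`LinearMap.trace_eq_sum_...`). Unfolding the operators,
`(TT δ_c)(c) = mu * S₂⁻¹ ∑_{a' : Rel 2 (D.c ⊔ c) a'} Sp⁻¹ ∑_{b : Rel p (combA D.a a') b} ∑_{b''} 1[b = combB D.b b''] Sq⁻¹ ∑_{x : Rel q b'' x} 1[x = c]`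
where `S₂ = #{a' : Rel 2 (D.c ⊔ c) a'} = sNum 2 (G₂ + z)`, `Sp = #{b : Rel p (combA D.a a') b} = sNum p (G + z)`, `Sq = #{x : Rel q b'' x} = sNum q z` by
`card_rel` (they do not depend on the matching; `card_X`, `card_Y`, `D.Ok`). So the trace is `mu/(S₂ Sp Sq)` times the number of triples
`(c, a', b'')` of perfect matchings with `Rel 2 (D.c ⊔ c) a'`, `Rel p (combA D.a a') (combB D.b b'')`, `Rel q b'' c`; by `rel_symm` (`Rel 2`)
this is `Ncomp`. And `mu = MNum (G + z) / MNum z`, `G = |P₁ ⊕ P₂| / 2`.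
-/

set_option autoImplicit false

namespace MPbcd198.L

open Equiv

open Classical in
private theorem TrId_KOp {Ω : Type} [Fintype Ω] [DecidableEq Ω] {r m : ℕ} (hr : 1 ≤ r)
    (hrm : r ∣ m) (h : Fintype.card Ω = 2 * m) (f : FPM Ω) (a : PMT Ω) :
    KOp Ω r f a = ((sNum r m : ℝ) : ℂ)⁻¹ * ∑ b : PMT Ω, if Rel r a.1 b.1 then f b else 0 := by
  change (((Finset.univ.filter fun b : PMT Ω => Rel r a.1 b.1).card : ℕ) : ℂ)⁻¹ *
    ∑ b ∈ Finset.univ.filter fun b : PMT Ω => Rel r a.1 b.1, f b = _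
  rw [Finset.sum_filter]
  congr 2
  rw [← card_rel hr hrm h a.2]
  rw [← Nat.card_congr (Equiv.subtypeSubtypeEquivSubtypeInter IsPM (fun b => Rel r a.1 b)),
    Nat.card_eq_fintype_card, Fintype.card_subtype]
  push_cast
  rfl

open Classical in
private theorem TrId_trace {Ω : Type} [Fintype Ω] [DecidableEq Ω] (T : FPM Ω →ₗ[ℂ] FPM Ω) :
    LinearMap.trace ℂ (FPM Ω) T = ∑ c : PMT Ω, T (Pi.single c 1) c := by
  rw [LinearMap.trace_eq_matrix_trace ℂ (Pi.basisFun ℂ (PMT Ω)) T, Matrix.trace]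
  refine Finset.sum_congr rfl fun c _ => ?_
  rw [Matrix.diag_apply, LinearMap.toMatrix_apply, Pi.basisFun_apply, Pi.basisFun_repr]

open Classical in
private theorem TrId_single {Ω : Type} [Fintype Ω] [DecidableEq Ω] (P : PMT Ω → Prop)
    (c : PMT Ω) :
    (∑ x : PMT Ω, if P x then (Pi.single c 1 : FPM Ω) x else 0) = if P c then 1 else 0 := by
  rw [Finset.sum_eq_single c]
  · rw [Pi.single_eq_same]
  · intro b _ hb
    rw [Pi.single_eq_of_ne hb, ite_self]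
  · intro h
    exact absurd (Finset.mem_univ c) h

variable {P₁ P₂ : Type} [Fintype P₁] [Fintype P₂] [DecidableEq P₁] [DecidableEq P₂]

open Classical in
private theorem TrId_comb (D : Dat P₁ P₂) {Z : Type} [Fintype Z] [DecidableEq Z]
    (P : Perm (P₁ ⊕ (P₂ ⊕ Z)) → Prop) (g : FPM Z) :
    (∑ b : PMT (P₁ ⊕ (P₂ ⊕ Z)), if P b.1 then Rb D Z g b else 0) =
      ∑ b' : PMT Z, if P (combB D.b b'.1) then g b' else 0 := by
  have h1 : ∀ b : PMT (P₁ ⊕ (P₂ ⊕ Z)), (if P b.1 then Rb D Z g b else 0) =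
      ∑ b' : PMT Z, if P b.1 ∧ b.1 = combB D.b b'.1 then g b' else 0 := by
    intro b
    by_cases hP : P b.1
    · rw [if_pos hP]
      change (∑ b' : PMT Z, if b.1 = combB D.b b'.1 then g b' else 0) = _
      refine Finset.sum_congr rfl fun b' _ => ?_
      simp only [hP, true_and]
    · rw [if_neg hP]
      symm
      refine Finset.sum_eq_zero fun b' _ => ?_
      simp only [hP, false_and, if_false]
  rw [Finset.sum_congr rfl fun b _ => h1 b, Finset.sum_comm]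
  refine Finset.sum_congr rfl fun b' _ => ?_
  rw [Finset.sum_eq_single (⟨combB D.b b'.1, isPM_combB D.hb b'.2⟩ : PMT (P₁ ⊕ (P₂ ⊕ Z)))]
  · simp only [and_true]
  · intro b _ hb
    rw [if_neg]
    rintro ⟨-, h⟩
    exact hb (Subtype.ext h)
  · intro h
    exact absurd (Finset.mem_univ _) h

open Classical in
private theorem TrId_Ncomp (D : Dat P₁ P₂) (p q z : ℕ) :
    (Ncomp p q D.a D.b D.c (Fin (2 * z)) : ℂ) =
      ∑ c : PMT (Fin (2 * z)), ∑ a' : PMT (P₂ ⊕ Fin (2 * z)), ∑ b' : PMT (Fin (2 * z)),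
        if Rel 2 (Equiv.sumCongr D.c c.1 : Perm (P₂ ⊕ Fin (2 * z))) a'.1 ∧
          Rel p (combA D.a a'.1) (combB D.b b'.1) ∧ Rel q b'.1 c.1 then (1 : ℂ) else 0 := by
  have e : {t : Perm (P₂ ⊕ Fin (2 * z)) × Perm (Fin (2 * z)) × Perm (Fin (2 * z)) //
      IsPM t.1 ∧ IsPM t.2.1 ∧ IsPM t.2.2 ∧ Rel p (combA D.a t.1) (combB D.b t.2.1) ∧
      Rel q t.2.1 t.2.2 ∧ Rel 2 t.1 (Equiv.sumCongr D.c t.2.2)} ≃
      {t : PMT (Fin (2 * z)) × PMT (P₂ ⊕ Fin (2 * z)) × PMT (Fin (2 * z)) //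
        Rel 2 (Equiv.sumCongr D.c t.1.1 : Perm (P₂ ⊕ Fin (2 * z))) t.2.1.1 ∧
          Rel p (combA D.a t.2.1.1) (combB D.b t.2.2.1) ∧ Rel q t.2.2.1 t.1.1} :=
    { toFun := fun t => ⟨(⟨t.1.2.2, t.2.2.2.1⟩, ⟨t.1.1, t.2.1⟩, ⟨t.1.2.1, t.2.2.1⟩),
        rel_symm t.2.1 (isPM_sumCongr D.hc t.2.2.2.1) t.2.2.2.2.2.2, t.2.2.2.2.1,
          t.2.2.2.2.2.1⟩
      invFun := fun t => ⟨(t.1.2.1.1, t.1.2.2.1, t.1.1.1), t.1.2.1.2, t.1.2.2.2, t.1.1.2,
        t.2.2.1, t.2.2.2, rel_symm (isPM_sumCongr D.hc t.1.1.2) t.1.2.1.2 t.2.1⟩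
      left_inv := fun t => rfl
      right_inv := fun t => rfl }
  rw [Ncomp, Nat.card_congr e, Nat.card_eq_fintype_card, Fintype.card_subtype,
    ← Finset.sum_boole, Fintype.sum_prod_type]
  refine Finset.sum_congr rfl fun c _ => ?_
  rw [Fintype.sum_prod_type]

theorem trace_TT (D : Dat P₁ P₂) {p q z : ℕ} (hp : 1 ≤ p) (hq : 1 ≤ q) (hz : D.Ok p q z) :
    LinearMap.trace ℂ (FPM (Fin (2 * z))) (TT D p q z) =
      ((Qratio p q D.a D.b D.c z : ℝ) : ℂ) := by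
  classical
  obtain ⟨hpz, hqz, h2z⟩ := hz
  have key : ∀ c : PMT (Fin (2 * z)), TT D p q z (Pi.single c 1) c =
      ((mu D z : ℝ) : ℂ) * (((sNum 2 (D.G₂ + z) : ℝ) : ℂ)⁻¹ * (((sNum p (D.G + z) : ℝ) : ℂ)⁻¹ *
        ((sNum q z : ℝ) : ℂ)⁻¹)) * ∑ a' : PMT (P₂ ⊕ Fin (2 * z)), ∑ b' : PMT (Fin (2 * z)),
        if Rel 2 (Equiv.sumCongr D.c c.1 : Perm (P₂ ⊕ Fin (2 * z))) a'.1 ∧
          Rel p (combA D.a a'.1) (combB D.b b'.1) ∧ Rel q b'.1 c.1 then (1 : ℂ) else 0 := by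
    intro c
    have hq' : ∀ b' : PMT (Fin (2 * z)), KOp (Fin (2 * z)) q (Pi.single c 1) b' =
        ((sNum q z : ℝ) : ℂ)⁻¹ * if Rel q b'.1 c.1 then 1 else 0 := by
      intro b'
      rw [TrId_KOp hq hqz (by simp), TrId_single]
    have hp' : ∀ a' : PMT (P₂ ⊕ Fin (2 * z)),
        Ra D (Fin (2 * z)) (KOp (P₁ ⊕ (P₂ ⊕ Fin (2 * z))) p (Rb D (Fin (2 * z))
          (KOp (Fin (2 * z)) q (Pi.single c 1)))) a' = ((sNum p (D.G + z) : ℝ) : ℂ)⁻¹ *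
        ∑ b' : PMT (Fin (2 * z)), if Rel p (combA D.a a'.1) (combB D.b b'.1) then
          ((sNum q z : ℝ) : ℂ)⁻¹ * (if Rel q b'.1 c.1 then 1 else 0) else 0 := by
      intro a'
      change KOp (P₁ ⊕ (P₂ ⊕ Fin (2 * z))) p (Rb D (Fin (2 * z))
          (KOp (Fin (2 * z)) q (Pi.single c 1))) ⟨combA D.a a'.1, isPM_combA D.ha a'.2⟩ = _
      rw [TrId_KOp hp hpz (card_X D z)]
      congr 1
      rw [TrId_comb D (fun b => Rel p (combA D.a a'.1) b)]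
      refine Finset.sum_congr rfl fun b' _ => ?_
      rw [hq']
    change (mu D z : ℂ) * (KOp (P₂ ⊕ Fin (2 * z)) 2 (Ra D (Fin (2 * z))
      (KOp (P₁ ⊕ (P₂ ⊕ Fin (2 * z))) p (Rb D (Fin (2 * z))
        (KOp (Fin (2 * z)) q (Pi.single c 1)))))
        ⟨Equiv.sumCongr D.c c.1, isPM_sumCongr D.hc c.2⟩) = _
    rw [TrId_KOp (by norm_num) h2z (card_Y D z), mul_assoc, mul_assoc]
    congr 2
    rw [Finset.mul_sum]
    refine Finset.sum_congr rfl fun a' _ => ?_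
    rw [hp']
    by_cases h2 : Rel 2 (Equiv.sumCongr D.c c.1 : Perm (P₂ ⊕ Fin (2 * z))) a'.1
    · rw [if_pos h2, mul_assoc]
      congr 1
      rw [Finset.mul_sum]
      refine Finset.sum_congr rfl fun b' _ => ?_
      by_cases h3 : Rel p (combA D.a a'.1) (combB D.b b'.1)
      · simp only [h2, h3, true_and, if_true]
      · simp only [h3, false_and, and_false, if_false, mul_zero]
    · rw [if_neg h2]
      simp only [h2, false_and, if_false, Finset.sum_const_zero, mul_zero]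
  rw [TrId_trace, Finset.sum_congr rfl fun c _ => key c, ← Finset.mul_sum, ← TrId_Ncomp]
  unfold Qratio mu
  have e1 : Fintype.card (P₁ ⊕ P₂) / 2 = D.G := rfl
  have e2 : Fintype.card P₂ / 2 = D.G₂ := rfl
  rw [e1, e2]
  push_cast
  have n1 : ((sNum p (D.G + z) : ℝ) : ℂ) ≠ 0 := by exact_mod_cast (sNum_pos hp _).ne'
  have n2 : ((sNum q z : ℝ) : ℂ) ≠ 0 := by exact_mod_cast (sNum_pos hq _).ne'
  have n3 : ((sNum 2 (D.G₂ + z) : ℝ) : ℂ) ≠ 0 := by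
    exact_mod_cast (sNum_pos (by norm_num) _).ne'
  have n4 : ((MNum z : ℝ) : ℂ) ≠ 0 := by exact_mod_cast (MNum_pos _).ne'
  field_simp

end MPbcd198.L
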